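import Pool.Agent.H596R2.D3.Defs

/-!
The Orthogonal Vectors problem.
-/

namespace Pool.Agent.H596R2.D3R

open Pool.Agent.H596R2.D3

/-- The input bits of the Orthogonal Vectors problem with two lists of `n` vectors of dimension
`d`: the bit `(s, i, l)` is coordinate `l` of vector `i` of the first (`s = false`) or second
(`s = true`) list. -/
abbrev OVBit (n d : ℕ) : Type := Bool × Fin n × Fin d

/-- The instance is valid: in both lists the `n` vectors are pairwise distinct. -/
def Valid {n d : ℕ} (z : OVBit n d → Bool) : Prop :=
  ∀ s : Bool, Function.Injective (fun (i : Fin n) (l : Fin d) => z (s, i, l))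

/-- A vector of the first list is orthogonal to a vector of the second list. -/
def OV {n d : ℕ} (z : OVBit n d → Bool) : Prop :=
  ∃ i j : Fin n, ∀ l : Fin d, ¬ (z (false, i, l) = true ∧ z (true, j, l) = true)

/-- The output of a circuit. -/
def Out {I : Type} {d : ℕ} (C : Circuit I d) (z : I → Bool) : Prop := C.val z C.out

open Classical in
/-- The probability that the circuit `C l`, where `l` is random with distribution `w`, is right
about the statement `P` on the input `z`. -/
noncomputable def success {I : Type} {d : ℕ} {L : Type} [Fintype L] (w : L → ℝ)
    (C : L → Circuit I d) (z : I → Bool) (P : Prop) : ℝ :=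
  ∑ l, if (Out (C l) z ↔ P) then w l else 0

end Pool.Agent.H596R2.D3R
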