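import Pool.Agent.H596R2.D3.Defs
import Pool.Agent.H596R2.D3R.OVDefs

/-!
Shortest paths.
-/

namespace Pool.Agent.H596R2.D3R

open Pool.Agent.H596R2.D3

/-- The number of binary digits of `n ^ 200`. -/
def adigs (n : ℕ) : ℕ := Nat.size (n ^ 200)

/-- The input bits of a weighted complete graph on `n` vertices: the bit `(i, j, l)` is the
binary digit `l` of the weight of the edge from `i` to `j`. -/
abbrev APBit (n : ℕ) : Type := Fin n × Fin n × Fin (adigs n)

/-- The weight of the edge from `i` to `j`. -/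
def wt {n : ℕ} (z : APBit n → Bool) (i j : Fin n) : ℤ :=
  ∑ l : Fin (adigs n), if z (i, j, l) = true then 2 ^ (l : ℕ) else 0

/-- The instance is valid: the weights of the edges are symmetric and between `1` and
`n ^ 200`. -/
def ValidAP {n : ℕ} (z : APBit n → Bool) : Prop :=
  (∀ i j l, z (i, j, l) = z (j, i, l)) ∧ ∀ i j, i ≠ j → 1 ≤ wt z i j ∧ wt z i j ≤ (n : ℤ) ^ 200

/-- There is a walk from `u` to `v` with total weight `s`. -/
inductive Walk {n : ℕ} (w : Fin n → Fin n → ℤ) : Fin n → Fin n → ℤ → Prop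
  | edge (u v : Fin n) (h : u ≠ v) : Walk w u v (w u v)
  | cons (u v x : Fin n) (s : ℤ) (h : u ≠ v) (hw : Walk w v x s) : Walk w u x (w u v + s)

/-- The distance from `u` to `v` is `d`. -/
def IsDist {n : ℕ} (w : Fin n → Fin n → ℤ) (u v : Fin n) (d : ℤ) : Prop :=
  IsLeast {s | Walk w u v s} d

/-- Every edge is a shortest path: all distances are equal to the weights of the edges. -/
def AllShortest {n : ℕ} (z : APBit n → Bool) : Prop :=
  ∀ u v : Fin n, u ≠ v → IsDist (wt z) u v (wt z u v)

end Pool.Agent.H596R2.D3R
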