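import Pool.Agent.H596R2.D3R.APInst2

/-!
Shortest paths: the lower bound.
-/

namespace Pool.Agent.H596R2.D3R

open Finset Classical Pool.Agent.H596R2.D3

theorem ap_embeds (m R0 n : ℕ) (hn : 2 ≤ n) :
    Embeds (Fin m) (Fin (2 + 1)) (Fin (R0 * Nat.clog 2 n ^ 2))
      (Fin (colb m R0 n)) (Fin (2 ^ (2 + 2) * ((2 + 2) * Nat.clog 2 n))) (APBit n)
      (ValidAP (n := n)) (fun z => ¬ AllShortest z) := by
  set κ := 2 ^ (2 + 2) * ((2 + 2) * Nat.clog 2 n) with hκ
  have hκ2 : 2 ^ (κ + 10) ≤ n ^ 200 := by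
    have h1 := two_clog_le n hn
    have e : κ + 10 = 10 + Nat.clog 2 n * 64 := by rw [hκ]; ring
    rw [e, pow_add, pow_mul]
    calc 2 ^ 10 * (2 ^ Nat.clog 2 n) ^ 64 ≤ 2 ^ 10 * (2 * n) ^ 64 := by gcongr
      _ = 2 ^ 74 * n ^ 64 := by rw [mul_pow]; ring
      _ ≤ n ^ 74 * n ^ 64 := by gcongr
      _ = n ^ 138 := by rw [← pow_add]
      _ ≤ n ^ 200 := Nat.pow_le_pow_right (by omega) (by norm_num)
  have hD : κ + 10 ≤ adigs n := by
    unfold adigs
    exact (Nat.lt_size.mpr hκ2).le
  obtain ⟨fv⟩ : Nonempty (Ve (Fin m) (Fin (R0 * Nat.clog 2 n ^ 2)) (Fin (colb m R0 n)) ↪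
      Fin n) := by
    apply Function.Embedding.nonempty_of_card_le
    simp only [Fintype.card_sum, Fintype.card_prod, Fintype.card_fin]
    refine le_trans (le_of_eq ?_) (colb_mul m R0 n)
    ring
  have hpos : ∀ (w1 : ((Fin m × Fin 3) × Fin (colb m R0 n)) × Bool → Bool)
      (w2 : ((Fin m × Fin (R0 * Nat.clog 2 n ^ 2)) × Fin κ) × Bool → Bool) (i j : Fin n),
      1 ≤ wt (XAP (Function.partialInv fv) w1 w2) i j := by
    intro w1 w2 i j
    have h1 := (wt_ge w1 w2 hD (Function.partialInv fv) i j).1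
    have h2 : (1 : ℤ) ≤ 2 ^ (κ + 8) := one_le_pow₀ (by norm_num)
    linarith
  refine ⟨XAP (Function.partialInv fv), fun w2 => sy_proj_one (symAP (Function.partialInv fv)) w2,
    fun w1 => sy_proj_two (symAP (Function.partialInv fv)) w1, ?_, ?_⟩
  · intro w1 w2 _ _
    refine ⟨fun i j l => wt_comm w1 w2 _ i j l, fun i j _ => ⟨hpos w1 w2 i j, ?_⟩⟩
    have h1 := (wt_ge w1 w2 hD (Function.partialInv fv) i j).2
    have h2 : (2 : ℤ) ^ (κ + 10) ≤ (n : ℤ) ^ 200 := by exact_mod_cast hκ2
    linarith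
  · intro w1 w2 _ h2
    show (¬ AllShortest (XAP (Function.partialInv fv) w1 w2)) ↔ _
    rw [allShortest_iff _ (fun i j _ => hpos w1 w2 i j)]
    constructor
    · intro h
      push Not at h
      obtain ⟨u, v, x, _, _, _, h3⟩ := h
      exact ap_no w1 w2 hD h2 _ u v x h3
    · rintro ⟨e, ρ, f, hg⟩ h
      obtain ⟨u, v, x, a1, a2, a3, a4⟩ := ap_yes w1 w2 fv fv.injective hD h2 e ρ f hg
      have := h u v x a1 a2 a3
      linarith

/-- The circuit with the negated output. -/
noncomputable def neg {I : Type} {d : ℕ} (C : Circuit I d) : Circuit I d where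
  G := C.G
  fin := C.fin
  conj := fun g => if g = C.out then !(C.conj g) else C.conj g
  lev := C.lev
  wires := fun g => if g = C.out then {x | (x.1, !x.2) ∈ C.wires g} else C.wires g
  mono := by
    intro g h s hm
    by_cases hg : g = C.out
    · rw [if_pos hg] at hm
      exact C.mono g h (!s) hm
    · rw [if_neg hg] at hm
      exact C.mono g h s hm
  out := C.out

theorem neg_size {I : Type} {d : ℕ} (C : Circuit I d) : (neg C).size = C.size := rfl

theorem neg_val_lt {I : Type} {d : ℕ} (C : Circuit I d) (z : I → Bool) :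
    ∀ t : ℕ, ∀ g : C.G, (C.lev g).val ≤ t → C.lev g < C.lev C.out →
      ((neg C).val z g ↔ C.val z g) := by
  intro t
  induction t using Nat.strong_induction_on with
  | _ t ih =>
    intro g hg hlt
    have hne : g ≠ C.out := fun h => by rw [h] at hlt; exact lt_irrefl _ hlt
    have e1 : (neg C).conj g = C.conj g := if_neg hne
    have e2 : (neg C).wires g = C.wires g := if_neg hne
    have e3 : ∀ h s, (Sum.inr h, s) ∈ C.wires g → ((neg C).val z h ↔ C.val z h) := by
      intro h s hm
      have h1 := C.mono g h s hm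
      exact ih (C.lev h).val (lt_of_lt_of_le h1 hg) h le_rfl (lt_trans h1 hlt)
    unfold Circuit.val
    rw [e1, e2]
    split_ifs
    · apply and_congr Iff.rfl
      constructor
      · exact fun hh h s hm => (e3 h s hm).symm.trans (hh h s hm)
      · exact fun hh h s hm => (e3 h s hm).trans (hh h s hm)
    · apply or_congr Iff.rfl
      constructor
      · rintro ⟨h, s, hm, hv⟩
        exact ⟨h, s, hm, (e3 h s hm).symm.trans hv⟩
      · rintro ⟨h, s, hm, hv⟩
        exact ⟨h, s, hm, (e3 h s hm).trans hv⟩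

theorem neg_out {I : Type} {d : ℕ} (C : Circuit I d) (z : I → Bool) :
    Out (neg C) z ↔ ¬ Out C z := by
  have e0 : (neg C).out = C.out := rfl
  have e1 : (neg C).conj C.out = !(C.conj C.out) := if_pos rfl
  have e2 : (neg C).wires C.out = {x | (x.1, !x.2) ∈ C.wires C.out} := if_pos rfl
  have e3 : ∀ h s, (Sum.inr h, s) ∈ C.wires C.out → ((neg C).val z h ↔ C.val z h) := by
    intro h s hm
    exact neg_val_lt C z (C.lev h).val h le_rfl (C.mono C.out h s hm)
  unfold Out
  rw [e0]
  rw [Circuit.val, Circuit.val, e1, e2]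
  cases hc : C.conj C.out
  · simp only [Bool.not_false, if_true, Bool.false_eq_true, if_false, Set.mem_setOf_eq]
    constructor
    · rintro ⟨h1, h2⟩ (⟨i, s, hm, hz⟩ | ⟨h, s, hm, hv⟩)
      · have := h1 i (!s) (by rw [Bool.not_not]; exact hm)
        rw [hz] at this
        cases s <;> simp at this
      · have := h2 h (!s) (by rw [Bool.not_not]; exact hm)
        rw [e3 h s hm] at this
        cases s
        · simp at this hv; exact hv this
        · simp at this hv; exact this hv
    · intro hh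
      push Not at hh
      obtain ⟨h1, h2⟩ := hh
      constructor
      · intro i s hm
        have := h1 i (!s) hm
        cases s <;> cases hz : z i <;> simp_all
      · intro h s hm
        have h3 := h2 h (!s) hm
        have h4 := e3 h (!s) hm
        cases s
        · simp only [Bool.not_false] at h3 h4
          simp
          rw [h4]
          intro h5
          simp [h5] at h3
        · simp only [Bool.not_true] at h3 h4
          simp
          rw [h4]
          by_contra h5
          simp [h5] at h3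
  · simp only [Bool.not_true, if_true, Bool.false_eq_true, if_false, Set.mem_setOf_eq]
    constructor
    · rintro (⟨i, s, hm, hz⟩ | ⟨h, s, hm, hv⟩) ⟨h1, h2⟩
      · have := h1 i (!s) hm
        rw [hz] at this
        cases s <;> simp at this
      · have := h2 h (!s) hm
        rw [e3 h (!s) hm] at hv
        cases s
        · simp at this hv; exact hv this
        · simp at this hv; exact this hv
    · intro hh
      by_contra hcon
      push Not at hcon
      obtain ⟨h1, h2⟩ := hcon
      apply hh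
      constructor
      · intro i s hm
        have := h1 i (!s) (by rw [Bool.not_not]; exact hm)
        cases s <;> cases hz : z i <;> simp_all
      · intro h s hm
        have h3 := h2 h (!s) (by rw [Bool.not_not]; exact hm)
        have h4 := e3 h s hm
        cases s
        · simp only [Bool.not_false] at h3 h4
          simp
          rw [← h4]
          intro h5
          simp [h5] at h3
        · simp only [Bool.not_true] at h3 h4
          simp
          rw [← h4]
          by_contra h5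
          simp [h5] at h3

theorem success_neg {I L : Type} [Fintype L] {d : ℕ} (w : L → ℝ) (C : L → Circuit I d)
    (z : I → Bool) (P : Prop) :
    success w (fun l => neg (C l)) z (¬ P) = success w C z P := by
  unfold success
  apply sum_congr rfl
  intro l _
  by_cases h : Out (C l) z <;> by_cases h' : P <;> simp [neg_out, h, h']

theorem ap_main (ε : ℝ) (hε : 0 < ε) : ∃ c : ℝ, 0 < c ∧ ∀ n : ℕ, 2 ≤ n →
    ∀ (L : Type) [Fintype L] (w : L → ℝ) (C : L → Circuit (APBit n) 3),
      (∀ l, 0 ≤ w l) → ∑ l, w l = 1 →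
      (∀ z, ValidAP z → 1 / 2 + ε ≤ success w C z (AllShortest z)) →
      ∃ l, 0 < w l ∧ c * (n : ℝ) ^ 3 / Real.log n ^ 9 ≤ (C l).size := by
  obtain ⟨c, M, hc, h⟩ := general 2 (by norm_num) (J := ℕ) id APBit
    (fun n => ValidAP (n := n)) (fun n z => ¬ AllShortest (n := n) z) (fun _ _ => True)
    (by
      intro m R0 _ _
      refine ⟨2, fun n hn _ => ?_⟩
      exact ap_embeds m R0 n hn) ε hε
  refine ⟨c, hc, fun n hn L _ w C hw hw1 hs => ?_⟩
  obtain ⟨l, h1, h2⟩ := h n hn trivial L w (fun l => neg (C l)) hw hw1 (by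
    intro z hz
    rw [success_neg]
    exact hs z hz)
  exact ⟨l, h1, h2⟩

theorem ap_exp (ε : ℝ) (hε : 0 < ε) : ∃ c : ℝ, 0 < c ∧ ∀ n : ℕ, 2 ≤ n →
    ∀ (L : Type) [Fintype L] (w : L → ℝ) (C : L → Circuit (APBit n) 3),
      (∀ l, 0 ≤ w l) → ∑ l, w l = 1 →
      (∀ z, ValidAP z → 1 / 2 + ε ≤ success w C z (AllShortest z)) →
      c * (n : ℝ) ^ 3 / Real.log n ^ 9 ≤ expSize w C := by
  have hε' : 0 < min ε (1 / 2) := lt_min hε (by norm_num)
  obtain ⟨c, hc, h⟩ := ap_main (min ε (1 / 2) / 2) (by positivity)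
  refine ⟨min ε (1 / 2) / 2 * c, by positivity, ?_⟩
  intro n hn L _ w C hw hw1 hs
  have hn2 : (2 : ℝ) ≤ n := by exact_mod_cast hn
  have hlog : 0 < Real.log n := Real.log_pos (by linarith)
  have := expected ValidAP AllShortest (min ε (1 / 2)) (c * (n : ℝ) ^ 3 / Real.log n ^ 9) hε'
    (min_le_right _ _) (by positivity) (fun L _ w C hw hw1 hs => h n hn L w C hw hw1 hs) L w C
    hw hw1 (fun z hz => success_mono_eps _ (hs z hz))
  refine le_trans (le_of_eq ?_) this
  ring

/-- Powers with a smaller exponent are eventually below the bound. -/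
theorem pow_lt_log (c K x : ℝ) (e q : ℕ) (hc : 0 < c) (hxy : x < e) (hx : 0 ≤ x) (hK : 0 ≤ K) :
    ∃ N : ℕ, ∀ n ≥ N, K * ((n : ℝ) ^ x + 1) < c * (n : ℝ) ^ e / Real.log n ^ q := by
  set γ : ℝ := (e - x) / 2 with hγ
  have hγpos : 0 < γ := by rw [hγ]; linarith
  have h1 : Filter.Tendsto (fun t : ℝ => Real.log t ^ q / t ^ γ) Filter.atTop (nhds 0) := by
    have := (isLittleO_log_rpow_rpow_atTop (q : ℝ) hγpos).tendsto_div_nhds_zero
    simpa [Real.rpow_natCast] using this
  have h2 := (h1.comp (tendsto_natCast_atTop_atTop (R := ℝ))).eventually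
    (gt_mem_nhds (show (0 : ℝ) < 1 by norm_num))
  obtain ⟨N1, hN1⟩ := Filter.eventually_atTop.mp h2
  obtain ⟨N2, hN2⟩ := pow_lt_ev c K x (x + γ) hc (by linarith) hx hK
  refine ⟨max (max N1 N2) 2, fun n hn => ?_⟩
  have a1 := hN1 n ((le_max_left N1 N2).trans ((le_max_left _ _).trans hn))
  have a2 := hN2 n ((le_max_right N1 N2).trans ((le_max_left _ _).trans hn))
  have hn2 : (2 : ℝ) ≤ n := by exact_mod_cast (le_max_right _ _).trans hn
  have hnpos : (0 : ℝ) < n := by linarith
  have hlog : 0 < Real.log n := Real.log_pos (by linarith)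
  have hγ' : (0 : ℝ) < (n : ℝ) ^ γ := Real.rpow_pos_of_pos hnpos γ
  have a3 : Real.log n ^ q < (n : ℝ) ^ γ := by
    have : Real.log (n : ℝ) ^ q / (n : ℝ) ^ γ < 1 := a1
    rwa [div_lt_one hγ'] at this
  refine a2.trans ?_
  rw [lt_div_iff₀ (by positivity)]
  have h7 : (n : ℝ) ^ e = (n : ℝ) ^ (x + γ) * (n : ℝ) ^ γ := by
    rw [← Real.rpow_add hnpos, ← Real.rpow_natCast (n : ℝ) e]
    congr 1
    rw [hγ]; ring
  rw [h7]
  have h8 : (0 : ℝ) < (n : ℝ) ^ (x + γ) := Real.rpow_pos_of_pos hnpos _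
  calc c * (n : ℝ) ^ (x + γ) * Real.log n ^ q < c * (n : ℝ) ^ (x + γ) * (n : ℝ) ^ γ :=
        mul_lt_mul_of_pos_left a3 (by positivity)
    _ = _ := by ring

theorem ap_q1 (a b : ℕ) (hb : 0 < b) (hab : a < 3 * b) (K : ℕ) :
    ∃ N : ℕ, ∀ n ≥ N, ¬ ∃ (L : Type) (_ : Fintype L) (w : L → ℝ) (C : L → Circuit (APBit n) 3),
      (∀ l, 0 ≤ w l) ∧ ∑ l, w l = 1 ∧
      (∀ z, ValidAP z → 2 / 3 ≤ success w C z (AllShortest z)) ∧
      expSize w C ≤ K * ((n : ℝ) ^ ((a : ℝ) / b) + 1) := by
  have hb' : (0 : ℝ) < b := by exact_mod_cast hb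
  have hlt : (a : ℝ) / b < ((3 : ℕ) : ℝ) := by
    rw [div_lt_iff₀ hb']; exact_mod_cast hab
  obtain ⟨c, hc, h⟩ := ap_exp (1 / 6) (by norm_num)
  obtain ⟨N, hN⟩ := pow_lt_log c K ((a : ℝ) / b) 3 9 hc hlt (by positivity) (by positivity)
  refine ⟨max N 2, fun n hn => ?_⟩
  rintro ⟨L, _, w, C, hw, hw1, hs, hsize⟩
  have h1 := h n ((le_max_right _ _).trans hn) L w C hw hw1 (by
    intro z hz
    have := hs z hz
    linarith)
  have h2 := hN n ((le_max_left _ _).trans hn)
  linarith

end Pool.Agent.H596R2.D3R
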