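import Pool.Agent.H596R2.D3R.SumFinal

/-!
Expected size.
-/

namespace Pool.Agent.H596R2.D3R

open Finset Classical Pool.Agent.H596R2.D3

/-- The expected number of gates. -/
noncomputable def expSize {I : Type} {d : ℕ} {L : Type} [Fintype L] (w : L → ℝ)
    (C : L → Circuit I d) : ℝ := ∑ l, w l * (C l).size

theorem expected {I : Type} {d : ℕ} (V P : (I → Bool) → Prop) (ε B : ℝ) (hε : 0 < ε)
    (hε1 : ε ≤ 1 / 2) (hB : 0 < B)
    (hmain : ∀ (L : Type) [Fintype L] (w : L → ℝ) (C : L → Circuit I d),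
      (∀ l, 0 ≤ w l) → ∑ l, w l = 1 →
      (∀ z, V z → 1 / 2 + ε / 2 ≤ success w C z (P z)) → ∃ l, 0 < w l ∧ B ≤ (C l).size)
    (L : Type) [Fintype L] (w : L → ℝ) (C : L → Circuit I d)
    (hw : ∀ l, 0 ≤ w l) (hw1 : ∑ l, w l = 1)
    (hs : ∀ z, V z → 1 / 2 + ε ≤ success w C z (P z)) : ε / 2 * B ≤ expSize w C := by
  by_contra hcon
  push Not at hcon
  let big : Finset L := univ.filter (fun l => B ≤ ((C l).size : ℝ))
  have h1 : (∑ l ∈ big, w l) * B ≤ expSize w C := by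
    unfold expSize
    rw [sum_mul]
    calc ∑ l ∈ big, w l * B ≤ ∑ l ∈ big, w l * (C l).size := by
          apply sum_le_sum
          intro l hl
          exact mul_le_mul_of_nonneg_left (mem_filter.mp hl).2 (hw l)
      _ ≤ ∑ l, w l * (C l).size := by
          apply sum_le_sum_of_subset_of_nonneg (subset_univ _)
          intro l _ _
          exact mul_nonneg (hw l) (by positivity)
  have h2 : ∑ l ∈ big, w l < ε / 2 := by
    by_contra h
    push Not at h
    have := mul_le_mul_of_nonneg_right h hB.le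
    linarith
  obtain ⟨l0, hl0⟩ : ∃ l0, l0 ∉ big := by
    by_contra h
    push Not at h
    have : big = univ := by
      ext l
      simp [h l]
    rw [this, hw1] at h2
    linarith
  have hl0' : ((C l0).size : ℝ) < B := by
    by_contra h
    push Not at h
    exact hl0 (mem_filter.mpr ⟨mem_univ _, h⟩)
  let C' : L → Circuit I d := fun l => if B ≤ ((C l).size : ℝ) then C l0 else C l
  obtain ⟨l, _, hl⟩ := hmain L w C' hw hw1 (by
    intro z hz
    have h3 := hs z hz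
    have h4 : success w C z (P z) ≤ success w C' z (P z) + ∑ l ∈ big, w l := by
      unfold success
      have e : ∑ l ∈ big, w l = ∑ l, if B ≤ ((C l).size : ℝ) then w l else 0 := by
        rw [sum_filter]
      rw [e, ← sum_add_distrib]
      apply sum_le_sum
      intro l _
      by_cases hb : B ≤ ((C l).size : ℝ)
      · rw [if_pos hb]
        have a1 : (if (Out (C l) z ↔ P z) then w l else 0) ≤ w l := by
          split_ifs
          · exact le_rfl
          · exact hw l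
        have a2 : 0 ≤ (if (Out (C' l) z ↔ P z) then w l else 0) := by
          split_ifs
          · exact hw l
          · exact le_rfl
        linarith
      · have : C' l = C l := if_neg hb
        rw [this, if_neg hb, add_zero]
    linarith)
  by_cases hb : B ≤ ((C l).size : ℝ)
  · have : C' l = C l0 := if_pos hb
    rw [this] at hl
    linarith
  · have : C' l = C l := if_neg hb
    rw [this] at hl
    exact hb hl

theorem success_mono_eps {ε : ℝ} (x : ℝ) (h : 1 / 2 + ε ≤ x) : 1 / 2 + min ε (1 / 2) ≤ x :=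
  le_trans (by linarith [min_le_left ε (1 / 2)]) h

theorem three_sum_exp (ε δ : ℝ) (hε : 0 < ε) (hδ : 0 < δ) : ∃ c : ℝ, 0 < c ∧ ∀ n : ℕ, 2 ≤ n →
    ∀ (L : Type) [Fintype L] (w : L → ℝ) (C : L → Circuit (SumBit 4 n) 3),
      (∀ l, 0 ≤ w l) → ∑ l, w l = 1 →
      (∀ z, ValidSum z → 1 / 2 + ε ≤ success w C z (ZeroSum z)) →
      c * (n : ℝ) ^ (3 - δ) ≤ expSize w C := by
  have hε' : 0 < min ε (1 / 2) := lt_min hε (by norm_num)
  obtain ⟨c, hc, h⟩ := three_sum (min ε (1 / 2) / 2) δ (by positivity) hδ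
  refine ⟨min ε (1 / 2) / 2 * c, by positivity, ?_⟩
  intro n hn L _ w C hw hw1 hs
  have hnpos : (0 : ℝ) < n := by exact_mod_cast (by omega : 0 < n)
  have := expected ValidSum ZeroSum (min ε (1 / 2)) (c * (n : ℝ) ^ (3 - δ)) hε' (min_le_right _ _)
    (by positivity) (fun L _ w C hw hw1 hs => h n hn L w C hw hw1 hs) L w C hw hw1
    (fun z hz => success_mono_eps _ (hs z hz))
  linarith

theorem three_sum_in_exp (ε δ : ℝ) (hε : 0 < ε) (hδ : 0 < δ) : ∃ c : ℝ, 0 < c ∧ ∀ n : ℕ, 2 ≤ n →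
    ∀ (L : Type) [Fintype L] (w : L → ℝ) (C : L → Circuit (SumBit 3 n) 3),
      (∀ l, 0 ≤ w l) → ∑ l, w l = 1 →
      (∀ z, ValidSum z → 1 / 2 + ε ≤ success w C z (SumIn z)) →
      c * (n : ℝ) ^ (2 - δ) ≤ expSize w C := by
  have hε' : 0 < min ε (1 / 2) := lt_min hε (by norm_num)
  obtain ⟨c, hc, h⟩ := three_sum_in (min ε (1 / 2) / 2) δ (by positivity) hδ
  refine ⟨min ε (1 / 2) / 2 * c, by positivity, ?_⟩
  intro n hn L _ w C hw hw1 hs
  have hnpos : (0 : ℝ) < n := by exact_mod_cast (by omega : 0 < n)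
  have := expected ValidSum SumIn (min ε (1 / 2)) (c * (n : ℝ) ^ (2 - δ)) hε' (min_le_right _ _)
    (by positivity) (fun L _ w C hw hw1 hs => h n hn L w C hw hw1 hs) L w C hw hw1
    (fun z hz => success_mono_eps _ (hs z hz))
  linarith

/-- Powers with a smaller exponent are eventually smaller. -/
theorem pow_lt_ev (c K x y : ℝ) (hc : 0 < c) (hxy : x < y) (hx : 0 ≤ x) (hK : 0 ≤ K) :
    ∃ N : ℕ, ∀ n ≥ N, K * ((n : ℝ) ^ x + 1) < c * (n : ℝ) ^ y := by
  have h4 : Filter.Tendsto (fun n : ℕ => (n : ℝ) ^ (y - x)) Filter.atTop Filter.atTop :=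
    (tendsto_rpow_atTop (by linarith)).comp tendsto_natCast_atTop_atTop
  have h5 := h4.eventually_gt_atTop (2 * K / c)
  obtain ⟨N, hN⟩ := Filter.eventually_atTop.mp (h5.and (Filter.eventually_ge_atTop 1))
  refine ⟨N, fun n hn => ?_⟩
  obtain ⟨a1, a2⟩ := hN n hn
  have hn1 : (1 : ℝ) ≤ n := by exact_mod_cast a2
  have hnpos : (0 : ℝ) < n := by linarith
  rw [div_lt_iff₀ hc] at a1
  have h6 : 1 ≤ (n : ℝ) ^ x := Real.one_le_rpow hn1 hx
  have h7 : (n : ℝ) ^ y = (n : ℝ) ^ (y - x) * (n : ℝ) ^ x := by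
    rw [← Real.rpow_add hnpos]; congr 1; ring
  have h8 : (0 : ℝ) < (n : ℝ) ^ x := by linarith
  calc K * ((n : ℝ) ^ x + 1) ≤ K * ((n : ℝ) ^ x + (n : ℝ) ^ x) := by gcongr
    _ = (2 * K) * (n : ℝ) ^ x := by ring
    _ < ((n : ℝ) ^ (y - x) * c) * (n : ℝ) ^ x := mul_lt_mul_of_pos_right a1 h8
    _ = c * (n : ℝ) ^ y := by rw [h7]; ring

theorem three_sum_q1 (a b : ℕ) (hb : 0 < b) (hab : a < 3 * b) (K : ℕ) :
    ∃ N : ℕ, ∀ n ≥ N, ¬ ∃ (L : Type) (_ : Fintype L) (w : L → ℝ) (C : L → Circuit (SumBit 4 n) 3),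
      (∀ l, 0 ≤ w l) ∧ ∑ l, w l = 1 ∧
      (∀ z, ValidSum z → 2 / 3 ≤ success w C z (ZeroSum z)) ∧
      expSize w C ≤ K * ((n : ℝ) ^ ((a : ℝ) / b) + 1) := by
  have hb' : (0 : ℝ) < b := by exact_mod_cast hb
  have hlt : (a : ℝ) / b < 3 := by
    rw [div_lt_iff₀ hb']; exact_mod_cast hab
  set δ : ℝ := (3 - (a : ℝ) / b) / 2 with hδ
  have hδpos : 0 < δ := by rw [hδ]; linarith
  obtain ⟨c, hc, h⟩ := three_sum_exp (1 / 6) δ (by norm_num) hδpos
  obtain ⟨N, hN⟩ := pow_lt_ev c K ((a : ℝ) / b) (3 - δ) hc (by rw [hδ]; linarith) (by positivity)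
    (by positivity)
  refine ⟨max N 2, fun n hn => ?_⟩
  rintro ⟨L, _, w, C, hw, hw1, hs, hsize⟩
  have h1 := h n ((le_max_right _ _).trans hn) L w C hw hw1 (by
    intro z hz
    have := hs z hz
    linarith)
  have h2 := hN n ((le_max_left _ _).trans hn)
  linarith

theorem three_sum_in_q1 (a b : ℕ) (hb : 0 < b) (hab : a < 2 * b) (K : ℕ) :
    ∃ N : ℕ, ∀ n ≥ N, ¬ ∃ (L : Type) (_ : Fintype L) (w : L → ℝ) (C : L → Circuit (SumBit 3 n) 3),
      (∀ l, 0 ≤ w l) ∧ ∑ l, w l = 1 ∧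
      (∀ z, ValidSum z → 2 / 3 ≤ success w C z (SumIn z)) ∧
      expSize w C ≤ K * ((n : ℝ) ^ ((a : ℝ) / b) + 1) := by
  have hb' : (0 : ℝ) < b := by exact_mod_cast hb
  have hlt : (a : ℝ) / b < 2 := by
    rw [div_lt_iff₀ hb']; exact_mod_cast hab
  set δ : ℝ := (2 - (a : ℝ) / b) / 2 with hδ
  have hδpos : 0 < δ := by rw [hδ]; linarith
  obtain ⟨c, hc, h⟩ := three_sum_in_exp (1 / 6) δ (by norm_num) hδpos
  obtain ⟨N, hN⟩ := pow_lt_ev c K ((a : ℝ) / b) (2 - δ) hc (by rw [hδ]; linarith) (by positivity)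
    (by positivity)
  refine ⟨max N 2, fun n hn => ?_⟩
  rintro ⟨L, _, w, C, hw, hw1, hs, hsize⟩
  have h1 := h n ((le_max_right _ _).trans hn) L w C hw hw1 (by
    intro z hz
    have := hs z hz
    linarith)
  have h2 := hN n ((le_max_left _ _).trans hn)
  linarith

end Pool.Agent.H596R2.D3R
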