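import Pool.Agent.H596R2.D3R.ETFinal
import Pool.Agent.H596R2.D3R.Expect
import Pool.Agent.H596R2.D3R.APDefs

/-!
Shortest paths: hard instances and the lower bound.
-/

namespace Pool.Agent.H596R2.D3R

open Finset Classical Pool.Agent.H596R2.D3

set_option linter.unusedSectionVars false

/-- All edges are shortest paths iff the triangle inequality holds. -/
theorem allShortest_iff {n : ℕ} (z : APBit n → Bool) (hpos : ∀ i j, i ≠ j → 1 ≤ wt z i j) :
    AllShortest z ↔ ∀ u v x : Fin n, u ≠ v → v ≠ x → u ≠ x → wt z u x ≤ wt z u v + wt z v x := by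
  constructor
  · intro h u v x h1 h2 h3
    exact (h u x h3).2 (Walk.cons u v x _ h1 (Walk.edge v x h2))
  · intro h u v huv
    refine ⟨Walk.edge u v huv, ?_⟩
    have hw : ∀ u v s, Walk (wt z) u v s → 1 ≤ s ∧ (u ≠ v → wt z u v ≤ s) := by
      intro u v s hs
      induction hs with
      | edge u v huv => exact ⟨hpos u v huv, fun _ => le_rfl⟩
      | cons u v x s huv hw ih =>
        have h1 := hpos u v huv
        refine ⟨by linarith [ih.1], ?_⟩
        intro hux
        by_cases hvx : v = x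
        · subst hvx
          linarith [ih.1]
        · exact (h u v x huv hvx hux).trans (by linarith [ih.2 hvx])
    intro s hs
    exact (hw u v s hs).2 huv

variable {E Rr K1 : Type} [Fintype E] [Fintype Rr] [Fintype K1] {κ : ℕ}

/-- The digits of the weight of the edge between two vertices. -/
noncomputable def apS : Ve E Rr K1 → Ve E Rr K1 → ℕ → Sb E Rr K1 κ
  | Sum.inl u, Sum.inr (Sum.inl v), d => if u.1 = v.1 then
      (if d = κ + 8 then Sy.cst true else uvS u.1 u.2 v.2.2 (some (some d)))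
      else (if d = κ + 9 then Sy.cst true else Sy.cst false)
  | Sum.inr (Sum.inl v), Sum.inl u, d => if u.1 = v.1 then
      (if d = κ + 8 then Sy.cst true else uvS u.1 u.2 v.2.2 (some (some d)))
      else (if d = κ + 9 then Sy.cst true else Sy.cst false)
  | Sum.inr (Sum.inl v), Sum.inr (Sum.inr w), d => if v.1 = w.1 then
      (if d = κ + 8 then Sy.cst true else vwS v.1 v.2.1 v.2.2 (some (some d)))
      else (if d = κ + 9 then Sy.cst true else Sy.cst false)
  | Sum.inr (Sum.inr w), Sum.inr (Sum.inl v), d => if v.1 = w.1 then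
      (if d = κ + 8 then Sy.cst true else vwS v.1 v.2.1 v.2.2 (some (some d)))
      else (if d = κ + 9 then Sy.cst true else Sy.cst false)
  | Sum.inl u, Sum.inr (Sum.inr w), d => if u.1 = w.1 then
      (if d = κ + 9 then Sy.cst true else if d = 0 then Sy.cst true
        else uwS u.1 w.2 (some (some d)))
      else (if d = κ + 9 then Sy.cst true else Sy.cst false)
  | Sum.inr (Sum.inr w), Sum.inl u, d => if u.1 = w.1 then
      (if d = κ + 9 then Sy.cst true else if d = 0 then Sy.cst true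
        else uwS u.1 w.2 (some (some d)))
      else (if d = κ + 9 then Sy.cst true else Sy.cst false)
  | Sum.inl _, Sum.inl _, d => if d = κ + 9 then Sy.cst true else Sy.cst false
  | Sum.inr (Sum.inl _), Sum.inr (Sum.inl _), d => if d = κ + 9 then Sy.cst true else Sy.cst false
  | Sum.inr (Sum.inr _), Sum.inr (Sum.inr _), d => if d = κ + 9 then Sy.cst true else Sy.cst false

theorem apS_symm (p q : Ve E Rr K1) (d : ℕ) : (apS p q d : Sb E Rr K1 κ) = apS q p d := by
  rcases p with p | p | p <;> rcases q with q | q | q <;> rfl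

/-- The symbolic instance. -/
noncomputable def symAP {n : ℕ} (dv : Fin n → Option (Ve E Rr K1)) : APBit n → Sb E Rr K1 κ :=
  fun q => match dv q.1, dv q.2.1 with
    | some a, some b => apS a b q.2.2
    | _, _ => if (q.2.2 : ℕ) = κ + 9 then Sy.cst true else Sy.cst false

/-- The instance. -/
noncomputable def XAP {n : ℕ} (dv : Fin n → Option (Ve E Rr K1))
    (w1 : ((E × Fin 3) × K1) × Bool → Bool) (w2 : ((E × Rr) × Fin κ) × Bool → Bool) :
    APBit n → Bool := fun q => (symAP dv q).ev w1 w2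

section
variable (w1 : ((E × Fin 3) × K1) × Bool → Bool) (w2 : ((E × Rr) × Fin κ) × Bool → Bool)

theorem num_upd (D d0 : ℕ) (g : ℕ → Bool) (hd : d0 < D) (hg : g d0 = false) :
    num D (fun d => if d = d0 then true else g d) = num D g + 2 ^ d0 := by
  unfold num
  have h1 : ∀ d ∈ range D, (if (if d = d0 then true else g d) = true then (2 : ℤ) ^ d else 0) =
      (if g d = true then (2 : ℤ) ^ d else 0) + (if d = d0 then (2 : ℤ) ^ d0 else 0) := by
    intro d _
    by_cases h : d = d0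
    · subst h
      simp [hg]
    · simp [h]
  rw [sum_congr rfl h1, sum_add_distrib]
  congr 1
  rw [sum_ite_eq' (range D) d0 (fun _ => (2 : ℤ) ^ d0), if_pos (mem_range.mpr hd)]

/-- The weight with the symbolic digits `f`. -/
noncomputable def nS (D : ℕ) (f : ℕ → Sb E Rr K1 κ) : ℤ := num D (fun d => (f d).ev w1 w2)

theorem nS_base (D : ℕ) (hD : κ + 10 ≤ D) :
    nS w1 w2 D (fun d => if d = κ + 9 then Sy.cst true else Sy.cst false) = 2 ^ (κ + 9) := by
  unfold nS
  have h := num_upd D (κ + 9) (fun _ => false) (by omega) rfl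
  rw [num_false] at h
  rw [zero_add] at h
  rw [← h]
  congr 1
  funext d
  by_cases hd : d = κ + 9
  · simp [hd, Sy.ev]
  · simp [hd, Sy.ev]

theorem nS_uv (D : ℕ) (hD : κ + 10 ≤ D) (e : E) (i : K1) (ρ : Rr) :
    nS w1 w2 D (fun d => if d = κ + 8 then Sy.cst true else uvS e i ρ (some (some d))) =
      wS w1 w2 D (uvS e i ρ) + 2 ^ (κ + 8) := by
  have h0 : (uvS e i ρ (some (some (κ + 8))) : Sb E Rr K1 κ).ev w1 w2 = false := by
    have := ed_high w1 w2 (Sum.inl (e, i) : Ve E Rr K1) (Sum.inr (Sum.inl (e, i, ρ))) (κ + 8)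
      (by omega)
    simpa [edS] using this
  have h := num_upd D (κ + 8) (fun d => (uvS e i ρ (some (some d)) : Sb E Rr K1 κ).ev w1 w2)
    (by omega) h0
  unfold nS wS
  have e1 : (uvS e i ρ (some none) : Sb E Rr K1 κ).ev w1 w2 = false := rfl
  rw [e1]
  simp only [Bool.false_eq_true, if_false, one_mul]
  rw [← h]
  congr 1
  funext d
  split_ifs <;> rfl

theorem nS_vw (D : ℕ) (hD : κ + 10 ≤ D) (e : E) (i : K1) (ρ : Rr) :
    nS w1 w2 D (fun d => if d = κ + 8 then Sy.cst true else vwS e i ρ (some (some d))) =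
      wS w1 w2 D (vwS e i ρ) + 2 ^ (κ + 8) := by
  have h0 : (vwS e i ρ (some (some (κ + 8))) : Sb E Rr K1 κ).ev w1 w2 = false := by
    have := ed_high w1 w2 (Sum.inr (Sum.inl (e, i, ρ)) : Ve E Rr K1) (Sum.inr (Sum.inr (e, i)))
      (κ + 8) (by omega)
    simpa [edS] using this
  have h := num_upd D (κ + 8) (fun d => (vwS e i ρ (some (some d)) : Sb E Rr K1 κ).ev w1 w2)
    (by omega) h0
  unfold nS wS
  have e1 : (vwS e i ρ (some none) : Sb E Rr K1 κ).ev w1 w2 = false := rfl
  rw [e1]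
  simp only [Bool.false_eq_true, if_false, one_mul]
  rw [← h]
  congr 1
  funext d
  split_ifs <;> rfl

theorem nS_uw (D : ℕ) (hD : κ + 10 ≤ D) (e : E) (i : K1) :
    nS w1 w2 D (fun d => if d = κ + 9 then Sy.cst true else if d = 0 then Sy.cst true
        else (uwS e i (some (some d)) : Sb E Rr K1 κ)) =
      - wS w1 w2 D (uwS e i) + 1 + 2 ^ (κ + 9) := by
  have h0 : (uwS e i (some (some (κ + 9))) : Sb E Rr K1 κ).ev w1 w2 = false := by
    unfold uwS
    simp only
    rw [if_neg (by omega), if_neg (by omega), if_neg (by omega), if_neg (by omega),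
      if_neg (by omega), if_neg (by omega), if_neg (by omega)]
    rfl
  have h1 : (uwS e i (some (some 0)) : Sb E Rr K1 κ).ev w1 w2 = false := by
    unfold uwS
    simp [Sy.ev]
  have ha := num_upd D 0 (fun d => (uwS e i (some (some d)) : Sb E Rr K1 κ).ev w1 w2)
    (by omega) h1
  have hb := num_upd D (κ + 9)
    (fun d => if d = 0 then true else (uwS e i (some (some d)) : Sb E Rr K1 κ).ev w1 w2)
    (by omega) (by
      show (if κ + 9 = 0 then true else
        (uwS e i (some (some (κ + 9))) : Sb E Rr K1 κ).ev w1 w2) = false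
      rw [if_neg (by omega)]; exact h0)
  unfold nS wS
  have e1 : (uwS e i (some none) : Sb E Rr K1 κ).ev w1 w2 = true := rfl
  rw [e1]
  simp only [if_true]
  rw [ha] at hb
  have e2 : num D (fun d => ((if d = κ + 9 then Sy.cst true else if d = 0 then Sy.cst true
        else uwS e i (some (some d))) : Sb E Rr K1 κ).ev w1 w2) =
      num D (fun d => if d = κ + 9 then true else
        if d = 0 then true else (uwS e i (some (some d)) : Sb E Rr K1 κ).ev w1 w2) := by
    congr 1
    funext d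
    split_ifs <;> rfl
  rw [e2, hb]
  ring

theorem tri_nonneg (hw2 : Opened w2) (D : ℕ) (hD : 6 + κ ≤ D) (e : E) (i j k : K1) (ρ : Rr) :
    0 ≤ wS w1 w2 D (uvS e i ρ) + wS w1 w2 D (vwS e j ρ) + wS w1 w2 D (uwS e k) := by
  rw [tri_weight w1 w2 D hD]
  have hpos : ∀ l : Fin κ, 0 ≤ (iv (w2 (((e, ρ), l), false)) + iv (w2 (((e, ρ), l), true)) - 1) *
        (2 : ℤ) ^ ((l : ℕ) + 6) := by
    intro l
    apply mul_nonneg _ (by positivity)
    have h0 := iv_nonneg (w2 (((e, ρ), l), false))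
    have h1 := iv_nonneg (w2 (((e, ρ), l), true))
    rcases hw2 ((e, ρ), l) with h | h
    · rw [h, iv_true]; linarith
    · rw [h, iv_true]; linarith
  have hs := sum_nonneg (fun l (_ : l ∈ (univ : Finset (Fin κ))) => hpos l)
  have a0 := iv_le (w1 (((e, 0), i), false))
  have a1 := iv_le (w1 (((e, 0), i), true))
  have a2 := iv_le (w1 (((e, 1), j), false))
  have a3 := iv_le (w1 (((e, 1), j), true))
  have a4 := iv_le (w1 (((e, 2), k), false))
  have a5 := iv_le (w1 (((e, 2), k), true))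
  linarith

/-- Bounds for the three kinds of weights. -/
theorem uv_bd (D : ℕ) (e : E) (i : K1) (ρ : Rr) :
    0 ≤ wS w1 w2 D (uvS e i ρ) := by
  unfold wS
  have e1 : (uvS e i ρ (some none) : Sb E Rr K1 κ).ev w1 w2 = false := rfl
  rw [e1]
  simp only [Bool.false_eq_true, if_false, one_mul]
  exact num_nonneg _ _

theorem vw_bd (D : ℕ) (e : E) (i : K1) (ρ : Rr) :
    0 ≤ wS w1 w2 D (vwS e i ρ) := by
  unfold wS
  have e1 : (vwS e i ρ (some none) : Sb E Rr K1 κ).ev w1 w2 = false := rfl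
  rw [e1]
  simp only [Bool.false_eq_true, if_false, one_mul]
  exact num_nonneg _ _

theorem uw_bd (D : ℕ) (hD : 6 + κ ≤ D) (e : E) (i : K1) :
    wS w1 w2 D (uwS e i) ≤ 0 ∧ - (2 : ℤ) ^ (6 + κ) < wS w1 w2 D (uwS e i) := by
  have h0 : ∀ d, 6 + κ ≤ d → (uwS e i (some (some d)) : Sb E Rr K1 κ).ev w1 w2 = false := by
    intro d hd
    unfold uwS
    simp only
    rw [if_neg (by omega), if_neg (by omega), if_neg (by omega), if_neg (by omega),
      if_neg (by omega), if_neg (by omega), if_neg (by omega)]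
    rfl
  unfold wS
  have e1 : (uwS e i (some none) : Sb E Rr K1 κ).ev w1 w2 = true := rfl
  rw [e1, num_trunc D (6 + κ) _ hD h0]
  simp only [if_true]
  have h1 := num_nonneg (6 + κ) (fun d => (uwS e i (some (some d)) : Sb E Rr K1 κ).ev w1 w2)
  have h2 := num_lt (6 + κ) (fun d => (uwS e i (some (some d)) : Sb E Rr K1 κ).ev w1 w2)
  constructor <;> linarith

/-- The weight of a pair of vertices: either it is at least `2 ^ (κ + 8)` and at most
`2 ^ (κ + 9)`, or it belongs to a pair of kind `UW`. -/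
theorem apS_cases (D : ℕ) (hD : κ + 10 ≤ D) (p q : Ve E Rr K1) :
    2 ^ (κ + 8) ≤ nS w1 w2 D (apS p q) ∧ nS w1 w2 D (apS p q) < 2 ^ (κ + 10) := by
  have hb : nS w1 w2 D (fun d => if d = κ + 9 then Sy.cst true else Sy.cst false) =
    2 ^ (κ + 9) := nS_base w1 w2 D hD
  have e8 : (2 : ℤ) ^ (κ + 8) = 4 * 2 ^ (6 + κ) := by
    rw [show κ + 8 = (6 + κ) + 2 by ring, pow_add]; ring
  have e9 : (2 : ℤ) ^ (κ + 9) = 8 * 2 ^ (6 + κ) := by
    rw [show κ + 9 = (6 + κ) + 3 by ring, pow_add]; ring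
  have e10 : (2 : ℤ) ^ (κ + 10) = 16 * 2 ^ (6 + κ) := by
    rw [show κ + 10 = (6 + κ) + 4 by ring, pow_add]; ring
  have hp : (0 : ℤ) < 2 ^ (6 + κ) := by positivity
  have huw : ∀ (e : E) (i : K1), 2 ^ (κ + 8) ≤ - wS w1 w2 D (uwS e i) + 1 + 2 ^ (κ + 9) ∧
      - wS w1 w2 D (uwS e i) + 1 + 2 ^ (κ + 9) < 2 ^ (κ + 10) := by
    intro e i
    have := uw_bd w1 w2 D (by omega) e i
    rw [e8, e9, e10]
    constructor <;> linarith [this.1, this.2]
  have huv : ∀ (e : E) (i : K1) (ρ : Rr), 2 ^ (κ + 8) ≤ wS w1 w2 D (uvS e i ρ) + 2 ^ (κ + 8) ∧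
      wS w1 w2 D (uvS e i ρ) + 2 ^ (κ + 8) < 2 ^ (κ + 10) := by
    intro e i ρ
    have h1 := uv_bd w1 w2 D e i ρ
    have h2 : wS w1 w2 D (uvS e i ρ) < 2 ^ (6 + κ) := by
      unfold wS
      have e1 : (uvS e i ρ (some none) : Sb E Rr K1 κ).ev w1 w2 = false := rfl
      rw [e1, num_trunc D (6 + κ) _ (by omega) (fun d hd => by
        have := ed_high w1 w2 (Sum.inl (e, i) : Ve E Rr K1) (Sum.inr (Sum.inl (e, i, ρ))) d hd
        simpa [edS] using this)]
      simp only [Bool.false_eq_true, if_false, one_mul]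
      exact num_lt _ _
    rw [e8, e10]
    constructor <;> linarith
  have hvw : ∀ (e : E) (i : K1) (ρ : Rr), 2 ^ (κ + 8) ≤ wS w1 w2 D (vwS e i ρ) + 2 ^ (κ + 8) ∧
      wS w1 w2 D (vwS e i ρ) + 2 ^ (κ + 8) < 2 ^ (κ + 10) := by
    intro e i ρ
    have h1 := vw_bd w1 w2 D e i ρ
    have h2 : wS w1 w2 D (vwS e i ρ) < 2 ^ (6 + κ) := by
      unfold wS
      have e1 : (vwS e i ρ (some none) : Sb E Rr K1 κ).ev w1 w2 = false := rfl
      rw [e1, num_trunc D (6 + κ) _ (by omega) (fun d hd => by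
        have := ed_high w1 w2 (Sum.inr (Sum.inl (e, i, ρ)) : Ve E Rr K1)
          (Sum.inr (Sum.inr (e, i))) d hd
        simpa [edS] using this)]
      simp only [Bool.false_eq_true, if_false, one_mul]
      exact num_lt _ _
    rw [e8, e10]
    constructor <;> linarith
  have hbb : (2 : ℤ) ^ (κ + 8) ≤ 2 ^ (κ + 9) ∧ (2 : ℤ) ^ (κ + 9) < 2 ^ (κ + 10) := by
    rw [e8, e9, e10]
    constructor <;> linarith
  have hcase : ∀ (c : Prop) [Decidable c] (f : ℕ → Sb E Rr K1 κ) (x : ℤ),
      nS w1 w2 D f = x → (2 ^ (κ + 8) ≤ x ∧ x < 2 ^ (κ + 10)) →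
      2 ^ (κ + 8) ≤ nS w1 w2 D (fun d => if c then f d else
        (if d = κ + 9 then Sy.cst true else Sy.cst false)) ∧
      nS w1 w2 D (fun d => if c then f d else
        (if d = κ + 9 then Sy.cst true else Sy.cst false)) < 2 ^ (κ + 10) := by
    intro c _ f x hf hx
    by_cases hc : c
    · simp only [if_pos hc]
      rw [hf]; exact hx
    · simp only [if_neg hc]
      rw [hb]; exact hbb
  rcases p with p | p | p <;> rcases q with q | q | q
  · show 2 ^ (κ + 8) ≤ nS w1 w2 D (fun d => if d = κ + 9 then Sy.cst true else Sy.cst false) ∧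
      nS w1 w2 D (fun d => if d = κ + 9 then Sy.cst true else Sy.cst false) < _
    rw [hb]; exact hbb
  · exact hcase (p.1 = q.1) _ _ (nS_uv w1 w2 D hD p.1 p.2 q.2.2) (huv _ _ _)
  · exact hcase (p.1 = q.1) _ _ (nS_uw w1 w2 D hD p.1 q.2) (huw _ _)
  · exact hcase (q.1 = p.1) _ _ (nS_uv w1 w2 D hD q.1 q.2 p.2.2) (huv _ _ _)
  · show 2 ^ (κ + 8) ≤ nS w1 w2 D (fun d => if d = κ + 9 then Sy.cst true else Sy.cst false) ∧
      nS w1 w2 D (fun d => if d = κ + 9 then Sy.cst true else Sy.cst false) < _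
    rw [hb]; exact hbb
  · exact hcase (p.1 = q.1) _ _ (nS_vw w1 w2 D hD p.1 p.2.1 p.2.2) (hvw _ _ _)
  · exact hcase (q.1 = p.1) _ _ (nS_uw w1 w2 D hD q.1 p.2) (huw _ _)
  · exact hcase (q.1 = p.1) _ _ (nS_vw w1 w2 D hD q.1 q.2.1 q.2.2) (hvw _ _ _)
  · show 2 ^ (κ + 8) ≤ nS w1 w2 D (fun d => if d = κ + 9 then Sy.cst true else Sy.cst false) ∧
      nS w1 w2 D (fun d => if d = κ + 9 then Sy.cst true else Sy.cst false) < _
    rw [hb]; exact hbb

end

end Pool.Agent.H596R2.D3R
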