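import Pool.Agent.H596R2.D3R.APInst

/-!
Shortest paths: violations of the triangle inequality in the hard instances.
-/

namespace Pool.Agent.H596R2.D3R

open Finset Classical Pool.Agent.H596R2.D3

set_option linter.unusedSectionVars false

variable {E Rr K1 : Type} [Fintype E] [Fintype Rr] [Fintype K1] {κ : ℕ}

theorem apS_uv (e : E) (i j : K1) (ρ : Rr) :
    (apS (Sum.inl (e, i)) (Sum.inr (Sum.inl (e, j, ρ))) : ℕ → Sb E Rr K1 κ) =
      fun d => if d = κ + 8 then Sy.cst true else uvS e i ρ (some (some d)) := by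
  funext d
  show (if e = e then _ else _) = _
  rw [if_pos rfl]

theorem apS_vw (e : E) (j k : K1) (ρ : Rr) :
    (apS (Sum.inr (Sum.inl (e, j, ρ))) (Sum.inr (Sum.inr (e, k))) : ℕ → Sb E Rr K1 κ) =
      fun d => if d = κ + 8 then Sy.cst true else vwS e j ρ (some (some d)) := by
  funext d
  show (if e = e then _ else _) = _
  rw [if_pos rfl]

theorem apS_uw (e : E) (i k : K1) :
    (apS (Sum.inl (e, i)) (Sum.inr (Sum.inr (e, k))) : ℕ → Sb E Rr K1 κ) =
      fun d => if d = κ + 9 then Sy.cst true else if d = 0 then Sy.cst true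
        else uwS e k (some (some d)) := by
  funext d
  show (if e = e then _ else _) = _
  rw [if_pos rfl]

theorem apS_comm (p q : Ve E Rr K1) : (apS p q : ℕ → Sb E Rr K1 κ) = apS q p := by
  funext d
  exact apS_symm p q d

section
variable (w1 : ((E × Fin 3) × K1) × Bool → Bool) (w2 : ((E × Rr) × Fin κ) × Bool → Bool)

theorem wt_eq {n : ℕ} (dv : Fin n → Option (Ve E Rr K1)) (i j : Fin n) (p q : Ve E Rr K1)
    (hi : dv i = some p) (hj : dv j = some q) :
    wt (XAP dv w1 w2) i j = nS w1 w2 (adigs n) (apS p q) := by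
  unfold wt nS num
  have h1 : ∀ l, XAP dv w1 w2 (i, j, l) = (apS p q (l : ℕ) : Sb E Rr K1 κ).ev w1 w2 := by
    intro l
    unfold XAP symAP
    simp only [hi, hj]
  simp only [h1]
  exact Fin.sum_univ_eq_sum_range
    (fun d => if (apS p q d : Sb E Rr K1 κ).ev w1 w2 = true then (2 : ℤ) ^ d else 0) (adigs n)

theorem wt_none {n : ℕ} (hD : κ + 10 ≤ adigs n) (dv : Fin n → Option (Ve E Rr K1)) (i j : Fin n)
    (h : dv i = none ∨ dv j = none) : wt (XAP dv w1 w2) i j = 2 ^ (κ + 9) := by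
  have h1 : ∀ l : Fin (adigs n), XAP dv w1 w2 (i, j, l) =
      ((if (l : ℕ) = κ + 9 then Sy.cst true else Sy.cst false : Sb E Rr K1 κ)).ev w1 w2 := by
    intro l
    unfold XAP symAP
    rcases h with h | h
    · simp only [h]
    · simp only [h]
      rcases dv i with _ | _ <;> rfl
  unfold wt
  simp only [h1]
  have h2 := nS_base w1 w2 (adigs n) hD
  unfold nS num at h2
  rw [← h2]
  exact Fin.sum_univ_eq_sum_range
    (fun d => if ((if d = κ + 9 then Sy.cst true else Sy.cst false : Sb E Rr K1 κ)).ev w1 w2 = true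
      then (2 : ℤ) ^ d else 0) (adigs n)

theorem uv_up (D : ℕ) (hD : κ + 10 ≤ D) (e : E) (i : K1) (ρ : Rr) :
    wS w1 w2 D (uvS e i ρ) < 2 ^ (6 + κ) := by
  unfold wS
  have e1 : (uvS e i ρ (some none) : Sb E Rr K1 κ).ev w1 w2 = false := rfl
  rw [e1, num_trunc D (6 + κ) _ (by omega) (fun d hd => by
    have := ed_high w1 w2 (Sum.inl (e, i) : Ve E Rr K1) (Sum.inr (Sum.inl (e, i, ρ))) d hd
    simpa [edS] using this)]
  simp only [Bool.false_eq_true, if_false, one_mul]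
  exact num_lt _ _

theorem vw_up (D : ℕ) (hD : κ + 10 ≤ D) (e : E) (i : K1) (ρ : Rr) :
    wS w1 w2 D (vwS e i ρ) < 2 ^ (6 + κ) := by
  unfold wS
  have e1 : (vwS e i ρ (some none) : Sb E Rr K1 κ).ev w1 w2 = false := rfl
  rw [e1, num_trunc D (6 + κ) _ (by omega) (fun d hd => by
    have := ed_high w1 w2 (Sum.inr (Sum.inl (e, i, ρ)) : Ve E Rr K1)
      (Sum.inr (Sum.inr (e, i))) d hd
    simpa [edS] using this)]
  simp only [Bool.false_eq_true, if_false, one_mul]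
  exact num_lt _ _

/-- The kind of a pair of vertices. -/
theorem apS_kind (D : ℕ) (hD : κ + 10 ≤ D) (p q : Ve E Rr K1) :
    nS w1 w2 D (apS p q) = 2 ^ (κ + 9) ∨
    (∃ e i k, ((p = Sum.inl (e, i) ∧ q = Sum.inr (Sum.inr (e, k))) ∨
      (q = Sum.inl (e, i) ∧ p = Sum.inr (Sum.inr (e, k)))) ∧
      nS w1 w2 D (apS p q) = - wS w1 w2 D (uwS e k) + 1 + 2 ^ (κ + 9)) ∨
    (∃ e i j ρ, ((p = Sum.inl (e, i) ∧ q = Sum.inr (Sum.inl (e, j, ρ))) ∨
      (q = Sum.inl (e, i) ∧ p = Sum.inr (Sum.inl (e, j, ρ)))) ∧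
      nS w1 w2 D (apS p q) = wS w1 w2 D (uvS e i ρ) + 2 ^ (κ + 8)) ∨
    (∃ e j k ρ, ((p = Sum.inr (Sum.inl (e, j, ρ)) ∧ q = Sum.inr (Sum.inr (e, k))) ∨
      (q = Sum.inr (Sum.inl (e, j, ρ)) ∧ p = Sum.inr (Sum.inr (e, k)))) ∧
      nS w1 w2 D (apS p q) = wS w1 w2 D (vwS e j ρ) + 2 ^ (κ + 8)) := by
  have hb : nS w1 w2 D (fun d => if d = κ + 9 then Sy.cst true else Sy.cst false) =
    2 ^ (κ + 9) := nS_base w1 w2 D hD
  rcases p with ⟨a, i⟩ | ⟨a, j, ρ⟩ | ⟨a, k⟩ <;> rcases q with ⟨b, i'⟩ | ⟨b, j', ρ'⟩ | ⟨b, k'⟩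
  · left; exact hb
  · by_cases hab : a = b
    · subst hab
      right; right; left
      exact ⟨a, i, j', ρ', Or.inl ⟨rfl, rfl⟩, by rw [apS_uv]; exact nS_uv w1 w2 D hD a i ρ'⟩
    · left
      have e : (apS (Sum.inl (a, i)) (Sum.inr (Sum.inl (b, j', ρ'))) : ℕ → Sb E Rr K1 κ) =
          fun d => if d = κ + 9 then Sy.cst true else Sy.cst false := by
        funext d
        show (if a = b then _ else _) = _
        rw [if_neg hab]
      rw [e]; exact hb
  · by_cases hab : a = b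
    · subst hab
      right; left
      exact ⟨a, i, k', Or.inl ⟨rfl, rfl⟩, by rw [apS_uw]; exact nS_uw w1 w2 D hD a k'⟩
    · left
      have e : (apS (Sum.inl (a, i)) (Sum.inr (Sum.inr (b, k'))) : ℕ → Sb E Rr K1 κ) =
          fun d => if d = κ + 9 then Sy.cst true else Sy.cst false := by
        funext d
        show (if a = b then _ else _) = _
        rw [if_neg hab]
      rw [e]; exact hb
  · by_cases hab : b = a
    · subst hab
      right; right; left
      exact ⟨b, i', j, ρ, Or.inr ⟨rfl, rfl⟩, by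
        rw [apS_comm, apS_uv]; exact nS_uv w1 w2 D hD b i' ρ⟩
    · left
      have e : (apS (Sum.inr (Sum.inl (a, j, ρ))) (Sum.inl (b, i')) : ℕ → Sb E Rr K1 κ) =
          fun d => if d = κ + 9 then Sy.cst true else Sy.cst false := by
        funext d
        show (if b = a then _ else _) = _
        rw [if_neg hab]
      rw [e]; exact hb
  · left; exact hb
  · by_cases hab : a = b
    · subst hab
      right; right; right
      exact ⟨a, j, k', ρ, Or.inl ⟨rfl, rfl⟩, by rw [apS_vw]; exact nS_vw w1 w2 D hD a j ρ⟩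
    · left
      have e : (apS (Sum.inr (Sum.inl (a, j, ρ))) (Sum.inr (Sum.inr (b, k'))) :
          ℕ → Sb E Rr K1 κ) = fun d => if d = κ + 9 then Sy.cst true else Sy.cst false := by
        funext d
        show (if a = b then _ else _) = _
        rw [if_neg hab]
      rw [e]; exact hb
  · by_cases hab : b = a
    · subst hab
      right; left
      exact ⟨b, i', k, Or.inr ⟨rfl, rfl⟩, by
        rw [apS_comm, apS_uw]; exact nS_uw w1 w2 D hD b k⟩
    · left
      have e : (apS (Sum.inr (Sum.inr (a, k))) (Sum.inl (b, i')) : ℕ → Sb E Rr K1 κ) =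
          fun d => if d = κ + 9 then Sy.cst true else Sy.cst false := by
        funext d
        show (if b = a then _ else _) = _
        rw [if_neg hab]
      rw [e]; exact hb
  · by_cases hab : b = a
    · subst hab
      right; right; right
      exact ⟨b, j', k, ρ', Or.inr ⟨rfl, rfl⟩, by
        rw [apS_comm, apS_vw]; exact nS_vw w1 w2 D hD b j' ρ'⟩
    · left
      have e : (apS (Sum.inr (Sum.inr (a, k))) (Sum.inr (Sum.inl (b, j', ρ'))) :
          ℕ → Sb E Rr K1 κ) = fun d => if d = κ + 9 then Sy.cst true else Sy.cst false := by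
        funext d
        show (if b = a then _ else _) = _
        rw [if_neg hab]
      rw [e]; exact hb
  · left; exact hb

theorem wt_ge {n : ℕ} (hD : κ + 10 ≤ adigs n) (dv : Fin n → Option (Ve E Rr K1)) (i j : Fin n) :
    2 ^ (κ + 8) ≤ wt (XAP dv w1 w2) i j ∧ wt (XAP dv w1 w2) i j < 2 ^ (κ + 10) := by
  by_cases h : dv i = none ∨ dv j = none
  · rw [wt_none w1 w2 hD dv i j h]
    have e8 : (2 : ℤ) ^ (κ + 8) = 4 * 2 ^ (6 + κ) := by
      rw [show κ + 8 = (6 + κ) + 2 by ring, pow_add]; ring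
    have e9 : (2 : ℤ) ^ (κ + 9) = 8 * 2 ^ (6 + κ) := by
      rw [show κ + 9 = (6 + κ) + 3 by ring, pow_add]; ring
    have e10 : (2 : ℤ) ^ (κ + 10) = 16 * 2 ^ (6 + κ) := by
      rw [show κ + 10 = (6 + κ) + 4 by ring, pow_add]; ring
    have hp : (0 : ℤ) < 2 ^ (6 + κ) := by positivity
    rw [e8, e9, e10]
    constructor <;> linarith
  · push Not at h
    obtain ⟨p, hp⟩ := Option.ne_none_iff_exists'.mp h.1
    obtain ⟨q, hq⟩ := Option.ne_none_iff_exists'.mp h.2
    rw [wt_eq w1 w2 dv i j p q hp hq]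
    exact apS_cases w1 w2 (adigs n) hD p q

theorem wt_comm {n : ℕ} (dv : Fin n → Option (Ve E Rr K1)) (i j : Fin n) (l : Fin (adigs n)) :
    XAP dv w1 w2 (i, j, l) = XAP dv w1 w2 (j, i, l) := by
  unfold XAP symAP
  rcases dv i with _ | p <;> rcases dv j with _ | q
  · rfl
  · rfl
  · rfl
  · simp only
    rw [apS_symm]

/-- A pair whose weight is larger than `2 ^ (κ + 9)`. -/
theorem heavy {n : ℕ} (hD : κ + 10 ≤ adigs n) (dv : Fin n → Option (Ve E Rr K1)) (i j : Fin n)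
    (h : 2 ^ (κ + 9) < wt (XAP dv w1 w2) i j) :
    ∃ e a k, ((dv i = some (Sum.inl (e, a)) ∧ dv j = some (Sum.inr (Sum.inr (e, k)))) ∨
      (dv j = some (Sum.inl (e, a)) ∧ dv i = some (Sum.inr (Sum.inr (e, k))))) ∧
      wt (XAP dv w1 w2) i j = - wS w1 w2 (adigs n) (uwS e k) + 1 + 2 ^ (κ + 9) := by
  have e8 : (2 : ℤ) ^ (κ + 8) = 4 * 2 ^ (6 + κ) := by
    rw [show κ + 8 = (6 + κ) + 2 by ring, pow_add]; ring
  have e9 : (2 : ℤ) ^ (κ + 9) = 8 * 2 ^ (6 + κ) := by
    rw [show κ + 9 = (6 + κ) + 3 by ring, pow_add]; ring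
  have hp0 : (0 : ℤ) < 2 ^ (6 + κ) := by positivity
  by_cases hn : dv i = none ∨ dv j = none
  · rw [wt_none w1 w2 hD dv i j hn] at h
    exact absurd h (lt_irrefl _)
  · push Not at hn
    obtain ⟨p, hp⟩ := Option.ne_none_iff_exists'.mp hn.1
    obtain ⟨q, hq⟩ := Option.ne_none_iff_exists'.mp hn.2
    rw [wt_eq w1 w2 dv i j p q hp hq] at h ⊢
    rcases apS_kind w1 w2 (adigs n) hD p q with h0 | ⟨e, a, k, h1, h2⟩ | ⟨e, a, b, ρ, h1, h2⟩ |
      ⟨e, b, k, ρ, h1, h2⟩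
    · rw [h0] at h
      exact absurd h (lt_irrefl _)
    · refine ⟨e, a, k, ?_, h2⟩
      rw [hp, hq]
      rcases h1 with ⟨h1, h1'⟩ | ⟨h1, h1'⟩
      · left; exact ⟨by rw [h1], by rw [h1']⟩
      · right; exact ⟨by rw [h1], by rw [h1']⟩
    · exfalso
      have := uv_up w1 w2 (adigs n) hD e a ρ
      rw [h2] at h
      linarith
    · exfalso
      have := vw_up w1 w2 (adigs n) hD e b ρ
      rw [h2] at h
      linarith

/-- A pair whose weight is smaller than `2 ^ (κ + 9)`. -/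
theorem light {n : ℕ} (hD : κ + 10 ≤ adigs n) (dv : Fin n → Option (Ve E Rr K1)) (i j : Fin n)
    (h : wt (XAP dv w1 w2) i j < 2 ^ (κ + 9)) :
    (∃ e a b ρ, ((dv i = some (Sum.inl (e, a)) ∧ dv j = some (Sum.inr (Sum.inl (e, b, ρ)))) ∨
      (dv j = some (Sum.inl (e, a)) ∧ dv i = some (Sum.inr (Sum.inl (e, b, ρ))))) ∧
      wt (XAP dv w1 w2) i j = wS w1 w2 (adigs n) (uvS e a ρ) + 2 ^ (κ + 8)) ∨
    (∃ e b k ρ, ((dv i = some (Sum.inr (Sum.inl (e, b, ρ))) ∧
      dv j = some (Sum.inr (Sum.inr (e, k)))) ∨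
      (dv j = some (Sum.inr (Sum.inl (e, b, ρ))) ∧ dv i = some (Sum.inr (Sum.inr (e, k))))) ∧
      wt (XAP dv w1 w2) i j = wS w1 w2 (adigs n) (vwS e b ρ) + 2 ^ (κ + 8)) := by
  by_cases hn : dv i = none ∨ dv j = none
  · rw [wt_none w1 w2 hD dv i j hn] at h
    exact absurd h (lt_irrefl _)
  · push Not at hn
    obtain ⟨p, hp⟩ := Option.ne_none_iff_exists'.mp hn.1
    obtain ⟨q, hq⟩ := Option.ne_none_iff_exists'.mp hn.2
    rw [wt_eq w1 w2 dv i j p q hp hq] at h ⊢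
    rcases apS_kind w1 w2 (adigs n) hD p q with h0 | ⟨e, a, k, h1, h2⟩ | ⟨e, a, b, ρ, h1, h2⟩ |
      ⟨e, b, k, ρ, h1, h2⟩
    · rw [h0] at h
      exact absurd h (lt_irrefl _)
    · exfalso
      have := (uw_bd w1 w2 (adigs n) (by omega) e k).1
      rw [h2] at h
      linarith
    · left
      refine ⟨e, a, b, ρ, ?_, h2⟩
      rw [hp, hq]
      rcases h1 with ⟨h1, h1'⟩ | ⟨h1, h1'⟩
      · left; exact ⟨by rw [h1], by rw [h1']⟩
      · right; exact ⟨by rw [h1], by rw [h1']⟩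
    · right
      refine ⟨e, b, k, ρ, ?_, h2⟩
      rw [hp, hq]
      rcases h1 with ⟨h1, h1'⟩ | ⟨h1, h1'⟩
      · left; exact ⟨by rw [h1], by rw [h1']⟩
      · right; exact ⟨by rw [h1], by rw [h1']⟩

theorem ap_no {n : ℕ} (hD : κ + 10 ≤ adigs n) (hw2 : Opened w2)
    (dv : Fin n → Option (Ve E Rr K1)) (u v x : Fin n)
    (h : wt (XAP dv w1 w2) u v + wt (XAP dv w1 w2) v x < wt (XAP dv w1 w2) u x) :
    ∃ e ρ f, Good w1 w2 e ρ f := by
  have e8 : (2 : ℤ) ^ (κ + 8) = 4 * 2 ^ (6 + κ) := by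
    rw [show κ + 8 = (6 + κ) + 2 by ring, pow_add]; ring
  have e9 : (2 : ℤ) ^ (κ + 9) = 8 * 2 ^ (6 + κ) := by
    rw [show κ + 9 = (6 + κ) + 3 by ring, pow_add]; ring
  have hp0 : (0 : ℤ) < 2 ^ (6 + κ) := by positivity
  have g1 := (wt_ge w1 w2 hD dv u v).1
  have g2 := (wt_ge w1 w2 hD dv v x).1
  obtain ⟨e, a, k, hk, hux⟩ := heavy w1 w2 hD dv u x (by linarith)
  have hb := (uw_bd w1 w2 (adigs n) (by omega) e k).2
  have l1 := light w1 w2 hD dv u v (by linarith)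
  have l2 := light w1 w2 hD dv v x (by linarith)
  have fin : ∀ (a b : K1) (ρ : Rr), wt (XAP dv w1 w2) u v + wt (XAP dv w1 w2) v x =
      wS w1 w2 (adigs n) (uvS e a ρ) + wS w1 w2 (adigs n) (vwS e b ρ) + 2 ^ (κ + 9) →
      ∃ e ρ f, Good w1 w2 e ρ f := by
    intro a b ρ hs
    refine ⟨e, ρ, tri3 a b k, (tri_zero w1 w2 hw2 (adigs n) (by omega) e a b k ρ).mp ?_⟩
    have := tri_nonneg w1 w2 hw2 (adigs n) (by omega) e a b k ρ
    rw [hs, hux] at h
    linarith
  rcases hk with ⟨hu, hx⟩ | ⟨hx, hu⟩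
  · -- `u` is on the first side
    rcases l1 with ⟨e1, a1, b1, ρ1, h1, h1'⟩ | ⟨e1, b1, k1, ρ1, h1, h1'⟩
    · rcases h1 with ⟨h3, h4⟩ | ⟨h3, h4⟩
      · rcases l2 with ⟨e2, a2, b2, ρ2, h2, h2'⟩ | ⟨e2, b2, k2, ρ2, h2, h2'⟩
        · exfalso
          rcases h2 with ⟨h5, h6⟩ | ⟨h5, h6⟩
          · rw [hx] at h6; simp at h6
          · rw [hx] at h5; simp at h5
        · rcases h2 with ⟨h5, h6⟩ | ⟨h5, h6⟩
          · rw [hu] at h3
            rw [h4] at h5
            rw [hx] at h6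
            simp only [Option.some.injEq, Sum.inl.injEq, Sum.inr.injEq, Prod.mk.injEq] at h3 h5 h6
            obtain ⟨rfl, rfl⟩ := h3
            obtain ⟨rfl, rfl, rfl⟩ := h5
            apply fin a b1 ρ1
            rw [h1', h2', e9, e8]
            ring
          · exfalso
            rw [hx] at h5; simp at h5
      · exfalso
        rw [hu] at h4; simp at h4
    · exfalso
      rcases h1 with ⟨h3, h4⟩ | ⟨h3, h4⟩
      · rw [hu] at h3; simp at h3
      · rw [hu] at h4; simp at h4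
  · rcases l1 with ⟨e1, a1, b1, ρ1, h1, h1'⟩ | ⟨e1, b1, k1, ρ1, h1, h1'⟩
    · exfalso
      rcases h1 with ⟨h3, h4⟩ | ⟨h3, h4⟩
      · rw [hu] at h3; simp at h3
      · rw [hu] at h4; simp at h4
    · rcases h1 with ⟨h3, h4⟩ | ⟨h3, h4⟩
      · exfalso
        rw [hu] at h3; simp at h3
      · rcases l2 with ⟨e2, a2, b2, ρ2, h2, h2'⟩ | ⟨e2, b2, k2, ρ2, h2, h2'⟩
        · rcases h2 with ⟨h5, h6⟩ | ⟨h5, h6⟩
          · exfalso
            rw [hx] at h6; simp at h6
          · rw [hu] at h4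
            rw [h3] at h6
            rw [hx] at h5
            simp only [Option.some.injEq, Sum.inl.injEq, Sum.inr.injEq, Prod.mk.injEq] at h4 h5 h6
            obtain ⟨rfl, rfl⟩ := h4
            obtain ⟨_, rfl, rfl⟩ := h6
            obtain ⟨rfl, rfl⟩ := h5
            apply fin a b1 ρ1
            rw [h1', h2', e9, e8]
            ring
        · exfalso
          rcases h2 with ⟨h5, h6⟩ | ⟨h5, h6⟩
          · rw [hx] at h6; simp at h6
          · rw [hx] at h5; simp at h5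

theorem ap_yes {n : ℕ} (fv : Ve E Rr K1 → Fin n) (hfv : Function.Injective fv)
    (hD : κ + 10 ≤ adigs n) (hw2 : Opened w2) (e : E) (ρ : Rr) (f : Fin 3 → K1)
    (h : Good w1 w2 e ρ f) :
    ∃ u v x : Fin n, u ≠ v ∧ v ≠ x ∧ u ≠ x ∧
      wt (XAP (Function.partialInv fv) w1 w2) u v + wt (XAP (Function.partialInv fv) w1 w2) v x <
        wt (XAP (Function.partialInv fv) w1 w2) u x := by
  have e8 : (2 : ℤ) ^ (κ + 8) = 4 * 2 ^ (6 + κ) := by
    rw [show κ + 8 = (6 + κ) + 2 by ring, pow_add]; ring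
  have e9 : (2 : ℤ) ^ (κ + 9) = 8 * 2 ^ (6 + κ) := by
    rw [show κ + 9 = (6 + κ) + 3 by ring, pow_add]; ring
  have hv : ∀ x, Function.partialInv fv (fv x) = some x := fun x =>
    Function.partialInv_left hfv x
  set u : Ve E Rr K1 := Sum.inl (e, f 0) with hu
  set v : Ve E Rr K1 := Sum.inr (Sum.inl (e, f 1, ρ)) with hv'
  set x : Ve E Rr K1 := Sum.inr (Sum.inr (e, f 2)) with hx
  refine ⟨fv u, fv v, fv x, ?_, ?_, ?_, ?_⟩
  · exact fun hh => by simpa [u, v] using hfv hh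
  · exact fun hh => by simpa [v, x] using hfv hh
  · exact fun hh => by simpa [u, x] using hfv hh
  · rw [wt_eq w1 w2 _ _ _ u v (hv u) (hv v), wt_eq w1 w2 _ _ _ v x (hv v) (hv x),
      wt_eq w1 w2 _ _ _ u x (hv u) (hv x), hu, hv', hx, apS_uv, apS_vw, apS_uw,
      nS_uv w1 w2 _ hD, nS_vw w1 w2 _ hD, nS_uw w1 w2 _ hD]
    have h3 : tri3 (f 0) (f 1) (f 2) = f := by
      funext a
      fin_cases a <;> rfl
    have h4 := (tri_zero w1 w2 hw2 (adigs n) (by omega) e (f 0) (f 1) (f 2) ρ).mpr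
      (by rw [h3]; exact h)
    linarith

end

end Pool.Agent.H596R2.D3R
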