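import Pool.Agent.H596R2.D3R.Game4

/-!
Choice of the parameters.
-/

namespace Pool.Agent.H596R2.D3R

open Finset Classical Pool.Agent.H596R2.D3

theorem ev_log_pow (C η : ℝ) (j : ℕ) (hη : 0 < η) :
    ∀ᶠ n : ℕ in Filter.atTop, C * Real.log n ^ j / n ≤ η := by
  have h1 : Filter.Tendsto (fun x : ℝ => Real.log x ^ j / x) Filter.atTop (nhds 0) := by
    have := (Real.isLittleO_pow_log_id_atTop (n := j)).tendsto_div_nhds_zero
    exact this
  have h2 := (h1.const_mul C).comp (tendsto_natCast_atTop_atTop (R := ℝ))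
  rw [mul_zero] at h2
  have h3 := h2.eventually (gt_mem_nhds hη)
  filter_upwards [h3] with n hn
  have : C * Real.log n ^ j / n = C * (Real.log n ^ j / n) := by ring
  rw [this]
  exact le_of_lt hn

theorem ev_log_rpow (C D δ : ℝ) (hδ : 0 < δ) :
    ∀ᶠ n : ℕ in Filter.atTop, C * Real.log n + D ≤ (n : ℝ) ^ δ / 2 := by
  have h1 : Filter.Tendsto (fun x : ℝ => Real.log x / x ^ δ) Filter.atTop (nhds 0) :=
    (isLittleO_log_rpow_atTop hδ).tendsto_div_nhds_zero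
  have h2 := (h1.const_mul C).comp (tendsto_natCast_atTop_atTop (R := ℝ))
  rw [mul_zero] at h2
  have h3 := h2.eventually (gt_mem_nhds (show (0 : ℝ) < 1 / 4 by norm_num))
  have h4 : Filter.Tendsto (fun n : ℕ => (n : ℝ) ^ δ) Filter.atTop Filter.atTop :=
    (tendsto_rpow_atTop hδ).comp tendsto_natCast_atTop_atTop
  have h5 := h4.eventually_ge_atTop (4 * D)
  have h6 := h4.eventually_gt_atTop 0
  filter_upwards [h3, h5, h6] with n a1 a2 a3
  have a4 : C * (Real.log n / (n : ℝ) ^ δ) < 1 / 4 := a1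
  have a5 : C * Real.log n ≤ (n : ℝ) ^ δ / 4 := by
    have : C * Real.log n = C * (Real.log n / (n : ℝ) ^ δ) * (n : ℝ) ^ δ := by
      field_simp
    rw [this]
    have := mul_lt_mul_of_pos_right a4 a3
    linarith
  linarith

theorem clog_le (n : ℕ) (hn : 3 ≤ n) : (Nat.clog 2 n : ℝ) ≤ 5 / 2 * Real.log n := by
  have hn3 : (3 : ℝ) ≤ n := by exact_mod_cast hn
  have hl : 1 ≤ Real.log n := by
    rw [Real.le_log_iff_exp_le (by linarith)]
    have := Real.exp_one_lt_d9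
    linarith
  have h1 : 2 ^ (Nat.clog 2 n).pred < n := Nat.pow_pred_clog_lt_self (by norm_num) (by omega)
  have hc : 0 < Nat.clog 2 n := Nat.clog_pos (by norm_num) (by omega)
  have h2 : ((2 : ℝ)) ^ (Nat.clog 2 n).pred < n := by exact_mod_cast h1
  have h3 := Real.log_lt_log (by positivity) h2
  rw [Real.log_pow] at h3
  have h4 := Real.log_two_gt_d9
  have h5 : (((Nat.clog 2 n).pred : ℕ) : ℝ) = (Nat.clog 2 n : ℝ) - 1 := by
    rw [Nat.pred_eq_sub_one, Nat.cast_sub hc]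
    norm_num
  rw [h5] at h3
  have h6 : (0 : ℝ) ≤ (Nat.clog 2 n : ℝ) - 1 := by
    have : (1 : ℝ) ≤ (Nat.clog 2 n : ℝ) := by exact_mod_cast hc
    linarith
  nlinarith

theorem bad_le (s p k R K : ℕ) (hp : 1 ≤ p) :
    bad s p k R K ≤ s / 2 ^ (p + 1) +
      (4 * (R * K) + 1 + 3 * s) * 4 ^ R * (p : ℝ) ^ (k + 1) / (K : ℝ) ^ (k + 1) := by
  unfold bad
  apply add_le_add le_rfl
  apply div_le_div_of_nonneg_right _ (by positivity)
  have hp' : (1 : ℝ) ≤ p := by exact_mod_cast hp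
  have h1 : (p : ℝ) ≤ (p : ℝ) ^ (k + 1) := by
    calc (p : ℝ) = (p : ℝ) ^ 1 := (pow_one _).symm
      _ ≤ (p : ℝ) ^ (k + 1) := pow_le_pow_right₀ hp' (by omega)
  have h2 : (1 : ℝ) ≤ 4 ^ R := one_le_pow₀ (by norm_num)
  have h3 : (p : ℝ) ≤ 4 ^ R * (p : ℝ) ^ (k + 1) := by
    calc (p : ℝ) ≤ (p : ℝ) ^ (k + 1) := h1
      _ = 1 * (p : ℝ) ^ (k + 1) := (one_mul _).symm
      _ ≤ 4 ^ R * (p : ℝ) ^ (k + 1) := mul_le_mul_of_nonneg_right h2 (by positivity)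
  have h4 : (s : ℝ) * p ≤ s * (4 ^ R * (p : ℝ) ^ (k + 1)) :=
    mul_le_mul_of_nonneg_left h3 (by positivity)
  nlinarith

/-- The estimate for one part: `K ^ (k + 1) ≥ n ^ e / D`. -/
theorem bad_le' (s p k R K n : ℕ) (hp : 1 ≤ p) (hn : 0 < n) (ℓ : ℝ) (hpl : (p : ℝ) ≤ 10 * ℓ)
    (h2p : n ^ 3 ≤ 2 ^ p) (hs : (s : ℝ) ≤ (n : ℝ) ^ 2) :
    bad s p k R K ≤ 1 / n +
      (4 * (R * K) + 1 + 3 * s) * 4 ^ R * (10 * ℓ) ^ (k + 1) / (K : ℝ) ^ (k + 1) := by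
  refine (bad_le s p k R K hp).trans ?_
  have hn' : (0 : ℝ) < n := by exact_mod_cast hn
  apply add_le_add
  · have h1 : ((n : ℝ)) ^ 3 ≤ 2 ^ (p + 1) := by
      have : (n : ℝ) ^ 3 ≤ 2 ^ p := by exact_mod_cast h2p
      calc (n : ℝ) ^ 3 ≤ 2 ^ p := this
        _ ≤ 2 ^ (p + 1) := pow_le_pow_right₀ (by norm_num) (by omega)
    calc (s : ℝ) / 2 ^ (p + 1) ≤ (n : ℝ) ^ 2 / (n : ℝ) ^ 3 := by gcongr
      _ = 1 / n := by field_simp
  · gcongr

theorem div_lower (n A : ℕ) (hA : 0 < A) (hn : 2 * A ≤ n) : (n : ℝ) / (2 * A) ≤ ((n / A : ℕ) : ℝ) := by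
  have h1 : n < A * (n / A) + A := by
    have := Nat.lt_mul_div_succ n hA
    rw [Nat.mul_add] at this
    simpa using this
  have h2 : (n : ℝ) < A * ((n / A : ℕ) : ℝ) + A := by exact_mod_cast h1
  have h3 : (2 : ℝ) * A ≤ n := by exact_mod_cast hn
  have hA' : (0 : ℝ) < A := by exact_mod_cast hA
  rw [div_le_iff₀ (by positivity)]
  nlinarith

/-- The first part. -/
theorem part_one (ε : ℝ) (hε : 0 < ε) (m r : ℕ) (hm : 0 < m) (hr : 0 < r) :
    ∃ c : ℝ, 0 < c ∧ c ≤ 1 ∧ ∀ᶠ n : ℕ in Filter.atTop, ∀ s : ℕ,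
      (s : ℝ) ≤ c * (n : ℝ) ^ 2 / Real.log n ^ 2 →
      2 ^ (m * r) * bad s (3 * Nat.clog 2 n) 1 (m * 2) (n / (m * r)) ≤ ε / 4 := by
  set A : ℝ := ((m * r : ℕ) : ℝ) with hA
  have hApos : 0 < A := by rw [hA]; exact_mod_cast Nat.mul_pos hm hr
  set G : ℝ := 2 ^ (m * r) with hG
  set H : ℝ := 4 ^ (m * 2) with hH
  have hGpos : 0 < G := by rw [hG]; positivity
  have hHpos : 0 < H := by rw [hH]; positivity
  refine ⟨min 1 (ε / (8 * G * (1200 * H * A ^ 2))), lt_min one_pos (by positivity),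
    min_le_left _ _, ?_⟩
  set c := min 1 (ε / (8 * G * (1200 * H * A ^ 2))) with hc
  have hcpos : 0 < c := lt_min one_pos (by positivity)
  have e1 := ev_log_pow (G * (3600 * m * H * A ^ 2)) (ε / 16) 2 (by positivity)
  have e2 := ev_log_pow G (ε / 16) 0 (by positivity)
  filter_upwards [e1, e2, Filter.eventually_ge_atTop 3, Filter.eventually_ge_atTop (2 * (m * r))]
    with n f1 f2 hn3 hnA s hs
  have hnpos : (0 : ℝ) < n := by exact_mod_cast (by omega : 0 < n)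
  have hn1 : (1 : ℝ) ≤ n := by exact_mod_cast (by omega : 1 ≤ n)
  have hn3' : (3 : ℝ) ≤ n := by exact_mod_cast hn3
  set ℓ := Real.log n with hℓ
  have hl : 1 ≤ ℓ := by
    rw [hℓ, Real.le_log_iff_exp_le (by linarith)]
    have := Real.exp_one_lt_d9
    linarith
  have hcl := clog_le n hn3
  have hclpos : 0 < Nat.clog 2 n := Nat.clog_pos (by norm_num) (by omega)
  have hs2 : (s : ℝ) ≤ (n : ℝ) ^ 2 := by
    refine hs.trans ?_
    rw [div_le_iff₀ (by positivity)]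
    have h1 : c ≤ 1 := min_le_left _ _
    have h2 : 1 ≤ ℓ ^ 2 := one_le_pow₀ hl
    have h3 : (0 : ℝ) ≤ (n : ℝ) ^ 2 := by positivity
    nlinarith
  have hb := bad_le' s (3 * Nat.clog 2 n) 1 (m * 2) (n / (m * r)) n (by omega) (by omega) ℓ
    (by push_cast; linarith)
    (by
      rw [mul_comm 3, pow_mul]
      exact Nat.pow_le_pow_left (Nat.le_pow_clog (by norm_num) n) 3) hs2
  set K : ℝ := ((n / (m * r) : ℕ) : ℝ) with hK
  have hK1 : (n : ℝ) / (2 * A) ≤ K := by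
    rw [hK, hA]
    exact div_lower n (m * r) (Nat.mul_pos hm hr) hnA
  have hKn : K ≤ n := by
    rw [hK]
    exact_mod_cast Nat.div_le_self _ _
  have hKpos : 0 < K := lt_of_lt_of_le (by positivity) hK1
  have hb2 : (4 * (((m * 2 : ℕ) : ℝ) * K) + 1 + 3 * s) * 4 ^ (m * 2) * (10 * ℓ) ^ (1 + 1) /
      K ^ (1 + 1) ≤ 3600 * m * H * A ^ 2 * ℓ ^ 2 / n + 1200 * H * A ^ 2 * c := by
    have g1 : (4 * (((m * 2 : ℕ) : ℝ) * K) + 1 + 3 * s) ≤ 9 * m * n +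
        3 * (c * (n : ℝ) ^ 2 / ℓ ^ 2) := by
      have hm1 : (1 : ℝ) ≤ m := by exact_mod_cast hm
      push_cast
      have : (1 : ℝ) ≤ m * n := by nlinarith
      have h5 : (m : ℝ) * K ≤ m * n := mul_le_mul_of_nonneg_left hKn (by positivity)
      nlinarith
    have g2 : ((n : ℝ) / (2 * A)) ^ (1 + 1) ≤ K ^ (1 + 1) := by gcongr
    calc _ ≤ (9 * m * n + 3 * (c * (n : ℝ) ^ 2 / ℓ ^ 2)) * 4 ^ (m * 2) * (10 * ℓ) ^ (1 + 1) /
          ((n : ℝ) / (2 * A)) ^ (1 + 1) := by gcongr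
      _ = 3600 * m * H * A ^ 2 * ℓ ^ 2 / n + 1200 * H * A ^ 2 * c := by
          rw [← hH]
          have hA0 : A ≠ 0 := hApos.ne'
          have hn0 : (n : ℝ) ≠ 0 := hnpos.ne'
          have hl0 : ℓ ≠ 0 := by linarith
          have hK0 : ((n : ℝ) / (2 * A)) ^ (1 + 1) = (n : ℝ) ^ 2 / (4 * A ^ 2) := by
            rw [div_pow]; norm_num; ring
          rw [hK0]
          field_simp
          ring
  have h6 : G * (1 / n) ≤ ε / 16 := by
    have : G * (1 / n) = G * ℓ ^ 0 / n := by rw [pow_zero]; ring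
    rw [this]; exact f2
  have h7 : G * (3600 * m * H * A ^ 2 * ℓ ^ 2 / n) ≤ ε / 16 := by
    have : G * (3600 * m * H * A ^ 2 * ℓ ^ 2 / n) = G * (3600 * m * H * A ^ 2) * ℓ ^ 2 / n := by
      ring
    rw [this]; exact f1
  have h8 : G * (1200 * H * A ^ 2 * c) ≤ ε / 8 := by
    have h9 : c ≤ ε / (8 * G * (1200 * H * A ^ 2)) := min_le_right _ _
    calc G * (1200 * H * A ^ 2 * c) ≤ G * (1200 * H * A ^ 2 *
          (ε / (8 * G * (1200 * H * A ^ 2)))) := by gcongr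
      _ = ε / 8 := by field_simp
  have h10 := mul_le_mul_of_nonneg_left (hb.trans (add_le_add le_rfl hb2)) hGpos.le
  refine h10.trans ?_
  rw [mul_add, mul_add]
  linarith

/-- The second part. -/
theorem part_two (ε δ : ℝ) (hε : 0 < ε) (hδ : 0 < δ) (hδ1 : δ ≤ 1) (m r k : ℕ) (hm : 0 < m)
    (hr : 0 < r) (hk : 3 ≤ δ * (k + 1)) :
    ∀ᶠ n : ℕ in Filter.atTop, ∀ s : ℕ, (s : ℝ) ≤ (n : ℝ) ^ 2 →
      2 ^ (m * 2) * bad s (3 * Nat.clog 2 n) k (m * r) ⌊(n : ℝ) ^ δ / 2⌋₊ ≤ ε / 4 := by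
  set A : ℝ := ((m * r : ℕ) : ℝ) with hA
  have hApos : 0 < A := by rw [hA]; exact_mod_cast Nat.mul_pos hm hr
  set G : ℝ := 2 ^ (m * 2) with hG
  set H : ℝ := 4 ^ (m * r) with hH
  have hGpos : 0 < G := by rw [hG]; positivity
  have hHpos : 0 < H := by rw [hH]; positivity
  have e1 := ev_log_pow (G * ((4 * A + 4) * H * 40 ^ (k + 1))) (ε / 8) (k + 1) (by positivity)
  have e2 := ev_log_pow G (ε / 8) 0 (by positivity)
  have e3 := ev_log_rpow 0 2 δ hδ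
  filter_upwards [e1, e2, e3, Filter.eventually_ge_atTop 3] with n f1 f2 f3 hn3 s hs2
  have hnpos : (0 : ℝ) < n := by exact_mod_cast (by omega : 0 < n)
  have hn1 : (1 : ℝ) ≤ n := by exact_mod_cast (by omega : 1 ≤ n)
  have hn3' : (3 : ℝ) ≤ n := by exact_mod_cast hn3
  set ℓ := Real.log n with hℓ
  have hl : 1 ≤ ℓ := by
    rw [hℓ, Real.le_log_iff_exp_le (by linarith)]
    have := Real.exp_one_lt_d9
    linarith
  have hcl := clog_le n hn3
  have hclpos : 0 < Nat.clog 2 n := Nat.clog_pos (by norm_num) (by omega)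
  have hb := bad_le' s (3 * Nat.clog 2 n) k (m * r) ⌊(n : ℝ) ^ δ / 2⌋₊ n (by omega) (by omega) ℓ
    (by push_cast; linarith)
    (by
      rw [mul_comm 3, pow_mul]
      exact Nat.pow_le_pow_left (Nat.le_pow_clog (by norm_num) n) 3) hs2
  set K : ℝ := ((⌊(n : ℝ) ^ δ / 2⌋₊ : ℕ) : ℝ) with hK
  have hnδ : (0 : ℝ) < (n : ℝ) ^ δ := Real.rpow_pos_of_pos hnpos δ
  have hK1 : (n : ℝ) ^ δ / 4 ≤ K := by
    have := Nat.lt_floor_add_one ((n : ℝ) ^ δ / 2)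
    rw [← hK] at this
    linarith
  have hKn : K ≤ n := by
    have h1 : K ≤ (n : ℝ) ^ δ / 2 := Nat.floor_le (by positivity)
    have h2 : (n : ℝ) ^ δ ≤ n := by
      calc (n : ℝ) ^ δ ≤ (n : ℝ) ^ (1 : ℝ) := Real.rpow_le_rpow_of_exponent_le hn1 hδ1
        _ = n := Real.rpow_one _
    linarith
  have hKpos : 0 < K := lt_of_lt_of_le (by positivity) hK1
  have hpow : (n : ℝ) ^ 3 / 4 ^ (k + 1) ≤ K ^ (k + 1) := by
    calc (n : ℝ) ^ 3 / 4 ^ (k + 1) ≤ ((n : ℝ) ^ δ) ^ (k + 1) / 4 ^ (k + 1) := by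
          apply div_le_div_of_nonneg_right _ (by positivity)
          rw [← Real.rpow_natCast ((n : ℝ) ^ δ), ← Real.rpow_mul hnpos.le,
            ← Real.rpow_natCast (n : ℝ)]
          apply Real.rpow_le_rpow_of_exponent_le hn1
          push_cast
          exact hk
      _ = ((n : ℝ) ^ δ / 4) ^ (k + 1) := by rw [div_pow]
      _ ≤ K ^ (k + 1) := by gcongr
  have hb2 : (4 * (((m * r : ℕ) : ℝ) * K) + 1 + 3 * s) * 4 ^ (m * r) * (10 * ℓ) ^ (k + 1) /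
      K ^ (k + 1) ≤ (4 * A + 4) * H * 40 ^ (k + 1) * ℓ ^ (k + 1) / n := by
    have g1 : (4 * (((m * r : ℕ) : ℝ) * K) + 1 + 3 * s) ≤ (4 * A + 4) * (n : ℝ) ^ 2 := by
      rw [← hA]
      have h5 : A * K ≤ A * n := mul_le_mul_of_nonneg_left hKn hApos.le
      have h6 : A * n ≤ A * (n : ℝ) ^ 2 := by
        apply mul_le_mul_of_nonneg_left _ hApos.le
        nlinarith
      have h7 : (1 : ℝ) ≤ (n : ℝ) ^ 2 := one_le_pow₀ hn1
      linarith
    calc _ ≤ ((4 * A + 4) * (n : ℝ) ^ 2) * 4 ^ (m * r) * (10 * ℓ) ^ (k + 1) /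
          ((n : ℝ) ^ 3 / 4 ^ (k + 1)) := by gcongr
      _ = (4 * A + 4) * H * (4 * 10) ^ (k + 1) * ℓ ^ (k + 1) / n := by
          rw [← hH, mul_pow 10 ℓ, mul_pow 4 10]
          field_simp
      _ = _ := by norm_num
  have h6 : G * (1 / n) ≤ ε / 8 := by
    have : G * (1 / n) = G * ℓ ^ 0 / n := by rw [pow_zero]; ring
    rw [this]; exact f2
  have h7 : G * ((4 * A + 4) * H * 40 ^ (k + 1) * ℓ ^ (k + 1) / n) ≤ ε / 8 := by
    have : G * ((4 * A + 4) * H * 40 ^ (k + 1) * ℓ ^ (k + 1) / n) =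
      G * ((4 * A + 4) * H * 40 ^ (k + 1)) * ℓ ^ (k + 1) / n := by ring
    rw [this]; exact f1
  have h10 := mul_le_mul_of_nonneg_left (hb.trans (add_le_add le_rfl hb2)) hGpos.le
  refine h10.trans ?_
  rw [mul_add]
  linarith

theorem params (ε δ : ℝ) (hε : 0 < ε) (hδ : 0 < δ) (hδ1 : δ ≤ 1) :
    ∃ (c : ℝ) (m r k N : ℕ), 0 < c ∧ 0 < m ∧ 0 < r ∧ 1 ≤ k ∧ 2 ≤ N ∧ ∀ n ≥ N,
      0 < n / (m * r) ∧ 0 < ⌊(n : ℝ) ^ δ / 2⌋₊ ∧ 1 ≤ 3 * Nat.clog 2 n ∧
      m * (n / (m * r)) * r ≤ n ∧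
      ((4 + (⌊(n : ℝ) ^ δ / 2⌋₊ + (m * r + 2 + 2 * Nat.clog 2 n)) : ℕ) : ℝ) ≤ (n : ℝ) ^ δ ∧
      ∀ s : ℕ, (s : ℝ) ≤ c * (n : ℝ) ^ 2 / Real.log n ^ 2 →
        err1 s (3 * Nat.clog 2 n) 1 m 2 r (n / (m * r)) +
          err2 s (3 * Nat.clog 2 n) k m 2 r ⌊(n : ℝ) ^ δ / 2⌋₊ + err3 m 2 ≤ 5 * ε / 4 := by
  obtain ⟨k, hk⟩ := exists_nat_ge (3 / δ)
  have hk3 : 3 ≤ δ * (k + 1) := by
    have : 3 ≤ k * δ := by rwa [div_le_iff₀ hδ] at hk
    linarith
  have hk1 : 1 ≤ k := by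
    by_contra h
    have : k = 0 := by omega
    rw [this] at hk3
    push_cast at hk3
    linarith
  obtain ⟨m, hm⟩ := exists_nat_ge (16 / ε + 48 / ε ^ 2 + 1)
  have hm0 : 0 < 16 / ε := by positivity
  have hm0' : 0 < 48 / ε ^ 2 := by positivity
  have hmpos : 0 < m := by
    have : (0 : ℝ) < m := by linarith
    exact_mod_cast this
  obtain ⟨r, hr⟩ := exists_nat_ge (4 * ((k * (2 * k - 1) : ℕ) : ℝ) / ε + 1)
  have hr0 : 0 ≤ 4 * ((k * (2 * k - 1) : ℕ) : ℝ) / ε := by positivity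
  have hrpos : 0 < r := by
    have : (0 : ℝ) < r := by linarith
    exact_mod_cast this
  obtain ⟨c, hc, hc1, h1⟩ := part_one ε hε m r hmpos hrpos
  have h2 := part_two ε δ hε hδ hδ1 m r k hmpos hrpos hk3
  have h3 := ev_log_rpow 5 (m * r + 6) δ hδ
  have h4 := ev_log_rpow 0 1 δ hδ
  have hall := h1.and (h2.and (h3.and (h4.and ((Filter.eventually_ge_atTop (2 * (m * r))).and
    (Filter.eventually_ge_atTop 3)))))
  obtain ⟨N, hN⟩ := Filter.eventually_atTop.mp hall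
  refine ⟨c, m, r, k, max N 2, hc, hmpos, hrpos, hk1, le_max_right _ _, ?_⟩
  intro n hn
  obtain ⟨a1, a2, a3, a4, a5, a6⟩ := hN n ((le_max_left _ _).trans hn)
  have hcl := clog_le n a6
  have hclpos : 0 < Nat.clog 2 n := Nat.clog_pos (by norm_num) (by omega)
  have hn1 : (1 : ℝ) ≤ n := by exact_mod_cast (by omega : 1 ≤ n)
  have hn3' : (3 : ℝ) ≤ n := by exact_mod_cast a6
  have hl : 1 ≤ Real.log n := by
    rw [Real.le_log_iff_exp_le (by linarith)]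
    have := Real.exp_one_lt_d9
    linarith
  refine ⟨?_, ?_, by omega, ?_, ?_, ?_⟩
  · exact Nat.div_pos (by omega) (Nat.mul_pos hmpos hrpos)
  · apply Nat.floor_pos.mpr
    linarith
  · calc m * (n / (m * r)) * r = (m * r) * (n / (m * r)) := by ring
      _ ≤ n := Nat.mul_div_le _ _
  · have h5 : ((⌊(n : ℝ) ^ δ / 2⌋₊ : ℕ) : ℝ) ≤ (n : ℝ) ^ δ / 2 := Nat.floor_le (by positivity)
    push_cast
    linarith
  · intro s hs
    have hs2 : (s : ℝ) ≤ (n : ℝ) ^ 2 := by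
      refine hs.trans ?_
      rw [div_le_iff₀ (by positivity)]
      have h2 : 1 ≤ Real.log n ^ 2 := one_le_pow₀ hl
      have h3 : (0 : ℝ) ≤ (n : ℝ) ^ 2 := by positivity
      nlinarith
    have b1 := a1 s hs
    have b2 := a2 s hs2
    have hmr : (0 : ℝ) < m := by exact_mod_cast hmpos
    have hrr : (0 : ℝ) < r := by exact_mod_cast hrpos
    have c1 : (2 : ℝ) ^ 2 * ((1 * (2 * 1 - 1) : ℕ) : ℝ) / m ≤ ε / 4 := by
      norm_num
      rw [div_le_iff₀ hmr]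
      have : 16 / ε ≤ m := by linarith
      rw [div_le_iff₀ hε] at this
      linarith
    have c2 : ((k * (2 * k - 1) : ℕ) : ℝ) / r ≤ ε / 4 := by
      rw [div_le_iff₀ hrr]
      have : 4 * ((k * (2 * k - 1) : ℕ) : ℝ) / ε ≤ r := by linarith
      rw [div_le_iff₀ hε] at this
      linarith
    have c3 : err3 m 2 ≤ ε / 4 := by
      unfold err3
      rw [div_le_iff₀ hmr]
      apply Real.sqrt_le_iff.mpr
      refine ⟨by positivity, ?_⟩
      have : 48 / ε ^ 2 ≤ m := by linarith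
      rw [div_le_iff₀ (by positivity)] at this
      nlinarith
    unfold err1 err2
    push_cast at c1 c2 ⊢
    linarith

end Pool.Agent.H596R2.D3R
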