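import Pool.Agent.H596R2.D3R.Gen
import Pool.Agent.H596R2.D3R.OVAsym

/-!
Choice of the parameters, general version.
-/

namespace Pool.Agent.H596R2.D3R

open Finset Classical Pool.Agent.H596R2.D3

theorem log_ge_one (n : ℕ) (hn : 3 ≤ n) : 1 ≤ Real.log n := by
  have hn3' : (3 : ℝ) ≤ n := by exact_mod_cast hn
  rw [Real.le_log_iff_exp_le (by linarith)]
  have := Real.exp_one_lt_d9
  linarith

/-- The number of columns of the OR-rows. -/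
def colb (m R0 n : ℕ) : ℕ := n / (m * (R0 * Nat.clog 2 n ^ 2 + 2))

theorem colb_le (m R0 n : ℕ) : colb m R0 n ≤ n := Nat.div_le_self _ _

theorem colb_mul (m R0 n : ℕ) : m * (R0 * Nat.clog 2 n ^ 2 + 2) * colb m R0 n ≤ n :=
  Nat.mul_div_le _ _

theorem colb_lower (m R0 : ℕ) (hm : 0 < m) (hR : 0 < R0) : ∀ᶠ n : ℕ in Filter.atTop,
    0 < colb m R0 n ∧ (n : ℝ) / (2 * m * (7 * R0 + 2) * Real.log n ^ 2) ≤ colb m R0 n := by
  have hm' : (0 : ℝ) < m := by exact_mod_cast hm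
  have hR' : (0 : ℝ) < R0 := by exact_mod_cast hR
  have e1 := ev_log_pow (2 * m * (7 * R0 + 2)) 1 2 one_pos
  filter_upwards [e1, Filter.eventually_ge_atTop 3] with n f1 hn3
  have hnpos : (0 : ℝ) < n := by exact_mod_cast (by omega : 0 < n)
  have hl := log_ge_one n hn3
  set ℓ := Real.log n with hℓ
  have hcl := clog_le n hn3
  have hclpos : 0 < Nat.clog 2 n := Nat.clog_pos (by norm_num) (by omega)
  set A : ℕ := m * (R0 * Nat.clog 2 n ^ 2 + 2) with hA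
  have hApos : 0 < A := Nat.mul_pos hm (by omega)
  have hA1 : (A : ℝ) ≤ m * ((7 * R0 + 2) * ℓ ^ 2) := by
    rw [hA]
    push_cast
    apply mul_le_mul_of_nonneg_left _ hm'.le
    have h1 : (Nat.clog 2 n : ℝ) ^ 2 ≤ (5 / 2 * ℓ) ^ 2 := by gcongr
    have h2 : 1 ≤ ℓ ^ 2 := one_le_pow₀ hl
    have h3 : (R0 : ℝ) * (Nat.clog 2 n : ℝ) ^ 2 ≤ R0 * (7 * ℓ ^ 2) := by
      apply mul_le_mul_of_nonneg_left _ hR'.le
      refine h1.trans ?_
      nlinarith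
    nlinarith
  have hA2 : (2 * A : ℝ) ≤ n := by
    rw [div_le_one hnpos] at f1
    calc (2 * A : ℝ) ≤ 2 * (m * ((7 * R0 + 2) * ℓ ^ 2)) := by gcongr
      _ = 2 * m * (7 * R0 + 2) * ℓ ^ 2 := by ring
      _ ≤ n := f1
  have hA3 : 2 * A ≤ n := by exact_mod_cast hA2
  constructor
  · exact Nat.div_pos (by omega) hApos
  · have h1 := div_lower n A hApos hA3
    refine le_trans ?_ h1
    have hApos' : (0 : ℝ) < A := by exact_mod_cast hApos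
    apply div_le_div_of_nonneg_left hnpos.le (by positivity)
    calc (2 * A : ℝ) ≤ 2 * (m * ((7 * R0 + 2) * ℓ ^ 2)) := by gcongr
      _ = 2 * m * (7 * R0 + 2) * ℓ ^ 2 := by ring

/-- The first part. -/
theorem part_one' (η : ℝ) (hη : 0 < η) (m R0 k : ℕ) (hm : 0 < m) (hR : 0 < R0) (hk : 1 ≤ k) :
    ∃ c : ℝ, 0 < c ∧ c ≤ 1 ∧ ∀ᶠ n : ℕ in Filter.atTop, ∀ s : ℕ,
      (s : ℝ) ≤ c * (n : ℝ) ^ (k + 1) / Real.log n ^ (3 * (k + 1)) →
      (2 ^ (k + 1)) ^ m * bad s ((k + 2) * Nat.clog 2 n) k (m * (k + 1)) (colb m R0 n) ≤ η := by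
  have hm' : (0 : ℝ) < m := by exact_mod_cast hm
  have hm1 : (1 : ℝ) ≤ m := by exact_mod_cast hm
  have hR' : (0 : ℝ) < R0 := by exact_mod_cast hR
  set G : ℝ := (2 ^ (k + 1)) ^ m with hG
  set H : ℝ := 4 ^ (m * (k + 1)) with hH
  set D : ℝ := 5 / 2 * (k + 2) with hD
  set A : ℝ := 2 * m * (7 * R0 + 2) with hA
  have hGpos : 0 < G := by rw [hG]; positivity
  have hHpos : 0 < H := by rw [hH]; positivity
  have hDpos : 0 < D := by rw [hD]; positivity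
  have hApos : 0 < A := by rw [hA]; positivity
  refine ⟨min 1 (η / (2 * (G * (3 * H * D ^ (k + 1) * A ^ (k + 1))))),
    lt_min one_pos (by positivity), min_le_left _ _, ?_⟩
  set c := min 1 (η / (2 * (G * (3 * H * D ^ (k + 1) * A ^ (k + 1))))) with hc
  have hcpos : 0 < c := lt_min one_pos (by positivity)
  have e1 := ev_log_pow (G * ((4 * m * (k + 1) + 1) * H * D ^ (k + 1) * A ^ (k + 1))) (η / 4)
    (3 * (k + 1)) (by positivity)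
  have e2 := ev_log_pow G (η / 4) 0 (by positivity)
  have e3 := colb_lower m R0 hm hR
  filter_upwards [e1, e2, e3, Filter.eventually_ge_atTop 3] with n f1 f2 f3 hn3 s hs
  have hnpos : (0 : ℝ) < n := by exact_mod_cast (by omega : 0 < n)
  have hn1 : (1 : ℝ) ≤ n := by exact_mod_cast (by omega : 1 ≤ n)
  have hl := log_ge_one n hn3
  set ℓ := Real.log n with hℓ
  have hcl := clog_le n hn3
  have hclpos : 0 < Nat.clog 2 n := Nat.clog_pos (by norm_num) (by omega)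
  have hlpos : 0 < ℓ := by linarith
  have hsk : (s : ℝ) ≤ (n : ℝ) ^ (k + 1) := by
    refine hs.trans ?_
    rw [div_le_iff₀ (by positivity)]
    have h1 : c ≤ 1 := min_le_left _ _
    have h2 : 1 ≤ ℓ ^ (3 * (k + 1)) := one_le_pow₀ hl
    have h3 : (0 : ℝ) ≤ (n : ℝ) ^ (k + 1) := by positivity
    nlinarith
  set p := (k + 2) * Nat.clog 2 n with hp
  have hp1 : 1 ≤ p := Nat.mul_pos (by omega) hclpos
  have hpD : (p : ℝ) ≤ D * ℓ := by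
    rw [hp, hD]
    push_cast
    have : (0 : ℝ) ≤ (k : ℝ) + 2 := by positivity
    nlinarith
  have h2p : (s : ℝ) / 2 ^ (p + 1) ≤ 1 / n := by
    have h1 : n ^ (k + 2) ≤ 2 ^ p := by
      rw [hp, mul_comm (k + 2), pow_mul]
      exact Nat.pow_le_pow_left (Nat.le_pow_clog (by norm_num) n) _
    have h2 : (n : ℝ) ^ (k + 2) ≤ 2 ^ (p + 1) := by
      have h3 : (n : ℝ) ^ (k + 2) ≤ 2 ^ p := by exact_mod_cast h1
      exact h3.trans (pow_le_pow_right₀ (by norm_num) (by omega))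
    calc (s : ℝ) / 2 ^ (p + 1) ≤ (n : ℝ) ^ (k + 1) / (n : ℝ) ^ (k + 2) := by gcongr
      _ = 1 / n := by
        rw [show k + 2 = (k + 1) + 1 by ring, pow_succ (n : ℝ) (k + 1)]
        field_simp
  have hb := bad_le s p k (m * (k + 1)) (colb m R0 n) hp1
  set K : ℝ := (colb m R0 n : ℝ) with hK
  have hKn : K ≤ n := by rw [hK]; exact_mod_cast colb_le m R0 n
  have hK1 : (n : ℝ) / (A * ℓ ^ 2) ≤ K := f3.2
  have hKpos : 0 < K := lt_of_lt_of_le (by positivity) hK1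
  have hb2 : (4 * (((m * (k + 1) : ℕ) : ℝ) * K) + 1 + 3 * s) * 4 ^ (m * (k + 1)) *
      (p : ℝ) ^ (k + 1) / K ^ (k + 1) ≤
      (4 * m * (k + 1) + 1) * H * D ^ (k + 1) * A ^ (k + 1) * ℓ ^ (3 * (k + 1)) / n +
        3 * H * D ^ (k + 1) * A ^ (k + 1) * c := by
    have g1 : (4 * (((m * (k + 1) : ℕ) : ℝ) * K) + 1 + 3 * s) ≤ (4 * m * (k + 1) + 1) * n +
        3 * (c * (n : ℝ) ^ (k + 1) / ℓ ^ (3 * (k + 1))) := by
      have h5 : ((m * (k + 1) : ℕ) : ℝ) * K ≤ m * (k + 1) * n := by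
        push_cast
        gcongr
      linarith
    have g2 : ((n : ℝ) / (A * ℓ ^ 2)) ^ (k + 1) ≤ K ^ (k + 1) := by gcongr
    have g3 : ((n : ℝ) / (A * ℓ ^ 2)) ^ (k + 1) =
        (n : ℝ) ^ (k + 1) / (A ^ (k + 1) * ℓ ^ (2 * (k + 1))) := by
      rw [div_pow, mul_pow, ← pow_mul]
    have g4 : (n : ℝ) / (n : ℝ) ^ (k + 1) ≤ 1 / n := by
      rw [div_le_div_iff₀ (by positivity) hnpos]
      calc (n : ℝ) * n = (n : ℝ) ^ 2 := by ring
        _ ≤ (n : ℝ) ^ (k + 1) := pow_le_pow_right₀ hn1 (by omega)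
        _ = 1 * (n : ℝ) ^ (k + 1) := (one_mul _).symm
    calc _ ≤ ((4 * m * (k + 1) + 1) * n + 3 * (c * (n : ℝ) ^ (k + 1) / ℓ ^ (3 * (k + 1)))) *
          4 ^ (m * (k + 1)) * (D * ℓ) ^ (k + 1) / ((n : ℝ) / (A * ℓ ^ 2)) ^ (k + 1) := by gcongr
      _ = (4 * m * (k + 1) + 1) * H * D ^ (k + 1) * A ^ (k + 1) * ℓ ^ (3 * (k + 1)) *
          ((n : ℝ) / (n : ℝ) ^ (k + 1)) + 3 * H * D ^ (k + 1) * A ^ (k + 1) * c := by
          rw [← hH, g3, mul_pow]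
          have e3 : ℓ ^ (3 * (k + 1)) = ℓ ^ (k + 1) * ℓ ^ (2 * (k + 1)) := by
            rw [← pow_add]; congr 1; ring
          rw [e3]
          field_simp
      _ ≤ (4 * m * (k + 1) + 1) * H * D ^ (k + 1) * A ^ (k + 1) * ℓ ^ (3 * (k + 1)) *
          (1 / n) + 3 * H * D ^ (k + 1) * A ^ (k + 1) * c := by gcongr
      _ = _ := by ring
  have h6 : G * (1 / n) ≤ η / 4 := by
    have : G * (1 / n) = G * ℓ ^ 0 / n := by rw [pow_zero]; ring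
    rw [this]; exact f2
  have h7 : G * ((4 * m * (k + 1) + 1) * H * D ^ (k + 1) * A ^ (k + 1) * ℓ ^ (3 * (k + 1)) / n) ≤
      η / 4 := by
    refine le_trans (le_of_eq ?_) f1
    ring
  have h8 : G * (3 * H * D ^ (k + 1) * A ^ (k + 1) * c) ≤ η / 2 := by
    have h9 : c ≤ η / (2 * (G * (3 * H * D ^ (k + 1) * A ^ (k + 1)))) := min_le_right _ _
    calc G * (3 * H * D ^ (k + 1) * A ^ (k + 1) * c) ≤ G * (3 * H * D ^ (k + 1) * A ^ (k + 1) *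
          (η / (2 * (G * (3 * H * D ^ (k + 1) * A ^ (k + 1)))))) := by gcongr
      _ = η / 2 := by field_simp
  have h10 := mul_le_mul_of_nonneg_left (hb.trans (add_le_add h2p hb2)) hGpos.le
  refine h10.trans ?_
  rw [mul_add, mul_add]
  linarith

/-- The second part. -/
theorem part_two' (η : ℝ) (hη : 0 < η) (m R0 k : ℕ) (hm : 0 < m) (hR : 0 < R0) :
    ∀ᶠ n : ℕ in Filter.atTop, ∀ s : ℕ, (s : ℝ) ≤ (n : ℝ) ^ (k + 1) →
      bad2 s ((k + 2) * Nat.clog 2 n) (Nat.clog 2 n) (m * (R0 * Nat.clog 2 n ^ 2))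
        (2 ^ (k + 2) * ((k + 2) * Nat.clog 2 n)) ≤ η := by
  have hm' : (0 : ℝ) < m := by exact_mod_cast hm
  have hm1 : (1 : ℝ) ≤ m := by exact_mod_cast hm
  have hR' : (0 : ℝ) < R0 := by exact_mod_cast hR
  set D : ℝ := 5 / 2 * (k + 2) with hD
  set B : ℝ := 1 + (4 * (m * (R0 * 7) * (2 ^ (k + 2) * D)) + 3) * 20 with hB
  have hDpos : 0 < D := by rw [hD]; positivity
  have hBpos : 0 < B := by rw [hB]; positivity
  have e1 := ev_log_pow (1 + B) η 4 hη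
  filter_upwards [e1, Filter.eventually_ge_atTop 3] with n f1 hn3 s hs
  have hnpos : (0 : ℝ) < n := by exact_mod_cast (by omega : 0 < n)
  have hn1 : (1 : ℝ) ≤ n := by exact_mod_cast (by omega : 1 ≤ n)
  have hl := log_ge_one n hn3
  set ℓ := Real.log n with hℓ
  have hcl := clog_le n hn3
  have hclpos : 0 < Nat.clog 2 n := Nat.clog_pos (by norm_num) (by omega)
  have hlpos : 0 < ℓ := by linarith
  set Λ := Nat.clog 2 n with hΛ
  set p := (k + 2) * Λ with hp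
  have hp1 : 1 ≤ p := Nat.mul_pos (by omega) hclpos
  have hp1' : (1 : ℝ) ≤ p := by exact_mod_cast hp1
  have hpD : (p : ℝ) ≤ D * ℓ := by
    rw [hp, hD]
    push_cast
    have : (0 : ℝ) ≤ (k : ℝ) + 2 := by positivity
    nlinarith
  have h2p : (s : ℝ) / 2 ^ (p + 1) ≤ 1 / n := by
    have h1 : n ^ (k + 2) ≤ 2 ^ p := by
      rw [hp, mul_comm (k + 2), pow_mul]
      exact Nat.pow_le_pow_left (Nat.le_pow_clog (by norm_num) n) _
    have h2 : (n : ℝ) ^ (k + 2) ≤ 2 ^ (p + 1) := by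
      have h3 : (n : ℝ) ^ (k + 2) ≤ 2 ^ p := by exact_mod_cast h1
      exact h3.trans (pow_le_pow_right₀ (by norm_num) (by omega))
    calc (s : ℝ) / 2 ^ (p + 1) ≤ (n : ℝ) ^ (k + 1) / (n : ℝ) ^ (k + 2) := by gcongr
      _ = 1 / n := by
        rw [show k + 2 = (k + 1) + 1 by ring, pow_succ (n : ℝ) (k + 1)]
        field_simp
  have hκ : ((2 ^ (k + 2) * p : ℕ) : ℝ) ^ (Λ + 1) = (p : ℝ) ^ (Λ + 1) * (2 ^ (k + 2)) ^ (Λ + 1) := by
    push_cast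
    rw [mul_pow]; ring
  have hpow : (n : ℝ) ^ (k + 2) ≤ (2 ^ (k + 2)) ^ (Λ + 1) := by
    have h1 : n ^ (k + 2) ≤ (2 ^ (k + 2)) ^ (Λ + 1) := by
      calc n ^ (k + 2) ≤ (2 ^ Λ) ^ (k + 2) :=
            Nat.pow_le_pow_left (Nat.le_pow_clog (by norm_num) n) _
        _ = (2 ^ (k + 2)) ^ Λ := by rw [← pow_mul, ← pow_mul, mul_comm]
        _ ≤ (2 ^ (k + 2)) ^ (Λ + 1) := Nat.pow_le_pow_right (by positivity) (by omega)
    exact_mod_cast h1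
  have hppos : (0 : ℝ) < (p : ℝ) ^ (Λ + 1) := by positivity
  have hpp : (p : ℝ) ≤ (p : ℝ) ^ (Λ + 1) := by
    calc (p : ℝ) = (p : ℝ) ^ 1 := (pow_one _).symm
      _ ≤ (p : ℝ) ^ (Λ + 1) := pow_le_pow_right₀ hp1' (by omega)
  set M : ℝ := 4 * (((m * (R0 * Λ ^ 2) : ℕ) : ℝ) * ((2 ^ (k + 2) * p : ℕ) : ℝ)) + 1 + 2 * s with hM
  have hMpos : 0 < M := by rw [hM]; positivity
  have hsecond : (s * p + M * (8 * Λ * (p : ℝ) ^ (Λ + 1))) /
      ((2 ^ (k + 2) * p : ℕ) : ℝ) ^ (Λ + 1) ≤ (s + M * (8 * Λ)) / (n : ℝ) ^ (k + 2) := by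
    rw [hκ]
    calc (s * p + M * (8 * Λ * (p : ℝ) ^ (Λ + 1))) / ((p : ℝ) ^ (Λ + 1) * (2 ^ (k + 2)) ^ (Λ + 1))
        ≤ (s * (p : ℝ) ^ (Λ + 1) + M * (8 * Λ * (p : ℝ) ^ (Λ + 1))) /
          ((p : ℝ) ^ (Λ + 1) * (2 ^ (k + 2)) ^ (Λ + 1)) := by gcongr
      _ = (s + M * (8 * Λ)) / (2 ^ (k + 2)) ^ (Λ + 1) := by
          have : (s * (p : ℝ) ^ (Λ + 1) + M * (8 * Λ * (p : ℝ) ^ (Λ + 1))) =
            (p : ℝ) ^ (Λ + 1) * (s + M * (8 * Λ)) := by ring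
          rw [this, mul_div_mul_left _ _ hppos.ne']
      _ ≤ _ := by gcongr
  have hnk : (1 : ℝ) ≤ (n : ℝ) ^ (k + 1) := one_le_pow₀ hn1
  have hM2 : M ≤ (4 * (m * (R0 * 7) * (2 ^ (k + 2) * D)) + 3) * ℓ ^ 3 * (n : ℝ) ^ (k + 1) := by
    rw [hM]
    have h1 : ((m * (R0 * Λ ^ 2) : ℕ) : ℝ) ≤ m * (R0 * 7) * ℓ ^ 2 := by
      push_cast
      have h1 : (Λ : ℝ) ^ 2 ≤ (5 / 2 * ℓ) ^ 2 := by gcongr
      have h2 : (Λ : ℝ) ^ 2 ≤ 7 * ℓ ^ 2 := by nlinarith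
      calc (m : ℝ) * (R0 * (Λ : ℝ) ^ 2) ≤ m * (R0 * (7 * ℓ ^ 2)) := by gcongr
        _ = _ := by ring
    have h2 : ((2 ^ (k + 2) * p : ℕ) : ℝ) ≤ 2 ^ (k + 2) * D * ℓ := by
      push_cast
      calc (2 : ℝ) ^ (k + 2) * p ≤ 2 ^ (k + 2) * (D * ℓ) := by gcongr
        _ = _ := by ring
    have h3 : ((m * (R0 * Λ ^ 2) : ℕ) : ℝ) * ((2 ^ (k + 2) * p : ℕ) : ℝ) ≤
        m * (R0 * 7) * (2 ^ (k + 2) * D) * ℓ ^ 3 := by
      calc _ ≤ (m * (R0 * 7) * ℓ ^ 2) * (2 ^ (k + 2) * D * ℓ) := by gcongr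
        _ = _ := by ring
    have h4 : (1 : ℝ) ≤ ℓ ^ 3 := one_le_pow₀ hl
    have h5 : (1 : ℝ) ≤ ℓ ^ 3 * (n : ℝ) ^ (k + 1) := one_le_mul_of_one_le_of_one_le h4 hnk
    have h6 : (s : ℝ) ≤ ℓ ^ 3 * (n : ℝ) ^ (k + 1) := by
      refine hs.trans ?_
      nlinarith
    have h7 : m * (R0 * 7) * (2 ^ (k + 2) * D) * ℓ ^ 3 ≤
        m * (R0 * 7) * (2 ^ (k + 2) * D) * (ℓ ^ 3 * (n : ℝ) ^ (k + 1)) := by
      apply mul_le_mul_of_nonneg_left _ (by positivity)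
      nlinarith
    nlinarith
  have hthird : (s + M * (8 * Λ)) ≤ B * ℓ ^ 4 * (n : ℝ) ^ (k + 1) := by
    have h1 : M * (8 * Λ) ≤ ((4 * (m * (R0 * 7) * (2 ^ (k + 2) * D)) + 3) * ℓ ^ 3 *
        (n : ℝ) ^ (k + 1)) * (8 * (5 / 2 * ℓ)) := by gcongr
    have h4 : (1 : ℝ) ≤ ℓ ^ 4 := one_le_pow₀ hl
    have h5 : (s : ℝ) ≤ ℓ ^ 4 * (n : ℝ) ^ (k + 1) := by
      refine hs.trans ?_
      nlinarith
    rw [hB]
    calc (s : ℝ) + M * (8 * Λ) ≤ ℓ ^ 4 * (n : ℝ) ^ (k + 1) +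
          ((4 * (m * (R0 * 7) * (2 ^ (k + 2) * D)) + 3) * ℓ ^ 3 *
        (n : ℝ) ^ (k + 1)) * (8 * (5 / 2 * ℓ)) := add_le_add h5 h1
      _ = _ := by ring
  have hfin : (s + M * (8 * Λ)) / (n : ℝ) ^ (k + 2) ≤ B * ℓ ^ 4 / n := by
    calc _ ≤ (B * ℓ ^ 4 * (n : ℝ) ^ (k + 1)) / (n : ℝ) ^ (k + 2) := by gcongr
      _ = B * ℓ ^ 4 / n := by
        rw [show k + 2 = (k + 1) + 1 by ring, pow_succ (n : ℝ) (k + 1)]
        field_simp
  unfold bad2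
  have hcast : (4 * (((m * (R0 * Λ ^ 2) : ℕ) : ℝ) * ((2 ^ (k + 2) * p : ℕ) : ℝ)) + 1 + 2 * s) = M :=
    rfl
  rw [hcast]
  have hone : 1 / (n : ℝ) ≤ ℓ ^ 4 / n := by
    apply div_le_div_of_nonneg_right _ hnpos.le
    exact one_le_pow₀ hl
  calc (s : ℝ) / 2 ^ (p + 1) + (s * p + M * (8 * Λ * (p : ℝ) ^ (Λ + 1))) /
        ((2 ^ (k + 2) * p : ℕ) : ℝ) ^ (Λ + 1) ≤ 1 / n + B * ℓ ^ 4 / n :=
        add_le_add h2p (hsecond.trans hfin)
    _ ≤ ℓ ^ 4 / n + B * ℓ ^ 4 / n := add_le_add hone le_rfl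
    _ = (1 + B) * ℓ ^ 4 / n := by ring
    _ ≤ η := f1

/-- The parameters. -/
theorem gen_params (ε : ℝ) (hε : 0 < ε) (k : ℕ) (hk : 1 ≤ k) :
    ∃ (c : ℝ) (m R0 N : ℕ), 0 < c ∧ 0 < m ∧ 0 < R0 ∧ 3 ≤ N ∧ ∀ n ≥ N,
      0 < colb m R0 n ∧
      ∀ s : ℕ, (s : ℝ) ≤ c * (n : ℝ) ^ (k + 1) / Real.log n ^ (3 * (k + 1)) →
        er1 s ((k + 2) * Nat.clog 2 n) k m (k + 1) (colb m R0 n) +
          er2 s ((k + 2) * Nat.clog 2 n) (Nat.clog 2 n) m (R0 * Nat.clog 2 n ^ 2)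
            (2 ^ (k + 2) * ((k + 2) * Nat.clog 2 n)) + err3 m (k + 1) ≤ 5 * ε / 4 := by
  set V : ℝ := 2 ^ (k + 1) * (k * (2 * k - 1) : ℕ) with hV
  have hVnn : 0 ≤ V := by rw [hV]; positivity
  obtain ⟨m, hm⟩ := exists_nat_ge (4 * V / ε + 16 * 2 ^ (k + 1) / ε ^ 2 + 1)
  have hm0 : 0 ≤ 4 * V / ε := by positivity
  have hm0' : 0 < 16 * (2 : ℝ) ^ (k + 1) / ε ^ 2 := by positivity
  have hmpos : 0 < m := by
    have : (0 : ℝ) < m := by linarith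
    exact_mod_cast this
  obtain ⟨R0, hR⟩ := exists_nat_ge (32 / ε + 1)
  have hr0 : 0 < 32 / ε := by positivity
  have hRpos : 0 < R0 := by
    have : (0 : ℝ) < R0 := by linarith
    exact_mod_cast this
  obtain ⟨c, hc, hc1, h1⟩ := part_one' (ε / 4) (by positivity) m R0 k hmpos hRpos hk
  have h2 := part_two' (ε / 4) (by positivity) m R0 k hmpos hRpos
  have h3 := colb_lower m R0 hmpos hRpos
  have hall := h1.and (h2.and h3)
  obtain ⟨N, hN⟩ := Filter.eventually_atTop.mp hall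
  refine ⟨c, m, R0, max N 3, hc, hmpos, hRpos, le_max_right _ _, ?_⟩
  intro n hn
  obtain ⟨a1, a2, a3⟩ := hN n ((le_max_left _ _).trans hn)
  have hn3 : 3 ≤ n := (le_max_right _ _).trans hn
  have hl := log_ge_one n hn3
  have hclpos : 0 < Nat.clog 2 n := Nat.clog_pos (by norm_num) (by omega)
  refine ⟨a3.1, ?_⟩
  intro s hs
  have hsk : (s : ℝ) ≤ (n : ℝ) ^ (k + 1) := by
    refine hs.trans ?_
    rw [div_le_iff₀ (by positivity)]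
    have h2 : 1 ≤ Real.log n ^ (3 * (k + 1)) := one_le_pow₀ hl
    have h3 : (0 : ℝ) ≤ (n : ℝ) ^ (k + 1) := by positivity
    nlinarith
  have b1 := a1 s hs
  have b2 := a2 s hsk
  have hmr : (0 : ℝ) < m := by exact_mod_cast hmpos
  have hrr : (0 : ℝ) < R0 := by exact_mod_cast hRpos
  have c1 : (2 : ℝ) ^ (k + 1) * ((k * (2 * k - 1) : ℕ) : ℝ) / m ≤ ε / 4 := by
    rw [div_le_iff₀ hmr, ← hV]
    have : 4 * V / ε ≤ m := by linarith
    rw [div_le_iff₀ hε] at this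
    linarith
  have c2 : ((8 * Nat.clog 2 n ^ 2 : ℕ) : ℝ) / ((R0 * Nat.clog 2 n ^ 2 : ℕ) : ℝ) ≤ ε / 4 := by
    have hc' : (0 : ℝ) < (Nat.clog 2 n : ℝ) ^ 2 := by
      have : (0 : ℝ) < (Nat.clog 2 n : ℝ) := by exact_mod_cast hclpos
      positivity
    push_cast
    rw [mul_div_mul_right _ _ hc'.ne', div_le_iff₀ hrr]
    have : 32 / ε ≤ R0 := by linarith
    rw [div_le_iff₀ hε] at this
    linarith
  have c3 : err3 m (k + 1) ≤ ε / 4 := by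
    unfold err3
    rw [div_le_iff₀ hmr]
    apply Real.sqrt_le_iff.mpr
    refine ⟨by positivity, ?_⟩
    have h5 : 16 * (2 : ℝ) ^ (k + 1) / ε ^ 2 ≤ m := by linarith
    rw [div_le_iff₀ (by positivity)] at h5
    nlinarith
  unfold er1 er2
  linarith

end Pool.Agent.H596R2.D3R
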