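import Pool.Agent.H596R2.D3R.Asym2

/-!
Choice of the parameters for 3SUM.
-/

namespace Pool.Agent.H596R2.D3R

open Finset Classical Pool.Agent.H596R2.D3

theorem ev_poly_two (C η : ℝ) (j : ℕ) (hη : 0 < η) :
    ∀ᶠ t : ℕ in Filter.atTop, C * ((t : ℝ) + 1) ^ j / 2 ^ t ≤ η := by
  have h1 : Filter.Tendsto (fun t : ℕ => (t : ℝ) ^ j / (2 : ℝ) ^ t) Filter.atTop (nhds 0) :=
    tendsto_pow_const_div_const_pow_of_one_lt j (by norm_num)
  have h2 := (h1.comp (Filter.tendsto_add_atTop_nat 1)).const_mul (2 * C)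
  rw [mul_zero] at h2
  have h3 := h2.eventually (gt_mem_nhds hη)
  filter_upwards [h3] with t ht
  have e : 2 * C * (((t + 1 : ℕ) : ℝ) ^ j / (2 : ℝ) ^ (t + 1)) = C * ((t : ℝ) + 1) ^ j / 2 ^ t := by
    rw [pow_succ]
    push_cast
    field_simp
  have ht' : 2 * C * (((t + 1 : ℕ) : ℝ) ^ j / (2 : ℝ) ^ (t + 1)) < η := ht
  rw [e] at ht'
  exact ht'.le

/-- The size of the modified AND parts. -/
def kk (u v q t : ℕ) : ℕ := v * ((q + 1) * (u * (t + 1)))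

def rr (R0 u v q t : ℕ) : ℕ := R0 * kk u v q t ^ 2

def cb (m r n : ℕ) : ℕ := n / (m * (2 * r + 2))

theorem rr_le (R0 u v q t : ℕ) :
    rr R0 u v q t = R0 * (v * ((q + 1) * u)) ^ 2 * (t + 1) ^ 2 := by
  unfold rr kk; ring

theorem den_le (m R0 u v q t : ℕ) : m * (2 * rr R0 u v q t + 2) ≤
    m * (2 * (R0 * (v * ((q + 1) * u)) ^ 2) + 2) * (t + 1) ^ 2 := by
  rw [rr_le]
  have h : 1 ≤ (t + 1) ^ 2 := Nat.one_le_pow _ _ (by omega)
  have : 2 * (R0 * (v * ((q + 1) * u)) ^ 2 * (t + 1) ^ 2) + 2 ≤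
      (2 * (R0 * (v * ((q + 1) * u)) ^ 2) + 2) * (t + 1) ^ 2 := by
    nlinarith
  calc _ ≤ m * ((2 * (R0 * (v * ((q + 1) * u)) ^ 2) + 2) * (t + 1) ^ 2) :=
        Nat.mul_le_mul_left _ this
    _ = _ := by ring

theorem two_bern (v x : ℕ) (hv : 1 ≤ v) : 2 ^ x * v ^ (v * x + 1) ≤ (v + 1) ^ (v * x + 1) := by
  have h1 : 2 * v ^ v ≤ (v + 1) ^ v := by
    have h : (1 : ℝ) + v * (1 / v) ≤ (1 + 1 / v) ^ v :=
      one_add_mul_le_pow (by
        have : (0 : ℝ) ≤ 1 / v := by positivity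
        linarith) v
    have hv' : (0 : ℝ) < v := by exact_mod_cast hv
    have e1 : (1 : ℝ) + v * (1 / v) = 2 := by field_simp; norm_num
    have e2 : (1 + 1 / v : ℝ) ^ v = (v + 1) ^ v / v ^ v := by
      rw [← div_pow]; congr 1; field_simp
    rw [e1, e2, le_div_iff₀ (by positivity)] at h
    exact_mod_cast h
  calc 2 ^ x * v ^ (v * x + 1) = (2 * v ^ v) ^ x * v := by rw [mul_pow, ← pow_mul, pow_succ]; ring
    _ ≤ ((v + 1) ^ v) ^ x * (v + 1) := by gcongr; omega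
    _ = _ := by rw [← pow_mul, pow_succ]

theorem first_term (s v t : ℕ) (hv : 1 ≤ v) (hs : s ≤ 2 ^ ((t + 1) * (v - 1))) :
    (s : ℝ) / 2 ^ (v * t + 1) ≤ 2 ^ v / 2 ^ t := by
  have hs' : (s : ℝ) ≤ 2 ^ ((t + 1) * (v - 1)) := by exact_mod_cast hs
  rw [div_le_div_iff₀ (by positivity) (by positivity)]
  calc (s : ℝ) * 2 ^ t ≤ 2 ^ ((t + 1) * (v - 1)) * 2 ^ t := by gcongr
    _ = 2 ^ ((t + 1) * (v - 1) + t) := (pow_add _ _ _).symm
    _ ≤ 2 ^ (v + (v * t + 1)) := by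
        apply pow_le_pow_right₀ (by norm_num)
        obtain ⟨w, rfl⟩ : ∃ w, v = w + 1 := ⟨v - 1, by omega⟩
        have : (t + 1) * (w + 1 - 1) = t * w + w := by
          rw [Nat.add_sub_cancel]; ring
        rw [this]
        have : (w + 1) * t = t * w + t := by ring
        omega
    _ = 2 ^ v * 2 ^ (v * t + 1) := pow_add _ _ _

theorem cb_lower (m R0 u v q : ℕ) (hm : 0 < m) (hu : 1 ≤ u) :
    ∀ᶠ t : ℕ in Filter.atTop, ∀ n : ℕ, 2 ^ (u * t) ≤ n →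
      0 < cb m (rr R0 u v q t) n ∧
      (n : ℝ) / (2 * (m * (2 * (R0 * (v * ((q + 1) * u)) ^ 2) + 2) : ℕ) * ((t : ℝ) + 1) ^ 2) ≤
        cb m (rr R0 u v q t) n := by
  set B := m * (2 * (R0 * (v * ((q + 1) * u)) ^ 2) + 2) with hB
  have hBpos : 0 < B := Nat.mul_pos hm (by omega)
  have e1 := ev_poly_two (2 * B) 1 2 one_pos
  filter_upwards [e1] with t f1 n hn
  rw [div_le_one (by positivity)] at f1
  have h2t : 2 ^ t ≤ n := le_trans (Nat.pow_le_pow_right (by norm_num) (by nlinarith)) hn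
  have h2t' : (2 : ℝ) ^ t ≤ n := by exact_mod_cast h2t
  set A := m * (2 * rr R0 u v q t + 2) with hA
  have hApos : 0 < A := Nat.mul_pos hm (by omega)
  have hAB : A ≤ B * (t + 1) ^ 2 := den_le m R0 u v q t
  have hAB' : (A : ℝ) ≤ B * ((t : ℝ) + 1) ^ 2 := by exact_mod_cast hAB
  have hA2 : (2 * A : ℝ) ≤ n := by
    calc (2 * A : ℝ) ≤ 2 * (B * ((t : ℝ) + 1) ^ 2) := by gcongr
      _ = 2 * B * ((t : ℝ) + 1) ^ 2 := by ring
      _ ≤ 2 ^ t := f1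
      _ ≤ n := h2t'
  have hA3 : 2 * A ≤ n := by exact_mod_cast hA2
  constructor
  · exact Nat.div_pos (by omega) hApos
  · have h1 := div_lower n A hApos hA3
    refine le_trans ?_ h1
    have hApos' : (0 : ℝ) < A := by exact_mod_cast hApos
    apply div_le_div_of_nonneg_left (by positivity) (by positivity)
    calc (2 * A : ℝ) ≤ 2 * (B * ((t : ℝ) + 1) ^ 2) := by gcongr
      _ = 2 * B * ((t : ℝ) + 1) ^ 2 := by ring

/-- The first part. -/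
theorem part_one'' (η : ℝ) (hη : 0 < η) (m R0 u v q : ℕ) (hm : 0 < m) (hu : 1 ≤ u) (hv : 1 ≤ v)
    (hvu : v + 2 ≤ 3 * u) :
    ∀ᶠ t : ℕ in Filter.atTop, ∀ n s : ℕ, 2 ^ (u * t) ≤ n → s ≤ 2 ^ ((t + 1) * (v - 1)) →
      (2 ^ 3) ^ m * bad s (v * t) 2 (m * 3) (cb m (rr R0 u v q t) n) ≤ η := by
  set B0 := m * (2 * (R0 * (v * ((q + 1) * u)) ^ 2) + 2) with hB0
  set B : ℝ := 2 * (B0 : ℝ) with hB
  have hB0pos : 0 < B0 := Nat.mul_pos hm (by omega)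
  have hBpos : 0 < B := by
    have : (0 : ℝ) < B0 := by exact_mod_cast hB0pos
    rw [hB]; linarith
  set G : ℝ := (2 ^ 3) ^ m with hG
  set H : ℝ := 4 ^ (m * 3) with hH
  have hGpos : 0 < G := by rw [hG]; positivity
  have hHpos : 0 < H := by rw [hH]; positivity
  have hm1 : (1 : ℝ) ≤ m := by exact_mod_cast hm
  have hv' : (0 : ℝ) < v := by exact_mod_cast hv
  set C1 : ℝ := 13 * m * B ^ 2 * H * (v : ℝ) ^ 3 + 3 * B ^ 3 * 2 ^ (3 * u) * H * (v : ℝ) ^ 3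
    with hC1
  have hC1pos : 0 < C1 := by rw [hC1]; positivity
  have e1 := ev_poly_two (G * C1) (η / 2) 9 (by positivity)
  have e2 := ev_poly_two (G * 2 ^ v) (η / 2) 0 (by positivity)
  have e3 := cb_lower m R0 u v q hm hu
  filter_upwards [e1, e2, e3, Filter.eventually_ge_atTop 1] with t f1 f2 f3 ht1 n s hn hs
  obtain ⟨hb0, hb1⟩ := f3 n hn
  rw [← hB0] at hb1
  have ht0 : (0 : ℝ) < (t : ℝ) + 1 := by positivity
  have ht1' : (1 : ℝ) ≤ (t : ℝ) + 1 := by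
    have : (0 : ℝ) ≤ t := by positivity
    linarith
  have hp1 : 1 ≤ v * t := Nat.mul_pos hv ht1
  have h2t : 2 ^ t ≤ n := le_trans (Nat.pow_le_pow_right (by norm_num) (by nlinarith)) hn
  have h2t' : (2 : ℝ) ^ t ≤ n := by exact_mod_cast h2t
  have hnpos : (0 : ℝ) < n := lt_of_lt_of_le (by positivity) h2t'
  have hn1 : (1 : ℝ) ≤ n := le_trans (one_le_pow₀ (by norm_num)) h2t'
  have hb := bad_le s (v * t) 2 (m * 3) (cb m (rr R0 u v q t) n) hp1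
  set K : ℝ := (cb m (rr R0 u v q t) n : ℝ) with hK
  have hKpos : 0 < K := by rw [hK]; exact_mod_cast hb0
  have hK1 : 1 ≤ K := by rw [hK]; exact_mod_cast hb0
  have hKinv : 1 / K ≤ B * ((t : ℝ) + 1) ^ 2 / n := by
    rw [div_le_div_iff₀ hKpos hnpos]
    have h5 : (n : ℝ) ≤ K * (B * ((t : ℝ) + 1) ^ 2) := by
      rw [div_le_iff₀ (by positivity)] at hb1
      exact hb1
    linarith
  have hs' : (s : ℝ) ≤ 2 ^ ((t + 1) * (v - 1)) := by exact_mod_cast hs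
  have hsn : (s : ℝ) / (n : ℝ) ^ 3 ≤ 2 ^ (3 * u) / 2 ^ t := by
    have hn3 : (2 : ℝ) ^ (3 * (u * t)) ≤ (n : ℝ) ^ 3 := by
      have : (2 : ℝ) ^ (u * t) ≤ n := by exact_mod_cast hn
      rw [mul_comm 3, pow_mul]
      gcongr
    rw [div_le_div_iff₀ (by positivity) (by positivity)]
    calc (s : ℝ) * 2 ^ t ≤ 2 ^ ((t + 1) * (v - 1)) * 2 ^ t := by gcongr
      _ = 2 ^ ((t + 1) * (v - 1) + t) := (pow_add _ _ _).symm
      _ ≤ 2 ^ (3 * u + 3 * (u * t)) := by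
          apply pow_le_pow_right₀ (by norm_num)
          obtain ⟨w, hw⟩ : ∃ w, v = w + 1 := ⟨v - 1, by omega⟩
          subst hw
          rw [Nat.add_sub_cancel]
          have h6 : w + 3 ≤ 3 * u := by omega
          have h7 : (t + 1) * (w + 3) ≤ (t + 1) * (3 * u) := Nat.mul_le_mul_left _ h6
          have h8 : (t + 1) * (w + 3) = (t + 1) * w + 3 * t + 3 := by ring
          have h9 : (t + 1) * (3 * u) = 3 * (u * t) + 3 * u := by ring
          omega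
      _ = 2 ^ (3 * u) * 2 ^ (3 * (u * t)) := pow_add _ _ _
      _ ≤ 2 ^ (3 * u) * (n : ℝ) ^ 3 := by gcongr
  have hmain : (4 * (((m * 3 : ℕ) : ℝ) * K) + 1 + 3 * s) * 4 ^ (m * 3) *
      ((v * t : ℕ) : ℝ) ^ (2 + 1) / K ^ (2 + 1) ≤ C1 * ((t : ℝ) + 1) ^ 9 / 2 ^ t := by
    have g1 : (4 * (((m * 3 : ℕ) : ℝ) * K) + 1) ≤ 13 * m * K := by
      push_cast
      have : 1 ≤ (m : ℝ) * K := one_le_mul_of_one_le_of_one_le hm1 hK1
      nlinarith
    have g2 : ((v * t : ℕ) : ℝ) ^ (2 + 1) ≤ (v : ℝ) ^ 3 * ((t : ℝ) + 1) ^ 3 := by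
      rw [← mul_pow]
      have : ((v * t : ℕ) : ℝ) ≤ v * ((t : ℝ) + 1) := by
        push_cast
        nlinarith
      gcongr
    have g3 : 1 / K ^ 2 ≤ (B * ((t : ℝ) + 1) ^ 2 / n) ^ 2 := by
      rw [← one_div_pow]; gcongr
    have g4 : 1 / K ^ 3 ≤ (B * ((t : ℝ) + 1) ^ 2 / n) ^ 3 := by
      rw [← one_div_pow]; gcongr
    have g5 : 1 / (n : ℝ) ^ 2 ≤ 1 / 2 ^ t := by
      apply div_le_div_of_nonneg_left (by norm_num) (by positivity)
      calc (2 : ℝ) ^ t ≤ n := h2t'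
        _ = (n : ℝ) ^ 1 := (pow_one _).symm
        _ ≤ (n : ℝ) ^ 2 := pow_le_pow_right₀ hn1 (by norm_num)
    calc _ ≤ (13 * m * K + 3 * s) * H * ((v : ℝ) ^ 3 * ((t : ℝ) + 1) ^ 3) / K ^ (2 + 1) := by
          rw [← hH]; gcongr
      _ = 13 * m * H * (v : ℝ) ^ 3 * ((t : ℝ) + 1) ^ 3 * (1 / K ^ 2) +
          3 * H * (v : ℝ) ^ 3 * ((t : ℝ) + 1) ^ 3 * s * (1 / K ^ 3) := by
          field_simp
      _ ≤ 13 * m * H * (v : ℝ) ^ 3 * ((t : ℝ) + 1) ^ 3 * (B * ((t : ℝ) + 1) ^ 2 / n) ^ 2 +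
          3 * H * (v : ℝ) ^ 3 * ((t : ℝ) + 1) ^ 3 * s * (B * ((t : ℝ) + 1) ^ 2 / n) ^ 3 := by
          gcongr
      _ = 13 * m * B ^ 2 * H * (v : ℝ) ^ 3 * ((t : ℝ) + 1) ^ 7 * (1 / (n : ℝ) ^ 2) +
          3 * B ^ 3 * H * (v : ℝ) ^ 3 * ((t : ℝ) + 1) ^ 9 * (s / (n : ℝ) ^ 3) := by
          field_simp
      _ ≤ 13 * m * B ^ 2 * H * (v : ℝ) ^ 3 * ((t : ℝ) + 1) ^ 9 * (1 / 2 ^ t) +
          3 * B ^ 3 * H * (v : ℝ) ^ 3 * ((t : ℝ) + 1) ^ 9 * (2 ^ (3 * u) / 2 ^ t) := by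
          have : ((t : ℝ) + 1) ^ 7 ≤ ((t : ℝ) + 1) ^ 9 := pow_le_pow_right₀ ht1' (by norm_num)
          gcongr
      _ = C1 * ((t : ℝ) + 1) ^ 9 / 2 ^ t := by
          rw [hC1]; ring
  have h1 := first_term s v t hv hs
  have h2 := mul_le_mul_of_nonneg_left (hb.trans (add_le_add h1 hmain)) hGpos.le
  refine h2.trans ?_
  rw [mul_add]
  have e5 : G * (2 ^ v / 2 ^ t) ≤ η / 2 := by
    refine le_trans (le_of_eq ?_) f2
    rw [pow_zero]; ring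
  have e6 : G * (C1 * ((t : ℝ) + 1) ^ 9 / 2 ^ t) ≤ η / 2 := by
    refine le_trans (le_of_eq ?_) f1
    ring
  linarith

/-- The second part. -/
theorem part_two'' (η : ℝ) (hη : 0 < η) (m R0 u v q : ℕ) (hu : 1 ≤ u) (hv : 1 ≤ v)
    (hvu : v + 2 ≤ (q + 1) * u) :
    ∀ᶠ t : ℕ in Filter.atTop, ∀ s : ℕ, s ≤ 2 ^ ((t + 1) * (v - 1)) →
      bad2 s (v * t) (kk u v q t) (m * rr R0 u v q t) ((v + 1) * t) ≤ η := by
  set K0 : ℝ := ((v * ((q + 1) * u) : ℕ) : ℝ) with hK0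
  set C1 : ℝ := 1 + (4 * (m * (R0 * K0 ^ 2) * (v + 1)) + 3) * (8 * K0) with hC1
  have hv' : (0 : ℝ) < v := by exact_mod_cast hv
  have hK0pos : 0 < K0 := by
    rw [hK0]
    have : 0 < v * ((q + 1) * u) := by positivity
    exact_mod_cast this
  have hC1pos : 0 < C1 := by rw [hC1]; positivity
  have e1 := ev_poly_two C1 (η / 2) 4 (by positivity)
  have e2 := ev_poly_two (2 ^ v) (η / 2) 0 (by positivity)
  filter_upwards [e1, e2, Filter.eventually_ge_atTop 1] with t f1 f2 ht1 s hs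
  have ht0 : (0 : ℝ) < (t : ℝ) + 1 := by positivity
  have ht1' : (1 : ℝ) ≤ (t : ℝ) + 1 := by
    have : (0 : ℝ) ≤ t := by positivity
    linarith
  have hp1 : 1 ≤ v * t := Nat.mul_pos hv ht1
  have hp1' : (1 : ℝ) ≤ ((v * t : ℕ) : ℝ) := by exact_mod_cast hp1
  set x := (q + 1) * (u * (t + 1)) with hx
  have hkx : kk u v q t = v * x := rfl
  set p : ℝ := ((v * t : ℕ) : ℝ) with hp
  set kr : ℝ := (kk u v q t : ℝ) with hkr
  have hkrK : kr = K0 * ((t : ℝ) + 1) := by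
    rw [hkr, hK0]
    unfold kk
    push_cast
    ring
  have hkpos : 0 < kr := by rw [hkrK]; positivity
  have hppos : 0 < p ^ (kk u v q t + 1) := by positivity
  have hκ : p ^ (kk u v q t + 1) * 2 ^ x ≤ (((v + 1) * t : ℕ) : ℝ) ^ (kk u v q t + 1) := by
    have h1 := two_bern v x hv
    have h2 : (v * t) ^ (v * x + 1) * 2 ^ x ≤ ((v + 1) * t) ^ (v * x + 1) := by
      rw [mul_pow, mul_pow]
      calc v ^ (v * x + 1) * t ^ (v * x + 1) * 2 ^ x =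
            (2 ^ x * v ^ (v * x + 1)) * t ^ (v * x + 1) := by ring
        _ ≤ (v + 1) ^ (v * x + 1) * t ^ (v * x + 1) := Nat.mul_le_mul_right _ h1
    rw [hkx, hp]
    exact_mod_cast h2
  have hs' : (s : ℝ) ≤ 2 ^ ((t + 1) * (v - 1)) := by exact_mod_cast hs
  have hx2 : (2 : ℝ) ^ t ≤ 2 ^ x := by
    apply pow_le_pow_right₀ (by norm_num)
    rw [hx]
    nlinarith
  have hsx : (s : ℝ) / 2 ^ x ≤ 1 / 2 ^ t := by
    rw [div_le_div_iff₀ (by positivity) (by positivity)]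
    calc (s : ℝ) * 2 ^ t ≤ 2 ^ ((t + 1) * (v - 1)) * 2 ^ t := by gcongr
      _ = 2 ^ ((t + 1) * (v - 1) + t) := (pow_add _ _ _).symm
      _ ≤ 2 ^ x := by
          apply pow_le_pow_right₀ (by norm_num)
          obtain ⟨w, hw⟩ : ∃ w, v = w + 1 := ⟨v - 1, by omega⟩
          subst hw
          rw [Nat.add_sub_cancel, hx]
          have h7 : (t + 1) * (w + 3) ≤ (t + 1) * ((q + 1) * u) :=
            Nat.mul_le_mul_left _ (by omega)
          have h8 : (t + 1) * (w + 3) = (t + 1) * w + 3 * t + 3 := by ring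
          have h9 : (t + 1) * ((q + 1) * u) = (q + 1) * (u * (t + 1)) := by ring
          omega
      _ = 1 * 2 ^ x := (one_mul _).symm
  set M : ℝ := 4 * (((m * rr R0 u v q t : ℕ) : ℝ) * (((v + 1) * t : ℕ) : ℝ)) + 1 + 2 * s with hM
  have hMpos : 0 < M := by rw [hM]; positivity
  have hpp : p ≤ p ^ (kk u v q t + 1) := by
    calc p = p ^ 1 := (pow_one _).symm
      _ ≤ p ^ (kk u v q t + 1) := pow_le_pow_right₀ hp1' (by omega)
  have hsecond : (s * p + M * (8 * kr * p ^ (kk u v q t + 1))) /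
      (((v + 1) * t : ℕ) : ℝ) ^ (kk u v q t + 1) ≤ (s + M * (8 * kr)) / 2 ^ x := by
    calc _ ≤ (s * p ^ (kk u v q t + 1) + M * (8 * kr * p ^ (kk u v q t + 1))) /
          (p ^ (kk u v q t + 1) * 2 ^ x) := by gcongr
      _ = (s + M * (8 * kr)) / 2 ^ x := by
          have : (s * p ^ (kk u v q t + 1) + M * (8 * kr * p ^ (kk u v q t + 1))) =
            p ^ (kk u v q t + 1) * (s + M * (8 * kr)) := by ring
          rw [this, mul_div_mul_left _ _ hppos.ne']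
  have hM2 : M ≤ 4 * (m * (R0 * K0 ^ 2) * (v + 1)) * ((t : ℝ) + 1) ^ 3 + 1 + 2 * s := by
    rw [hM]
    have h1 : ((m * rr R0 u v q t : ℕ) : ℝ) = m * (R0 * K0 ^ 2) * ((t : ℝ) + 1) ^ 2 := by
      rw [rr_le, hK0]; push_cast; ring
    have h2 : (((v + 1) * t : ℕ) : ℝ) ≤ (v + 1) * ((t : ℝ) + 1) := by
      push_cast
      nlinarith
    have h3 : ((m * rr R0 u v q t : ℕ) : ℝ) * (((v + 1) * t : ℕ) : ℝ) ≤
        m * (R0 * K0 ^ 2) * (v + 1) * ((t : ℝ) + 1) ^ 3 := by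
      rw [h1]
      calc _ ≤ (m * (R0 * K0 ^ 2) * ((t : ℝ) + 1) ^ 2) * ((v + 1) * ((t : ℝ) + 1)) := by gcongr
        _ = _ := by ring
    linarith
  have hthird : (s + M * (8 * kr)) / 2 ^ x ≤ C1 * ((t : ℝ) + 1) ^ 4 / 2 ^ t := by
    have h1 : (s + M * (8 * kr)) / 2 ^ x = s / 2 ^ x + (M / 2 ^ x) * (8 * kr) := by ring
    have h2 : M / 2 ^ x ≤ (4 * (m * (R0 * K0 ^ 2) * (v + 1)) * ((t : ℝ) + 1) ^ 3 + 1) / 2 ^ t +
        2 * (1 / 2 ^ t) := by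
      calc M / 2 ^ x ≤ (4 * (m * (R0 * K0 ^ 2) * (v + 1)) * ((t : ℝ) + 1) ^ 3 + 1 + 2 * s) /
            2 ^ x := by gcongr
        _ = (4 * (m * (R0 * K0 ^ 2) * (v + 1)) * ((t : ℝ) + 1) ^ 3 + 1) / 2 ^ x +
            2 * (s / 2 ^ x) := by ring
        _ ≤ _ := by gcongr
    have h3 : (1 : ℝ) ≤ ((t : ℝ) + 1) ^ 3 := one_le_pow₀ ht1'
    have h4 : (1 : ℝ) ≤ ((t : ℝ) + 1) ^ 4 := one_le_pow₀ ht1'
    rw [h1, hkrK]
    calc s / 2 ^ x + (M / 2 ^ x) * (8 * (K0 * ((t : ℝ) + 1)))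
        ≤ 1 / 2 ^ t + ((4 * (m * (R0 * K0 ^ 2) * (v + 1)) * ((t : ℝ) + 1) ^ 3 + 1) / 2 ^ t +
        2 * (1 / 2 ^ t)) * (8 * (K0 * ((t : ℝ) + 1))) := by gcongr
      _ ≤ ((t : ℝ) + 1) ^ 4 / 2 ^ t + ((4 * (m * (R0 * K0 ^ 2) * (v + 1)) * ((t : ℝ) + 1) ^ 3 +
        ((t : ℝ) + 1) ^ 3) / 2 ^ t + 2 * (((t : ℝ) + 1) ^ 3 / 2 ^ t)) *
          (8 * (K0 * ((t : ℝ) + 1))) := by gcongr
      _ = C1 * ((t : ℝ) + 1) ^ 4 / 2 ^ t := by rw [hC1]; ring
  unfold bad2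
  have hcast : (4 * (((m * rr R0 u v q t : ℕ) : ℝ) * (((v + 1) * t : ℕ) : ℝ)) + 1 + 2 * s) = M :=
    rfl
  rw [hcast]
  have h1 := first_term s v t hv hs
  have e5 : (2 : ℝ) ^ v / 2 ^ t ≤ η / 2 := by
    refine le_trans (le_of_eq ?_) f2
    rw [pow_zero]; ring
  have e6 := hsecond.trans (hthird.trans f1)
  linarith

/-- The parameters. -/
theorem sum_params (ε : ℝ) (hε : 0 < ε) (q u v : ℕ) (hq : 3 ≤ q) (hq4 : q ≤ 4) (hu : 2 ≤ u)
    (hv : v + 2 = u * (q - 1)) :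
    ∃ m R0 T : ℕ, 0 < m ∧ 0 < R0 ∧ ∀ t ≥ T, ∀ n : ℕ, 2 ^ (u * t) ≤ n → n < 2 ^ (u * (t + 1)) →
      1 ≤ v * t ∧ 0 < kk u v q t ∧ 0 < rr R0 u v q t ∧ 0 < cb m (rr R0 u v q t) n ∧
      n ≤ 2 ^ ((v + 1) * t) ∧
      2 ^ ((v + 1) * t + (Nat.clog 2 n + 1 + (3 +
        Nat.clog 2 (16 * ((2 * m) * ((2 * m) * (rr R0 u v q t + 1))))))) ≤ n ^ q ∧
      ∀ s : ℕ, s ≤ 2 ^ ((t + 1) * (v - 1)) →
        er1 s (v * t) 2 m 3 (cb m (rr R0 u v q t) n) +
          er2 s (v * t) (kk u v q t) m (rr R0 u v q t) ((v + 1) * t) + err3 m 3 ≤ 5 * ε / 4 := by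
  have hv1 : 1 ≤ v := by
    have : 2 * 2 ≤ u * (q - 1) := Nat.mul_le_mul hu (by omega)
    omega
  have hvu3 : v + 2 ≤ 3 * u := by
    rw [hv, mul_comm]
    exact Nat.mul_le_mul_right _ (by omega)
  have hvuq : v + 2 ≤ (q + 1) * u := by
    rw [hv, mul_comm]
    exact Nat.mul_le_mul_right _ (by omega)
  obtain ⟨m, hm⟩ := exists_nat_ge (192 / ε + 112 / ε ^ 2 + 1)
  have hm0 : 0 < 192 / ε := by positivity
  have hm0' : 0 < 112 / ε ^ 2 := by positivity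
  have hmpos : 0 < m := by
    have : (0 : ℝ) < m := by linarith
    exact_mod_cast this
  obtain ⟨R0, hR⟩ := exists_nat_ge (32 / ε + 1)
  have hr0 : 0 < 32 / ε := by positivity
  have hRpos : 0 < R0 := by
    have : (0 : ℝ) < R0 := by linarith
    exact_mod_cast this
  have h1 := part_one'' (ε / 4) (by positivity) m R0 u v q hmpos (by omega) hv1 hvu3
  have h2 := part_two'' (ε / 4) (by positivity) m R0 u v q (by omega) hv1 hvuq
  have h3 := cb_lower m R0 u v q hmpos (by omega)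
  set K1 := v * ((q + 1) * u) with hK1
  have h4 := ev_poly_two (((64 * (64 * m ^ 2 * (R0 * K1 ^ 2 + 1)) : ℕ) : ℝ)) 1 2 one_pos
  obtain ⟨T, hT⟩ := Filter.eventually_atTop.mp (h1.and (h2.and (h3.and h4)))
  refine ⟨m, R0, max T 2, hmpos, hRpos, ?_⟩
  intro t ht n hn hn'
  obtain ⟨a1, a2, a3, a4⟩ := hT t ((le_max_left _ _).trans ht)
  have ht2 : 2 ≤ t := (le_max_right _ _).trans ht
  have hkpos : 0 < kk u v q t := by unfold kk; positivity
  have hrpos : 0 < rr R0 u v q t := by unfold rr; positivity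
  have h2t : 2 ^ t ≤ n := le_trans (Nat.pow_le_pow_right (by norm_num) (by nlinarith)) hn
  have hn2 : 2 ≤ n := by
    calc 2 = 2 ^ 1 := rfl
      _ ≤ 2 ^ t := Nat.pow_le_pow_right (by norm_num) (by omega)
      _ ≤ n := h2t
  refine ⟨Nat.mul_pos hv1 (by omega), hkpos, hrpos, (a3 n hn).1, ?_, ?_, ?_⟩
  · refine hn'.le.trans (Nat.pow_le_pow_right (by norm_num) ?_)
    have h5 : 2 * u ≤ v + 2 := by
      rw [hv, mul_comm]; exact Nat.mul_le_mul_left _ (by omega)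
    obtain ⟨w, hw⟩ : ∃ w, v + 1 = u + w ∧ u ≤ w + 1 := ⟨v + 1 - u, by omega, by omega⟩
    rw [hw.1]
    have h6 : u ≤ w * t := by
      calc u ≤ w + 1 := hw.2
        _ ≤ w * 2 := by omega
        _ ≤ w * t := Nat.mul_le_mul_left _ ht2
    have h7 : (u + w) * t = u * t + w * t := by ring
    have h8 : u * (t + 1) = u * t + u := by ring
    omega
  · set T' := 16 * ((2 * m) * ((2 * m) * (rr R0 u v q t + 1))) with hT'
    have hT2 : 2 ≤ T' := by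
      rw [hT']
      have : 1 ≤ (2 * m) * ((2 * m) * (rr R0 u v q t + 1)) := by
        have : 0 < (2 * m) * ((2 * m) * (rr R0 u v q t + 1)) := by positivity
        omega
      omega
    have c1 : 2 ^ Nat.clog 2 n ≤ 2 * n := by
      have h1 : 2 ^ (Nat.clog 2 n).pred < n := Nat.pow_pred_clog_lt_self (by norm_num) (by omega)
      have hc : 0 < Nat.clog 2 n := Nat.clog_pos (by norm_num) (by omega)
      obtain ⟨t, ht⟩ : ∃ t, Nat.clog 2 n = t + 1 := ⟨Nat.clog 2 n - 1, by omega⟩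
      rw [ht] at h1 ⊢
      rw [Nat.pred_succ] at h1
      rw [pow_succ]
      omega
    have c2 : 2 ^ Nat.clog 2 T' ≤ 2 * T' := by
      have h1 : 2 ^ (Nat.clog 2 T').pred < T' :=
        Nat.pow_pred_clog_lt_self (by norm_num) (by omega)
      have hc : 0 < Nat.clog 2 T' := Nat.clog_pos (by norm_num) (by omega)
      obtain ⟨t, ht⟩ : ∃ t, Nat.clog 2 T' = t + 1 := ⟨Nat.clog 2 T' - 1, by omega⟩
      rw [ht] at h1 ⊢
      rw [Nat.pred_succ] at h1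
      rw [pow_succ]
      omega
    have c3 : 64 * T' ≤ 2 ^ t := by
      rw [div_le_one (by positivity)] at a4
      have h5 : 64 * (64 * m ^ 2 * (R0 * K1 ^ 2 + 1)) * (t + 1) ^ 2 ≤ 2 ^ t := by
        exact_mod_cast a4
      refine le_trans ?_ h5
      rw [hT', rr_le, ← hK1]
      have h6 : 1 ≤ (t + 1) ^ 2 := Nat.one_le_pow _ _ (by omega)
      have h7 : R0 * K1 ^ 2 * (t + 1) ^ 2 + 1 ≤ (R0 * K1 ^ 2 + 1) * (t + 1) ^ 2 := by
        rw [add_mul]; omega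
      calc 64 * (16 * (2 * m * (2 * m * (R0 * K1 ^ 2 * (t + 1) ^ 2 + 1)))) =
            64 * (64 * m ^ 2) * (R0 * K1 ^ 2 * (t + 1) ^ 2 + 1) := by ring
        _ ≤ 64 * (64 * m ^ 2) * ((R0 * K1 ^ 2 + 1) * (t + 1) ^ 2) := Nat.mul_le_mul_left _ h7
        _ = _ := by ring
    have c4 : 2 ^ ((v + 1) * t) * 2 ^ t ≤ n ^ (q - 1) := by
      calc 2 ^ ((v + 1) * t) * 2 ^ t = 2 ^ ((v + 2) * t) := by rw [← pow_add]; congr 1; ring
        _ = (2 ^ (u * t)) ^ (q - 1) := by rw [hv, ← pow_mul]; congr 1; ring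
        _ ≤ n ^ (q - 1) := Nat.pow_le_pow_left hn _
    calc 2 ^ ((v + 1) * t + (Nat.clog 2 n + 1 + (3 + Nat.clog 2 T')))
        = 2 ^ ((v + 1) * t) * (2 ^ Nat.clog 2 n * 2 * (8 * 2 ^ Nat.clog 2 T')) := by
          rw [pow_add, pow_add, pow_add, pow_add]; norm_num
      _ ≤ 2 ^ ((v + 1) * t) * ((2 * n) * 2 * (8 * (2 * T'))) := by gcongr
      _ = 2 ^ ((v + 1) * t) * (64 * T') * n := by ring
      _ ≤ 2 ^ ((v + 1) * t) * 2 ^ t * n := by gcongr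
      _ ≤ n ^ (q - 1) * n := by gcongr
      _ = n ^ q := by rw [← pow_succ]; congr 1; omega
  · intro s hs
    have b1 := a1 n s hn hs
    have b2 := a2 s hs
    have hmr : (0 : ℝ) < m := by exact_mod_cast hmpos
    have hrr : (0 : ℝ) < R0 := by exact_mod_cast hRpos
    have c1 : (2 : ℝ) ^ 3 * ((2 * (2 * 2 - 1) : ℕ) : ℝ) / m ≤ ε / 4 := by
      rw [div_le_iff₀ hmr]
      have : 192 / ε ≤ m := by linarith
      rw [div_le_iff₀ hε] at this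
      norm_num
      linarith
    have c2 : ((8 * kk u v q t ^ 2 : ℕ) : ℝ) / ((rr R0 u v q t : ℕ) : ℝ) ≤ ε / 4 := by
      unfold rr
      have hc' : (0 : ℝ) < (kk u v q t : ℝ) ^ 2 := by
        have : (0 : ℝ) < (kk u v q t : ℝ) := by exact_mod_cast hkpos
        positivity
      push_cast
      rw [mul_div_mul_right _ _ hc'.ne', div_le_iff₀ hrr]
      have : 32 / ε ≤ R0 := by linarith
      rw [div_le_iff₀ hε] at this
      linarith
    have c3 : err3 m 3 ≤ ε / 4 := by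
      unfold err3
      rw [div_le_iff₀ hmr]
      apply Real.sqrt_le_iff.mpr
      refine ⟨by positivity, ?_⟩
      have h5 : 112 / ε ^ 2 ≤ m := by linarith
      rw [div_le_iff₀ (by positivity)] at h5
      nlinarith
    unfold er1 er2
    linarith

end Pool.Agent.H596R2.D3R
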