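import Mathlib

/-!
Averages over functions: resampling one coordinate.
-/

namespace Pool.Agent.H596R2.D3R

open Finset Classical

set_option linter.unusedSectionVars false

variable {E S : Type} [Fintype E] [Fintype S]

theorem resample (e : E) (f : (E → S) → ℝ) :
    ∑ ρ : E → S, ∑ c : S, f (Function.update ρ e c) = (Fintype.card S : ℝ) * ∑ ρ, f ρ := by
  let φ : (E → S) × S → (E → S) × S := fun x => (Function.update x.1 e x.2, x.1 e)
  have hφ : Function.Involutive φ := by
    rintro ⟨ρ, c⟩
    simp [φ]
  have h1 : ∑ ρ : E → S, ∑ c : S, f (Function.update ρ e c) =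
      ∑ x : (E → S) × S, f (φ x).1 := by
    rw [Fintype.sum_prod_type]
  have h2 : ∑ x : (E → S) × S, f (φ x).1 = ∑ x : (E → S) × S, f x.1 :=
    Equiv.sum_comp (hφ.toPerm φ) (fun x : (E → S) × S => f x.1)
  rw [h1, h2, Fintype.sum_prod_type, mul_sum]
  apply sum_congr rfl
  intro ρ _
  simp

theorem forced (e : E) (s : S) (f : (E → S) → ℝ) :
    ∑ σ : E → S, f (Function.update σ e s) =
      (Fintype.card S : ℝ) * ∑ σ, (if σ e = s then f σ else 0) := by
  rw [← resample e]
  apply sum_congr rfl
  intro σ _
  have : ∀ c : S, (if Function.update σ e c e = s then f (Function.update σ e c) else 0) =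
      if c = s then f (Function.update σ e s) else 0 := by
    intro c
    rw [Function.update_self]
    split_ifs with h
    · rw [h]
    · rfl
  rw [sum_congr rfl (fun c _ => this c)]
  simp

/-- The centred indicator. -/
noncomputable def cen (s : S) (e : E) (σ : E → S) : ℝ :=
  (Fintype.card S : ℝ) * (if σ e = s then 1 else 0) - 1

theorem cen_upd_self (s : S) (e : E) (σ : E → S) (c : S) :
    cen s e (Function.update σ e c) = (Fintype.card S : ℝ) * (if c = s then 1 else 0) - 1 := by
  unfold cen
  rw [Function.update_self]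

theorem cen_upd_ne (s : S) (e e' : E) (h : e' ≠ e) (σ : E → S) (c : S) :
    cen s e' (Function.update σ e c) = cen s e' σ := by
  unfold cen
  rw [Function.update_of_ne h]

theorem cen_mul (s : S) (e e' : E) (h : e' ≠ e) : ∑ σ : E → S, cen s e σ * cen s e' σ = 0 := by
  have hq : (Fintype.card S : ℝ) ≠ 0 := by
    have : 0 < Fintype.card S := Fintype.card_pos_iff.mpr ⟨s⟩
    positivity
  have h1 := resample e (fun σ => cen s e σ * cen s e' σ)
  have h2 : ∑ ρ : E → S, ∑ c : S, cen s e (Function.update ρ e c) *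
      cen s e' (Function.update ρ e c) = 0 := by
    apply sum_eq_zero
    intro σ _
    have : ∀ c : S, cen s e (Function.update σ e c) * cen s e' (Function.update σ e c) =
        ((Fintype.card S : ℝ) * (if c = s then 1 else 0) - 1) * cen s e' σ := by
      intro c
      rw [cen_upd_self, cen_upd_ne s e e' h]
    rw [sum_congr rfl (fun c _ => this c), ← sum_mul]
    have : ∑ c : S, ((Fintype.card S : ℝ) * (if c = s then 1 else 0) - 1) = 0 := by
      rw [sum_sub_distrib, ← mul_sum]
      simp
    rw [this, zero_mul]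
  rw [h2] at h1
  exact (mul_eq_zero.mp h1.symm).resolve_left hq

theorem cen_sq (s : S) (e : E) : ∑ σ : E → S, cen s e σ * cen s e σ =
    (Fintype.card S : ℝ) ^ Fintype.card E * (Fintype.card S - 1) := by
  have hq : (Fintype.card S : ℝ) ≠ 0 := by
    have : 0 < Fintype.card S := Fintype.card_pos_iff.mpr ⟨s⟩
    positivity
  have h1 := resample e (fun σ => cen s e σ * cen s e σ)
  have h2 : ∑ ρ : E → S, ∑ c : S, cen s e (Function.update ρ e c) *
      cen s e (Function.update ρ e c) =
      (Fintype.card S : ℝ) ^ Fintype.card E * ((Fintype.card S : ℝ) * (Fintype.card S - 1)) := by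
    have : ∀ σ : E → S, ∑ c : S, cen s e (Function.update σ e c) *
      cen s e (Function.update σ e c) = (Fintype.card S : ℝ) * (Fintype.card S - 1) := by
      intro σ
      have : ∀ c : S, cen s e (Function.update σ e c) * cen s e (Function.update σ e c) =
          ((Fintype.card S : ℝ) ^ 2 - 2 * Fintype.card S) * (if c = s then 1 else 0) + 1 := by
        intro c
        rw [cen_upd_self]
        split_ifs <;> ring
      rw [sum_congr rfl (fun c _ => this c), sum_add_distrib, ← mul_sum]
      simp
      ring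
    rw [sum_congr rfl (fun σ _ => this σ), sum_const, nsmul_eq_mul, card_univ, Fintype.card_fun]
    push_cast
    ring
  rw [h2] at h1
  have h3 : (Fintype.card S : ℝ) * ∑ σ : E → S, cen s e σ * cen s e σ =
      (Fintype.card S : ℝ) * ((Fintype.card S : ℝ) ^ Fintype.card E * (Fintype.card S - 1)) := by
    rw [← h1]; ring
  exact mul_left_cancel₀ hq h3

/-- Forcing the value of a random coordinate hardly changes the distribution. -/
theorem tv (s : S) (f : (E → S) → ℝ) (hf : ∀ σ, 0 ≤ f σ ∧ f σ ≤ 1) :
    ∑ σ : E → S, ∑ e : E, f (Function.update σ e s) ≤ (Fintype.card E : ℝ) * ∑ σ, f σ +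
      (Fintype.card S : ℝ) ^ Fintype.card E *
        Real.sqrt (Fintype.card E * (Fintype.card S - 1)) := by
  have hq1 : (1 : ℝ) ≤ (Fintype.card S : ℝ) := by
    have : 0 < Fintype.card S := Fintype.card_pos_iff.mpr ⟨s⟩
    exact_mod_cast this
  set Y : (E → S) → ℝ := fun σ => ∑ e, cen s e σ with hY
  have h1 : ∑ σ : E → S, ∑ e : E, f (Function.update σ e s) =
      (Fintype.card E : ℝ) * ∑ σ, f σ + ∑ σ, f σ * Y σ := by
    rw [sum_comm]
    rw [sum_congr rfl (fun e _ => forced e s f)]
    rw [← mul_sum, sum_comm, mul_sum, mul_sum, ← sum_add_distrib]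
    apply sum_congr rfl
    intro σ _
    simp only [hY]
    unfold cen
    rw [sum_sub_distrib, ← mul_sum, mul_sub]
    simp only [sum_ite, sum_const_zero, add_zero, sum_const, nsmul_eq_mul, card_univ, mul_one]
    ring
  have h2 : ∑ σ, Y σ ^ 2 = (Fintype.card S : ℝ) ^ Fintype.card E *
      (Fintype.card E * (Fintype.card S - 1)) := by
    have : ∀ σ, Y σ ^ 2 = ∑ e, ∑ e', cen s e σ * cen s e' σ := by
      intro σ
      simp only [hY]
      rw [sq, sum_mul_sum]
    rw [sum_congr rfl (fun σ _ => this σ), sum_comm]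
    have h3 : ∀ e : E, ∑ σ : E → S, ∑ e', cen s e σ * cen s e' σ =
        (Fintype.card S : ℝ) ^ Fintype.card E * (Fintype.card S - 1) := by
      intro e
      rw [sum_comm, ← cen_sq s e]
      rw [sum_eq_single e]
      · intro e' _ he'
        exact cen_mul s e e' he'
      · intro h
        exact absurd (mem_univ _) h
    rw [sum_congr rfl (fun e _ => h3 e), sum_const, nsmul_eq_mul, card_univ]
    ring
  have h3 : (∑ σ, f σ * Y σ) ^ 2 ≤ (Fintype.card S : ℝ) ^ Fintype.card E *
      ∑ σ, Y σ ^ 2 := by
    have h4 := sq_sum_le_card_mul_sum_sq (s := (univ : Finset (E → S))) (f := fun σ => f σ * Y σ)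
    rw [card_univ, Fintype.card_fun] at h4
    push_cast at h4
    refine h4.trans (mul_le_mul_of_nonneg_left ?_ (by positivity))
    apply sum_le_sum
    intro σ _
    rw [mul_pow]
    have h5 : f σ ^ 2 ≤ 1 := pow_le_one₀ (hf σ).1 (hf σ).2
    nlinarith [sq_nonneg (Y σ)]
  have h4 : ∑ σ, f σ * Y σ ≤ (Fintype.card S : ℝ) ^ Fintype.card E *
        Real.sqrt (Fintype.card E * (Fintype.card S - 1)) := by
    have h5 : (∑ σ, f σ * Y σ) ^ 2 ≤ ((Fintype.card S : ℝ) ^ Fintype.card E *
        Real.sqrt (Fintype.card E * (Fintype.card S - 1))) ^ 2 := by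
      rw [mul_pow, Real.sq_sqrt (by
        apply mul_nonneg (by positivity); linarith)]
      refine h3.trans (le_of_eq ?_)
      rw [h2]
      ring
    exact (abs_le_of_sq_le_sq' h5 (by positivity)).2
  rw [h1]
  linarith

end Pool.Agent.H596R2.D3R
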