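import Pool.Agent.H596R2.D3.Defs
import Pool.Agent.H596R2.D3R.OVDefs

/-!
The Exact Triangle problem.
-/

namespace Pool.Agent.H596R2.D3R

open Pool.Agent.H596R2.D3

/-- The number of binary digits of `n ^ 300`. -/
def digs (n : ℕ) : ℕ := Nat.size (n ^ 300)

/-- The input bits of Exact Triangle on `n` vertices: cell `(i, j)` holds the edge flag
(`none`), the sign of the weight (`some none`) and the binary digits of its absolute value
(`some (some l)`). -/
abbrev ETBit (n : ℕ) : Type := Fin n × Fin n × Option (Option (Fin (digs n)))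

/-- The weight in cell `(i, j)`. -/
def weight {n : ℕ} (z : ETBit n → Bool) (i j : Fin n) : ℤ :=
  (if z (i, j, some none) = true then -1 else 1) *
    ∑ l : Fin (digs n), if z (i, j, some (some l)) = true then 2 ^ (l : ℕ) else 0

/-- The instance is valid: symmetric and loopless, with weights between `-n ^ 300` and
`n ^ 300`. -/
def ValidET {n : ℕ} (z : ETBit n → Bool) : Prop :=
  (∀ i j b, z (i, j, b) = z (j, i, b)) ∧ (∀ i, z (i, i, none) = false) ∧
    ∀ i j, |weight z i j| ≤ (n : ℤ) ^ 300

/-- There is a triangle of weight zero. -/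
def ExactTriangle {n : ℕ} (z : ETBit n → Bool) : Prop :=
  ∃ i j k : Fin n, i ≠ j ∧ j ≠ k ∧ i ≠ k ∧
    z (i, j, none) = true ∧ z (j, k, none) = true ∧ z (i, k, none) = true ∧
    weight z i j + weight z j k + weight z i k = 0

end Pool.Agent.H596R2.D3R
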