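import Pool.Agent.H596R2.D3R.OVInst
import Pool.Agent.H596R2.D3R.OVAsym

/-!
The lower bound for the Orthogonal Vectors problem.
-/

namespace Pool.Agent.H596R2.D3R

open Finset Classical Pool.Agent.H596R2.D3

theorem success_yes {I : Type} {d : ℕ} {L : Type} [Fintype L] (w : L → ℝ)
    (C : L → Circuit I d) (z : I → Bool) (P : Prop) (hP : P) :
    success w C z P = ∑ l, w l * ind ((C l).val z (C l).out) := by
  unfold success Out
  apply sum_congr rfl
  intro l _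
  by_cases h : (C l).val z (C l).out
  · rw [ind_true h]; simp [h, hP]
  · rw [ind_false h]; simp [h, hP]

theorem success_no {I : Type} {d : ℕ} {L : Type} [Fintype L] (w : L → ℝ) (hw1 : ∑ l, w l = 1)
    (C : L → Circuit I d) (z : I → Bool) (P : Prop) (hP : ¬ P) :
    success w C z P = 1 - ∑ l, w l * ind ((C l).val z (C l).out) := by
  rw [← hw1, ← sum_sub_distrib]
  unfold success Out
  apply sum_congr rfl
  intro l _
  by_cases h : (C l).val z (C l).out
  · rw [ind_true h]; simp [h, hP]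
  · rw [ind_false h]; simp [h, hP]

theorem ov_main (ε δ : ℝ) (hε : 0 < ε) (hδ : 0 < δ) :
    ∃ c : ℝ, 0 < c ∧ ∀ n d : ℕ, 2 ≤ n → (n : ℝ) ^ δ ≤ d →
      ∀ (L : Type) [Fintype L] (w : L → ℝ) (C : L → Circuit (OVBit n d) 3),
        (∀ l, 0 ≤ w l) → ∑ l, w l = 1 →
        (∀ z, Valid z → 1 / 2 + ε ≤ success w C z (OV z)) →
        ∃ l, 0 < w l ∧ c * (n : ℝ) ^ 2 / Real.log n ^ 2 ≤ (C l).size := by
  have hδ' : 0 < min δ 1 := lt_min hδ one_pos
  obtain ⟨c, m, r, k, N, hc, hm, hr, hk, hN2, hN⟩ := params ε (min δ 1) hε hδ' (min_le_right _ _)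
  have hNpos : (0 : ℝ) < N := by
    have : 0 < N := by omega
    exact_mod_cast this
  have hl2 : 0 < Real.log 2 := Real.log_pos (by norm_num)
  refine ⟨min c (Real.log 2 ^ 2 / (N : ℝ) ^ 2), lt_min hc (by positivity), ?_⟩
  intro n d hn hd L _ w C hw hw1 hsucc
  have hn2 : (2 : ℝ) ≤ n := by exact_mod_cast hn
  have hnpos : (0 : ℝ) < n := by linarith
  have hlog : Real.log 2 ≤ Real.log n := Real.log_le_log (by norm_num) hn2
  have hlogpos : 0 < Real.log n := lt_of_lt_of_le hl2 hlog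
  have hdd : (n : ℝ) ^ (min δ 1) ≤ d := by
    refine le_trans ?_ hd
    exact Real.rpow_le_rpow_of_exponent_le (by linarith) (min_le_left _ _)
  by_contra hcon
  push Not at hcon
  have hexw : ∃ l, 0 < w l := by
    by_contra h
    push Not at h
    have : ∑ l, w l ≤ 0 := sum_nonpos (fun l _ => h l)
    linarith
  by_cases hnN : n < N
  · obtain ⟨l, hl⟩ := hexw
    have h1 := hcon l hl
    have h2 : (1 : ℝ) ≤ (C l).size := by
      have : 0 < (C l).size := by
        unfold Circuit.size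
        exact @Fintype.card_pos _ (C l).fin ⟨(C l).out⟩
      exact_mod_cast this
    have h3 : min c (Real.log 2 ^ 2 / (N : ℝ) ^ 2) * (n : ℝ) ^ 2 / Real.log n ^ 2 ≤ 1 := by
      rw [div_le_one (by positivity)]
      calc min c (Real.log 2 ^ 2 / (N : ℝ) ^ 2) * (n : ℝ) ^ 2
          ≤ (Real.log 2 ^ 2 / (N : ℝ) ^ 2) * (N : ℝ) ^ 2 := by
            have : (n : ℝ) ≤ N := by exact_mod_cast hnN.le
            gcongr
            exact min_le_right _ _
        _ = Real.log 2 ^ 2 := by field_simp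
        _ ≤ Real.log n ^ 2 := by gcongr
    linarith
  · push Not at hnN
    obtain ⟨a1, a2, a3, a4, a5, a6⟩ := hN n hnN
    set b := n / (m * r) with hb
    set d' := ⌊(n : ℝ) ^ (min δ 1) / 2⌋₊ with hd'
    have hle : 4 + (d' + (m * r + 2 + 2 * Nat.clog 2 n)) ≤ d := by
      have := a5.trans hdd
      exact_mod_cast this
    obtain ⟨fv⟩ : Nonempty (Fin m × Fin b × Fin r ↪ Fin n) := by
      apply Function.Embedding.nonempty_of_card_le
      simp only [Fintype.card_prod, Fintype.card_fin]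
      calc m * (b * r) = m * b * r := by ring
        _ ≤ n := a4
    obtain ⟨fc⟩ : Nonempty (Co (Fin m) (Fin r) (Fin d') (Nat.clog 2 n) ↪ Fin d) := by
      apply Function.Embedding.nonempty_of_card_le
      simp only [Fintype.card_sum, Fintype.card_prod, Fintype.card_fin, Fintype.card_bool,
        Fintype.card_option]
      omega
    obtain ⟨cd⟩ : Nonempty (Fin n ↪ (Fin (Nat.clog 2 n) → Bool)) := by
      apply Function.Embedding.nonempty_of_card_le
      simp only [Fintype.card_fun, Fintype.card_fin, Fintype.card_bool]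
      exact Nat.le_pow_clog (by norm_num) n
    have hval : ∀ (y : Dat (Fin m × Fin r) (Fin d')) (x : Dat (Fin m × Bool) (Fin b)) Q Q',
        Valid (inst (XOV (Function.partialInv fv) (Function.partialInv fc) cd) x y Q Q') := by
      intro y x Q Q'
      exact xov_valid fv fc fc.injective cd cd.injective _ _
    apply mixture (E := Fin m) (A := Bool) (Rr := Fin r) (K1 := Fin b) (K2 := Fin d') w C hw hw1
      (XOV (Function.partialInv fv) (Function.partialInv fc) cd)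
      (fun w2 => xov_proj_one _ _ _ w2) (fun w1 => xov_proj_two _ _ _ w1)
      (3 * Nat.clog 2 n) 1 k a3 le_rfl hk (by simp) (by simpa using a1) (by simpa using hm)
      (by simpa using hr) (by simpa using a2) ε (5 * ε / 4) (by linarith)
    · intro y ρ x σ e
      rw [← success_yes w C _ _ (yes_iff fv fv.injective fc fc.injective cd y ρ x σ e)]
      exact hsucc _ (hval _ _ _ _)
    · intro y ρ x σ
      have h1 := hsucc (noI (XOV (Function.partialInv fv) (Function.partialInv fc) cd) y ρ x σ)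
        (hval y x (Q1 σ) (Q2 σ ρ))
      have h2 := success_no w hw1 C
        (noI (XOV (Function.partialInv fv) (Function.partialInv fc) cd) y ρ x σ) _
        (no_iff fv fv.injective fc fc.injective cd y ρ x σ)
      rw [h2] at h1
      linarith
    · intro l hl
      simp only [Fintype.card_fin, Fintype.card_bool]
      apply a6
      refine (hcon l hl).le.trans ?_
      gcongr
      exact min_le_left _ _

theorem ov_q1 (a b : ℕ) (hb : 0 < b) (hab : a < 2 * b) (K k : ℕ) :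
    ∃ n d : ℕ, ¬ ∃ (L : Type) (_ : Fintype L) (w : L → ℝ) (C : L → Circuit (OVBit n d) 3),
      (∀ l, 0 ≤ w l) ∧ ∑ l, w l = 1 ∧
      (∀ z, Valid z → 2 / 3 ≤ success w C z (OV z)) ∧
      ∀ l, ((C l).size : ℝ) ≤ K * (n : ℝ) ^ ((a : ℝ) / b) * ((d : ℝ) + 1) ^ k := by
  have hb' : (0 : ℝ) < b := by exact_mod_cast hb
  set γ : ℝ := 2 - (a : ℝ) / b with hγ
  have hγpos : 0 < γ := by
    have : (a : ℝ) / b < 2 := by
      rw [div_lt_iff₀ hb']
      exact_mod_cast hab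
    linarith
  set δ : ℝ := γ / (2 * (k + 1)) with hδ
  have hδpos : 0 < δ := by positivity
  obtain ⟨c, hc, hmain⟩ := ov_main (1 / 6) δ (by norm_num) hδpos
  have hev := ev_log_rpow ((K : ℝ) * 3 ^ k / c + 1) 0 (γ / 4) (by positivity)
  have hev2 := hev.and (Filter.eventually_ge_atTop 2)
  obtain ⟨n, hn⟩ := hev2.exists
  obtain ⟨h1, h2⟩ := hn
  have hn2 : (2 : ℝ) ≤ n := by exact_mod_cast h2
  have hn1 : (1 : ℝ) ≤ n := by linarith
  have hnpos : (0 : ℝ) < n := by linarith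
  have hlog : 0 < Real.log n := Real.log_pos (by linarith)
  refine ⟨n, ⌈(n : ℝ) ^ δ⌉₊, ?_⟩
  rintro ⟨L, _, w, C, hw, hw1, hs, hsize⟩
  obtain ⟨l, _, hl⟩ := hmain n ⌈(n : ℝ) ^ δ⌉₊ h2 (Nat.le_ceil _) L w C hw hw1 (by
    intro z hz
    have := hs z hz
    linarith)
  have h3 := hl.trans (hsize l)
  have hnδ : 1 ≤ (n : ℝ) ^ δ := Real.one_le_rpow hn1 hδpos.le
  have h4 : ((⌈(n : ℝ) ^ δ⌉₊ : ℕ) : ℝ) + 1 ≤ 3 * (n : ℝ) ^ δ := by
    have := Nat.ceil_lt_add_one (show 0 ≤ (n : ℝ) ^ δ by positivity)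
    linarith
  have h5 : (((⌈(n : ℝ) ^ δ⌉₊ : ℕ) : ℝ) + 1) ^ k ≤ 3 ^ k * (n : ℝ) ^ (γ / 2) := by
    calc (((⌈(n : ℝ) ^ δ⌉₊ : ℕ) : ℝ) + 1) ^ k ≤ (3 * (n : ℝ) ^ δ) ^ k := by gcongr
      _ = 3 ^ k * (n : ℝ) ^ (δ * k) := by
          rw [mul_pow, ← Real.rpow_natCast ((n : ℝ) ^ δ), ← Real.rpow_mul hnpos.le]
      _ ≤ 3 ^ k * (n : ℝ) ^ (γ / 2) := by
          apply mul_le_mul_of_nonneg_left _ (by positivity)
          apply Real.rpow_le_rpow_of_exponent_le hn1
          rw [hδ, div_mul_eq_mul_div, div_le_div_iff₀ (by positivity) (by norm_num)]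
          nlinarith
  have h6 : c * (n : ℝ) ^ 2 / Real.log n ^ 2 ≤ K * 3 ^ k * (n : ℝ) ^ (2 - γ / 2) := by
    refine h3.trans ?_
    calc (K : ℝ) * (n : ℝ) ^ ((a : ℝ) / b) * (((⌈(n : ℝ) ^ δ⌉₊ : ℕ) : ℝ) + 1) ^ k
        ≤ K * (n : ℝ) ^ ((a : ℝ) / b) * (3 ^ k * (n : ℝ) ^ (γ / 2)) := by gcongr
      _ = K * 3 ^ k * ((n : ℝ) ^ ((a : ℝ) / b) * (n : ℝ) ^ (γ / 2)) := by ring
      _ = _ := by
          rw [← Real.rpow_add hnpos]
          congr 2
          rw [hγ]; ring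
  set M : ℝ := (K : ℝ) * 3 ^ k / c + 1 with hM
  have hM1 : 1 ≤ M := by
    rw [hM]
    have : 0 ≤ (K : ℝ) * 3 ^ k / c := by positivity
    linarith
  rw [add_zero] at h1
  have h7 : (M * Real.log n) ^ 2 ≤ ((n : ℝ) ^ (γ / 4) / 2) ^ 2 := by
    have : 0 ≤ M * Real.log n := by positivity
    gcongr
  have h8 : ((n : ℝ) ^ (γ / 4) / 2) ^ 2 = (n : ℝ) ^ (γ / 2) / 4 := by
    rw [div_pow, ← Real.rpow_natCast ((n : ℝ) ^ (γ / 4)), ← Real.rpow_mul hnpos.le]
    norm_num
    congr 1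
    ring
  have h9 : (K : ℝ) * 3 ^ k ≤ c * M ^ 2 := by
    have e1 : (K : ℝ) * 3 ^ k = c * ((K : ℝ) * 3 ^ k / c) := by field_simp
    have e2 : (K : ℝ) * 3 ^ k / c ≤ M := by rw [hM]; linarith
    have e3 : M ≤ M ^ 2 := by nlinarith
    rw [e1]
    exact mul_le_mul_of_nonneg_left (e2.trans e3) hc.le
  have h10 : (n : ℝ) ^ 2 = (n : ℝ) ^ (2 - γ / 2) * (n : ℝ) ^ (γ / 2) := by
    rw [← Real.rpow_add hnpos, ← Real.rpow_natCast (n : ℝ) 2]
    norm_num
  rw [div_le_iff₀ (by positivity)] at h6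
  have h11 : c * (n : ℝ) ^ 2 ≤ c * (n : ℝ) ^ 2 / 4 := by
    calc c * (n : ℝ) ^ 2 ≤ K * 3 ^ k * (n : ℝ) ^ (2 - γ / 2) * Real.log n ^ 2 := h6
      _ ≤ (c * M ^ 2) * (n : ℝ) ^ (2 - γ / 2) * Real.log n ^ 2 := by gcongr
      _ = c * (n : ℝ) ^ (2 - γ / 2) * (M * Real.log n) ^ 2 := by ring
      _ ≤ c * (n : ℝ) ^ (2 - γ / 2) * ((n : ℝ) ^ (γ / 2) / 4) := by
          rw [h8] at h7
          gcongr
      _ = c * (n : ℝ) ^ 2 / 4 := by rw [h10]; ring
  have : 0 < c * (n : ℝ) ^ 2 := by positivity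
  linarith

end Pool.Agent.H596R2.D3R
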