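import Pool.Agent.H596R2.D3R.Asym2
import Pool.Agent.H596R2.D3R.OVFinal

/-!
The general lower bound.
-/

namespace Pool.Agent.H596R2.D3R

open Finset Classical Pool.Agent.H596R2.D3

set_option linter.unusedSectionVars false

/-- The hard instances embed into the decision problem `P` with promise `V`. -/
def Embeds (E A Rr K1 K2 I : Type) (V P : (I → Bool) → Prop) : Prop :=
  ∃ X : (((E × A) × K1) × Bool → Bool) → (((E × Rr) × K2) × Bool → Bool) → I → Bool,
    (∀ w2, IsProj (fun w1 => X w1 w2)) ∧ (∀ w1, IsProj (X w1)) ∧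
    (∀ w1 w2, Opened w1 → Opened w2 → V (X w1 w2)) ∧
    ∀ w1 w2, Opened w1 → Opened w2 → (P (X w1 w2) ↔ ∃ e ρ f, Good w1 w2 e ρ f)

theorem size_pos {I : Type} {d : ℕ} (C : Circuit I d) : (1 : ℝ) ≤ C.size := by
  have : 0 < C.size := by
    unfold Circuit.size
    exact @Fintype.card_pos _ C.fin ⟨C.out⟩
  exact_mod_cast this

theorem small_n (c : ℝ) (N n a q : ℕ) (hN : 0 < N) (hn : 2 ≤ n) (hnN : n < N)
    (hc : c ≤ Real.log 2 ^ q / (N : ℝ) ^ a) :
    c * (n : ℝ) ^ a / Real.log n ^ q ≤ 1 := by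
  have hn2 : (2 : ℝ) ≤ n := by exact_mod_cast hn
  have hnpos : (0 : ℝ) < n := by linarith
  have hl2 : 0 < Real.log 2 := Real.log_pos (by norm_num)
  have hlog : Real.log 2 ≤ Real.log n := Real.log_le_log (by norm_num) hn2
  have hlogpos : 0 < Real.log n := lt_of_lt_of_le hl2 hlog
  have hNpos : (0 : ℝ) < N := by exact_mod_cast hN
  rw [div_le_one (by positivity)]
  calc c * (n : ℝ) ^ a ≤ (Real.log 2 ^ q / (N : ℝ) ^ a) * (N : ℝ) ^ a := by
        have : (n : ℝ) ≤ N := by exact_mod_cast hnN.le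
        gcongr
    _ = Real.log 2 ^ q := by field_simp
    _ ≤ Real.log n ^ q := by gcongr

/-- The general lower bound. -/
theorem general (k : ℕ) (hk : 1 ≤ k) {J : Type} (sz : J → ℕ) (I : J → Type)
    (V P : ∀ j, (I j → Bool) → Prop) (ok : ℕ → J → Prop)
    (hemb : ∀ m R0 : ℕ, 0 < m → 0 < R0 → ∃ N, ∀ j, N ≤ sz j → ok (m * R0) j →
      Embeds (Fin m) (Fin (k + 1)) (Fin (R0 * Nat.clog 2 (sz j) ^ 2))
      (Fin (colb m R0 (sz j))) (Fin (2 ^ (k + 2) * ((k + 2) * Nat.clog 2 (sz j)))) (I j)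
      (V j) (P j))
    (ε : ℝ) (hε : 0 < ε) : ∃ (c : ℝ) (M : ℕ), 0 < c ∧ ∀ j : J, 2 ≤ sz j → ok M j →
      ∀ (L : Type) [Fintype L] (w : L → ℝ) (C : L → Circuit (I j) 3),
        (∀ l, 0 ≤ w l) → ∑ l, w l = 1 →
        (∀ z, V j z → 1 / 2 + ε ≤ success w C z (P j z)) →
        ∃ l, 0 < w l ∧
          c * (sz j : ℝ) ^ (k + 1) / Real.log (sz j) ^ (3 * (k + 1)) ≤ (C l).size := by
  obtain ⟨c, m, R0, N, hc, hm, hR, hN3, hN⟩ := gen_params ε hε k hk
  obtain ⟨N', hN'⟩ := hemb m R0 hm hR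
  set N0 := max N N' with hN0
  have hN0pos : 0 < N0 := by omega
  have hN0pos' : (0 : ℝ) < N0 := by exact_mod_cast hN0pos
  have hl2 : 0 < Real.log 2 := Real.log_pos (by norm_num)
  refine ⟨min c (Real.log 2 ^ (3 * (k + 1)) / (N0 : ℝ) ^ (k + 1)), m * R0,
    lt_min hc (by positivity), ?_⟩
  intro j hn hok L _ w C hw hw1 hsucc
  set n := sz j with hnj
  have hn2 : (2 : ℝ) ≤ n := by exact_mod_cast hn
  have hnpos : (0 : ℝ) < n := by linarith
  have hlog : Real.log 2 ≤ Real.log n := Real.log_le_log (by norm_num) hn2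
  have hlogpos : 0 < Real.log n := lt_of_lt_of_le hl2 hlog
  by_contra hcon
  push Not at hcon
  have hexw : ∃ l, 0 < w l := by
    by_contra h
    push Not at h
    have : ∑ l, w l ≤ 0 := sum_nonpos (fun l _ => h l)
    linarith
  by_cases hnN : n < N0
  · obtain ⟨l, hl⟩ := hexw
    have h1 := hcon l hl
    have h2 := size_pos (C l)
    have h3 := small_n _ N0 n (k + 1) (3 * (k + 1)) hN0pos hn hnN (min_le_right c _)
    linarith
  · push Not at hnN
    have hnN1 : N ≤ n := (le_max_left _ _).trans hnN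
    have hnN2 : N' ≤ n := (le_max_right _ _).trans hnN
    obtain ⟨a1, a2⟩ := hN n hnN1
    have hclpos : 0 < Nat.clog 2 n := Nat.clog_pos (by norm_num) (by omega)
    obtain ⟨X, hX1, hX2, hXV, hXP⟩ := hN' j hnN2 hok
    apply scheme (E := Fin m) (A := Fin (k + 1)) (Rr := Fin (R0 * Nat.clog 2 n ^ 2))
      (K1 := Fin (colb m R0 n)) (K2 := Fin (2 ^ (k + 2) * ((k + 2) * Nat.clog 2 n))) w C hw hw1
      (V j) (P j) X hX1 hX2 ((k + 2) * Nat.clog 2 n) k (Nat.clog 2 n)
      (Nat.mul_pos (by omega) hclpos) hk hclpos (by simp) (by simpa using a1) (by simpa using hm)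
      (by
        simp only [Fintype.card_fin]
        positivity)
      (by
        simp only [Fintype.card_fin]
        positivity) ε (5 * ε / 4) (by linarith) hXV
    · exact fun w1 w2 h1 h2 h => (hXP w1 w2 h1 h2).mpr h
    · exact fun w1 w2 h1 h2 h => (hXP w1 w2 h1 h2).mp h
    · intro z hz
      exact hsucc z hz
    · intro l hl
      simp only [Fintype.card_fin]
      apply a2
      refine (hcon l hl).le.trans ?_
      gcongr
      exact min_le_left _ _

end Pool.Agent.H596R2.D3R
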