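import Pool.Agent.H596R2.D3R.ETInst2
import Pool.Agent.H596R2.D3R.Final

/-!
The lower bound for Exact Triangle.
-/

namespace Pool.Agent.H596R2.D3R

open Finset Classical Pool.Agent.H596R2.D3

theorem two_clog_le (n : ℕ) (hn : 2 ≤ n) : 2 ^ Nat.clog 2 n ≤ 2 * n := by
  have h1 : 2 ^ (Nat.clog 2 n).pred < n := Nat.pow_pred_clog_lt_self (by norm_num) (by omega)
  have hc : 0 < Nat.clog 2 n := Nat.clog_pos (by norm_num) (by omega)
  obtain ⟨t, ht⟩ : ∃ t, Nat.clog 2 n = t + 1 := ⟨Nat.clog 2 n - 1, by omega⟩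
  rw [ht] at h1 ⊢
  rw [Nat.pred_succ] at h1
  rw [pow_succ]
  omega

theorem et_embeds (m R0 n : ℕ) (hn : 2 ≤ n) :
    Embeds (Fin m) (Fin (2 + 1)) (Fin (R0 * Nat.clog 2 n ^ 2))
      (Fin (colb m R0 n)) (Fin (2 ^ (2 + 2) * ((2 + 2) * Nat.clog 2 n))) (ETBit n)
      (ValidET (n := n)) (ExactTriangle (n := n)) := by
  set κ := 2 ^ (2 + 2) * ((2 + 2) * Nat.clog 2 n) with hκ
  have hκ2 : 2 ^ (6 + κ) ≤ n ^ 300 := by
    have h1 := two_clog_le n hn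
    have e : 6 + κ = 6 + Nat.clog 2 n * 64 := by rw [hκ]; ring
    rw [e, pow_add, pow_mul]
    calc 2 ^ 6 * (2 ^ Nat.clog 2 n) ^ 64 ≤ 2 ^ 6 * (2 * n) ^ 64 := by gcongr
      _ = 2 ^ 70 * n ^ 64 := by rw [mul_pow]; ring
      _ ≤ n ^ 70 * n ^ 64 := by gcongr
      _ = n ^ 134 := by rw [← pow_add]
      _ ≤ n ^ 300 := Nat.pow_le_pow_right (by omega) (by norm_num)
  have hD := digs_le n κ hκ2
  obtain ⟨fv⟩ : Nonempty (Ve (Fin m) (Fin (R0 * Nat.clog 2 n ^ 2)) (Fin (colb m R0 n)) ↪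
      Fin n) := by
    apply Function.Embedding.nonempty_of_card_le
    simp only [Fintype.card_sum, Fintype.card_prod, Fintype.card_fin]
    refine le_trans (le_of_eq ?_) (colb_mul m R0 n)
    ring
  refine ⟨XET (Function.partialInv fv), fun w2 => xet_proj_one _ w2,
    fun w1 => xet_proj_two _ w1, ?_, ?_⟩
  · intro w1 w2 _ _
    exact et_valid w1 w2 hκ2 hD _
  · intro w1 w2 h1 h2
    constructor
    · exact et_no w1 w2 h2 hD _
    · rintro ⟨e, ρ, f, h⟩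
      exact et_yes fv fv.injective w1 w2 h2 hD e ρ f h

theorem et_main (ε : ℝ) (hε : 0 < ε) : ∃ c : ℝ, 0 < c ∧ ∀ n : ℕ, 2 ≤ n →
    ∀ (L : Type) [Fintype L] (w : L → ℝ) (C : L → Circuit (ETBit n) 3),
      (∀ l, 0 ≤ w l) → ∑ l, w l = 1 →
      (∀ z, ValidET z → 1 / 2 + ε ≤ success w C z (ExactTriangle z)) →
      ∃ l, 0 < w l ∧ c * (n : ℝ) ^ 3 / Real.log n ^ 9 ≤ (C l).size := by
  obtain ⟨c, M, hc, h⟩ := general 2 (by norm_num) (J := ℕ) id ETBit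
    (fun n => ValidET (n := n)) (fun n => ExactTriangle (n := n)) (fun _ _ => True)
    (by
      intro m R0 _ _
      refine ⟨2, fun n hn _ => ?_⟩
      exact et_embeds m R0 n hn) ε hε
  exact ⟨c, hc, fun n hn L _ w C hw hw1 hs => h n hn trivial L w C hw hw1 hs⟩

/-- Polynomials of smaller degree are below the bound. -/
theorem poly_below (c : ℝ) (hc : 0 < c) (a b q : ℕ) (e : ℕ) (hb : 0 < b) (hab : a < e * b)
    (K : ℕ) : ∃ n : ℕ, 2 ≤ n ∧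
      (K : ℝ) * (n : ℝ) ^ ((a : ℝ) / b) < c * (n : ℝ) ^ e / Real.log n ^ q := by
  have hb' : (0 : ℝ) < b := by exact_mod_cast hb
  set γ : ℝ := e - (a : ℝ) / b with hγ
  have hγpos : 0 < γ := by
    have : (a : ℝ) / b < e := by
      rw [div_lt_iff₀ hb']
      exact_mod_cast hab
    linarith
  have h1 : Filter.Tendsto (fun x : ℝ => Real.log x ^ q / x ^ γ) Filter.atTop (nhds 0) := by
    have := (isLittleO_log_rpow_rpow_atTop (q : ℝ) hγpos).tendsto_div_nhds_zero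
    simpa [Real.rpow_natCast] using this
  have h2 := (h1.const_mul ((K : ℝ) / c)).comp (tendsto_natCast_atTop_atTop (R := ℝ))
  rw [mul_zero] at h2
  have h3 := h2.eventually (gt_mem_nhds (show (0 : ℝ) < 1 by norm_num))
  obtain ⟨n, hn1, hn2⟩ := (h3.and (Filter.eventually_ge_atTop 2)).exists
  refine ⟨n, hn2, ?_⟩
  have hn2' : (2 : ℝ) ≤ n := by exact_mod_cast hn2
  have hnpos : (0 : ℝ) < n := by linarith
  have hlog : 0 < Real.log n := Real.log_pos (by linarith)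
  have hx : (0 : ℝ) < (n : ℝ) ^ γ := Real.rpow_pos_of_pos hnpos γ
  have h4 : (K : ℝ) / c * (Real.log n ^ q / (n : ℝ) ^ γ) < 1 := hn1
  have h5 : (K : ℝ) * Real.log n ^ q < c * (n : ℝ) ^ γ := by
    have h6 : (K : ℝ) / c * (Real.log n ^ q / (n : ℝ) ^ γ) =
      (K * Real.log n ^ q) / (c * (n : ℝ) ^ γ) := by field_simp
    rw [h6, div_lt_one (by positivity)] at h4
    exact h4
  rw [lt_div_iff₀ (by positivity)]
  have h7 : (n : ℝ) ^ e = (n : ℝ) ^ ((a : ℝ) / b) * (n : ℝ) ^ γ := by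
    rw [← Real.rpow_add hnpos, ← Real.rpow_natCast (n : ℝ) e]
    congr 1
    rw [hγ]; ring
  rw [h7]
  have h8 : (0 : ℝ) < (n : ℝ) ^ ((a : ℝ) / b) := Real.rpow_pos_of_pos hnpos _
  calc (K : ℝ) * (n : ℝ) ^ ((a : ℝ) / b) * Real.log n ^ q =
        (n : ℝ) ^ ((a : ℝ) / b) * (K * Real.log n ^ q) := by ring
    _ < (n : ℝ) ^ ((a : ℝ) / b) * (c * (n : ℝ) ^ γ) := mul_lt_mul_of_pos_left h5 h8
    _ = _ := by ring

theorem et_q1 (a b : ℕ) (hb : 0 < b) (hab : a < 3 * b) (K : ℕ) :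
    ∃ n : ℕ, ¬ ∃ (L : Type) (_ : Fintype L) (w : L → ℝ) (C : L → Circuit (ETBit n) 3),
      (∀ l, 0 ≤ w l) ∧ ∑ l, w l = 1 ∧
      (∀ z, ValidET z → 2 / 3 ≤ success w C z (ExactTriangle z)) ∧
      ∀ l, ((C l).size : ℝ) ≤ K * (n : ℝ) ^ ((a : ℝ) / b) := by
  obtain ⟨c, hc, hmain⟩ := et_main (1 / 6) (by norm_num)
  obtain ⟨n, hn, hlt⟩ := poly_below c hc a b 9 3 hb hab K
  refine ⟨n, ?_⟩
  rintro ⟨L, _, w, C, hw, hw1, hs, hsize⟩
  obtain ⟨l, _, hl⟩ := hmain n hn L w C hw hw1 (by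
    intro z hz
    have := hs z hz
    linarith)
  have := hsize l
  linarith

end Pool.Agent.H596R2.D3R
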