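import Pool.Agent.H596R2.D3R.Sym
import Pool.Agent.H596R2.D3R.ETDefs

/-!
Hard instances of Exact Triangle.
-/

namespace Pool.Agent.H596R2.D3R

open Finset Classical Pool.Agent.H596R2.D3

set_option linter.unusedSectionVars false

/-- The number with the binary digits `g`. -/
noncomputable def num (D : ℕ) (g : ℕ → Bool) : ℤ :=
  ∑ d ∈ range D, if g d = true then (2 : ℤ) ^ d else 0

theorem num_nonneg (D : ℕ) (g : ℕ → Bool) : 0 ≤ num D g := by
  unfold num
  apply sum_nonneg
  intro d _
  split_ifs <;> positivity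

theorem num_lt (D : ℕ) (g : ℕ → Bool) : num D g < 2 ^ D := by
  unfold num
  induction D with
  | zero => simp
  | succ D ih =>
    rw [sum_range_succ, pow_succ]
    have : (if g D = true then (2 : ℤ) ^ D else 0) ≤ 2 ^ D := by
      split_ifs
      · exact le_rfl
      · positivity
    linarith

theorem num_trunc (D M : ℕ) (g : ℕ → Bool) (hM : M ≤ D) (hg : ∀ d, M ≤ d → g d = false) :
    num D g = num M g := by
  unfold num
  symm
  apply sum_subset
  · intro d hd
    rw [mem_range] at hd ⊢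
    omega
  · intro d _ hd
    rw [mem_range] at hd
    simp [hg d (by omega)]

theorem num_split (M κ : ℕ) (g : ℕ → Bool) :
    num (M + κ) g = num M g + ∑ l ∈ range κ, if g (l + M) = true then (2 : ℤ) ^ (l + M) else 0 := by
  unfold num
  rw [sum_range_add]
  congr 1
  apply sum_congr rfl
  intro l _
  rw [add_comm M l]

variable {E Rr K1 : Type} [Fintype E] [Fintype Rr] [Fintype K1] {κ : ℕ}

/-- Symbolic bits. -/
abbrev Sb (E Rr K1 : Type) (κ : ℕ) : Type :=
  Sy (((E × Fin 3) × K1) × Bool) (((E × Rr) × Fin κ) × Bool)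

/-- Vertices. -/
abbrev Ve (E Rr K1 : Type) : Type := (E × K1) ⊕ ((E × K1 × Rr) ⊕ (E × K1))

/-- The digits shared by the two edges at the middle vertex. -/
def midS (e : E) (ρ : Rr) (s : Bool) (d : ℕ) : Sb E Rr K1 κ :=
  if h : d - 6 < κ then Sy.snd (((e, ρ), ⟨d - 6, h⟩), s) false else Sy.cst false

def uvS (e : E) (i : K1) (ρ : Rr) : Option (Option ℕ) → Sb E Rr K1 κ
  | none => Sy.cst true
  | some none => Sy.cst false
  | some (some d) =>
    if d = 0 then Sy.fst (((e, 0), i), false) true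
    else if d = 1 then Sy.fst (((e, 0), i), true) true
    else if d = 2 then Sy.cst false
    else if d = 3 then Sy.cst false
    else if d = 4 then Sy.cst true
    else if d = 5 then Sy.cst true
    else midS e ρ false d

def vwS (e : E) (i : K1) (ρ : Rr) : Option (Option ℕ) → Sb E Rr K1 κ
  | none => Sy.cst true
  | some none => Sy.cst false
  | some (some d) =>
    if d = 0 then Sy.cst false
    else if d = 1 then Sy.cst false
    else if d = 2 then Sy.fst (((e, 1), i), false) true
    else if d = 3 then Sy.fst (((e, 1), i), true) true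
    else if d = 4 then Sy.cst false
    else if d = 5 then Sy.cst false
    else midS e ρ true d

def uwS (e : E) (i : K1) : Option (Option ℕ) → Sb E Rr K1 κ
  | none => Sy.cst true
  | some none => Sy.cst true
  | some (some d) =>
    if d = 0 then Sy.cst false
    else if d = 1 then Sy.cst false
    else if d = 2 then Sy.cst false
    else if d = 3 then Sy.cst false
    else if d = 4 then Sy.fst (((e, 2), i), false) false
    else if d = 5 then Sy.fst (((e, 2), i), true) false
    else if d - 6 < κ then Sy.cst true else Sy.cst false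

/-- The symbolic cell of two vertices. -/
noncomputable def edS : Ve E Rr K1 → Ve E Rr K1 → Option (Option ℕ) → Sb E Rr K1 κ
  | Sum.inl u, Sum.inr (Sum.inl v), t => if u.1 = v.1 then uvS u.1 u.2 v.2.2 t else Sy.cst false
  | Sum.inr (Sum.inl v), Sum.inl u, t => if u.1 = v.1 then uvS u.1 u.2 v.2.2 t else Sy.cst false
  | Sum.inr (Sum.inl v), Sum.inr (Sum.inr w), t =>
    if v.1 = w.1 then vwS v.1 v.2.1 v.2.2 t else Sy.cst false
  | Sum.inr (Sum.inr w), Sum.inr (Sum.inl v), t =>
    if v.1 = w.1 then vwS v.1 v.2.1 v.2.2 t else Sy.cst false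
  | Sum.inl u, Sum.inr (Sum.inr w), t => if u.1 = w.1 then uwS u.1 w.2 t else Sy.cst false
  | Sum.inr (Sum.inr w), Sum.inl u, t => if u.1 = w.1 then uwS u.1 w.2 t else Sy.cst false
  | Sum.inl _, Sum.inl _, _ => Sy.cst false
  | Sum.inr (Sum.inl _), Sum.inr (Sum.inl _), _ => Sy.cst false
  | Sum.inr (Sum.inr _), Sum.inr (Sum.inr _), _ => Sy.cst false

theorem edS_symm (p q : Ve E Rr K1) (t : Option (Option ℕ)) :
    (edS p q t : Sb E Rr K1 κ) = edS q p t := by
  rcases p with p | p | p <;> rcases q with q | q | q <;> rfl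

/-- The symbolic bits of the instance. -/
noncomputable def symET {n : ℕ} (dv : Fin n → Option (Ve E Rr K1)) : ETBit n → Sb E Rr K1 κ :=
  fun q => match dv q.1, dv q.2.1 with
    | some a, some b => edS a b (q.2.2.map (Option.map Fin.val))
    | _, _ => Sy.cst false

/-- The instance. -/
noncomputable def XET {n : ℕ} (dv : Fin n → Option (Ve E Rr K1))
    (w1 : ((E × Fin 3) × K1) × Bool → Bool) (w2 : ((E × Rr) × Fin κ) × Bool → Bool) :
    ETBit n → Bool := fun q => (symET dv q).ev w1 w2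

theorem xet_proj_one {n : ℕ} (dv : Fin n → Option (Ve E Rr K1))
    (w2 : ((E × Rr) × Fin κ) × Bool → Bool) : IsProj (fun w1 => XET dv w1 w2) :=
  sy_proj_one (symET dv) w2

theorem xet_proj_two {n : ℕ} (dv : Fin n → Option (Ve E Rr K1))
    (w1 : ((E × Fin 3) × K1) × Bool → Bool) :
    IsProj (XET dv w1 : (((E × Rr) × Fin κ) × Bool → Bool) → ETBit n → Bool) :=
  sy_proj_two (symET dv) w1

section
variable (w1 : ((E × Fin 3) × K1) × Bool → Bool) (w2 : ((E × Rr) × Fin κ) × Bool → Bool)

/-- The weight of a symbolic cell. -/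
noncomputable def wS (D : ℕ) (f : Option (Option ℕ) → Sb E Rr K1 κ) : ℤ :=
  (if (f (some none)).ev w1 w2 = true then -1 else 1) *
    num D (fun d => (f (some (some d))).ev w1 w2)

theorem weight_eq {n : ℕ} (dv : Fin n → Option (Ve E Rr K1)) (i j : Fin n) (p q : Ve E Rr K1)
    (hi : dv i = some p) (hj : dv j = some q) :
    weight (XET dv w1 w2) i j = wS w1 w2 (digs n) (edS p q) := by
  unfold weight wS num
  have h1 : ∀ b, XET dv w1 w2 (i, j, b) = (edS p q (b.map (Option.map Fin.val))).ev w1 w2 := by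
    intro b
    unfold XET symET
    simp only [hi, hj]
  simp only [h1, Option.map]
  congr 1
  exact Fin.sum_univ_eq_sum_range
    (fun d => if (edS p q (some (some d)) : Sb E Rr K1 κ).ev w1 w2 = true then (2 : ℤ) ^ d else 0)
    (digs n)

theorem weight_none {n : ℕ} (dv : Fin n → Option (Ve E Rr K1)) (i j : Fin n)
    (h : dv i = none ∨ dv j = none) : ∀ b, XET dv w1 w2 (i, j, b) = false := by
  intro b
  unfold XET symET
  rcases h with h | h
  · simp only [h]
    rfl
  · simp only [h]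
    rcases dv i with _ | _ <;> rfl

theorem ev_mid (e : E) (ρ : Rr) (s : Bool) (l : ℕ) (hl : l < κ) :
    (midS e ρ s (l + 6) : Sb E Rr K1 κ).ev w1 w2 = w2 (((e, ρ), ⟨l, hl⟩), s) := by
  unfold midS
  have h : l + 6 - 6 < κ := by omega
  rw [dif_pos h]
  simp only [Sy.ev, Bool.xor_false]
  have : (⟨l + 6 - 6, h⟩ : Fin κ) = ⟨l, hl⟩ := by
    apply Fin.ext; simp
  rw [this]

theorem ev_mid_ge (e : E) (ρ : Rr) (s : Bool) (d : ℕ) (hd : 6 + κ ≤ d) :
    (midS e ρ s d : Sb E Rr K1 κ).ev w1 w2 = false := by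
  unfold midS
  have h : ¬ (d - 6 < κ) := by omega
  rw [dif_neg h]
  rfl

/-- Integer value of a Boolean. -/
def iv (b : Bool) : ℤ := if b = true then 1 else 0

theorem if_iv (b : Bool) (x : ℤ) : (if b = true then x else 0) = iv b * x := by
  unfold iv
  cases b <;> simp

theorem iv_not (b : Bool) : iv (!b) = 1 - iv b := by
  cases b <;> rfl

theorem iv_false : iv false = 0 := rfl

theorem iv_true : iv true = 1 := rfl

theorem num_six (g : ℕ → Bool) : num 6 g = iv (g 0) + 2 * iv (g 1) + 4 * iv (g 2) +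
    8 * iv (g 3) + 16 * iv (g 4) + 32 * iv (g 5) := by
  unfold num
  simp only [sum_range_succ, range_zero, sum_empty, if_iv]
  ring

theorem wS_uv (D : ℕ) (hD : 6 + κ ≤ D) (e : E) (i : K1) (ρ : Rr) :
    wS w1 w2 D (uvS e i ρ) = (1 - iv (w1 (((e, 0), i), false))) +
      2 * (1 - iv (w1 (((e, 0), i), true))) + 48 +
      ∑ l : Fin κ, iv (w2 (((e, ρ), l), false)) * 2 ^ ((l : ℕ) + 6) := by
  unfold wS
  rw [num_trunc D (6 + κ) _ hD, num_split]
  · have h1 : ∑ l ∈ range κ, (if (uvS e i ρ (some (some (l + 6))) : Sb E Rr K1 κ).ev w1 w2 = true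
        then (2 : ℤ) ^ (l + 6) else 0) =
        ∑ l : Fin κ, iv (w2 (((e, ρ), l), false)) * 2 ^ ((l : ℕ) + 6) := by
      rw [← Fin.sum_univ_eq_sum_range (fun l => if (uvS e i ρ (some (some (l + 6))) :
        Sb E Rr K1 κ).ev w1 w2 = true then (2 : ℤ) ^ (l + 6) else 0) κ]
      apply sum_congr rfl
      intro l _
      have h2 : (uvS e i ρ (some (some ((l : ℕ) + 6))) : Sb E Rr K1 κ) =
          midS e ρ false ((l : ℕ) + 6) := by
        unfold uvS
        simp
      rw [h2, ev_mid w1 w2 e ρ false l l.isLt, if_iv]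
    rw [h1, num_six]
    have a0 : iv ((uvS e i ρ (some (some 0)) : Sb E Rr K1 κ).ev w1 w2) =
      1 - iv (w1 (((e, 0), i), false)) := by simp [uvS, Sy.ev, iv_not]
    have a1 : iv ((uvS e i ρ (some (some 1)) : Sb E Rr K1 κ).ev w1 w2) =
      1 - iv (w1 (((e, 0), i), true)) := by simp [uvS, Sy.ev, iv_not]
    have a2 : iv ((uvS e i ρ (some (some 2)) : Sb E Rr K1 κ).ev w1 w2) = 0 := by
      simp [uvS, Sy.ev, iv_false]
    have a3 : iv ((uvS e i ρ (some (some 3)) : Sb E Rr K1 κ).ev w1 w2) = 0 := by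
      simp [uvS, Sy.ev, iv_false]
    have a4 : iv ((uvS e i ρ (some (some 4)) : Sb E Rr K1 κ).ev w1 w2) = 1 := by
      simp [uvS, Sy.ev, iv_true]
    have a5 : iv ((uvS e i ρ (some (some 5)) : Sb E Rr K1 κ).ev w1 w2) = 1 := by
      simp [uvS, Sy.ev, iv_true]
    have a6 : (uvS e i ρ (some none) : Sb E Rr K1 κ).ev w1 w2 = false := by
      simp [uvS, Sy.ev]
    rw [a0, a1, a2, a3, a4, a5, a6]
    simp only [Bool.false_eq_true, if_false]
    ring
  · intro d hd
    have h2 : (uvS e i ρ (some (some d)) : Sb E Rr K1 κ) = midS e ρ false d := by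
      unfold uvS
      simp only
      rw [if_neg (by omega), if_neg (by omega), if_neg (by omega), if_neg (by omega),
        if_neg (by omega), if_neg (by omega)]
    rw [h2]
    exact ev_mid_ge w1 w2 e ρ false d hd

theorem wS_vw (D : ℕ) (hD : 6 + κ ≤ D) (e : E) (i : K1) (ρ : Rr) :
    wS w1 w2 D (vwS e i ρ) = 4 * (1 - iv (w1 (((e, 1), i), false))) +
      8 * (1 - iv (w1 (((e, 1), i), true))) +
      ∑ l : Fin κ, iv (w2 (((e, ρ), l), true)) * 2 ^ ((l : ℕ) + 6) := by
  unfold wS
  rw [num_trunc D (6 + κ) _ hD, num_split]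
  · have h1 : ∑ l ∈ range κ, (if (vwS e i ρ (some (some (l + 6))) : Sb E Rr K1 κ).ev w1 w2 = true
        then (2 : ℤ) ^ (l + 6) else 0) =
        ∑ l : Fin κ, iv (w2 (((e, ρ), l), true)) * 2 ^ ((l : ℕ) + 6) := by
      rw [← Fin.sum_univ_eq_sum_range (fun l => if (vwS e i ρ (some (some (l + 6))) :
        Sb E Rr K1 κ).ev w1 w2 = true then (2 : ℤ) ^ (l + 6) else 0) κ]
      apply sum_congr rfl
      intro l _
      have h2 : (vwS e i ρ (some (some ((l : ℕ) + 6))) : Sb E Rr K1 κ) =
          midS e ρ true ((l : ℕ) + 6) := by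
        unfold vwS
        simp
      rw [h2, ev_mid w1 w2 e ρ true l l.isLt, if_iv]
    rw [h1, num_six]
    have a0 : iv ((vwS e i ρ (some (some 0)) : Sb E Rr K1 κ).ev w1 w2) = 0 := by
      simp [vwS, Sy.ev, iv_false]
    have a1 : iv ((vwS e i ρ (some (some 1)) : Sb E Rr K1 κ).ev w1 w2) = 0 := by
      simp [vwS, Sy.ev, iv_false]
    have a2 : iv ((vwS e i ρ (some (some 2)) : Sb E Rr K1 κ).ev w1 w2) =
      1 - iv (w1 (((e, 1), i), false)) := by simp [vwS, Sy.ev, iv_not]
    have a3 : iv ((vwS e i ρ (some (some 3)) : Sb E Rr K1 κ).ev w1 w2) =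
      1 - iv (w1 (((e, 1), i), true)) := by simp [vwS, Sy.ev, iv_not]
    have a4 : iv ((vwS e i ρ (some (some 4)) : Sb E Rr K1 κ).ev w1 w2) = 0 := by
      simp [vwS, Sy.ev, iv_false]
    have a5 : iv ((vwS e i ρ (some (some 5)) : Sb E Rr K1 κ).ev w1 w2) = 0 := by
      simp [vwS, Sy.ev, iv_false]
    have a6 : (vwS e i ρ (some none) : Sb E Rr K1 κ).ev w1 w2 = false := by
      simp [vwS, Sy.ev]
    rw [a0, a1, a2, a3, a4, a5, a6]
    simp only [Bool.false_eq_true, if_false]
    ring
  · intro d hd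
    have h2 : (vwS e i ρ (some (some d)) : Sb E Rr K1 κ) = midS e ρ true d := by
      unfold vwS
      simp only
      rw [if_neg (by omega), if_neg (by omega), if_neg (by omega), if_neg (by omega),
        if_neg (by omega), if_neg (by omega)]
    rw [h2]
    exact ev_mid_ge w1 w2 e ρ true d hd

theorem wS_uw (D : ℕ) (hD : 6 + κ ≤ D) (e : E) (i : K1) :
    wS w1 w2 D (uwS e i) = -(16 * iv (w1 (((e, 2), i), false)) +
      32 * iv (w1 (((e, 2), i), true)) +
      ∑ l : Fin κ, (2 : ℤ) ^ ((l : ℕ) + 6)) := by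
  unfold wS
  rw [num_trunc D (6 + κ) _ hD, num_split]
  · have h1 : ∑ l ∈ range κ, (if (uwS e i (some (some (l + 6))) : Sb E Rr K1 κ).ev w1 w2 = true
        then (2 : ℤ) ^ (l + 6) else 0) =
        ∑ l : Fin κ, (2 : ℤ) ^ ((l : ℕ) + 6) := by
      rw [← Fin.sum_univ_eq_sum_range (fun l => if (uwS e i (some (some (l + 6))) :
        Sb E Rr K1 κ).ev w1 w2 = true then (2 : ℤ) ^ (l + 6) else 0) κ]
      apply sum_congr rfl
      intro l _
      have h2 : (uwS e i (some (some ((l : ℕ) + 6))) : Sb E Rr K1 κ) = Sy.cst true := by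
        unfold uwS
        simp
      rw [h2]
      simp [Sy.ev]
    rw [h1, num_six]
    have a0 : iv ((uwS e i (some (some 0)) : Sb E Rr K1 κ).ev w1 w2) = 0 := by
      simp [uwS, Sy.ev, iv_false]
    have a1 : iv ((uwS e i (some (some 1)) : Sb E Rr K1 κ).ev w1 w2) = 0 := by
      simp [uwS, Sy.ev, iv_false]
    have a2 : iv ((uwS e i (some (some 2)) : Sb E Rr K1 κ).ev w1 w2) = 0 := by
      simp [uwS, Sy.ev, iv_false]
    have a3 : iv ((uwS e i (some (some 3)) : Sb E Rr K1 κ).ev w1 w2) = 0 := by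
      simp [uwS, Sy.ev, iv_false]
    have a4 : iv ((uwS e i (some (some 4)) : Sb E Rr K1 κ).ev w1 w2) =
      iv (w1 (((e, 2), i), false)) := by simp [uwS, Sy.ev]
    have a5 : iv ((uwS e i (some (some 5)) : Sb E Rr K1 κ).ev w1 w2) =
      iv (w1 (((e, 2), i), true)) := by simp [uwS, Sy.ev]
    have a6 : (uwS e i (some none) : Sb E Rr K1 κ).ev w1 w2 = true := by
      simp [uwS, Sy.ev]
    rw [a0, a1, a2, a3, a4, a5, a6]
    simp only [if_true]
    ring
  · intro d hd
    have h2 : (uwS e i (some (some d)) : Sb E Rr K1 κ) = Sy.cst false := by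
      unfold uwS
      simp only
      rw [if_neg (by omega), if_neg (by omega), if_neg (by omega), if_neg (by omega),
        if_neg (by omega), if_neg (by omega), if_neg (by omega)]
    rw [h2]
    rfl

end

end Pool.Agent.H596R2.D3R
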