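import Pool.Agent.H596R2.D3R.Sym

/-!
What the yes- and the no-instances look like.
-/

namespace Pool.Agent.H596R2.D3R

open Finset Classical Pool.Agent.H596R2.D3

set_option linter.unusedSectionVars false

variable {E A Rr K1 K2 I : Type} [Fintype E] [Fintype A] [Fintype Rr] [Fintype K1] [Fintype K2]

/-- The two opened inputs of the yes-instance. -/
noncomputable def yes1 (x : Dat (E × A) K1) (σ : E → Finset A) (e : E) :
    ((E × A) × K1) × Bool → Bool := opn x.1 (gr x.2 (Q1 (Function.update σ e univ)))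

noncomputable def yes2 (y : Dat (E × Rr) K2) (ρ : E → Rr) (σ : E → Finset A) (e : E) :
    ((E × Rr) × K2) × Bool → Bool := opn y.1 (gr y.2 (Q2 (Function.update σ e ∅) ρ))

noncomputable def no1 (x : Dat (E × A) K1) (σ : E → Finset A) :
    ((E × A) × K1) × Bool → Bool := opn x.1 (gr x.2 (Q1 σ))

noncomputable def no2 (y : Dat (E × Rr) K2) (ρ : E → Rr) (σ : E → Finset A) :
    ((E × Rr) × K2) × Bool → Bool := opn y.1 (gr y.2 (Q2 σ ρ))

theorem yesI_eq (X : (((E × A) × K1) × Bool → Bool) → (((E × Rr) × K2) × Bool → Bool) →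
    I → Bool) (y : Dat (E × Rr) K2) (ρ : E → Rr) (x : Dat (E × A) K1) (σ : E → Finset A) (e : E) :
    yesI X y ρ x σ e = X (yes1 x σ e) (yes2 y ρ σ e) := rfl

theorem noI_eq (X : (((E × A) × K1) × Bool → Bool) → (((E × Rr) × K2) × Bool → Bool) →
    I → Bool) (y : Dat (E × Rr) K2) (ρ : E → Rr) (x : Dat (E × A) K1) (σ : E → Finset A) :
    noI X y ρ x σ = X (no1 x σ) (no2 y ρ σ) := rfl

/-- An opened input: at least one of the two copies of every block is true. -/
def Opened {R K : Type} (w : (R × K) × Bool → Bool) : Prop :=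
  ∀ q, w (q, false) = true ∨ w (q, true) = true

theorem opened_opn {R K : Type} [Fintype R] [Fintype K] (u : R × K → Bool)
    (D : Finset (R × K)) : Opened (opn u D) := by
  intro q
  rcases opn_cases u D q with ⟨_, h, _⟩ | ⟨_, ⟨h, _⟩ | ⟨_, h⟩⟩
  · exact Or.inl h
  · exact Or.inl h
  · exact Or.inr h

/-- Column `i` of every row of mode `e` is opened for the OR-rows, and the AND-row `(e, ρ)` is not
opened. -/
def Good (w1 : ((E × A) × K1) × Bool → Bool) (w2 : ((E × Rr) × K2) × Bool → Bool)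
    (e : E) (ρ : Rr) (f : A → K1) : Prop :=
  (∀ a, w1 (((e, a), f a), false) = true ∧ w1 (((e, a), f a), true) = true) ∧
    ∀ l, ¬ (w2 (((e, ρ), l), false) = true ∧ w2 (((e, ρ), l), true) = true)

theorem yes_good (hA : 0 < Fintype.card A) (y : Dat (E × Rr) K2) (ρ : E → Rr)
    (x : Dat (E × A) K1) (σ : E → Finset A) (e : E) :
    Good (yes1 x σ e) (yes2 y ρ σ e) e (ρ e) (fun a => x.2 (e, a)) := by
  have hne : (∅ : Finset A) ≠ univ := by
    intro h
    have := congrArg Finset.card h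
    rw [card_empty, card_univ] at this
    omega
  constructor
  · intro a
    have hin : ((e, a), x.2 (e, a)) ∈ gr x.2 (Q1 (Function.update σ e univ)) := by
      rw [mem_gr]
      refine ⟨?_, rfl⟩
      rw [mem_Q1]
      simp
    unfold yes1
    rw [opn_iff', opn_iff']
    exact ⟨Or.inl hin, Or.inl hin⟩
  · intro l
    have hnot : ((e, ρ e), l) ∉ gr y.2 (Q2 (Function.update σ e ∅) ρ) := by
      rw [mem_gr, mem_Q2]
      rintro ⟨h | h, _⟩
      · simp only [Function.update_self] at h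
        exact hne h
      · exact h rfl
    unfold yes2
    rcases opn_cases y.1 (gr y.2 (Q2 (Function.update σ e ∅) ρ)) ((e, ρ e), l) with
      ⟨h, _, _⟩ | ⟨_, ⟨_, h⟩ | ⟨h, _⟩⟩
    · exact absurd h hnot
    · rw [h]; simp
    · rw [h]; simp

theorem no_good (y : Dat (E × Rr) K2) (ρ : E → Rr)
    (x : Dat (E × A) K1) (σ : E → Finset A) (e : E) (ρ' : Rr) (f : A → K1) :
    ¬ Good (no1 x σ) (no2 y ρ σ) e ρ' f := by
  rintro ⟨h1, h2⟩
  have hop : ∀ a, a ∈ σ e := by
    intro a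
    by_contra hs
    have hnot : ((e, a), f a) ∉ gr x.2 (Q1 σ) := by
      rw [mem_gr, mem_Q1]
      intro hh
      exact hs hh.1
    have h3 := h1 a
    unfold no1 at h3
    rcases opn_cases x.1 (gr x.2 (Q1 σ)) ((e, a), f a) with
      ⟨h, _, _⟩ | ⟨_, ⟨_, h⟩ | ⟨h, _⟩⟩
    · exact hnot h
    · rw [h] at h3; simp at h3
    · rw [h] at h3; simp at h3
  have huniv : σ e = univ := by
    ext a
    simp [hop a]
  apply h2 (y.2 (e, ρ'))
  have hin : ((e, ρ'), y.2 (e, ρ')) ∈ gr y.2 (Q2 σ ρ) := by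
    rw [mem_gr, mem_Q2]
    exact ⟨Or.inl huniv, rfl⟩
  unfold no2
  rw [opn_iff', opn_iff']
  exact ⟨Or.inl hin, Or.inl hin⟩

/-- The lower bound scheme: a reduction from the hard instances. -/
theorem scheme {L : Type} [Fintype L] (w : L → ℝ) (C : L → Circuit I 3) (hw : ∀ l, 0 ≤ w l)
    (hw1 : ∑ l, w l = 1) (V : (I → Bool) → Prop) (P : (I → Bool) → Prop)
    (X : (((E × A) × K1) × Bool → Bool) → (((E × Rr) × K2) × Bool → Bool) → I → Bool)
    (hX1 : ∀ w2, IsProj (fun w1 => X w1 w2)) (hX2 : ∀ w1, IsProj (X w1))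
    (p k k' : ℕ) (hp : 1 ≤ p) (hk : 1 ≤ k) (hk' : 1 ≤ k')
    (hkA : k < Fintype.card A) (hK1 : 0 < Fintype.card K1) (hE : 0 < Fintype.card E)
    (hr : 0 < Fintype.card Rr) (hK2 : 0 < Fintype.card K2) (ε η : ℝ) (hη : η < 2 * ε)
    (hV : ∀ w1 w2, Opened w1 → Opened w2 → V (X w1 w2))
    (hyes : ∀ w1 w2, Opened w1 → Opened w2 → (∃ e ρ f, Good w1 w2 e ρ f) → P (X w1 w2))
    (hno : ∀ w1 w2, Opened w1 → Opened w2 → P (X w1 w2) → (∃ e ρ f, Good w1 w2 e ρ f))
    (hsucc : ∀ z, V z → 1 / 2 + ε ≤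
      (∑ l, if ((C l).val z (C l).out ↔ P z) then w l else 0))
    (herr : ∀ l, 0 < w l →
      er1 (C l).size p k (Fintype.card E) (Fintype.card A) (Fintype.card K1) +
      er2 (C l).size p k' (Fintype.card E) (Fintype.card Rr) (Fintype.card K2) +
      err3 (Fintype.card E) (Fintype.card A) ≤ η) : False := by
  apply mixture' w C hw hw1 X hX1 hX2 p k k' hp hk hk' hkA hK1 hE hr hK2 ε η hη ?_ ?_ herr
  · intro y ρ x σ e
    rw [yesI_eq]
    have hop1 : Opened (yes1 x σ e) := opened_opn _ _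
    have hop2 : Opened (yes2 y ρ σ e) := opened_opn _ _
    have hP := hyes _ _ hop1 hop2 ⟨e, ρ e, _, yes_good (by omega) y ρ x σ e⟩
    refine (hsucc _ (hV _ _ hop1 hop2)).trans (le_of_eq ?_)
    apply sum_congr rfl
    intro l _
    by_cases h : (C l).val (X (yes1 x σ e) (yes2 y ρ σ e)) (C l).out
    · rw [ind_true h]; simp [h, hP]
    · rw [ind_false h]; simp [h, hP]
  · intro y ρ x σ
    rw [noI_eq]
    have hop1 : Opened (no1 x σ) := opened_opn _ _
    have hop2 : Opened (no2 y ρ σ) := opened_opn _ _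
    have hP : ¬ P (X (no1 x σ) (no2 y ρ σ)) := by
      intro h
      obtain ⟨e, ρ', f, hg⟩ := hno _ _ hop1 hop2 h
      exact no_good y ρ x σ e ρ' f hg
    have h1 := hsucc _ (hV _ _ hop1 hop2)
    have h2 : (∑ l, if ((C l).val (X (no1 x σ) (no2 y ρ σ)) (C l).out ↔
        P (X (no1 x σ) (no2 y ρ σ))) then w l else 0) =
        1 - ∑ l, w l * ind ((C l).val (X (no1 x σ) (no2 y ρ σ)) (C l).out) := by
      rw [← hw1, ← sum_sub_distrib]
      apply sum_congr rfl
      intro l _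
      by_cases h : (C l).val (X (no1 x σ) (no2 y ρ σ)) (C l).out
      · rw [ind_true h]; simp [h, hP]
      · rw [ind_false h]; simp [h, hP]
    rw [h2] at h1
    linarith

end Pool.Agent.H596R2.D3R
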