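import Pool.Agent.H596R2.D3R.ETInst
import Pool.Agent.H596R2.D3R.Gen

/-!
Triangles of the hard instances.
-/

namespace Pool.Agent.H596R2.D3R

open Finset Classical Pool.Agent.H596R2.D3

set_option linter.unusedSectionVars false

variable {E Rr K1 : Type} [Fintype E] [Fintype Rr] [Fintype K1] {κ : ℕ}

theorem iv_nonneg (b : Bool) : 0 ≤ iv b := by
  unfold iv; split_ifs <;> norm_num

theorem iv_le (b : Bool) : iv b ≤ 1 := by
  unfold iv; split_ifs <;> norm_num

theorem iv_eq_one (b : Bool) (h : 1 - iv b = 0) : b = true := by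
  unfold iv at h
  cases b
  · simp at h
  · rfl

section
variable (w1 : ((E × Fin 3) × K1) × Bool → Bool) (w2 : ((E × Rr) × Fin κ) × Bool → Bool)

theorem tri_weight (D : ℕ) (hD : 6 + κ ≤ D) (e : E) (i j k : K1) (ρ : Rr) :
    wS w1 w2 D (uvS e i ρ) + wS w1 w2 D (vwS e j ρ) + wS w1 w2 D (uwS e k) =
      (1 - iv (w1 (((e, 0), i), false))) + 2 * (1 - iv (w1 (((e, 0), i), true))) +
      4 * (1 - iv (w1 (((e, 1), j), false))) + 8 * (1 - iv (w1 (((e, 1), j), true))) +
      16 * (1 - iv (w1 (((e, 2), k), false))) + 32 * (1 - iv (w1 (((e, 2), k), true))) +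
      ∑ l : Fin κ, (iv (w2 (((e, ρ), l), false)) + iv (w2 (((e, ρ), l), true)) - 1) *
        2 ^ ((l : ℕ) + 6) := by
  rw [wS_uv w1 w2 D hD, wS_vw w1 w2 D hD, wS_uw w1 w2 D hD]
  have : ∑ l : Fin κ, (iv (w2 (((e, ρ), l), false)) + iv (w2 (((e, ρ), l), true)) - 1) *
        (2 : ℤ) ^ ((l : ℕ) + 6) = ∑ l : Fin κ, iv (w2 (((e, ρ), l), false)) * 2 ^ ((l : ℕ) + 6) +
        ∑ l : Fin κ, iv (w2 (((e, ρ), l), true)) * 2 ^ ((l : ℕ) + 6) -
        ∑ l : Fin κ, (2 : ℤ) ^ ((l : ℕ) + 6) := by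
    rw [← sum_add_distrib, ← sum_sub_distrib]
    apply sum_congr rfl
    intro l _
    ring
  rw [this]
  ring

/-- The function with the three given values. -/
def tri3 {K : Type} (i j k : K) : Fin 3 → K := fun a => if a = 0 then i else if a = 1 then j else k

theorem tri_zero (hw2 : Opened w2) (D : ℕ) (hD : 6 + κ ≤ D) (e : E) (i j k : K1) (ρ : Rr) :
    wS w1 w2 D (uvS e i ρ) + wS w1 w2 D (vwS e j ρ) + wS w1 w2 D (uwS e k) = 0 ↔
      Good w1 w2 e ρ (tri3 i j k) := by
  rw [tri_weight w1 w2 D hD]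
  have hpos : ∀ l : Fin κ, 0 ≤ (iv (w2 (((e, ρ), l), false)) + iv (w2 (((e, ρ), l), true)) - 1) *
        2 ^ ((l : ℕ) + 6) := by
    intro l
    apply mul_nonneg _ (by positivity)
    have h0 := iv_nonneg (w2 (((e, ρ), l), false))
    have h1 := iv_nonneg (w2 (((e, ρ), l), true))
    rcases hw2 ((e, ρ), l) with h | h
    · rw [h, iv_true]; linarith
    · rw [h, iv_true]; linarith
  constructor
  · intro h
    have hs : 0 ≤ ∑ l : Fin κ, (iv (w2 (((e, ρ), l), false)) + iv (w2 (((e, ρ), l), true)) - 1) *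
        (2 : ℤ) ^ ((l : ℕ) + 6) := sum_nonneg (fun l _ => hpos l)
    have a0 := iv_le (w1 (((e, 0), i), false))
    have a1 := iv_le (w1 (((e, 0), i), true))
    have a2 := iv_le (w1 (((e, 1), j), false))
    have a3 := iv_le (w1 (((e, 1), j), true))
    have a4 := iv_le (w1 (((e, 2), k), false))
    have a5 := iv_le (w1 (((e, 2), k), true))
    have b0 := iv_eq_one _ (show 1 - iv (w1 (((e, 0), i), false)) = 0 by linarith)
    have b1 := iv_eq_one _ (show 1 - iv (w1 (((e, 0), i), true)) = 0 by linarith)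
    have b2 := iv_eq_one _ (show 1 - iv (w1 (((e, 1), j), false)) = 0 by linarith)
    have b3 := iv_eq_one _ (show 1 - iv (w1 (((e, 1), j), true)) = 0 by linarith)
    have b4 := iv_eq_one _ (show 1 - iv (w1 (((e, 2), k), false)) = 0 by linarith)
    have b5 := iv_eq_one _ (show 1 - iv (w1 (((e, 2), k), true)) = 0 by linarith)
    have hs0 : ∑ l : Fin κ, (iv (w2 (((e, ρ), l), false)) + iv (w2 (((e, ρ), l), true)) - 1) *
        (2 : ℤ) ^ ((l : ℕ) + 6) = 0 := by linarith
    refine ⟨?_, ?_⟩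
    · intro a
      fin_cases a
      · exact ⟨b0, b1⟩
      · exact ⟨b2, b3⟩
      · exact ⟨b4, b5⟩
    · intro l hl
      have h1 := (sum_eq_zero_iff_of_nonneg (fun l _ => hpos l)).mp hs0 l (mem_univ l)
      rw [hl.1, hl.2, iv_true] at h1
      have : (0 : ℤ) < 2 ^ ((l : ℕ) + 6) := by positivity
      linarith
  · rintro ⟨h1, h2⟩
    have c0 : w1 (((e, 0), i), false) = true ∧ w1 (((e, 0), i), true) = true := h1 0
    have c1 : w1 (((e, 1), j), false) = true ∧ w1 (((e, 1), j), true) = true := h1 1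
    have c2 : w1 (((e, 2), k), false) = true ∧ w1 (((e, 2), k), true) = true := h1 2
    have hs0 : ∑ l : Fin κ, (iv (w2 (((e, ρ), l), false)) + iv (w2 (((e, ρ), l), true)) - 1) *
        (2 : ℤ) ^ ((l : ℕ) + 6) = 0 := by
      apply sum_eq_zero
      intro l _
      have h3 := h2 l
      rcases hw2 ((e, ρ), l) with h | h
      · have h4 : w2 (((e, ρ), l), true) = false := by
          rw [← Bool.not_eq_true]
          intro h5
          exact h3 ⟨h, h5⟩
        rw [h, h4, iv_true, iv_false]; ring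
      · have h4 : w2 (((e, ρ), l), false) = false := by
          rw [← Bool.not_eq_true]
          intro h5
          exact h3 ⟨h5, h⟩
        rw [h, h4, iv_true, iv_false]; ring
    rw [hs0, c0.1, c0.2, c1.1, c1.2, c2.1, c2.2, iv_true]
    norm_num

theorem ed_uv (u : E × K1) (v : E × K1 × Rr)
    (h : (edS (Sum.inl u) (Sum.inr (Sum.inl v)) none : Sb E Rr K1 κ).ev w1 w2 = true) :
    u.1 = v.1 ∧ (edS (Sum.inl u) (Sum.inr (Sum.inl v)) : Option (Option ℕ) → Sb E Rr K1 κ) =
      uvS u.1 u.2 v.2.2 := by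
  by_cases hc : u.1 = v.1
  · refine ⟨hc, ?_⟩
    funext t
    simp only [edS, if_pos hc]
  · simp only [edS, if_neg hc, Sy.ev] at h
    exact absurd h (by simp)

theorem ed_vw (v : E × K1 × Rr) (w : E × K1)
    (h : (edS (Sum.inr (Sum.inl v)) (Sum.inr (Sum.inr w)) none : Sb E Rr K1 κ).ev w1 w2 = true) :
    v.1 = w.1 ∧ (edS (Sum.inr (Sum.inl v)) (Sum.inr (Sum.inr w)) :
      Option (Option ℕ) → Sb E Rr K1 κ) = vwS v.1 v.2.1 v.2.2 := by
  by_cases hc : v.1 = w.1
  · refine ⟨hc, ?_⟩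
    funext t
    simp only [edS, if_pos hc]
  · simp only [edS, if_neg hc, Sy.ev] at h
    exact absurd h (by simp)

theorem ed_uw (u w : E × K1)
    (h : (edS (Sum.inl u) (Sum.inr (Sum.inr w)) none : Sb E Rr K1 κ).ev w1 w2 = true) :
    u.1 = w.1 ∧ (edS (Sum.inl u) (Sum.inr (Sum.inr w)) :
      Option (Option ℕ) → Sb E Rr K1 κ) = uwS u.1 w.2 := by
  by_cases hc : u.1 = w.1
  · refine ⟨hc, ?_⟩
    funext t
    simp only [edS, if_pos hc]
  · simp only [edS, if_neg hc, Sy.ev] at h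
    exact absurd h (by simp)

theorem uvw_good (hw2 : Opened w2) (D : ℕ) (hD : 6 + κ ≤ D) (u : E × K1) (v : E × K1 × Rr)
    (w : E × K1)
    (h1 : (edS (Sum.inl u) (Sum.inr (Sum.inl v)) none : Sb E Rr K1 κ).ev w1 w2 = true)
    (h2 : (edS (Sum.inr (Sum.inl v)) (Sum.inr (Sum.inr w)) none : Sb E Rr K1 κ).ev w1 w2 = true)
    (h3 : (edS (Sum.inl u) (Sum.inr (Sum.inr w)) none : Sb E Rr K1 κ).ev w1 w2 = true)
    (hs : wS w1 w2 D (edS (Sum.inl u) (Sum.inr (Sum.inl v))) +
      wS w1 w2 D (edS (Sum.inr (Sum.inl v)) (Sum.inr (Sum.inr w))) +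
      wS w1 w2 D (edS (Sum.inl u) (Sum.inr (Sum.inr w))) = 0) :
    ∃ e ρ f, Good w1 w2 e ρ f := by
  obtain ⟨a1, a2⟩ := ed_uv w1 w2 u v h1
  obtain ⟨b1, b2⟩ := ed_vw w1 w2 v w h2
  obtain ⟨c1, c2⟩ := ed_uw w1 w2 u w h3
  rw [a2, b2, c2, ← a1] at hs
  exact ⟨_, _, _, (tri_zero w1 w2 hw2 D hD _ _ _ _ _).mp hs⟩

theorem ve_good (hw2 : Opened w2) (D : ℕ) (hD : 6 + κ ≤ D) (p q t : Ve E Rr K1)
    (h1 : (edS p q none : Sb E Rr K1 κ).ev w1 w2 = true)
    (h2 : (edS q t none : Sb E Rr K1 κ).ev w1 w2 = true)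
    (h3 : (edS p t none : Sb E Rr K1 κ).ev w1 w2 = true)
    (hs : wS w1 w2 D (edS p q) + wS w1 w2 D (edS q t) + wS w1 w2 D (edS p t) = 0) :
    ∃ e ρ f, Good w1 w2 e ρ f := by
  have hsym : ∀ a b : Ve E Rr K1, (edS a b : Option (Option ℕ) → Sb E Rr K1 κ) = edS b a :=
    fun a b => funext (fun t => edS_symm a b t)
  rcases p with p | p | p <;> rcases q with q | q | q <;> rcases t with t | t | t <;>
    first
    | exact absurd h1 Bool.false_ne_true
    | exact absurd h2 Bool.false_ne_true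
    | exact absurd h3 Bool.false_ne_true
    | skip
  · -- U V W
    exact uvw_good w1 w2 hw2 D hD p q t h1 h2 h3 hs
  · -- U W V
    rw [hsym (Sum.inr (Sum.inr q)) (Sum.inr (Sum.inl t))] at h2 hs
    exact uvw_good w1 w2 hw2 D hD p t q h3 h2 h1 (by linarith)
  · -- V U W
    rw [hsym (Sum.inr (Sum.inl p)) (Sum.inl q)] at h1 hs
    exact uvw_good w1 w2 hw2 D hD q p t h1 h3 h2 (by linarith)
  · -- V W U
    rw [hsym (Sum.inr (Sum.inl p)) (Sum.inl t)] at h3
    rw [hsym (Sum.inr (Sum.inr q)) (Sum.inl t)] at h2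
    rw [hsym (Sum.inr (Sum.inl p)) (Sum.inl t), hsym (Sum.inr (Sum.inr q)) (Sum.inl t)] at hs
    exact uvw_good w1 w2 hw2 D hD t p q h3 h1 h2 (by linarith)
  · -- W U V
    rw [hsym (Sum.inr (Sum.inr p)) (Sum.inl q)] at h1
    rw [hsym (Sum.inr (Sum.inr p)) (Sum.inr (Sum.inl t))] at h3
    rw [hsym (Sum.inr (Sum.inr p)) (Sum.inl q),
      hsym (Sum.inr (Sum.inr p)) (Sum.inr (Sum.inl t))] at hs
    exact uvw_good w1 w2 hw2 D hD q t p h2 h3 h1 (by linarith)
  · -- W V U
    rw [hsym (Sum.inr (Sum.inr p)) (Sum.inr (Sum.inl q))] at h1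
    rw [hsym (Sum.inr (Sum.inl q)) (Sum.inl t)] at h2
    rw [hsym (Sum.inr (Sum.inr p)) (Sum.inl t)] at h3
    rw [hsym (Sum.inr (Sum.inr p)) (Sum.inr (Sum.inl q)), hsym (Sum.inr (Sum.inl q)) (Sum.inl t),
      hsym (Sum.inr (Sum.inr p)) (Sum.inl t)] at hs
    exact uvw_good w1 w2 hw2 D hD t q p h2 h1 h3 (by linarith)

end

section
variable {n : ℕ} (fv : Ve E Rr K1 → Fin n) (hfv : Function.Injective fv)
  (w1 : ((E × Fin 3) × K1) × Bool → Bool) (w2 : ((E × Rr) × Fin κ) × Bool → Bool)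

theorem et_no (hw2 : Opened w2) (hD : 6 + κ ≤ digs n) (dv : Fin n → Option (Ve E Rr K1))
    (h : ExactTriangle (XET dv w1 w2)) : ∃ e ρ f, Good w1 w2 e ρ f := by
  obtain ⟨i, j, k, _, _, _, h1, h2, h3, hs⟩ := h
  rcases hi : dv i with _ | p
  · rw [weight_none w1 w2 dv i j (Or.inl hi)] at h1; exact absurd h1 (by simp)
  rcases hj : dv j with _ | q
  · rw [weight_none w1 w2 dv i j (Or.inr hj)] at h1; exact absurd h1 (by simp)
  rcases hk : dv k with _ | t
  · rw [weight_none w1 w2 dv i k (Or.inr hk)] at h3; exact absurd h3 (by simp)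
  rw [weight_eq w1 w2 dv i j p q hi hj, weight_eq w1 w2 dv j k q t hj hk,
    weight_eq w1 w2 dv i k p t hi hk] at hs
  have e1 : XET dv w1 w2 (i, j, none) = (edS p q none : Sb E Rr K1 κ).ev w1 w2 := by
    unfold XET symET; simp only [hi, hj]; rfl
  have e2 : XET dv w1 w2 (j, k, none) = (edS q t none : Sb E Rr K1 κ).ev w1 w2 := by
    unfold XET symET; simp only [hj, hk]; rfl
  have e3 : XET dv w1 w2 (i, k, none) = (edS p t none : Sb E Rr K1 κ).ev w1 w2 := by
    unfold XET symET; simp only [hi, hk]; rfl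
  rw [e1] at h1
  rw [e2] at h2
  rw [e3] at h3
  exact ve_good w1 w2 hw2 (digs n) hD p q t h1 h2 h3 hs

include hfv in
theorem et_yes (hw2 : Opened w2) (hD : 6 + κ ≤ digs n) (e : E) (ρ : Rr) (f : Fin 3 → K1)
    (h : Good w1 w2 e ρ f) : ExactTriangle (XET (Function.partialInv fv) w1 w2) := by
  have hv : ∀ x, Function.partialInv fv (fv x) = some x := fun x =>
    Function.partialInv_left hfv x
  let u : Ve E Rr K1 := Sum.inl (e, f 0)
  let v : Ve E Rr K1 := Sum.inr (Sum.inl (e, f 1, ρ))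
  let w : Ve E Rr K1 := Sum.inr (Sum.inr (e, f 2))
  have huv : (edS u v : Option (Option ℕ) → Sb E Rr K1 κ) = uvS e (f 0) ρ := by
    funext t; simp [u, v, edS]
  have hvw : (edS v w : Option (Option ℕ) → Sb E Rr K1 κ) = vwS e (f 1) ρ := by
    funext t; simp [v, w, edS]
  have huw : (edS u w : Option (Option ℕ) → Sb E Rr K1 κ) = uwS e (f 2) := by
    funext t; simp [u, w, edS]
  refine ⟨fv u, fv v, fv w, ?_, ?_, ?_, ?_, ?_, ?_, ?_⟩
  · exact fun hh => by simpa [u, v] using hfv hh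
  · exact fun hh => by simpa [v, w] using hfv hh
  · exact fun hh => by simpa [u, w] using hfv hh
  · unfold XET symET; simp only [hv]
    show (edS u v none : Sb E Rr K1 κ).ev w1 w2 = true
    rw [huv]; rfl
  · unfold XET symET; simp only [hv]
    show (edS v w none : Sb E Rr K1 κ).ev w1 w2 = true
    rw [hvw]; rfl
  · unfold XET symET; simp only [hv]
    show (edS u w none : Sb E Rr K1 κ).ev w1 w2 = true
    rw [huw]; rfl
  · rw [weight_eq w1 w2 _ _ _ u v (hv u) (hv v), weight_eq w1 w2 _ _ _ v w (hv v) (hv w),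
      weight_eq w1 w2 _ _ _ u w (hv u) (hv w), huv, hvw, huw]
    rw [tri_zero w1 w2 hw2 (digs n) hD]
    have : tri3 (f 0) (f 1) (f 2) = f := by
      funext a
      fin_cases a <;> rfl
    rw [this]
    exact h

theorem ed_high (p q : Ve E Rr K1) (d : ℕ) (hd : 6 + κ ≤ d) :
    (edS p q (some (some d)) : Sb E Rr K1 κ).ev w1 w2 = false := by
  have h1 : ∀ (e : E) (i : K1) (ρ : Rr),
      (uvS e i ρ (some (some d)) : Sb E Rr K1 κ).ev w1 w2 = false := by
    intro e i ρ
    have h2 : (uvS e i ρ (some (some d)) : Sb E Rr K1 κ) = midS e ρ false d := by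
      unfold uvS
      simp only
      rw [if_neg (by omega), if_neg (by omega), if_neg (by omega), if_neg (by omega),
        if_neg (by omega), if_neg (by omega)]
    rw [h2]
    exact ev_mid_ge w1 w2 e ρ false d hd
  have h2 : ∀ (e : E) (i : K1) (ρ : Rr),
      (vwS e i ρ (some (some d)) : Sb E Rr K1 κ).ev w1 w2 = false := by
    intro e i ρ
    have h2 : (vwS e i ρ (some (some d)) : Sb E Rr K1 κ) = midS e ρ true d := by
      unfold vwS
      simp only
      rw [if_neg (by omega), if_neg (by omega), if_neg (by omega), if_neg (by omega),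
        if_neg (by omega), if_neg (by omega)]
    rw [h2]
    exact ev_mid_ge w1 w2 e ρ true d hd
  have h3 : ∀ (e : E) (i : K1),
      (uwS e i (some (some d)) : Sb E Rr K1 κ).ev w1 w2 = false := by
    intro e i
    have h2 : (uwS e i (some (some d)) : Sb E Rr K1 κ) = Sy.cst false := by
      unfold uwS
      simp only
      rw [if_neg (by omega), if_neg (by omega), if_neg (by omega), if_neg (by omega),
        if_neg (by omega), if_neg (by omega), if_neg (by omega)]
    rw [h2]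
    rfl
  rcases p with p | p | p <;> rcases q with q | q | q <;> simp only [edS] <;>
    first
    | rfl
    | (split_ifs
       · first
         | exact h1 _ _ _
         | exact h2 _ _ _
         | exact h3 _ _
       · rfl)

theorem et_valid (hκ : 2 ^ (6 + κ) ≤ n ^ 300) (hD : 6 + κ ≤ digs n)
    (dv : Fin n → Option (Ve E Rr K1)) : ValidET (XET dv w1 w2) := by
  refine ⟨?_, ?_, ?_⟩
  · intro i j b
    unfold XET symET
    rcases dv i with _ | p <;> rcases dv j with _ | q
    · rfl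
    · rfl
    · rfl
    · simp only
      rw [edS_symm]
  · intro i
    unfold XET symET
    rcases dv i with _ | p
    · rfl
    · simp only
      rcases p with p | p | p <;> rfl
  · intro i j
    have hpos : (0 : ℤ) ≤ (n : ℤ) ^ 300 := by positivity
    by_cases hn : dv i = none ∨ dv j = none
    · have h0 := weight_none w1 w2 dv i j hn
      have : weight (XET dv w1 w2) i j = 0 := by
        unfold weight
        simp only [h0]
        simp
      rw [this, abs_zero]
      exact hpos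
    · push Not at hn
      obtain ⟨p, hp⟩ := Option.ne_none_iff_exists'.mp hn.1
      obtain ⟨q, hq⟩ := Option.ne_none_iff_exists'.mp hn.2
      rw [weight_eq w1 w2 dv i j p q hp hq]
      unfold wS
      rw [num_trunc (digs n) (6 + κ) _ hD (fun d hd => ed_high w1 w2 p q d hd)]
      have h1 := num_lt (6 + κ) (fun d => (edS p q (some (some d)) : Sb E Rr K1 κ).ev w1 w2)
      have h2 := num_nonneg (6 + κ) (fun d => (edS p q (some (some d)) : Sb E Rr K1 κ).ev w1 w2)
      have h3 : (2 : ℤ) ^ (6 + κ) ≤ (n : ℤ) ^ 300 := by exact_mod_cast hκ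
      rw [abs_mul, abs_of_nonneg h2]
      have h4 : |(if (edS p q (some none) : Sb E Rr K1 κ).ev w1 w2 = true then (-1 : ℤ) else 1)|
          = 1 := by
        split_ifs <;> simp
      rw [h4, one_mul]
      linarith

end

theorem digs_le (n κ : ℕ) (hκ : 2 ^ (6 + κ) ≤ n ^ 300) : 6 + κ ≤ digs n := by
  unfold digs
  exact (Nat.lt_size.mpr hκ).le

end Pool.Agent.H596R2.D3R
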