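import Pool.Agent.H596R2.D3R.TypC
import Pool.Agent.H596R2.D3R.Avg

/-!
The hard distribution: modes with an OR part and an AND part.
-/

namespace Pool.Agent.H596R2.D3R

open Finset Classical Pool.Agent.H596R2.D3

set_option linter.unusedSectionVars false

/-- Indicator. -/
noncomputable def ind (P : Prop) : ℝ := if P then 1 else 0

theorem ind_nonneg (P : Prop) : 0 ≤ ind P := by unfold ind; split_ifs <;> norm_num

theorem ind_le_one (P : Prop) : ind P ≤ 1 := by unfold ind; split_ifs <;> norm_num

theorem ind_true {P : Prop} (h : P) : ind P = 1 := by unfold ind; simp [h]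

theorem ind_false {P : Prop} (h : ¬ P) : ind P = 0 := by unfold ind; simp [h]

theorem ind_le (P Q : Prop) : ind P ≤ ind Q + ind (P ∧ ¬ Q) := by
  by_cases h : P
  · by_cases h' : Q
    · rw [ind_true h, ind_true h', ind_false (fun x => x.2 h')]; norm_num
    · rw [ind_true h, ind_false h', ind_true ⟨h, h'⟩]; norm_num
  · rw [ind_false h]
    exact add_nonneg (ind_nonneg _) (ind_nonneg _)

theorem sum_ind {E : Type} [Fintype E] (P : E → Prop) :
    ∑ e, ind (P e) = ((univ.filter P).card : ℝ) := by
  unfold ind
  rw [card_filter]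
  push_cast
  rfl

theorem sum_ind_le {E : Type} [Fintype E] (P : E → Prop) (κ : ℕ) (s : Finset E)
    (hs : ∀ e, P e → e ∈ s) (h : s.card ≤ κ) : ∑ e, ind (P e) ≤ (κ : ℝ) := by
  rw [sum_ind]
  have : (univ.filter (P ·)).card ≤ κ :=
    (card_le_card (fun e he => hs e (mem_filter.mp he).2)).trans h
  exact_mod_cast this

variable {E A Rr : Type} [Fintype E] [Fintype A] [Fintype Rr]

/-- The opened rows of the OR part. -/
noncomputable def Q1 (σ : E → Finset A) : Finset (E × A) := univ.filter (fun x => x.2 ∈ σ x.1)

/-- The opened rows of the AND part. -/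
noncomputable def Q2 (σ : E → Finset A) (ρ : E → Rr) : Finset (E × Rr) :=
  univ.filter (fun x => σ x.1 = univ ∨ x.2 ≠ ρ x.1)

theorem mem_Q1 (σ : E → Finset A) (x : E × A) : x ∈ Q1 σ ↔ x.2 ∈ σ x.1 := by
  unfold Q1; simp

theorem mem_Q2 (σ : E → Finset A) (ρ : E → Rr) (x : E × Rr) :
    x ∈ Q2 σ ρ ↔ (σ x.1 = univ ∨ x.2 ≠ ρ x.1) := by
  unfold Q2; simp

theorem Q2_update (σ : E → Finset A) (ρ : E → Rr) (e : E) (s t : Finset A)
    (h : s = univ ↔ t = univ) : Q2 (Function.update σ e s) ρ = Q2 (Function.update σ e t) ρ := by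
  ext x
  rw [mem_Q2, mem_Q2]
  by_cases hx : x.1 = e
  · rw [hx, Function.update_self, Function.update_self, h]
  · rw [Function.update_of_ne hx, Function.update_of_ne hx]

/-- The pointwise OR claim. -/
theorem or_point (hA : 0 < Fintype.card A) (acc : Finset (E × A) → Finset (E × Rr) → Prop)
    (k : ℕ) (hk : k < Fintype.card A) (ρ : E → Rr)
    (h1 : ∀ Q' Q, acc Q Q' → ∀ Γ ⊆ Q, ∃ Γ', Γ ⊆ Γ' ∧ Γ' ⊆ Q ∧ Γ'.card ≤ Γ.card + k ∧ acc Γ' Q')
    (σ : E → Finset A) (e : E)
    (hY : acc (Q1 (Function.update σ e univ)) (Q2 (Function.update σ e ∅) ρ))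
    (hN : ¬ acc (Q1 (Function.update σ e ∅)) (Q2 (Function.update σ e ∅) ρ)) :
    ∃ s : Finset A, acc (Q1 (Function.update σ e s)) (Q2 (Function.update σ e s) ρ) ∧
      ¬ acc ((Q1 (Function.update σ e s)).filter (fun x => x.1 ≠ e))
        (Q2 (Function.update σ e s) ρ) := by
  have hne : (∅ : Finset A) ≠ univ := by
    intro h
    have := congrArg Finset.card h
    rw [card_empty, card_univ] at this
    omega
  have hsub : Q1 (Function.update σ e ∅) ⊆ Q1 (Function.update σ e univ) := by
    intro x hx
    rw [mem_Q1] at hx ⊢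
    by_cases hxe : x.1 = e
    · rw [hxe, Function.update_self]; exact mem_univ _
    · rw [Function.update_of_ne hxe] at hx ⊢; exact hx
  obtain ⟨Γ', a1, a2, a3, a4⟩ := h1 _ _ hY _ hsub
  let s : Finset A := univ.filter (fun a => (e, a) ∈ Γ')
  have hΓ' : Γ' = Q1 (Function.update σ e s) := by
    ext x
    rw [mem_Q1]
    by_cases hxe : x.1 = e
    · rw [hxe, Function.update_self]
      simp only [s, mem_filter, mem_univ, true_and]
      rw [← hxe]
    · rw [Function.update_of_ne hxe]
      constructor
      · intro h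
        have := a2 h
        rw [mem_Q1, Function.update_of_ne hxe] at this
        exact this
      · intro h
        apply a1
        rw [mem_Q1, Function.update_of_ne hxe]
        exact h
  have hs : s ≠ univ := by
    intro hs
    rw [hs] at hΓ'
    have hc : (Q1 (Function.update σ e univ)).card =
        (Q1 (Function.update σ e ∅)).card + Fintype.card A := by
      have e1 : Q1 (Function.update σ e univ) = Q1 (Function.update σ e ∅) ∪
          (univ : Finset A).image (fun a => (e, a)) := by
        ext x
        rw [mem_union, mem_Q1, mem_Q1, mem_image]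
        by_cases hxe : x.1 = e
        · rw [hxe, Function.update_self, Function.update_self]
          simp only [mem_univ, true_and, notMem_empty, false_or, true_iff]
          exact ⟨x.2, by rw [← hxe]⟩
        · rw [Function.update_of_ne hxe, Function.update_of_ne hxe]
          constructor
          · exact fun h => Or.inl h
          · rintro (h | ⟨a, _, h⟩)
            · exact h
            · exact absurd (congrArg Prod.fst h).symm hxe
      rw [e1, card_union_of_disjoint]
      · rw [card_image_of_injective _ (fun a b h => (Prod.ext_iff.mp h).2), card_univ]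
      · rw [disjoint_left]
        intro x hx hx'
        obtain ⟨a, _, rfl⟩ := mem_image.mp hx'
        rw [mem_Q1] at hx
        simp at hx
    rw [← hΓ'] at hc
    omega
  refine ⟨s, ?_, ?_⟩
  · rw [← hΓ', Q2_update σ ρ e s ∅ (by
      constructor
      · exact fun h => absurd h hs
      · exact fun h => absurd h hne)]
    exact a4
  · rw [Q2_update σ ρ e s ∅ (by
      constructor
      · exact fun h => absurd h hs
      · exact fun h => absurd h hne)]
    have : (Q1 (Function.update σ e s)).filter (fun x => x.1 ≠ e) =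
        Q1 (Function.update σ e ∅) := by
      ext x
      rw [mem_filter, mem_Q1, mem_Q1]
      by_cases hxe : x.1 = e
      · rw [hxe, Function.update_self, Function.update_self]; simp
      · rw [Function.update_of_ne hxe, Function.update_of_ne hxe]; simp [hxe]
    rw [this]
    exact hN

/-- The OR claim for a typical pair. -/
theorem or_claim (hA : 0 < Fintype.card A) (acc : Finset (E × A) → Finset (E × Rr) → Prop)
    (k κ : ℕ) (hk : k < Fintype.card A) (ρ : E → Rr)
    (h1 : ∀ Q' Q, acc Q Q' → ∀ Γ ⊆ Q, ∃ Γ', Γ ⊆ Γ' ∧ Γ' ⊆ Q ∧ Γ'.card ≤ Γ.card + k ∧ acc Γ' Q')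
    (h2 : ∀ Q' Q, acc Q Q' → ∀ s : Finset E, (∀ e ∈ s, ∃ Q0 : Finset (E × A),
      (∀ i, i ∈ Q0 ↔ i ∈ Q ∧ i.1 ≠ e) ∧ ¬ acc Q0 Q') → s.card ≤ κ) :
    ∑ σ : E → Finset A, ∑ e : E,
        ind (acc (Q1 (Function.update σ e univ)) (Q2 (Function.update σ e ∅) ρ)) ≤
      ∑ σ : E → Finset A, ∑ e : E,
        ind (acc (Q1 (Function.update σ e ∅)) (Q2 (Function.update σ e ∅) ρ)) +
      (Fintype.card (Finset A) : ℝ) * (Fintype.card (Finset A) ^ Fintype.card E * κ) := by
  let B : (E → Finset A) → E → Prop := fun σ e => acc (Q1 σ) (Q2 σ ρ) ∧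
    ∃ Q0 : Finset (E × A), (∀ i, i ∈ Q0 ↔ i ∈ Q1 σ ∧ i.1 ≠ e) ∧ ¬ acc Q0 (Q2 σ ρ)
  have hpt : ∀ (σ : E → Finset A) (e : E),
      ind (acc (Q1 (Function.update σ e univ)) (Q2 (Function.update σ e ∅) ρ)) ≤
      ind (acc (Q1 (Function.update σ e ∅)) (Q2 (Function.update σ e ∅) ρ)) +
        ∑ s : Finset A, ind (B (Function.update σ e s) e) := by
    intro σ e
    refine (ind_le _ (acc (Q1 (Function.update σ e ∅)) (Q2 (Function.update σ e ∅) ρ))).trans ?_
    apply add_le_add le_rfl
    by_cases h : acc (Q1 (Function.update σ e univ)) (Q2 (Function.update σ e ∅) ρ) ∧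
        ¬ acc (Q1 (Function.update σ e ∅)) (Q2 (Function.update σ e ∅) ρ)
    · obtain ⟨s, hs1, hs2⟩ := or_point hA acc k hk ρ h1 σ e h.1 h.2
      rw [ind_true h]
      have h3 : ind (B (Function.update σ e s) e) = 1 :=
        ind_true ⟨hs1, _, fun i => mem_filter, hs2⟩
      rw [← h3]
      exact single_le_sum (f := fun s => ind (B (Function.update σ e s) e))
        (fun s _ => ind_nonneg _) (mem_univ s)
    · rw [ind_false h]
      exact sum_nonneg (fun s _ => ind_nonneg _)
  have hB : ∀ σ : E → Finset A, ∑ e : E, ind (B σ e) ≤ κ := by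
    intro σ
    by_cases h : acc (Q1 σ) (Q2 σ ρ)
    · exact sum_ind_le (B σ) κ (univ.filter (fun e => B σ e))
        (fun e he => mem_filter.mpr ⟨mem_univ _, he⟩)
        (h2 _ _ h _ (fun e he => (mem_filter.mp he).2.2))
    · have : ∀ e, ind (B σ e) = 0 := fun e => ind_false (fun hb => h hb.1)
      rw [sum_congr rfl (fun e _ => this e), sum_const_zero]
      positivity
  calc _ ≤ ∑ σ : E → Finset A, ∑ e : E,
        (ind (acc (Q1 (Function.update σ e ∅)) (Q2 (Function.update σ e ∅) ρ)) +
        ∑ s : Finset A, ind (B (Function.update σ e s) e)) :=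
        sum_le_sum (fun σ _ => sum_le_sum (fun e _ => hpt σ e))
    _ = ∑ σ : E → Finset A, ∑ e : E,
        ind (acc (Q1 (Function.update σ e ∅)) (Q2 (Function.update σ e ∅) ρ)) +
        ∑ e : E, ∑ σ : E → Finset A, ∑ s : Finset A, ind (B (Function.update σ e s) e) := by
        rw [sum_congr rfl (fun σ _ => sum_add_distrib), sum_add_distrib]
        congr 1
        exact sum_comm
    _ = ∑ σ : E → Finset A, ∑ e : E,
        ind (acc (Q1 (Function.update σ e ∅)) (Q2 (Function.update σ e ∅) ρ)) +
        (Fintype.card (Finset A) : ℝ) * ∑ σ : E → Finset A, ∑ e : E, ind (B σ e) := by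
        congr 1
        rw [sum_congr rfl (fun e _ => resample e (fun σ => ind (B σ e)))]
        rw [← mul_sum]
        congr 1
        exact sum_comm
    _ ≤ _ := by
        apply add_le_add le_rfl
        apply mul_le_mul_of_nonneg_left _ (by positivity)
        calc _ ≤ ∑ σ : E → Finset A, (κ : ℝ) := sum_le_sum (fun σ _ => hB σ)
          _ = _ := by
            rw [sum_const, nsmul_eq_mul, card_univ, Fintype.card_fun]
            push_cast
            rfl

/-- The AND claim for a typical pair. -/
theorem and_claim (hA : 0 < Fintype.card A) (acc : Finset (E × A) → Finset (E × Rr) → Prop)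
    (κ : ℕ) (hr : 0 < Fintype.card Rr)
    (h2 : ∀ Q Q', acc Q Q' → ∀ s : Finset (E × Rr), (∀ y ∈ s, ∃ Q0 : Finset (E × Rr),
      (∀ i, i ∈ Q0 ↔ i ∈ Q' ∧ i ≠ y) ∧ ¬ acc Q Q0) → s.card ≤ κ)
    (σ : E → Finset A) (e : E) :
    ∑ ρ : E → Rr,
        ind (acc (Q1 (Function.update σ e univ)) (Q2 (Function.update σ e univ) ρ)) ≤
      ∑ ρ : E → Rr,
        ind (acc (Q1 (Function.update σ e univ)) (Q2 (Function.update σ e ∅) ρ)) +
      (Fintype.card Rr : ℝ) ^ Fintype.card E * (κ / Fintype.card Rr) := by
  have hne : (∅ : Finset A) ≠ univ := by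
    intro h
    have := congrArg Finset.card h
    rw [card_empty, card_univ] at this
    omega
  have hrr : (0 : ℝ) < Fintype.card Rr := by exact_mod_cast hr
  let f : (E → Rr) → ℝ := fun ρ =>
    ind (acc (Q1 (Function.update σ e univ)) (Q2 (Function.update σ e univ) ρ) ∧
      ¬ acc (Q1 (Function.update σ e univ)) (Q2 (Function.update σ e ∅) ρ))
  have hf : ∑ ρ : E → Rr, f ρ ≤ (Fintype.card Rr : ℝ) ^ Fintype.card E *
      (κ / Fintype.card Rr) := by
    have h3 := resample e f
    have h4 : ∀ ρ : E → Rr, ∑ c : Rr, f (Function.update ρ e c) ≤ κ := by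
      intro ρ
      have e1 : ∀ c : Rr, Q2 (Function.update σ e univ) (Function.update ρ e c) =
          Q2 (Function.update σ e univ) ρ := by
        intro c
        ext x
        rw [mem_Q2, mem_Q2]
        by_cases hx : x.1 = e
        · rw [hx, Function.update_self]; simp
        · rw [Function.update_of_ne hx, Function.update_of_ne hx]
      have e2 : ∀ c : Rr, Q2 (Function.update σ e ∅) (Function.update ρ e c) =
          (Q2 (Function.update σ e univ) ρ).filter (fun i => i ≠ (e, c)) := by
        intro c
        ext x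
        rw [mem_filter, mem_Q2, mem_Q2]
        by_cases hx : x.1 = e
        · rw [hx, Function.update_self, Function.update_self, Function.update_self]
          constructor
          · rintro (h | h)
            · exact absurd h hne
            · exact ⟨Or.inl rfl, fun hh => h (congrArg Prod.snd hh)⟩
          · rintro ⟨_, h⟩
            right
            intro hh
            exact h (Prod.ext hx hh)
        · rw [Function.update_of_ne hx, Function.update_of_ne hx, Function.update_of_ne hx]
          constructor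
          · intro h
            exact ⟨h, fun hh => hx (congrArg Prod.fst hh)⟩
          · exact fun h => h.1
      by_cases h : acc (Q1 (Function.update σ e univ)) (Q2 (Function.update σ e univ) ρ)
      · simp only [f]
        let T : Finset Rr := univ.filter (fun c : Rr => ¬ acc (Q1 (Function.update σ e univ))
            ((Q2 (Function.update σ e univ) ρ).filter (fun i => i ≠ (e, c))))
        refine sum_ind_le _ κ T ?_ ?_
        · rintro c ⟨_, hc⟩
          rw [e2] at hc
          exact mem_filter.mpr ⟨mem_univ _, hc⟩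
        · have h5 := h2 _ _ h (T.image (fun c => (e, c))) (by
            intro y hy
            obtain ⟨c, hc, rfl⟩ := mem_image.mp hy
            exact ⟨_, fun i => mem_filter, (mem_filter.mp hc).2⟩)
          rw [card_image_of_injective _ (fun a b h => (Prod.ext_iff.mp h).2)] at h5
          exact h5
      · have : ∀ c : Rr, f (Function.update ρ e c) = 0 := by
          intro c
          apply ind_false
          rintro ⟨hh, _⟩
          rw [e1] at hh
          exact h hh
        rw [sum_congr rfl (fun c _ => this c), sum_const_zero]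
        positivity
    have h5 : (Fintype.card Rr : ℝ) * ∑ ρ, f ρ ≤ (Fintype.card Rr : ℝ) ^ Fintype.card E * κ := by
      rw [← h3]
      calc _ ≤ ∑ ρ : E → Rr, (κ : ℝ) := sum_le_sum (fun ρ _ => h4 ρ)
        _ = _ := by
          rw [sum_const, nsmul_eq_mul, card_univ, Fintype.card_fun]
          push_cast
          rfl
    rw [← mul_div_assoc, le_div_iff₀ hrr]
    linarith
  calc _ ≤ ∑ ρ : E → Rr,
        (ind (acc (Q1 (Function.update σ e univ)) (Q2 (Function.update σ e ∅) ρ)) + f ρ) :=
        sum_le_sum (fun ρ _ => ind_le _ _)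
    _ = ∑ ρ : E → Rr,
        ind (acc (Q1 (Function.update σ e univ)) (Q2 (Function.update σ e ∅) ρ)) +
          ∑ ρ, f ρ := sum_add_distrib
    _ ≤ _ := add_le_add le_rfl hf

end Pool.Agent.H596R2.D3R
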