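import Pool.Agent.H596R2.D3R.Game

/-!
Every small depth three circuit has no advantage on the hard distribution.
-/

namespace Pool.Agent.H596R2.D3R

open Finset Classical Pool.Agent.H596R2.D3

set_option linter.unusedSectionVars false

/-- The data of a part. -/
abbrev Dat (R K : Type) : Type := (R × K → Bool) × (R → K)

theorem union_ex {D Q : Type} [Fintype Q] (Bad : Q → Finset D) (c : ℝ)
    (h : ∀ q, ((Bad q).card : ℝ) ≤ c) :
    ∃ B : Finset D, (B.card : ℝ) ≤ Fintype.card Q * c ∧ ∀ x, x ∉ B → ∀ q, x ∉ Bad q := by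
  refine ⟨univ.biUnion Bad, ?_, fun x hx q hq => hx (mem_biUnion.mpr ⟨q, mem_univ _, hq⟩)⟩
  calc ((univ.biUnion Bad).card : ℝ) ≤ ((∑ q : Q, (Bad q).card : ℕ) : ℝ) := by
        exact_mod_cast card_biUnion_le
    _ = ∑ q : Q, ((Bad q).card : ℝ) := by push_cast; rfl
    _ ≤ ∑ q : Q, c := sum_le_sum (fun q _ => h q)
    _ = _ := by rw [sum_const, nsmul_eq_mul, card_univ]

/-- Summation of a pointwise estimate with an exceptional set. -/
theorem sum_exc {D : Type} [Fintype D] (F G : D → ℝ) (a b n : ℝ) (hn : (Fintype.card D : ℝ) = n)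
    (B : Finset D) (β : ℝ) (hB : (B.card : ℝ) ≤ β * n) (ha : 0 ≤ a) (hb : 0 ≤ b)
    (hFb : ∀ x, F x ≤ b) (hG : ∀ x, 0 ≤ G x) (h : ∀ x, x ∉ B → F x ≤ G x + a) :
    ∑ x, F x ≤ ∑ x, G x + n * (a + β * b) := by
  have hpt : ∀ x, F x ≤ G x + (a + ind (x ∈ B) * b) := by
    intro x
    by_cases hx : x ∈ B
    · rw [ind_true hx]
      have h1 := hFb x
      have h2 := hG x
      linarith
    · rw [ind_false hx]
      have h1 := h x hx
      linarith
  refine (sum_le_sum (fun x _ => hpt x)).trans ?_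
  rw [sum_add_distrib]
  apply add_le_add le_rfl
  rw [sum_add_distrib, sum_const, nsmul_eq_mul, card_univ, ← sum_mul, hn]
  have h5 : ∑ x : D, ind (x ∈ B) = (B.card : ℝ) := by
    rw [sum_ind]
    congr 2
    ext x; simp
  rw [h5]
  have h6 : (B.card : ℝ) * b ≤ β * n * b := mul_le_mul_of_nonneg_right hB hb
  nlinarith

theorem card_dat (R K : Type) [Fintype R] [Fintype K] (inst1 : Fintype (Dat R K)) :
    (@Fintype.card _ inst1 : ℝ) = dat (Fintype.card R) (Fintype.card K) := by
  have h : @Fintype.card _ inst1 = 2 ^ (Fintype.card R * Fintype.card K) *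
      Fintype.card K ^ Fintype.card R := by
    rw [Fintype.card_eq_nat_card, Nat.card_prod, Nat.card_fun, Nat.card_fun, Nat.card_prod]
    simp only [Nat.card_eq_fintype_card, Fintype.card_bool]
  rw [h]
  unfold dat
  push_cast
  rfl

variable {E A Rr K1 K2 I : Type} [Fintype E] [Fintype A] [Fintype Rr] [Fintype K1] [Fintype K2]

/-- The instance. -/
noncomputable def inst (X : (((E × A) × K1) × Bool → Bool) → (((E × Rr) × K2) × Bool → Bool) →
    I → Bool) (x : Dat (E × A) K1) (y : Dat (E × Rr) K2) (Q : Finset (E × A))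
    (Q' : Finset (E × Rr)) : I → Bool :=
  X (opn x.1 (gr x.2 Q)) (opn y.1 (gr y.2 Q'))

theorem side_one (C : Circuit I 3)
    (X : (((E × A) × K1) × Bool → Bool) → (((E × Rr) × K2) × Bool → Bool) → I → Bool)
    (hX : ∀ w2, IsProj (fun w1 => X w1 w2)) (p k : ℕ) (hp : 1 ≤ p) (hk : 1 ≤ k)
    (hkA : k < Fintype.card A) (hK : 0 < Fintype.card K1) (y : Dat (E × Rr) K2) (ρ : E → Rr) :
    ∑ x : Dat (E × A) K1, ∑ σ : E → Finset A, ∑ e : E,
        ind (C.Ov C.out (inst X x y (Q1 (Function.update σ e univ))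
          (Q2 (Function.update σ e ∅) ρ))) ≤
      ∑ x : Dat (E × A) K1, ∑ σ : E → Finset A, ∑ e : E,
        ind (C.Ov C.out (inst X x y (Q1 (Function.update σ e ∅))
          (Q2 (Function.update σ e ∅) ρ))) +
      dat (Fintype.card (E × A)) (Fintype.card K1) *
        ((Fintype.card (Finset A) : ℝ) * (Fintype.card (Finset A) ^ Fintype.card E *
          (k * (2 * k - 1) : ℕ)) +
          2 ^ Fintype.card (E × Rr) * bad C.size p k (Fintype.card (E × A)) (Fintype.card K1) *
          ((Fintype.card (Finset A) : ℝ) ^ Fintype.card E * Fintype.card E)) := by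
  have hA : 0 < Fintype.card A := by omega
  have hty := fun Q' : Finset (E × Rr) => typD (R := E × A) (K := K1) C
    (fun w1 => X w1 (opn y.1 (gr y.2 Q'))) (hX _) p k hp hk hK
  choose Bad hBad hgood using hty
  obtain ⟨B, hBB, hB⟩ := union_ex Bad _ hBad
  rw [Fintype.card_finset] at hBB
  push_cast at hBB
  refine sum_exc _ _ _ _ _ (card_dat _ _ _) B _
    (hBB.trans (le_of_eq (by ring))) (by positivity) (by positivity) ?_ ?_ ?_
  · intro x
    calc _ ≤ ∑ σ : E → Finset A, ∑ e : E, (1 : ℝ) :=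
          sum_le_sum (fun σ _ => sum_le_sum (fun e _ => ind_le_one _))
      _ = _ := by
        rw [sum_const, sum_const, nsmul_eq_mul, nsmul_eq_mul, card_univ, card_univ,
          Fintype.card_fun]
        push_cast
        ring
  · intro x
    exact sum_nonneg (fun σ _ => sum_nonneg (fun e _ => ind_nonneg _))
  · intro x hx
    have hx' : ∀ Q', (x.1, x.2) ∉ Bad Q' := hB x hx
    exact or_claim hA (fun Q Q' => C.Ov C.out (inst X x y Q Q')) k (k * (2 * k - 1)) hkA ρ
      (fun Q' Q h => (hgood Q' x.1 x.2 (hx' Q') Q h).1)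
      (fun Q' Q h => (hgood Q' x.1 x.2 (hx' Q') Q h).2 E (fun i => i.1))

theorem side_two (C : Circuit I 3)
    (X : (((E × A) × K1) × Bool → Bool) → (((E × Rr) × K2) × Bool → Bool) → I → Bool)
    (hX : ∀ w1, IsProj (X w1)) (p k : ℕ) (hp : 1 ≤ p) (hk : 1 ≤ k)
    (hA : 0 < Fintype.card A) (hr : 0 < Fintype.card Rr) (hK : 0 < Fintype.card K2)
    (x : Dat (E × A) K1) (σ : E → Finset A) (e : E) :
    ∑ y : Dat (E × Rr) K2, ∑ ρ : E → Rr,
        ind (C.Ov C.out (inst X x y (Q1 (Function.update σ e univ))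
          (Q2 (Function.update σ e univ) ρ))) ≤
      ∑ y : Dat (E × Rr) K2, ∑ ρ : E → Rr,
        ind (C.Ov C.out (inst X x y (Q1 (Function.update σ e univ))
          (Q2 (Function.update σ e ∅) ρ))) +
      dat (Fintype.card (E × Rr)) (Fintype.card K2) *
        ((Fintype.card Rr : ℝ) ^ Fintype.card E * ((k * (2 * k - 1) : ℕ) / Fintype.card Rr) +
          2 ^ Fintype.card (E × A) * bad C.size p k (Fintype.card (E × Rr)) (Fintype.card K2) *
          (Fintype.card Rr : ℝ) ^ Fintype.card E) := by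
  have hrr : (0 : ℝ) < Fintype.card Rr := by exact_mod_cast hr
  have hty := fun Q : Finset (E × A) => typD (R := E × Rr) (K := K2) C
    (fun w2 => X (opn x.1 (gr x.2 Q)) w2) (hX _) p k hp hk hK
  choose Bad hBad hgood using hty
  obtain ⟨B, hBB, hB⟩ := union_ex Bad _ hBad
  rw [Fintype.card_finset] at hBB
  push_cast at hBB
  refine sum_exc _ _ _ _ _ (card_dat _ _ _) B _
    (hBB.trans (le_of_eq (by ring))) (by positivity) (by positivity) ?_ ?_ ?_
  · intro y
    calc _ ≤ ∑ ρ : E → Rr, (1 : ℝ) := sum_le_sum (fun ρ _ => ind_le_one _)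
      _ = _ := by
        rw [sum_const, nsmul_eq_mul, card_univ, Fintype.card_fun]
        push_cast
        ring
  · intro y
    exact sum_nonneg (fun ρ _ => ind_nonneg _)
  · intro y hy
    have hy' : ∀ Q, (y.1, y.2) ∉ Bad Q := hB y hy
    exact and_claim hA (fun Q Q' => C.Ov C.out (inst X x y Q Q')) (k * (2 * k - 1)) hr
      (fun Q Q' h => (hgood Q y.1 y.2 (hy' Q) Q' h).2 (E × Rr) (fun i => i)) σ e

end Pool.Agent.H596R2.D3R
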