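import Pool.Agent.H596R2.D3R.Game2

/-!
The advantage of a depth three circuit on the hard distribution.
-/

namespace Pool.Agent.H596R2.D3R

open Finset Classical Pool.Agent.H596R2.D3

set_option linter.unusedSectionVars false

theorem swapT {Y P X S E : Type} [Fintype Y] [Fintype P] [Fintype X] [Fintype S] [Fintype E]
    (F : Y → P → X → S → E → ℝ) :
    ∑ y, ∑ p, ∑ x, ∑ s, ∑ e, F y p x s e = ∑ x, ∑ s, ∑ e, ∑ y, ∑ p, F y p x s e := by
  calc _ = ∑ a : Y × P, ∑ b : X × S × E, F a.1 a.2 b.1 b.2.1 b.2.2 := by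
        simp only [Fintype.sum_prod_type]
    _ = ∑ b : X × S × E, ∑ a : Y × P, F a.1 a.2 b.1 b.2.1 b.2.2 := sum_comm
    _ = _ := by simp only [Fintype.sum_prod_type]

theorem ind_not (P : Prop) : ind (¬ P) = 1 - ind P := by
  unfold ind
  by_cases h : P <;> simp [h]

variable {E A Rr K1 K2 I : Type} [Fintype E] [Fintype A] [Fintype Rr] [Fintype K1] [Fintype K2]

/-- The error of the OR side. -/
noncomputable def err1 (s p k m a r K : ℕ) : ℝ :=
  2 ^ a * (k * (2 * k - 1) : ℕ) / m + 2 ^ (m * r) * bad s p k (m * a) K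

/-- The error of the AND side. -/
noncomputable def err2 (s p k m a r K : ℕ) : ℝ :=
  ((k * (2 * k - 1) : ℕ) : ℝ) / r + 2 ^ (m * a) * bad s p k (m * r) K

/-- The error caused by the planted mode. -/
noncomputable def err3 (m a : ℕ) : ℝ := Real.sqrt (m * (2 ^ a - 1)) / m

/-- The number of inputs of the hard distribution. -/
noncomputable def tot (m a r K1 K2 : ℕ) : ℝ :=
  dat (m * a) K1 * dat (m * r) K2 * r ^ m * (2 ^ a) ^ m * m

theorem dat_nonneg (r k : ℕ) : 0 ≤ dat r k := by unfold dat; positivity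

/-- The sum over all inputs. -/
noncomputable def T (E A Rr K1 K2 : Type) [Fintype E] [Fintype A] [Fintype Rr] [Fintype K1]
    [Fintype K2] (F : Dat (E × Rr) K2 → (E → Rr) → Dat (E × A) K1 → (E → Finset A) → E → ℝ) : ℝ :=
  ∑ y, ∑ ρ, ∑ x, ∑ σ, ∑ e, F y ρ x σ e

theorem T_mono (F G : Dat (E × Rr) K2 → (E → Rr) → Dat (E × A) K1 → (E → Finset A) → E → ℝ)
    (h : ∀ y ρ x σ e, F y ρ x σ e ≤ G y ρ x σ e) : T E A Rr K1 K2 F ≤ T E A Rr K1 K2 G :=
  sum_le_sum fun y _ => sum_le_sum fun ρ _ => sum_le_sum fun x _ => sum_le_sum fun σ _ =>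
    sum_le_sum fun e _ => h y ρ x σ e

theorem T_const (c : ℝ) : T E A Rr K1 K2 (fun _ _ _ _ _ => c) =
    tot (Fintype.card E) (Fintype.card A) (Fintype.card Rr) (Fintype.card K1)
      (Fintype.card K2) * c := by
  unfold T tot
  rw [sum_const, sum_const, sum_const, sum_const, sum_const]
  simp only [nsmul_eq_mul, card_univ]
  rw [card_dat, card_dat, Fintype.card_fun, Fintype.card_fun, Fintype.card_finset,
    Fintype.card_prod, Fintype.card_prod]
  push_cast
  ring

/-- The yes-instance. -/
noncomputable def yesI (X : (((E × A) × K1) × Bool → Bool) → (((E × Rr) × K2) × Bool → Bool) →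
    I → Bool) (y : Dat (E × Rr) K2) (ρ : E → Rr) (x : Dat (E × A) K1) (σ : E → Finset A) (e : E) :
    I → Bool :=
  inst X x y (Q1 (Function.update σ e univ)) (Q2 (Function.update σ e ∅) ρ)

/-- The no-instance. -/
noncomputable def noI (X : (((E × A) × K1) × Bool → Bool) → (((E × Rr) × K2) × Bool → Bool) →
    I → Bool) (y : Dat (E × Rr) K2) (ρ : E → Rr) (x : Dat (E × A) K1) (σ : E → Finset A) :
    I → Bool :=
  inst X x y (Q1 σ) (Q2 σ ρ)

theorem or_side (C : Circuit I 3)
    (X : (((E × A) × K1) × Bool → Bool) → (((E × Rr) × K2) × Bool → Bool) → I → Bool)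
    (hX : ∀ w2, IsProj (fun w1 => X w1 w2)) (p k : ℕ) (hp : 1 ≤ p) (hk : 1 ≤ k)
    (hkA : k < Fintype.card A) (hK : 0 < Fintype.card K1) (hE : 0 < Fintype.card E) :
    T E A Rr K1 K2 (fun y ρ x σ e => ind (C.Ov C.out (yesI X y ρ x σ e))) ≤
      T E A Rr K1 K2 (fun y ρ x σ e => ind (C.Ov C.out (noI X y ρ x (Function.update σ e ∅)))) +
      tot (Fintype.card E) (Fintype.card A) (Fintype.card Rr) (Fintype.card K1)
      (Fintype.card K2) * err1 C.size p k (Fintype.card E) (Fintype.card A) (Fintype.card Rr)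
        (Fintype.card K1) := by
  have hm : (0 : ℝ) < Fintype.card E := by exact_mod_cast hE
  unfold T
  refine (sum_le_sum fun y _ => sum_le_sum fun ρ _ =>
    side_one C X hX p k hp hk hkA hK y ρ).trans (le_of_eq ?_)
  simp only [sum_add_distrib]
  congr 1
  rw [sum_const, sum_const]
  simp only [nsmul_eq_mul, card_univ]
  rw [card_dat, Fintype.card_fun, Fintype.card_finset, Fintype.card_prod, Fintype.card_prod]
  unfold tot err1
  push_cast
  field_simp

theorem and_side (C : Circuit I 3)
    (X : (((E × A) × K1) × Bool → Bool) → (((E × Rr) × K2) × Bool → Bool) → I → Bool)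
    (hX : ∀ w1, IsProj (X w1)) (p k : ℕ) (hp : 1 ≤ p) (hk : 1 ≤ k)
    (hA : 0 < Fintype.card A) (hr : 0 < Fintype.card Rr) (hK : 0 < Fintype.card K2) :
    T E A Rr K1 K2 (fun y ρ x σ e => ind (C.Ov C.out (noI X y ρ x (Function.update σ e univ)))) ≤
      T E A Rr K1 K2 (fun y ρ x σ e => ind (C.Ov C.out (yesI X y ρ x σ e))) +
      tot (Fintype.card E) (Fintype.card A) (Fintype.card Rr) (Fintype.card K1)
      (Fintype.card K2) * err2 C.size p k (Fintype.card E) (Fintype.card A) (Fintype.card Rr)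
        (Fintype.card K2) := by
  have hrr : (0 : ℝ) < Fintype.card Rr := by exact_mod_cast hr
  unfold T
  have e1 := swapT (fun (y : Dat (E × Rr) K2) (ρ : E → Rr) (x : Dat (E × A) K1)
    (σ : E → Finset A) (e : E) => ind (C.Ov C.out (noI X y ρ x (Function.update σ e univ))))
  have e2 := swapT (fun (y : Dat (E × Rr) K2) (ρ : E → Rr) (x : Dat (E × A) K1)
    (σ : E → Finset A) (e : E) => ind (C.Ov C.out (yesI X y ρ x σ e)))
  rw [e1, e2]
  refine (sum_le_sum fun x _ => sum_le_sum fun σ _ => sum_le_sum fun e _ =>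
    side_two C X hX p k hp hk hA hr hK x σ e).trans (le_of_eq ?_)
  simp only [sum_add_distrib]
  congr 1
  rw [sum_const, sum_const, sum_const]
  simp only [nsmul_eq_mul, card_univ]
  rw [card_dat, Fintype.card_fun, Fintype.card_finset, Fintype.card_prod, Fintype.card_prod]
  unfold tot err2
  push_cast
  field_simp

theorem plant (f : Dat (E × Rr) K2 → (E → Rr) → Dat (E × A) K1 → (E → Finset A) → ℝ)
    (hf : ∀ y ρ x σ, 0 ≤ f y ρ x σ ∧ f y ρ x σ ≤ 1) (s : Finset A) (hE : 0 < Fintype.card E) :
    T E A Rr K1 K2 (fun y ρ x σ e => f y ρ x (Function.update σ e s)) ≤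
      T E A Rr K1 K2 (fun y ρ x σ _ => f y ρ x σ) +
      tot (Fintype.card E) (Fintype.card A) (Fintype.card Rr) (Fintype.card K1)
      (Fintype.card K2) * err3 (Fintype.card E) (Fintype.card A) := by
  have hm : (0 : ℝ) < Fintype.card E := by exact_mod_cast hE
  unfold T
  refine (sum_le_sum fun y _ => sum_le_sum fun ρ _ => sum_le_sum fun x _ =>
    tv s (f y ρ x) (hf y ρ x)).trans (le_of_eq ?_)
  simp only [sum_add_distrib]
  congr 1
  · apply sum_congr rfl; intro y _
    apply sum_congr rfl; intro ρ _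
    apply sum_congr rfl; intro x _
    rw [mul_sum]
    apply sum_congr rfl; intro σ _
    rw [sum_const, nsmul_eq_mul, card_univ]
  · rw [sum_const, sum_const, sum_const]
    simp only [nsmul_eq_mul, card_univ]
    rw [card_dat, card_dat, Fintype.card_fun, Fintype.card_finset, Fintype.card_prod,
      Fintype.card_prod]
    unfold tot err3
    push_cast
    field_simp

/-- The advantage of a depth three circuit. -/
theorem advantage (C : Circuit I 3)
    (X : (((E × A) × K1) × Bool → Bool) → (((E × Rr) × K2) × Bool → Bool) → I → Bool)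
    (hX1 : ∀ w2, IsProj (fun w1 => X w1 w2)) (hX2 : ∀ w1, IsProj (X w1))
    (p k k' : ℕ) (hp : 1 ≤ p) (hk : 1 ≤ k) (hk' : 1 ≤ k')
    (hkA : k < Fintype.card A) (hK1 : 0 < Fintype.card K1) (hE : 0 < Fintype.card E)
    (hr : 0 < Fintype.card Rr) (hK2 : 0 < Fintype.card K2) :
    T E A Rr K1 K2 (fun y ρ x σ e => ind (C.val (yesI X y ρ x σ e) C.out)) ≤
      T E A Rr K1 K2 (fun y ρ x σ _ => ind (C.val (noI X y ρ x σ) C.out)) +
      tot (Fintype.card E) (Fintype.card A) (Fintype.card Rr) (Fintype.card K1)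
      (Fintype.card K2) *
      (err1 C.size p k (Fintype.card E) (Fintype.card A) (Fintype.card Rr) (Fintype.card K1) +
        err2 C.size p k' (Fintype.card E) (Fintype.card A) (Fintype.card Rr) (Fintype.card K2) +
        err3 (Fintype.card E) (Fintype.card A)) := by
  have ht : 0 ≤ tot (Fintype.card E) (Fintype.card A) (Fintype.card Rr) (Fintype.card K1)
      (Fintype.card K2) := by
    unfold tot
    have h1 := dat_nonneg (Fintype.card E * Fintype.card A) (Fintype.card K1)
    have h2 := dat_nonneg (Fintype.card E * Fintype.card Rr) (Fintype.card K2)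
    positivity
  have he1 : 0 ≤ err1 C.size p k (Fintype.card E) (Fintype.card A) (Fintype.card Rr)
      (Fintype.card K1) := by
    unfold err1
    have := bad_nonneg C.size p k (Fintype.card E * Fintype.card A) (Fintype.card K1)
    positivity
  have he2 : 0 ≤ err2 C.size p k' (Fintype.card E) (Fintype.card A) (Fintype.card Rr)
      (Fintype.card K2) := by
    unfold err2
    have := bad_nonneg C.size p k' (Fintype.card E * Fintype.card Rr) (Fintype.card K2)
    positivity
  cases hc : C.conj C.out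
  · -- OR output
    have hv : ∀ z, C.val z C.out ↔ C.Ov C.out z := by
      intro z
      unfold Circuit.Ov
      rw [hc]
      simp
    simp only [hv]
    have h1 := or_side (Rr := Rr) (K2 := K2) C X hX1 p k hp hk hkA hK1 hE
    have h2 := plant (K1 := K1) (K2 := K2)
      (fun y ρ x σ => ind (C.Ov C.out (noI X y ρ x σ)))
      (fun y ρ x σ => ⟨ind_nonneg _, ind_le_one _⟩) ∅ hE
    have h3 := mul_nonneg ht he2
    refine h1.trans ((add_le_add h2 le_rfl).trans ?_)
    rw [mul_add, mul_add]
    linarith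
  · -- AND output
    have hv : ∀ z, C.val z C.out ↔ ¬ C.Ov C.out z := by
      intro z
      unfold Circuit.Ov
      rw [hc]
      simp
    have h1 := and_side (A := A) (K1 := K1) C X hX2 p k' hp hk' (by omega) hr hK2
    have h2 := plant (K1 := K1) (K2 := K2)
      (fun y ρ x σ => ind (C.val (noI X y ρ x σ) C.out))
      (fun y ρ x σ => ⟨ind_nonneg _, ind_le_one _⟩) univ hE
    have h3 := mul_nonneg ht he1
    have h4 : ∀ F : Dat (E × Rr) K2 → (E → Rr) → Dat (E × A) K1 → (E → Finset A) → E → Prop,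
        T E A Rr K1 K2 (fun y ρ x σ e => ind (¬ F y ρ x σ e)) =
          T E A Rr K1 K2 (fun _ _ _ _ _ => 1) -
            T E A Rr K1 K2 (fun y ρ x σ e => ind (F y ρ x σ e)) := by
      intro F
      unfold T
      simp only [ind_not, sum_sub_distrib]
    have h5 : T E A Rr K1 K2 (fun y ρ x σ e => ind (C.val (yesI X y ρ x σ e) C.out)) ≤
        T E A Rr K1 K2 (fun y ρ x σ e =>
          ind (C.val (noI X y ρ x (Function.update σ e univ)) C.out)) +
        tot (Fintype.card E) (Fintype.card A) (Fintype.card Rr) (Fintype.card K1)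
        (Fintype.card K2) * err2 C.size p k' (Fintype.card E) (Fintype.card A)
          (Fintype.card Rr) (Fintype.card K2) := by
      simp only [hv]
      rw [h4, h4]
      linarith
    refine h5.trans ((add_le_add h2 le_rfl).trans ?_)
    rw [mul_add, mul_add]
    linarith

end Pool.Agent.H596R2.D3R
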