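import Pool.Agent.H596R2.D3R.Game3

/-!
Mixtures of depth three circuits.
-/

namespace Pool.Agent.H596R2.D3R

open Finset Classical Pool.Agent.H596R2.D3

set_option linter.unusedSectionVars false

theorem sum_swap5 {Y P X S E L : Type} [Fintype Y] [Fintype P] [Fintype X] [Fintype S] [Fintype E]
    [Fintype L] (w : L → ℝ) (F : L → Y → P → X → S → E → ℝ) :
    ∑ y, ∑ p, ∑ x, ∑ s, ∑ e, ∑ l, w l * F l y p x s e =
      ∑ l, w l * ∑ y, ∑ p, ∑ x, ∑ s, ∑ e, F l y p x s e := by
  calc _ = ∑ a : Y × P × X × S × E, ∑ l, w l * F l a.1 a.2.1 a.2.2.1 a.2.2.2.1 a.2.2.2.2 := by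
        simp only [Fintype.sum_prod_type]
    _ = ∑ l, ∑ a : Y × P × X × S × E, w l * F l a.1 a.2.1 a.2.2.1 a.2.2.2.1 a.2.2.2.2 :=
        sum_comm
    _ = _ := by
        apply sum_congr rfl
        intro l _
        rw [← mul_sum]
        simp only [Fintype.sum_prod_type]

variable {E A Rr K1 K2 I : Type} [Fintype E] [Fintype A] [Fintype Rr] [Fintype K1] [Fintype K2]

theorem T_sum {L : Type} [Fintype L] (w : L → ℝ)
    (F : L → Dat (E × Rr) K2 → (E → Rr) → Dat (E × A) K1 → (E → Finset A) → E → ℝ) :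
    T E A Rr K1 K2 (fun y ρ x σ e => ∑ l, w l * F l y ρ x σ e) =
      ∑ l, w l * T E A Rr K1 K2 (F l) := by
  unfold T
  exact sum_swap5 w F

theorem bad_mono {s s' : ℕ} (h : s ≤ s') (p k R K : ℕ) : bad s p k R K ≤ bad s' p k R K := by
  have h' : (s : ℝ) ≤ s' := by exact_mod_cast h
  unfold bad
  gcongr

theorem err1_mono {s s' : ℕ} (h : s ≤ s') (p k m a r K : ℕ) :
    err1 s p k m a r K ≤ err1 s' p k m a r K := by
  unfold err1
  have := bad_mono h p k (m * a) K
  gcongr

theorem err2_mono {s s' : ℕ} (h : s ≤ s') (p k m a r K : ℕ) :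
    err2 s p k m a r K ≤ err2 s' p k m a r K := by
  unfold err2
  have := bad_mono h p k (m * r) K
  gcongr

/-- No mixture of small depth three circuits has small error on the hard distribution. -/
theorem mixture {L : Type} [Fintype L] (w : L → ℝ) (C : L → Circuit I 3) (hw : ∀ l, 0 ≤ w l)
    (hw1 : ∑ l, w l = 1)
    (X : (((E × A) × K1) × Bool → Bool) → (((E × Rr) × K2) × Bool → Bool) → I → Bool)
    (hX1 : ∀ w2, IsProj (fun w1 => X w1 w2)) (hX2 : ∀ w1, IsProj (X w1))
    (p k k' : ℕ) (hp : 1 ≤ p) (hk : 1 ≤ k) (hk' : 1 ≤ k')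
    (hkA : k < Fintype.card A) (hK1 : 0 < Fintype.card K1) (hE : 0 < Fintype.card E)
    (hr : 0 < Fintype.card Rr) (hK2 : 0 < Fintype.card K2) (ε η : ℝ) (hη : η < 2 * ε)
    (hyes : ∀ y ρ x σ e, 1 / 2 + ε ≤ ∑ l, w l * ind ((C l).val (yesI X y ρ x σ e) (C l).out))
    (hno : ∀ y ρ x σ, ∑ l, w l * ind ((C l).val (noI X y ρ x σ) (C l).out) ≤ 1 / 2 - ε)
    (herr : ∀ l, 0 < w l →
      err1 (C l).size p k (Fintype.card E) (Fintype.card A) (Fintype.card Rr) (Fintype.card K1) +
      err2 (C l).size p k' (Fintype.card E) (Fintype.card A) (Fintype.card Rr) (Fintype.card K2) +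
      err3 (Fintype.card E) (Fintype.card A) ≤ η) : False := by
  set t := tot (Fintype.card E) (Fintype.card A) (Fintype.card Rr) (Fintype.card K1)
      (Fintype.card K2) with ht
  have htpos : 0 < t := by
    rw [ht]
    unfold tot dat
    have h1 : (0 : ℝ) < Fintype.card E := by exact_mod_cast hE
    have h2 : (0 : ℝ) < Fintype.card Rr := by exact_mod_cast hr
    have h3 : (0 : ℝ) < Fintype.card K1 := by exact_mod_cast hK1
    have h4 : (0 : ℝ) < Fintype.card K2 := by exact_mod_cast hK2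
    positivity
  have a1 : t * (1 / 2 + ε) ≤ ∑ l, w l * T E A Rr K1 K2
      (fun y ρ x σ e => ind ((C l).val (yesI X y ρ x σ e) (C l).out)) := by
    rw [← T_sum, ← T_const]
    exact T_mono _ _ (fun y ρ x σ e => hyes y ρ x σ e)
  have a2 : ∑ l, w l * T E A Rr K1 K2
      (fun y ρ x σ _ => ind ((C l).val (noI X y ρ x σ) (C l).out)) ≤ t * (1 / 2 - ε) := by
    rw [← T_sum, ← T_const]
    exact T_mono _ _ (fun y ρ x σ e => hno y ρ x σ)
  have a3 : ∀ l, w l * T E A Rr K1 K2
      (fun y ρ x σ e => ind ((C l).val (yesI X y ρ x σ e) (C l).out)) ≤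
      w l * T E A Rr K1 K2 (fun y ρ x σ _ => ind ((C l).val (noI X y ρ x σ) (C l).out)) +
      w l * (t * η) := by
    intro l
    rcases (hw l).lt_or_eq with h | h
    · rw [← mul_add]
      apply mul_le_mul_of_nonneg_left _ (hw l)
      refine (advantage (C l) X hX1 hX2 p k k' hp hk hk' hkA hK1 hE hr hK2).trans ?_
      apply add_le_add le_rfl
      exact mul_le_mul_of_nonneg_left (herr l h) htpos.le
    · rw [← h]; simp
  have a4 := sum_le_sum (fun l (_ : l ∈ (univ : Finset L)) => a3 l)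
  rw [sum_add_distrib, ← sum_mul, hw1, one_mul] at a4
  have a5 : t * (1 / 2 + ε) ≤ t * (1 / 2 - ε) + t * η := by linarith
  have a6 : t * η < t * (2 * ε) := mul_lt_mul_of_pos_left hη htpos
  linarith

end Pool.Agent.H596R2.D3R
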