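import Pool.Agent.H596R2.D3R.TypF
import Pool.Agent.H596R2.D3R.Game4

/-!
Improved version of the two sides: AND parts with few columns.
-/

namespace Pool.Agent.H596R2.D3R

open Finset Classical Pool.Agent.H596R2.D3

set_option linter.unusedSectionVars false

section
variable {E A Rr : Type} [Fintype E] [Fintype A] [Fintype Rr]

theorem or_claim' (hA : 0 < Fintype.card A) (acc : Finset (E × A) → Finset (E × Rr) → Prop)
    (k κ : ℕ) (hk : k < Fintype.card A) (ρ : E → Rr)
    (h1 : ∀ (σ : E → Finset A) Q, acc Q (Q2 σ ρ) → ∀ Γ ⊆ Q,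
      ∃ Γ', Γ ⊆ Γ' ∧ Γ' ⊆ Q ∧ Γ'.card ≤ Γ.card + k ∧ acc Γ' (Q2 σ ρ))
    (h2 : ∀ (σ : E → Finset A) Q, acc Q (Q2 σ ρ) → ∀ s : Finset E,
      (∀ e ∈ s, ∃ Q0 : Finset (E × A),
      (∀ i, i ∈ Q0 ↔ i ∈ Q ∧ i.1 ≠ e) ∧ ¬ acc Q0 (Q2 σ ρ)) → s.card ≤ κ) :
    ∑ σ : E → Finset A, ∑ e : E,
        ind (acc (Q1 (Function.update σ e univ)) (Q2 (Function.update σ e ∅) ρ)) ≤
      ∑ σ : E → Finset A, ∑ e : E,
        ind (acc (Q1 (Function.update σ e ∅)) (Q2 (Function.update σ e ∅) ρ)) +
      (Fintype.card (Finset A) : ℝ) * (Fintype.card (Finset A) ^ Fintype.card E * κ) := by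
  have h := or_claim hA (fun Q Q' => acc Q Q' ∧ ∃ σ : E → Finset A, Q' = Q2 σ ρ) k κ hk ρ
    (by
      rintro Q' Q ⟨hacc, σ, rfl⟩ Γ hΓ
      obtain ⟨Γ', a1, a2, a3, a4⟩ := h1 σ Q hacc Γ hΓ
      exact ⟨Γ', a1, a2, a3, a4, σ, rfl⟩)
    (by
      rintro Q' Q ⟨hacc, σ, rfl⟩ s hs
      apply h2 σ Q hacc s
      intro e he
      obtain ⟨Q0, a1, a2⟩ := hs e he
      exact ⟨Q0, a1, fun hh => a2 ⟨hh, σ, rfl⟩⟩)
  have e : ∀ (Q : Finset (E × A)) (σ : E → Finset A),
      (acc Q (Q2 σ ρ) ∧ ∃ σ' : E → Finset A, Q2 σ ρ = Q2 σ' ρ) ↔ acc Q (Q2 σ ρ) :=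
    fun Q σ => ⟨fun h => h.1, fun h => ⟨h, σ, rfl⟩⟩
  simp only [e] at h
  exact h

theorem and_claim' (hA : 0 < Fintype.card A) (acc bd : Finset (E × Rr) → Prop)
    (κ : ℕ) (hr : 0 < Fintype.card Rr)
    (h2 : ∀ Q', ¬ bd Q' → acc Q' → ∀ s : Finset (E × Rr), (∀ y ∈ s, ∃ Q0 : Finset (E × Rr),
      (∀ i, i ∈ Q0 ↔ i ∈ Q' ∧ i ≠ y) ∧ ¬ acc Q0) → s.card ≤ κ)
    (σ : E → Finset A) (e : E) :
    ∑ ρ : E → Rr, ind (acc (Q2 (Function.update σ e univ) ρ)) ≤
      ∑ ρ : E → Rr, ind (acc (Q2 (Function.update σ e ∅) ρ)) +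
      ((Fintype.card Rr : ℝ) ^ Fintype.card E * (κ / Fintype.card Rr) +
        ∑ ρ : E → Rr, ind (bd (Q2 (Function.update σ e univ) ρ))) := by
  have hne : (∅ : Finset A) ≠ univ := by
    intro h
    have := congrArg Finset.card h
    rw [card_empty, card_univ] at this
    omega
  have hrr : (0 : ℝ) < Fintype.card Rr := by exact_mod_cast hr
  let f : (E → Rr) → ℝ := fun ρ => ind (acc (Q2 (Function.update σ e univ) ρ) ∧
      ¬ acc (Q2 (Function.update σ e ∅) ρ))
  have hf : ∑ ρ : E → Rr, f ρ ≤ (Fintype.card Rr : ℝ) ^ Fintype.card E *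
      (κ / Fintype.card Rr) + ∑ ρ : E → Rr, ind (bd (Q2 (Function.update σ e univ) ρ)) := by
    have h3 := resample e f
    have h4 : ∀ ρ : E → Rr, ∑ c : Rr, f (Function.update ρ e c) ≤
        κ + Fintype.card Rr * ind (bd (Q2 (Function.update σ e univ) ρ)) := by
      intro ρ
      have e1 : ∀ c : Rr, Q2 (Function.update σ e univ) (Function.update ρ e c) =
          Q2 (Function.update σ e univ) ρ := by
        intro c
        ext x
        rw [mem_Q2, mem_Q2]
        by_cases hx : x.1 = e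
        · rw [hx, Function.update_self]; simp
        · rw [Function.update_of_ne hx, Function.update_of_ne hx]
      have e2 : ∀ c : Rr, Q2 (Function.update σ e ∅) (Function.update ρ e c) =
          (Q2 (Function.update σ e univ) ρ).filter (fun i => i ≠ (e, c)) := by
        intro c
        ext x
        rw [mem_filter, mem_Q2, mem_Q2]
        by_cases hx : x.1 = e
        · rw [hx, Function.update_self, Function.update_self, Function.update_self]
          constructor
          · rintro (h | h)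
            · exact absurd h hne
            · exact ⟨Or.inl rfl, fun hh => h (congrArg Prod.snd hh)⟩
          · rintro ⟨_, h⟩
            right
            intro hh
            exact h (Prod.ext hx hh)
        · rw [Function.update_of_ne hx, Function.update_of_ne hx, Function.update_of_ne hx]
          constructor
          · intro h
            exact ⟨h, fun hh => hx (congrArg Prod.fst hh)⟩
          · exact fun h => h.1
      by_cases hbd : bd (Q2 (Function.update σ e univ) ρ)
      · rw [ind_true hbd, mul_one]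
        have : ∑ c : Rr, f (Function.update ρ e c) ≤ ∑ c : Rr, (1 : ℝ) :=
          sum_le_sum (fun c _ => ind_le_one _)
        rw [sum_const, nsmul_eq_mul, card_univ, mul_one] at this
        have h0 : (0 : ℝ) ≤ κ := by positivity
        linarith
      · rw [ind_false hbd, mul_zero, add_zero]
        by_cases h : acc (Q2 (Function.update σ e univ) ρ)
        · simp only [f]
          let T : Finset Rr := univ.filter (fun c : Rr => ¬ acc
              ((Q2 (Function.update σ e univ) ρ).filter (fun i => i ≠ (e, c))))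
          refine sum_ind_le _ κ T ?_ ?_
          · rintro c ⟨_, hc⟩
            rw [e2] at hc
            exact mem_filter.mpr ⟨mem_univ _, hc⟩
          · have h5 := h2 _ hbd h (T.image (fun c => (e, c))) (by
              intro y hy
              obtain ⟨c, hc, rfl⟩ := mem_image.mp hy
              exact ⟨_, fun i => mem_filter, (mem_filter.mp hc).2⟩)
            rw [card_image_of_injective _ (fun a b h => (Prod.ext_iff.mp h).2)] at h5
            exact h5
        · have : ∀ c : Rr, f (Function.update ρ e c) = 0 := by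
            intro c
            apply ind_false
            rintro ⟨hh, _⟩
            rw [e1] at hh
            exact h hh
          rw [sum_congr rfl (fun c _ => this c), sum_const_zero]
          positivity
    have h5 : (Fintype.card Rr : ℝ) * ∑ ρ, f ρ ≤ (Fintype.card Rr : ℝ) ^ Fintype.card E * κ +
        Fintype.card Rr * ∑ ρ : E → Rr, ind (bd (Q2 (Function.update σ e univ) ρ)) := by
      rw [← h3]
      calc _ ≤ ∑ ρ : E → Rr, ((κ : ℝ) + Fintype.card Rr *
            ind (bd (Q2 (Function.update σ e univ) ρ))) := sum_le_sum (fun ρ _ => h4 ρ)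
        _ = _ := by
          rw [sum_add_distrib, sum_const, nsmul_eq_mul, card_univ, Fintype.card_fun, ← mul_sum]
          push_cast
          rfl
    have h6 : (Fintype.card Rr : ℝ) * ((Fintype.card Rr : ℝ) ^ Fintype.card E *
      (κ / Fintype.card Rr) + ∑ ρ : E → Rr, ind (bd (Q2 (Function.update σ e univ) ρ))) =
      (Fintype.card Rr : ℝ) ^ Fintype.card E * κ +
        Fintype.card Rr * ∑ ρ : E → Rr, ind (bd (Q2 (Function.update σ e univ) ρ)) := by
      field_simp
    rw [← h6] at h5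
    exact le_of_mul_le_mul_left h5 hrr
  calc _ ≤ ∑ ρ : E → Rr, (ind (acc (Q2 (Function.update σ e ∅) ρ)) + f ρ) :=
        sum_le_sum (fun ρ _ => ind_le _ _)
    _ = ∑ ρ : E → Rr, ind (acc (Q2 (Function.update σ e ∅) ρ)) + ∑ ρ, f ρ := sum_add_distrib
    _ ≤ _ := add_le_add le_rfl hf

end

variable {E A Rr K1 K2 I : Type} [Fintype E] [Fintype A] [Fintype Rr] [Fintype K1] [Fintype K2]

theorem side_one' (C : Circuit I 3)
    (X : (((E × A) × K1) × Bool → Bool) → (((E × Rr) × K2) × Bool → Bool) → I → Bool)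
    (hX : ∀ w2, IsProj (fun w1 => X w1 w2)) (p k : ℕ) (hp : 1 ≤ p) (hk : 1 ≤ k)
    (hkA : k < Fintype.card A) (hK : 0 < Fintype.card K1) (y : Dat (E × Rr) K2) (ρ : E → Rr) :
    ∑ x : Dat (E × A) K1, ∑ σ : E → Finset A, ∑ e : E,
        ind (C.Ov C.out (inst X x y (Q1 (Function.update σ e univ))
          (Q2 (Function.update σ e ∅) ρ))) ≤
      ∑ x : Dat (E × A) K1, ∑ σ : E → Finset A, ∑ e : E,
        ind (C.Ov C.out (inst X x y (Q1 (Function.update σ e ∅))
          (Q2 (Function.update σ e ∅) ρ))) +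
      dat (Fintype.card (E × A)) (Fintype.card K1) *
        ((Fintype.card (Finset A) : ℝ) * (Fintype.card (Finset A) ^ Fintype.card E *
          (k * (2 * k - 1) : ℕ)) +
          (Fintype.card (Finset A) : ℝ) ^ Fintype.card E *
            bad C.size p k (Fintype.card (E × A)) (Fintype.card K1) *
          ((Fintype.card (Finset A) : ℝ) ^ Fintype.card E * Fintype.card E)) := by
  have hA : 0 < Fintype.card A := by omega
  have hty := fun σ : E → Finset A => typD (R := E × A) (K := K1) C
    (fun w1 => X w1 (opn y.1 (gr y.2 (Q2 σ ρ)))) (hX _) p k hp hk hK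
  choose Bad hBad hgood using hty
  obtain ⟨B, hBB, hB⟩ := union_ex Bad _ hBad
  rw [Fintype.card_fun] at hBB
  push_cast at hBB
  refine sum_exc _ _ _ _ _ (card_dat _ _ _) B _
    (hBB.trans (le_of_eq (by ring))) (by positivity) (by positivity) ?_ ?_ ?_
  · intro x
    calc _ ≤ ∑ σ : E → Finset A, ∑ e : E, (1 : ℝ) :=
          sum_le_sum (fun σ _ => sum_le_sum (fun e _ => ind_le_one _))
      _ = _ := by
        rw [sum_const, sum_const, nsmul_eq_mul, nsmul_eq_mul, card_univ, card_univ,
          Fintype.card_fun]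
        push_cast
        ring
  · intro x
    exact sum_nonneg (fun σ _ => sum_nonneg (fun e _ => ind_nonneg _))
  · intro x hx
    have hx' : ∀ σ, (x.1, x.2) ∉ Bad σ := hB x hx
    exact or_claim' hA (fun Q Q' => C.Ov C.out (inst X x y Q Q')) k (k * (2 * k - 1)) hkA ρ
      (fun σ Q h => (hgood σ x.1 x.2 (hx' σ) Q h).1)
      (fun σ Q h => (hgood σ x.1 x.2 (hx' σ) Q h).2 E (fun i => i.1))

theorem side_two' (C : Circuit I 3)
    (X : (((E × A) × K1) × Bool → Bool) → (((E × Rr) × K2) × Bool → Bool) → I → Bool)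
    (hX : ∀ w1, IsProj (X w1)) (p k : ℕ) (hp : 1 ≤ p) (hk : 1 ≤ k)
    (hA : 0 < Fintype.card A) (hr : 0 < Fintype.card Rr) (hK : 0 < Fintype.card K2)
    (x : Dat (E × A) K1) (σ : E → Finset A) (e : E) :
    ∑ y : Dat (E × Rr) K2, ∑ ρ : E → Rr,
        ind (C.Ov C.out (inst X x y (Q1 (Function.update σ e univ))
          (Q2 (Function.update σ e univ) ρ))) ≤
      ∑ y : Dat (E × Rr) K2, ∑ ρ : E → Rr,
        ind (C.Ov C.out (inst X x y (Q1 (Function.update σ e univ))
          (Q2 (Function.update σ e ∅) ρ))) +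
      dat (Fintype.card (E × Rr)) (Fintype.card K2) *
        ((Fintype.card Rr : ℝ) ^ Fintype.card E * ((8 * k ^ 2 : ℕ) / Fintype.card Rr +
          bad2 C.size p k (Fintype.card (E × Rr)) (Fintype.card K2))) := by
  have hty := fun Q' : Finset (E × Rr) => typF (R := E × Rr) (K := K2) C
    (fun w2 => X (opn x.1 (gr x.2 (Q1 (Function.update σ e univ)))) w2) (hX _) p k hp hk hK Q'
  choose Bad hBad hgood using hty
  have hpt : ∀ y : Dat (E × Rr) K2, ∑ ρ : E → Rr,
        ind (C.Ov C.out (inst X x y (Q1 (Function.update σ e univ))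
          (Q2 (Function.update σ e univ) ρ))) ≤
      ∑ ρ : E → Rr,
        ind (C.Ov C.out (inst X x y (Q1 (Function.update σ e univ))
          (Q2 (Function.update σ e ∅) ρ))) +
      ((Fintype.card Rr : ℝ) ^ Fintype.card E * ((8 * k ^ 2 : ℕ) / Fintype.card Rr) +
        ∑ ρ : E → Rr, ind ((y.1, y.2) ∈ Bad (Q2 (Function.update σ e univ) ρ))) := by
    intro y
    exact and_claim' hA (fun Q' => C.Ov C.out (inst X x y (Q1 (Function.update σ e univ)) Q'))
      (fun Q' => (y.1, y.2) ∈ Bad Q') (8 * k ^ 2) hr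
      (fun Q' hb h => hgood Q' y.1 y.2 hb h) σ e
  refine (sum_le_sum (fun y _ => hpt y)).trans ?_
  rw [sum_add_distrib]
  apply add_le_add le_rfl
  rw [sum_add_distrib, sum_const, nsmul_eq_mul, card_univ, card_dat, mul_add, mul_add]
  apply add_le_add le_rfl
  rw [sum_comm]
  have h6 : ∀ ρ : E → Rr, ∑ y : Dat (E × Rr) K2,
      ind ((y.1, y.2) ∈ Bad (Q2 (Function.update σ e univ) ρ)) ≤
      bad2 C.size p k (Fintype.card (E × Rr)) (Fintype.card K2) *
        dat (Fintype.card (E × Rr)) (Fintype.card K2) := by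
    intro ρ
    refine le_trans (le_of_eq ?_) (hBad (Q2 (Function.update σ e univ) ρ))
    rw [sum_ind]
    congr 2
    ext y; simp
  refine (sum_le_sum (fun ρ _ => h6 ρ)).trans (le_of_eq ?_)
  rw [sum_const, nsmul_eq_mul, card_univ, Fintype.card_fun]
  push_cast
  ring

/-- The error of the OR side. -/
noncomputable def er1 (s p k m a K : ℕ) : ℝ :=
  2 ^ a * (k * (2 * k - 1) : ℕ) / m + (2 ^ a) ^ m * bad s p k (m * a) K

/-- The error of the AND side. -/
noncomputable def er2 (s p k m r K : ℕ) : ℝ :=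
  ((8 * k ^ 2 : ℕ) : ℝ) / r + bad2 s p k (m * r) K

theorem or_side' (C : Circuit I 3)
    (X : (((E × A) × K1) × Bool → Bool) → (((E × Rr) × K2) × Bool → Bool) → I → Bool)
    (hX : ∀ w2, IsProj (fun w1 => X w1 w2)) (p k : ℕ) (hp : 1 ≤ p) (hk : 1 ≤ k)
    (hkA : k < Fintype.card A) (hK : 0 < Fintype.card K1) (hE : 0 < Fintype.card E) :
    T E A Rr K1 K2 (fun y ρ x σ e => ind (C.Ov C.out (yesI X y ρ x σ e))) ≤
      T E A Rr K1 K2 (fun y ρ x σ e => ind (C.Ov C.out (noI X y ρ x (Function.update σ e ∅)))) +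
      tot (Fintype.card E) (Fintype.card A) (Fintype.card Rr) (Fintype.card K1)
      (Fintype.card K2) * er1 C.size p k (Fintype.card E) (Fintype.card A)
        (Fintype.card K1) := by
  have hm : (0 : ℝ) < Fintype.card E := by exact_mod_cast hE
  unfold T
  refine (sum_le_sum fun y _ => sum_le_sum fun ρ _ =>
    side_one' C X hX p k hp hk hkA hK y ρ).trans (le_of_eq ?_)
  simp only [sum_add_distrib]
  congr 1
  rw [sum_const, sum_const]
  simp only [nsmul_eq_mul, card_univ]
  rw [card_dat, Fintype.card_fun, Fintype.card_finset, Fintype.card_prod, Fintype.card_prod]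
  unfold tot er1
  push_cast
  field_simp

theorem and_side' (C : Circuit I 3)
    (X : (((E × A) × K1) × Bool → Bool) → (((E × Rr) × K2) × Bool → Bool) → I → Bool)
    (hX : ∀ w1, IsProj (X w1)) (p k : ℕ) (hp : 1 ≤ p) (hk : 1 ≤ k)
    (hA : 0 < Fintype.card A) (hr : 0 < Fintype.card Rr) (hK : 0 < Fintype.card K2) :
    T E A Rr K1 K2 (fun y ρ x σ e => ind (C.Ov C.out (noI X y ρ x (Function.update σ e univ)))) ≤
      T E A Rr K1 K2 (fun y ρ x σ e => ind (C.Ov C.out (yesI X y ρ x σ e))) +
      tot (Fintype.card E) (Fintype.card A) (Fintype.card Rr) (Fintype.card K1)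
      (Fintype.card K2) * er2 C.size p k (Fintype.card E) (Fintype.card Rr)
        (Fintype.card K2) := by
  have hrr : (0 : ℝ) < Fintype.card Rr := by exact_mod_cast hr
  unfold T
  have e1 := swapT (fun (y : Dat (E × Rr) K2) (ρ : E → Rr) (x : Dat (E × A) K1)
    (σ : E → Finset A) (e : E) => ind (C.Ov C.out (noI X y ρ x (Function.update σ e univ))))
  have e2 := swapT (fun (y : Dat (E × Rr) K2) (ρ : E → Rr) (x : Dat (E × A) K1)
    (σ : E → Finset A) (e : E) => ind (C.Ov C.out (yesI X y ρ x σ e)))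
  rw [e1, e2]
  refine (sum_le_sum fun x _ => sum_le_sum fun σ _ => sum_le_sum fun e _ =>
    side_two' C X hX p k hp hk hA hr hK x σ e).trans (le_of_eq ?_)
  simp only [sum_add_distrib]
  congr 1
  rw [sum_const, sum_const, sum_const]
  simp only [nsmul_eq_mul, card_univ]
  rw [card_dat, Fintype.card_fun, Fintype.card_finset, Fintype.card_prod, Fintype.card_prod]
  unfold tot er2
  push_cast
  ring

/-- The advantage of a depth three circuit. -/
theorem advantage' (C : Circuit I 3)
    (X : (((E × A) × K1) × Bool → Bool) → (((E × Rr) × K2) × Bool → Bool) → I → Bool)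
    (hX1 : ∀ w2, IsProj (fun w1 => X w1 w2)) (hX2 : ∀ w1, IsProj (X w1))
    (p k k' : ℕ) (hp : 1 ≤ p) (hk : 1 ≤ k) (hk' : 1 ≤ k')
    (hkA : k < Fintype.card A) (hK1 : 0 < Fintype.card K1) (hE : 0 < Fintype.card E)
    (hr : 0 < Fintype.card Rr) (hK2 : 0 < Fintype.card K2) :
    T E A Rr K1 K2 (fun y ρ x σ e => ind (C.val (yesI X y ρ x σ e) C.out)) ≤
      T E A Rr K1 K2 (fun y ρ x σ _ => ind (C.val (noI X y ρ x σ) C.out)) +
      tot (Fintype.card E) (Fintype.card A) (Fintype.card Rr) (Fintype.card K1)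
      (Fintype.card K2) *
      (er1 C.size p k (Fintype.card E) (Fintype.card A) (Fintype.card K1) +
        er2 C.size p k' (Fintype.card E) (Fintype.card Rr) (Fintype.card K2) +
        err3 (Fintype.card E) (Fintype.card A)) := by
  have ht : 0 ≤ tot (Fintype.card E) (Fintype.card A) (Fintype.card Rr) (Fintype.card K1)
      (Fintype.card K2) := by
    unfold tot
    have h1 := dat_nonneg (Fintype.card E * Fintype.card A) (Fintype.card K1)
    have h2 := dat_nonneg (Fintype.card E * Fintype.card Rr) (Fintype.card K2)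
    positivity
  have he1 : 0 ≤ er1 C.size p k (Fintype.card E) (Fintype.card A) (Fintype.card K1) := by
    unfold er1
    have := bad_nonneg C.size p k (Fintype.card E * Fintype.card A) (Fintype.card K1)
    positivity
  have he2 : 0 ≤ er2 C.size p k' (Fintype.card E) (Fintype.card Rr) (Fintype.card K2) := by
    unfold er2
    have := bad2_nonneg C.size p k' (Fintype.card E * Fintype.card Rr) (Fintype.card K2)
    positivity
  cases hc : C.conj C.out
  · -- OR output
    have hv : ∀ z, C.val z C.out ↔ C.Ov C.out z := by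
      intro z
      unfold Circuit.Ov
      rw [hc]
      simp
    simp only [hv]
    have h1 := or_side' (Rr := Rr) (K2 := K2) C X hX1 p k hp hk hkA hK1 hE
    have h2 := plant (K1 := K1) (K2 := K2)
      (fun y ρ x σ => ind (C.Ov C.out (noI X y ρ x σ)))
      (fun y ρ x σ => ⟨ind_nonneg _, ind_le_one _⟩) ∅ hE
    have h3 := mul_nonneg ht he2
    refine h1.trans ((add_le_add h2 le_rfl).trans ?_)
    rw [mul_add, mul_add]
    linarith
  · -- AND output
    have hv : ∀ z, C.val z C.out ↔ ¬ C.Ov C.out z := by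
      intro z
      unfold Circuit.Ov
      rw [hc]
      simp
    have h1 := and_side' (A := A) (K1 := K1) C X hX2 p k' hp hk' (by omega) hr hK2
    have h2 := plant (K1 := K1) (K2 := K2)
      (fun y ρ x σ => ind (C.val (noI X y ρ x σ) C.out))
      (fun y ρ x σ => ⟨ind_nonneg _, ind_le_one _⟩) univ hE
    have h3 := mul_nonneg ht he1
    have h4 : ∀ F : Dat (E × Rr) K2 → (E → Rr) → Dat (E × A) K1 → (E → Finset A) → E → Prop,
        T E A Rr K1 K2 (fun y ρ x σ e => ind (¬ F y ρ x σ e)) =
          T E A Rr K1 K2 (fun _ _ _ _ _ => 1) -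
            T E A Rr K1 K2 (fun y ρ x σ e => ind (F y ρ x σ e)) := by
      intro F
      unfold T
      simp only [ind_not, sum_sub_distrib]
    have h5 : T E A Rr K1 K2 (fun y ρ x σ e => ind (C.val (yesI X y ρ x σ e) C.out)) ≤
        T E A Rr K1 K2 (fun y ρ x σ e =>
          ind (C.val (noI X y ρ x (Function.update σ e univ)) C.out)) +
        tot (Fintype.card E) (Fintype.card A) (Fintype.card Rr) (Fintype.card K1)
        (Fintype.card K2) * er2 C.size p k' (Fintype.card E) (Fintype.card Rr)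
          (Fintype.card K2) := by
      simp only [hv]
      rw [h4, h4]
      linarith
    refine h5.trans ((add_le_add h2 le_rfl).trans ?_)
    rw [mul_add, mul_add]
    linarith

theorem bad2_mono {s s' : ℕ} (h : s ≤ s') (p k R K : ℕ) : bad2 s p k R K ≤ bad2 s' p k R K := by
  have h' : (s : ℝ) ≤ s' := by exact_mod_cast h
  unfold bad2
  gcongr

/-- No mixture of small depth three circuits has small error on the hard distribution. -/
theorem mixture' {L : Type} [Fintype L] (w : L → ℝ) (C : L → Circuit I 3) (hw : ∀ l, 0 ≤ w l)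
    (hw1 : ∑ l, w l = 1)
    (X : (((E × A) × K1) × Bool → Bool) → (((E × Rr) × K2) × Bool → Bool) → I → Bool)
    (hX1 : ∀ w2, IsProj (fun w1 => X w1 w2)) (hX2 : ∀ w1, IsProj (X w1))
    (p k k' : ℕ) (hp : 1 ≤ p) (hk : 1 ≤ k) (hk' : 1 ≤ k')
    (hkA : k < Fintype.card A) (hK1 : 0 < Fintype.card K1) (hE : 0 < Fintype.card E)
    (hr : 0 < Fintype.card Rr) (hK2 : 0 < Fintype.card K2) (ε η : ℝ) (hη : η < 2 * ε)
    (hyes : ∀ y ρ x σ e, 1 / 2 + ε ≤ ∑ l, w l * ind ((C l).val (yesI X y ρ x σ e) (C l).out))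
    (hno : ∀ y ρ x σ, ∑ l, w l * ind ((C l).val (noI X y ρ x σ) (C l).out) ≤ 1 / 2 - ε)
    (herr : ∀ l, 0 < w l →
      er1 (C l).size p k (Fintype.card E) (Fintype.card A) (Fintype.card K1) +
      er2 (C l).size p k' (Fintype.card E) (Fintype.card Rr) (Fintype.card K2) +
      err3 (Fintype.card E) (Fintype.card A) ≤ η) : False := by
  set t := tot (Fintype.card E) (Fintype.card A) (Fintype.card Rr) (Fintype.card K1)
      (Fintype.card K2) with ht
  have htpos : 0 < t := by
    rw [ht]
    unfold tot dat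
    have h1 : (0 : ℝ) < Fintype.card E := by exact_mod_cast hE
    have h2 : (0 : ℝ) < Fintype.card Rr := by exact_mod_cast hr
    have h3 : (0 : ℝ) < Fintype.card K1 := by exact_mod_cast hK1
    have h4 : (0 : ℝ) < Fintype.card K2 := by exact_mod_cast hK2
    positivity
  have a1 : t * (1 / 2 + ε) ≤ ∑ l, w l * T E A Rr K1 K2
      (fun y ρ x σ e => ind ((C l).val (yesI X y ρ x σ e) (C l).out)) := by
    rw [← T_sum, ← T_const]
    exact T_mono _ _ (fun y ρ x σ e => hyes y ρ x σ e)
  have a2 : ∑ l, w l * T E A Rr K1 K2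
      (fun y ρ x σ _ => ind ((C l).val (noI X y ρ x σ) (C l).out)) ≤ t * (1 / 2 - ε) := by
    rw [← T_sum, ← T_const]
    exact T_mono _ _ (fun y ρ x σ e => hno y ρ x σ)
  have a3 : ∀ l, w l * T E A Rr K1 K2
      (fun y ρ x σ e => ind ((C l).val (yesI X y ρ x σ e) (C l).out)) ≤
      w l * T E A Rr K1 K2 (fun y ρ x σ _ => ind ((C l).val (noI X y ρ x σ) (C l).out)) +
      w l * (t * η) := by
    intro l
    rcases (hw l).lt_or_eq with h | h
    · rw [← mul_add]
      apply mul_le_mul_of_nonneg_left _ (hw l)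
      refine (advantage' (C l) X hX1 hX2 p k k' hp hk hk' hkA hK1 hE hr hK2).trans ?_
      apply add_le_add le_rfl
      exact mul_le_mul_of_nonneg_left (herr l h) htpos.le
    · rw [← h]; simp
  have a4 := sum_le_sum (fun l (_ : l ∈ (univ : Finset L)) => a3 l)
  rw [sum_add_distrib, ← sum_mul, hw1, one_mul] at a4
  have a5 : t * (1 / 2 + ε) ≤ t * (1 / 2 - ε) + t * η := by linarith
  have a6 : t * η < t * (2 * ε) := mul_lt_mul_of_pos_left hη htpos
  linarith

end Pool.Agent.H596R2.D3R
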