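import Pool.Agent.H596R2.D3R.Gen

/-!
The lower bound scheme with the extra information that at most one column of every row is opened.
-/

namespace Pool.Agent.H596R2.D3R

open Finset Classical Pool.Agent.H596R2.D3

set_option linter.unusedSectionVars false

variable {E A Rr K1 K2 I : Type} [Fintype E] [Fintype A] [Fintype Rr] [Fintype K1] [Fintype K2]

/-- At most one column of every row is opened. -/
def Single {R K : Type} (w : (R × K) × Bool → Bool) : Prop :=
  ∀ a i j, (w ((a, i), false) = true ∧ w ((a, i), true) = true) →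
    (w ((a, j), false) = true ∧ w ((a, j), true) = true) → i = j

theorem single_opn {R K : Type} [Fintype R] [Fintype K] (u : R × K → Bool) (x : R → K)
    (Q : Finset R) : Single (opn u (gr x Q)) := by
  intro a i j hi hj
  have h : ∀ i, (opn u (gr x Q) ((a, i), false) = true ∧ opn u (gr x Q) ((a, i), true) = true) →
      i = x a := by
    intro i hi
    rcases opn_cases u (gr x Q) (a, i) with ⟨h, _, _⟩ | ⟨_, ⟨_, h⟩ | ⟨h, _⟩⟩
    · rw [mem_gr] at h
      first
      | exact h.2
      | exact h.2.symm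
    · rw [h] at hi; simp at hi
    · rw [h] at hi; simp at hi
  rw [h i hi, h j hj]

/-- The lower bound scheme: a reduction from the hard instances. -/
theorem scheme' {L : Type} [Fintype L] (w : L → ℝ) (C : L → Circuit I 3) (hw : ∀ l, 0 ≤ w l)
    (hw1 : ∑ l, w l = 1) (V : (I → Bool) → Prop) (P : (I → Bool) → Prop)
    (X : (((E × A) × K1) × Bool → Bool) → (((E × Rr) × K2) × Bool → Bool) → I → Bool)
    (hX1 : ∀ w2, IsProj (fun w1 => X w1 w2)) (hX2 : ∀ w1, IsProj (X w1))
    (p k k' : ℕ) (hp : 1 ≤ p) (hk : 1 ≤ k) (hk' : 1 ≤ k')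
    (hkA : k < Fintype.card A) (hK1 : 0 < Fintype.card K1) (hE : 0 < Fintype.card E)
    (hr : 0 < Fintype.card Rr) (hK2 : 0 < Fintype.card K2) (ε η : ℝ) (hη : η < 2 * ε)
    (hV : ∀ w1 w2, Opened w1 → Single w1 → Opened w2 → V (X w1 w2))
    (hyes : ∀ w1 w2, Opened w1 → Opened w2 → (∃ e ρ f, Good w1 w2 e ρ f) → P (X w1 w2))
    (hno : ∀ w1 w2, Opened w1 → Opened w2 → P (X w1 w2) → (∃ e ρ f, Good w1 w2 e ρ f))
    (hsucc : ∀ z, V z → 1 / 2 + ε ≤
      (∑ l, if ((C l).val z (C l).out ↔ P z) then w l else 0))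
    (herr : ∀ l, 0 < w l →
      er1 (C l).size p k (Fintype.card E) (Fintype.card A) (Fintype.card K1) +
      er2 (C l).size p k' (Fintype.card E) (Fintype.card Rr) (Fintype.card K2) +
      err3 (Fintype.card E) (Fintype.card A) ≤ η) : False := by
  apply mixture' w C hw hw1 X hX1 hX2 p k k' hp hk hk' hkA hK1 hE hr hK2 ε η hη ?_ ?_ herr
  · intro y ρ x σ e
    rw [yesI_eq]
    have hop1 : Opened (yes1 x σ e) := opened_opn _ _
    have hsi1 : Single (yes1 x σ e) := single_opn _ _ _
    have hop2 : Opened (yes2 y ρ σ e) := opened_opn _ _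
    have hP := hyes _ _ hop1 hop2 ⟨e, ρ e, _, yes_good (by omega) y ρ x σ e⟩
    refine (hsucc _ (hV _ _ hop1 hsi1 hop2)).trans (le_of_eq ?_)
    apply sum_congr rfl
    intro l _
    by_cases h : (C l).val (X (yes1 x σ e) (yes2 y ρ σ e)) (C l).out
    · rw [ind_true h]; simp [h, hP]
    · rw [ind_false h]; simp [h, hP]
  · intro y ρ x σ
    rw [noI_eq]
    have hop1 : Opened (no1 x σ) := opened_opn _ _
    have hsi1 : Single (no1 x σ) := single_opn _ _ _
    have hop2 : Opened (no2 y ρ σ) := opened_opn _ _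
    have hP : ¬ P (X (no1 x σ) (no2 y ρ σ)) := by
      intro h
      obtain ⟨e, ρ', f, hg⟩ := hno _ _ hop1 hop2 h
      exact no_good y ρ x σ e ρ' f hg
    have h1 := hsucc _ (hV _ _ hop1 hsi1 hop2)
    have h2 : (∑ l, if ((C l).val (X (no1 x σ) (no2 y ρ σ)) (C l).out ↔
        P (X (no1 x σ) (no2 y ρ σ))) then w l else 0) =
        1 - ∑ l, w l * ind ((C l).val (X (no1 x σ) (no2 y ρ σ)) (C l).out) := by
      rw [← hw1, ← sum_sub_distrib]
      apply sum_congr rfl
      intro l _
      by_cases h : (C l).val (X (no1 x σ) (no2 y ρ σ)) (C l).out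
      · rw [ind_true h]; simp [h, hP]
      · rw [ind_false h]; simp [h, hP]
    rw [h2] at h1
    linarith

end Pool.Agent.H596R2.D3R
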