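import Pool.Agent.H596R2.D3R.Game4
import Pool.Agent.H596R2.D3R.OVDefs

/-!
Hard instances of the Orthogonal Vectors problem.
-/

namespace Pool.Agent.H596R2.D3R

open Finset Classical Pool.Agent.H596R2.D3

set_option linter.unusedSectionVars false

variable {E Rr K1 K2 : Type} [Fintype E] [Fintype Rr] [Fintype K1] [Fintype K2]

/-- Coordinates. -/
abbrev Co (E Rr K2 : Type) (c : ℕ) : Type :=
  (Bool × Bool) ⊕ (K2 ⊕ (Option (Option (E × Rr)) ⊕ (Fin c × Bool)))

/-- The tag of a vector. -/
def tagO (s : Bool) : Option (E × K1 × Rr) → Option (Option (E × Rr))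
  | some x => some (some (x.1, x.2.2))
  | none => if s = true then some none else none

/-- The entries of a vector. -/
noncomputable def ent (c : ℕ) (w1 : ((E × Bool) × K1) × Bool → Bool)
    (w2 : ((E × Rr) × K2) × Bool → Bool) (s : Bool) (cd : Fin c → Bool) :
    Option (E × K1 × Rr) → Co E Rr K2 c → Bool
  | some x, Sum.inl (t, l) => if t = s then !w1 (((x.1, s), x.2.1), l) else true
  | none, Sum.inl _ => true
  | some x, Sum.inr (Sum.inl l) => w2 (((x.1, x.2.2), l), s)
  | none, Sum.inr (Sum.inl _) => false
  | o, Sum.inr (Sum.inr (Sum.inl τ)) => xor s (decide (τ = tagO s o))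
  | _, Sum.inr (Sum.inr (Sum.inr (x, t))) => if t = s then cd x else false

/-- The instance. -/
noncomputable def XOV {n d c : ℕ} (dv : Fin n → Option (E × K1 × Rr))
    (dc : Fin d → Option (Co E Rr K2 c)) (cd : Fin n → Fin c → Bool)
    (w1 : ((E × Bool) × K1) × Bool → Bool) (w2 : ((E × Rr) × K2) × Bool → Bool) :
    OVBit n d → Bool := fun q =>
  match dc q.2.2 with
  | some x => ent c w1 w2 q.1 (cd q.2.1) (dv q.2.1) x
  | none => false

theorem opn_iff {R K : Type} [Fintype R] [Fintype K] (u : R × K → Bool) (D : Finset (R × K))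
    (q : (R × K) × Bool) : opn u D q = true ↔ q.1 ∈ D ∨ q.2 = u q.1 := by
  unfold opn
  rw [Bool.or_eq_true, decide_eq_true_iff, beq_iff_eq]

theorem opn_not {R K : Type} [Fintype R] [Fintype K] (u : R × K → Bool) (D : Finset (R × K))
    (x : R × K) (hx : x ∉ D) : ¬ (opn u D (x, false) = true ∧ opn u D (x, true) = true) := by
  rw [opn_iff, opn_iff]
  simp only [hx, false_or]
  rintro ⟨h1, h2⟩
  rw [← h1] at h2
  exact absurd h2 (by simp)

section
variable {n d c : ℕ} (dv : Fin n → Option (E × K1 × Rr))
    (dc : Fin d → Option (Co E Rr K2 c)) (cd : Fin n → Fin c → Bool)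
    (w1 : ((E × Bool) × K1) × Bool → Bool) (w2 : ((E × Rr) × K2) × Bool → Bool)

theorem xov_none (q : OVBit n d) (h : dc q.2.2 = none) : XOV dv dc cd w1 w2 q = false := by
  unfold XOV
  rw [h]

theorem xov_some (q : OVBit n d) (x : Co E Rr K2 c) (h : dc q.2.2 = some x) :
    XOV dv dc cd w1 w2 q = ent c w1 w2 q.1 (cd q.2.1) (dv q.2.1) x := by
  unfold XOV
  rw [h]

end

theorem xov_proj_one {n d c : ℕ} (dv : Fin n → Option (E × K1 × Rr))
    (dc : Fin d → Option (Co E Rr K2 c)) (cd : Fin n → Fin c → Bool)
    (w2 : ((E × Rr) × K2) × Bool → Bool) : IsProj (fun w1 => XOV dv dc cd w1 w2) := by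
  intro q
  rcases hc : dc q.2.2 with _ | x
  · exact Or.inl ⟨false, fun w => xov_none dv dc cd w w2 q hc⟩
  · have hconst : (∀ w : ((E × Bool) × K1) × Bool → Bool,
        ent c w w2 q.1 (cd q.2.1) (dv q.2.1) x =
          ent c (fun _ => false) w2 q.1 (cd q.2.1) (dv q.2.1) x) →
        (∃ b, ∀ w, XOV dv dc cd w w2 q = b) ∨
        (∃ q' s, ∀ w, XOV dv dc cd w w2 q = xor (w q') s) := by
      intro h
      left
      refine ⟨ent c (fun _ => false) w2 q.1 (cd q.2.1) (dv q.2.1) x, fun w => ?_⟩
      rw [xov_some dv dc cd w w2 q x hc]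
      exact h w
    rcases hv : dv q.2.1 with _ | y
    · apply hconst
      intro w
      rw [hv]
      rcases x with x | x | x | x <;> rfl
    · rcases x with ⟨t, l⟩ | x | x | x
      · by_cases ht : t = q.1
        · right
          refine ⟨(((y.1, q.1), y.2.1), l), true, fun w => ?_⟩
          show XOV dv dc cd w w2 q = _
          rw [xov_some dv dc cd w w2 q _ hc, hv]
          unfold ent
          simp [ht]
        · apply hconst
          intro w
          rw [hv]
          unfold ent
          simp [ht]
      · apply hconst; intro w; rw [hv]; rfl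
      · apply hconst; intro w; rw [hv]; rfl
      · apply hconst; intro w; rw [hv]; rfl

theorem xov_proj_two {n d c : ℕ} (dv : Fin n → Option (E × K1 × Rr))
    (dc : Fin d → Option (Co E Rr K2 c)) (cd : Fin n → Fin c → Bool)
    (w1 : ((E × Bool) × K1) × Bool → Bool) : IsProj (XOV dv dc cd w1) := by
  intro q
  rcases hc : dc q.2.2 with _ | x
  · exact Or.inl ⟨false, fun w => xov_none dv dc cd w1 w q hc⟩
  · have hconst : (∀ w : ((E × Rr) × K2) × Bool → Bool,
        ent c w1 w q.1 (cd q.2.1) (dv q.2.1) x =
          ent c w1 (fun _ => false) q.1 (cd q.2.1) (dv q.2.1) x) →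
        (∃ b, ∀ w, XOV dv dc cd w1 w q = b) ∨
        (∃ q' s, ∀ w, XOV dv dc cd w1 w q = xor (w q') s) := by
      intro h
      left
      refine ⟨ent c w1 (fun _ => false) q.1 (cd q.2.1) (dv q.2.1) x, fun w => ?_⟩
      rw [xov_some dv dc cd w1 w q x hc]
      exact h w
    rcases hv : dv q.2.1 with _ | y
    · apply hconst
      intro w
      rw [hv]
      rcases x with x | x | x | x <;> rfl
    · rcases x with ⟨t, l⟩ | x | x | x
      · apply hconst; intro w; rw [hv]; rfl
      · right
        refine ⟨(((y.1, y.2.2), x), q.1), false, fun w => ?_⟩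
        rw [xov_some dv dc cd w1 w q _ hc, hv, Bool.xor_false]
        rfl
      · apply hconst; intro w; rw [hv]; rfl
      · apply hconst; intro w; rw [hv]; rfl

section
variable {n d c : ℕ} (fv : E × K1 × Rr → Fin n) (hfv : Function.Injective fv)
  (fc : Co E Rr K2 c → Fin d) (hfc : Function.Injective fc)
  (cd : Fin n → Fin c → Bool) (hcd : Function.Injective cd)

include hfv hfc in
theorem xov_iff (w1 : ((E × Bool) × K1) × Bool → Bool) (w2 : ((E × Rr) × K2) × Bool → Bool) :
    OV (XOV (Function.partialInv fv) (Function.partialInv fc) cd w1 w2) ↔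
      ∃ (e : E) (ρ : Rr) (i j : K1), (∀ l, w1 (((e, false), i), l) = true) ∧
        (∀ l, w1 (((e, true), j), l) = true) ∧
        ∀ l, ¬ (w2 (((e, ρ), l), false) = true ∧ w2 (((e, ρ), l), true) = true) := by
  have hc : ∀ x, Function.partialInv fc (fc x) = some x := fun x =>
    Function.partialInv_left hfc x
  have hv : ∀ x, Function.partialInv fv (fv x) = some x := fun x =>
    Function.partialInv_left hfv x
  constructor
  · rintro ⟨a, a', h⟩
    have hx : ∀ x : Co E Rr K2 c, ¬ (ent c w1 w2 false (cd a) (Function.partialInv fv a) x = true ∧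
        ent c w1 w2 true (cd a') (Function.partialInv fv a') x = true) := by
      intro x
      have := h (fc x)
      unfold XOV at this
      simp only [hc] at this
      exact this
    have htag : tagO false (Function.partialInv fv a) = tagO true (Function.partialInv fv a') := by
      by_contra hne
      apply hx (Sum.inr (Sum.inr (Sum.inl (tagO false (Function.partialInv fv a)))))
      constructor
      · unfold ent
        simp
      · unfold ent
        simp [hne]
    rcases hva : Function.partialInv fv a with _ | y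
    · rcases hva' : Function.partialInv fv a' with _ | y'
      · rw [hva, hva'] at htag
        simp [tagO] at htag
      · rw [hva, hva'] at htag
        simp [tagO] at htag
    · rcases hva' : Function.partialInv fv a' with _ | y'
      · rw [hva, hva'] at htag
        simp [tagO] at htag
      · rw [hva, hva'] at htag hx
        simp only [tagO, Option.some.injEq, Prod.mk.injEq] at htag
        refine ⟨y.1, y.2.2, y.2.1, y'.2.1, ?_, ?_, ?_⟩
        · intro l
          have := hx (Sum.inl (false, l))
          unfold ent at this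
          simpa using this
        · intro l
          have := hx (Sum.inl (true, l))
          unfold ent at this
          rw [htag.1]
          simpa using this
        · intro l
          have := hx (Sum.inr (Sum.inl l))
          unfold ent at this
          have e1 : (((y'.1, y'.2.2), l), true) = (((y.1, y.2.2), l), true) := by
            rw [htag.1, htag.2]
          simp only [e1] at this
          exact this
  · rintro ⟨e, ρ, i, j, h1, h2, h3⟩
    refine ⟨fv (e, i, ρ), fv (e, j, ρ), ?_⟩
    intro l
    unfold XOV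
    simp only [hv]
    rcases hl : Function.partialInv fc l with _ | x
    · simp
    · simp only
      rcases x with ⟨t, y⟩ | y | y | ⟨y, t⟩
      · unfold ent
        cases t
        · simp [h1]
        · simp [h2]
      · exact h3 y
      · unfold ent tagO
        simp
      · unfold ent
        cases t <;> simp

include hfc hcd in
theorem xov_valid (w1 : ((E × Bool) × K1) × Bool → Bool) (w2 : ((E × Rr) × K2) × Bool → Bool) :
    Valid (XOV (Function.partialInv fv) (Function.partialInv fc) cd w1 w2) := by
  have hc : ∀ x, Function.partialInv fc (fc x) = some x := fun x =>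
    Function.partialInv_left hfc x
  intro s a a' h
  apply hcd
  funext x
  have h1 := congrFun h (fc (Sum.inr (Sum.inr (Sum.inr (x, s)))))
  unfold XOV at h1
  simp only [hc] at h1
  unfold ent at h1
  simpa using h1

end

theorem yes_iff {n d c : ℕ} (fv : E × K1 × Rr → Fin n) (hfv : Function.Injective fv)
    (fc : Co E Rr K2 c → Fin d) (hfc : Function.Injective fc) (cd : Fin n → Fin c → Bool)
    (y : Dat (E × Rr) K2) (ρ : E → Rr) (x : Dat (E × Bool) K1) (σ : E → Finset Bool) (e : E) :
    OV (yesI (XOV (Function.partialInv fv) (Function.partialInv fc) cd) y ρ x σ e) := by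
  unfold yesI inst
  rw [xov_iff fv hfv fc hfc]
  have hne : (∅ : Finset Bool) ≠ univ := by
    intro h
    have := congrArg Finset.card h
    simp at this
  have hop : ∀ s : Bool, ∀ l, opn x.1 (gr x.2 (Q1 (Function.update σ e univ)))
      (((e, s), x.2 (e, s)), l) = true := by
    intro s l
    rw [opn_iff]
    left
    rw [mem_gr]
    refine ⟨?_, rfl⟩
    rw [mem_Q1]
    simp
  refine ⟨e, ρ e, x.2 (e, false), x.2 (e, true), hop false, hop true, ?_⟩
  intro l
  have hnot : ((e, ρ e), l) ∉ gr y.2 (Q2 (Function.update σ e ∅) ρ) := by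
    rw [mem_gr, mem_Q2]
    rintro ⟨h | h, _⟩
    · simp only [Function.update_self] at h
      exact hne h
    · exact h rfl
  exact opn_not _ _ _ hnot

theorem no_iff {n d c : ℕ} (fv : E × K1 × Rr → Fin n) (hfv : Function.Injective fv)
    (fc : Co E Rr K2 c → Fin d) (hfc : Function.Injective fc) (cd : Fin n → Fin c → Bool)
    (y : Dat (E × Rr) K2) (ρ : E → Rr) (x : Dat (E × Bool) K1) (σ : E → Finset Bool) :
    ¬ OV (noI (XOV (Function.partialInv fv) (Function.partialInv fc) cd) y ρ x σ) := by
  unfold noI inst
  rw [xov_iff fv hfv fc hfc]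
  rintro ⟨e, ρ', i, j, h1, h2, h3⟩
  have hop : ∀ (s : Bool) (i : K1), (∀ l, opn x.1 (gr x.2 (Q1 σ)) (((e, s), i), l) = true) →
      s ∈ σ e := by
    intro s i h
    by_contra hs
    have hnot : ((e, s), i) ∉ gr x.2 (Q1 σ) := by
      rw [mem_gr, mem_Q1]
      intro hh
      exact hs hh.1
    exact opn_not _ _ _ hnot ⟨h false, h true⟩
  have m1 := hop false i h1
  have m2 := hop true j h2
  have huniv : σ e = univ := by
    ext s
    cases s <;> simp [m1, m2]
  apply h3 (y.2 (e, ρ'))
  have hin : ((e, ρ'), y.2 (e, ρ')) ∈ gr y.2 (Q2 σ ρ) := by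
    rw [mem_gr, mem_Q2]
    exact ⟨Or.inl huniv, rfl⟩
  rw [opn_iff, opn_iff]
  exact ⟨Or.inl hin, Or.inl hin⟩

end Pool.Agent.H596R2.D3R
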