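import Pool.Agent.H596R2.D3R.Asym3

/-!
Choice of the parameters for Set Cover.
-/

namespace Pool.Agent.H596R2.D3R

open Finset Classical Pool.Agent.H596R2.D3

/-- The number of columns of the OR-rows. -/
def sb (m v r t : ℕ) : ℕ := 2 ^ t / (m * ((v + 1) * r))

theorem sb_lower (m R0 u v q : ℕ) (hm : 0 < m) (hR : 0 < R0) (hu : 1 ≤ u) (hv : 1 ≤ v) :
    ∀ᶠ t : ℕ in Filter.atTop, 0 < sb m v (rr R0 u v q t) t ∧
      (2 : ℝ) ^ t / (2 * (m * ((v + 1) * (R0 * (v * ((q + 1) * u)) ^ 2)) : ℕ) *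
        ((t : ℝ) + 1) ^ 2) ≤ sb m v (rr R0 u v q t) t := by
  set B := m * ((v + 1) * (R0 * (v * ((q + 1) * u)) ^ 2)) with hB
  have hBpos : 0 < B := by positivity
  have e1 := ev_poly_two (2 * B) 1 2 one_pos
  filter_upwards [e1] with t f1
  rw [div_le_one (by positivity)] at f1
  set A := m * ((v + 1) * rr R0 u v q t) with hA
  have hAB : A = B * (t + 1) ^ 2 := by
    rw [hA, hB, rr_le]; ring
  have hApos : 0 < A := by rw [hAB]; positivity
  have hAB' : (A : ℝ) = B * ((t : ℝ) + 1) ^ 2 := by rw [hAB]; push_cast; ring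
  have hA2 : (2 * A : ℝ) ≤ 2 ^ t := by
    rw [hAB']
    calc (2 * (B * ((t : ℝ) + 1) ^ 2)) = 2 * B * ((t : ℝ) + 1) ^ 2 := by ring
      _ ≤ 2 ^ t := f1
  have hA3 : 2 * A ≤ 2 ^ t := by exact_mod_cast hA2
  constructor
  · exact Nat.div_pos (by omega) hApos
  · have h1 := div_lower (2 ^ t) A hApos hA3
    refine le_trans (le_of_eq ?_) h1
    push_cast
    rw [hAB']
    ring_nf

/-- The first part. -/
theorem part_one3 (η : ℝ) (hη : 0 < η) (m R0 u v q : ℕ) (hm : 0 < m) (hR : 0 < R0) (hu : 1 ≤ u)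
    (hv : 1 ≤ v) :
    ∀ᶠ t : ℕ in Filter.atTop, ∀ s : ℕ, s ≤ 2 ^ ((t + 1) * (v - 1)) →
      (2 ^ (v + 1)) ^ m * bad s (v * t) v (m * (v + 1)) (sb m v (rr R0 u v q t) t) ≤ η := by
  set B0 := m * ((v + 1) * (R0 * (v * ((q + 1) * u)) ^ 2)) with hB0
  set B : ℝ := 2 * (B0 : ℝ) with hB
  have hB0pos : 0 < B0 := by positivity
  have hBpos : 0 < B := by
    have : (0 : ℝ) < B0 := by exact_mod_cast hB0pos
    rw [hB]; linarith
  set G : ℝ := (2 ^ (v + 1)) ^ m with hG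
  set H : ℝ := 4 ^ (m * (v + 1)) with hH
  have hGpos : 0 < G := by rw [hG]; positivity
  have hHpos : 0 < H := by rw [hH]; positivity
  have hm1 : (1 : ℝ) ≤ m := by exact_mod_cast hm
  have hv' : (0 : ℝ) < v := by exact_mod_cast hv
  set C1 : ℝ := 5 * m * (v + 1) * B * H * (v : ℝ) ^ (v + 1) +
    3 * B ^ (v + 1) * 2 ^ v * H * (v : ℝ) ^ (v + 1) with hC1
  have hC1pos : 0 < C1 := by rw [hC1]; positivity
  have e1 := ev_poly_two (G * C1) (η / 2) (3 * (v + 1)) (by positivity)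
  have e2 := ev_poly_two (G * 2 ^ v) (η / 2) 0 (by positivity)
  have e3 := sb_lower m R0 u v q hm hR hu hv
  filter_upwards [e1, e2, e3, Filter.eventually_ge_atTop 1] with t f1 f2 f3 ht1 s hs
  obtain ⟨hb0, hb1⟩ := f3
  rw [← hB0] at hb1
  have ht0 : (0 : ℝ) < (t : ℝ) + 1 := by positivity
  have ht1' : (1 : ℝ) ≤ (t : ℝ) + 1 := by
    have : (0 : ℝ) ≤ t := by positivity
    linarith
  have hp1 : 1 ≤ v * t := Nat.mul_pos hv ht1
  have hb := bad_le s (v * t) v (m * (v + 1)) (sb m v (rr R0 u v q t) t) hp1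
  set K : ℝ := (sb m v (rr R0 u v q t) t : ℝ) with hK
  have hKpos : 0 < K := by rw [hK]; exact_mod_cast hb0
  have hK1 : 1 ≤ K := by rw [hK]; exact_mod_cast hb0
  have h2tpos : (0 : ℝ) < 2 ^ t := by positivity
  have hKinv : 1 / K ≤ B * ((t : ℝ) + 1) ^ 2 / 2 ^ t := by
    rw [div_le_div_iff₀ hKpos h2tpos]
    have h5 : (2 : ℝ) ^ t ≤ K * (B * ((t : ℝ) + 1) ^ 2) := by
      rw [div_le_iff₀ (by positivity)] at hb1
      exact hb1
    linarith
  have hs' : (s : ℝ) ≤ 2 ^ ((t + 1) * (v - 1)) := by exact_mod_cast hs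
  have hsn : (s : ℝ) / ((2 : ℝ) ^ t) ^ (v + 1) ≤ 2 ^ v / 2 ^ t := by
    rw [div_le_div_iff₀ (by positivity) (by positivity)]
    calc (s : ℝ) * 2 ^ t ≤ 2 ^ ((t + 1) * (v - 1)) * 2 ^ t := by gcongr
      _ = 2 ^ ((t + 1) * (v - 1) + t) := (pow_add _ _ _).symm
      _ ≤ 2 ^ (v + t * (v + 1)) := by
          apply pow_le_pow_right₀ (by norm_num)
          obtain ⟨w, hw⟩ : ∃ w, v = w + 1 := ⟨v - 1, by omega⟩
          subst hw
          rw [Nat.add_sub_cancel]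
          have h8 : (t + 1) * w = t * w + w := by ring
          have h9 : t * (w + 1 + 1) = t * w + 2 * t := by ring
          omega
      _ = 2 ^ v * ((2 : ℝ) ^ t) ^ (v + 1) := by rw [pow_add, pow_mul]
  have hmain : (4 * (((m * (v + 1) : ℕ) : ℝ) * K) + 1 + 3 * s) * 4 ^ (m * (v + 1)) *
      ((v * t : ℕ) : ℝ) ^ (v + 1) / K ^ (v + 1) ≤ C1 * ((t : ℝ) + 1) ^ (3 * (v + 1)) / 2 ^ t := by
    have g1 : (4 * (((m * (v + 1) : ℕ) : ℝ) * K) + 1) ≤ 5 * m * (v + 1) * K := by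
      push_cast
      have h1 : 1 ≤ (m : ℝ) * (v + 1) := one_le_mul_of_one_le_of_one_le hm1 (by linarith)
      have : 1 ≤ (m : ℝ) * (v + 1) * K := one_le_mul_of_one_le_of_one_le h1 hK1
      nlinarith
    have g2 : ((v * t : ℕ) : ℝ) ^ (v + 1) ≤ (v : ℝ) ^ (v + 1) * ((t : ℝ) + 1) ^ (v + 1) := by
      rw [← mul_pow]
      have : ((v * t : ℕ) : ℝ) ≤ v * ((t : ℝ) + 1) := by
        push_cast
        nlinarith
      gcongr
    have g3 : 1 / K ^ v ≤ B * ((t : ℝ) + 1) ^ 2 / 2 ^ t := by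
      refine le_trans ?_ hKinv
      apply div_le_div_of_nonneg_left (by norm_num) hKpos
      calc K = K ^ 1 := (pow_one _).symm
        _ ≤ K ^ v := pow_le_pow_right₀ hK1 hv
    have g4 : 1 / K ^ (v + 1) ≤ (B * ((t : ℝ) + 1) ^ 2 / 2 ^ t) ^ (v + 1) := by
      rw [← one_div_pow]; gcongr
    calc _ ≤ (5 * m * (v + 1) * K + 3 * s) * H * ((v : ℝ) ^ (v + 1) * ((t : ℝ) + 1) ^ (v + 1)) /
          K ^ (v + 1) := by
          rw [← hH]; gcongr
      _ = 5 * m * (v + 1) * H * (v : ℝ) ^ (v + 1) * ((t : ℝ) + 1) ^ (v + 1) * (1 / K ^ v) +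
          3 * H * (v : ℝ) ^ (v + 1) * ((t : ℝ) + 1) ^ (v + 1) * s * (1 / K ^ (v + 1)) := by
          rw [pow_succ K v]
          field_simp
      _ ≤ 5 * m * (v + 1) * H * (v : ℝ) ^ (v + 1) * ((t : ℝ) + 1) ^ (v + 1) *
          (B * ((t : ℝ) + 1) ^ 2 / 2 ^ t) +
          3 * H * (v : ℝ) ^ (v + 1) * ((t : ℝ) + 1) ^ (v + 1) * s *
            (B * ((t : ℝ) + 1) ^ 2 / 2 ^ t) ^ (v + 1) := by
          gcongr
      _ = 5 * m * (v + 1) * B * H * (v : ℝ) ^ (v + 1) * ((t : ℝ) + 1) ^ (v + 1 + 2) / 2 ^ t +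
          3 * B ^ (v + 1) * H * (v : ℝ) ^ (v + 1) * ((t : ℝ) + 1) ^ (3 * (v + 1)) *
            (s / ((2 : ℝ) ^ t) ^ (v + 1)) := by
          have e3 : ((t : ℝ) + 1) ^ (3 * (v + 1)) = ((t : ℝ) + 1) ^ (v + 1) *
            (((t : ℝ) + 1) ^ 2) ^ (v + 1) := by
            rw [← pow_mul, ← pow_add]; congr 1; ring
          rw [e3, div_pow, mul_pow, pow_add _ (v + 1) 2]
          ring
      _ ≤ 5 * m * (v + 1) * B * H * (v : ℝ) ^ (v + 1) * ((t : ℝ) + 1) ^ (3 * (v + 1)) / 2 ^ t +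
          3 * B ^ (v + 1) * H * (v : ℝ) ^ (v + 1) * ((t : ℝ) + 1) ^ (3 * (v + 1)) *
            (2 ^ v / 2 ^ t) := by
          have : ((t : ℝ) + 1) ^ (v + 1 + 2) ≤ ((t : ℝ) + 1) ^ (3 * (v + 1)) :=
            pow_le_pow_right₀ ht1' (by omega)
          gcongr
      _ = C1 * ((t : ℝ) + 1) ^ (3 * (v + 1)) / 2 ^ t := by
          rw [hC1]; ring
  have h1 := first_term s v t hv hs
  have h2 := mul_le_mul_of_nonneg_left (hb.trans (add_le_add h1 hmain)) hGpos.le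
  refine h2.trans ?_
  rw [mul_add]
  have e5 : G * (2 ^ v / 2 ^ t) ≤ η / 2 := by
    refine le_trans (le_of_eq ?_) f2
    rw [pow_zero]; ring
  have e6 : G * (C1 * ((t : ℝ) + 1) ^ (3 * (v + 1)) / 2 ^ t) ≤ η / 2 := by
    refine le_trans (le_of_eq ?_) f1
    ring
  linarith

/-- The parameters. -/
theorem sc_params (ε : ℝ) (hε : 0 < ε) (u v : ℕ) (hv : v + 4 = u) (hv1 : 1 ≤ v) :
    ∃ m R0 T : ℕ, 0 < m ∧ 0 < R0 ∧ ∀ t ≥ T,
      1 ≤ v * t ∧ 0 < kk u v 0 t ∧ 0 < rr R0 u v 0 t ∧ 0 < sb m v (rr R0 u v 0 t) t ∧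
      2 * (v + 1) * (1 + Nat.clog 2 (m * rr R0 u v 0 t)) ≤ t ∧
      ∀ s : ℕ, s ≤ 2 ^ ((t + 1) * (v - 1)) →
        er1 s (v * t) v m (v + 1) (sb m v (rr R0 u v 0 t) t) +
          er2 s (v * t) (kk u v 0 t) m (rr R0 u v 0 t) ((v + 1) * t) + err3 m (v + 1) ≤
          5 * ε / 4 := by
  set V : ℝ := 2 ^ (v + 1) * (v * (2 * v - 1) : ℕ) with hV
  have hVnn : 0 ≤ V := by rw [hV]; positivity
  obtain ⟨m, hm⟩ := exists_nat_ge (4 * V / ε + 16 * 2 ^ (v + 1) / ε ^ 2 + 1)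
  have hm0 : 0 ≤ 4 * V / ε := by positivity
  have hm0' : 0 < 16 * (2 : ℝ) ^ (v + 1) / ε ^ 2 := by positivity
  have hmpos : 0 < m := by
    have : (0 : ℝ) < m := by linarith
    exact_mod_cast this
  obtain ⟨R0, hR⟩ := exists_nat_ge (32 / ε + 1)
  have hr0 : 0 < 32 / ε := by positivity
  have hRpos : 0 < R0 := by
    have : (0 : ℝ) < R0 := by linarith
    exact_mod_cast this
  have h1 := part_one3 (ε / 4) (by positivity) m R0 u v 0 hmpos hRpos (by omega) hv1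
  have h2 := part_two'' (ε / 4) (by positivity) m R0 u v 0 (by omega) hv1 (by omega)
  have h3 := sb_lower m R0 u v 0 hmpos hRpos (by omega) hv1
  set K1 := v * ((0 + 1) * u) with hK1
  have h4 := ev_poly_two (((4 * (m * (R0 * K1 ^ 2)) : ℕ) : ℝ) ^ (2 * (v + 1))) 1
    (2 * (2 * (v + 1))) one_pos
  obtain ⟨T, hT⟩ := Filter.eventually_atTop.mp (h1.and (h2.and (h3.and h4)))
  refine ⟨m, R0, max T 2, hmpos, hRpos, ?_⟩
  intro t ht
  obtain ⟨a1, a2, a3, a4⟩ := hT t ((le_max_left _ _).trans ht)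
  have ht2 : 2 ≤ t := (le_max_right _ _).trans ht
  have hu1 : 0 < u := by omega
  have hkpos : 0 < kk u v 0 t := by unfold kk; positivity
  have hrpos : 0 < rr R0 u v 0 t := by unfold rr; positivity
  refine ⟨Nat.mul_pos hv1 (by omega), hkpos, hrpos, a3.1, ?_, ?_⟩
  · set T' := m * rr R0 u v 0 t with hT'
    have c2 : 2 ^ Nat.clog 2 T' ≤ 2 * T' := by
      have hTpos : 0 < T' := Nat.mul_pos hmpos hrpos
      rcases Nat.lt_or_ge T' 2 with h | h
      · have : T' = 1 := by omega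
        rw [this]; simp
      · have h1 : 2 ^ (Nat.clog 2 T').pred < T' :=
          Nat.pow_pred_clog_lt_self (by norm_num) (by omega)
        have hc : 0 < Nat.clog 2 T' := Nat.clog_pos (by norm_num) (by omega)
        obtain ⟨t, ht⟩ : ∃ t, Nat.clog 2 T' = t + 1 := ⟨Nat.clog 2 T' - 1, by omega⟩
        rw [ht] at h1 ⊢
        rw [Nat.pred_succ] at h1
        rw [pow_succ]
        omega
    have hle : 2 ^ (2 * (v + 1) * (1 + Nat.clog 2 T')) ≤ 2 ^ t := by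
      have e1 : 2 ^ (1 + Nat.clog 2 T') ≤ 4 * (m * (R0 * K1 ^ 2)) * (t + 1) ^ 2 := by
        calc 2 ^ (1 + Nat.clog 2 T') = 2 * 2 ^ Nat.clog 2 T' := by rw [pow_add, pow_one]
          _ ≤ 2 * (2 * T') := by gcongr
          _ = 4 * (m * (R0 * K1 ^ 2)) * (t + 1) ^ 2 := by
              rw [hT', rr_le, ← hK1]; ring
      rw [div_le_one (by positivity)] at a4
      have e2 : (4 * (m * (R0 * K1 ^ 2)) * (t + 1) ^ 2) ^ (2 * (v + 1)) ≤ 2 ^ t := by
        have : ((4 * (m * (R0 * K1 ^ 2)) * (t + 1) ^ 2) ^ (2 * (v + 1)) : ℝ) ≤ 2 ^ t := by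
          refine le_trans (le_of_eq ?_) a4
          push_cast
          rw [mul_pow _ (((t : ℝ) + 1) ^ 2), ← pow_mul]
        exact_mod_cast this
      calc 2 ^ (2 * (v + 1) * (1 + Nat.clog 2 T')) =
            (2 ^ (1 + Nat.clog 2 T')) ^ (2 * (v + 1)) := by
            rw [← pow_mul]; congr 1; ring
        _ ≤ (4 * (m * (R0 * K1 ^ 2)) * (t + 1) ^ 2) ^ (2 * (v + 1)) := Nat.pow_le_pow_left e1 _
        _ ≤ 2 ^ t := e2
    exact (Nat.pow_le_pow_iff_right (by norm_num)).mp hle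
  · intro s hs
    have b1 := a1 s hs
    have b2 := a2 s hs
    have hmr : (0 : ℝ) < m := by exact_mod_cast hmpos
    have hrr : (0 : ℝ) < R0 := by exact_mod_cast hRpos
    have c1 : (2 : ℝ) ^ (v + 1) * ((v * (2 * v - 1) : ℕ) : ℝ) / m ≤ ε / 4 := by
      rw [div_le_iff₀ hmr, ← hV]
      have : 4 * V / ε ≤ m := by linarith
      rw [div_le_iff₀ hε] at this
      linarith
    have c2 : ((8 * kk u v 0 t ^ 2 : ℕ) : ℝ) / ((rr R0 u v 0 t : ℕ) : ℝ) ≤ ε / 4 := by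
      unfold rr
      have hc' : (0 : ℝ) < (kk u v 0 t : ℝ) ^ 2 := by
        have : (0 : ℝ) < (kk u v 0 t : ℝ) := by exact_mod_cast hkpos
        positivity
      push_cast
      rw [mul_div_mul_right _ _ hc'.ne', div_le_iff₀ hrr]
      have : 32 / ε ≤ R0 := by linarith
      rw [div_le_iff₀ hε] at this
      linarith
    have c3 : err3 m (v + 1) ≤ ε / 4 := by
      unfold err3
      rw [div_le_iff₀ hmr]
      apply Real.sqrt_le_iff.mpr
      refine ⟨by positivity, ?_⟩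
      have h5 : 16 * (2 : ℝ) ^ (v + 1) / ε ^ 2 ≤ m := by linarith
      rw [div_le_iff₀ (by positivity)] at h5
      nlinarith
    unfold er1 er2
    linarith

end Pool.Agent.H596R2.D3R
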