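import Pool.Agent.H596R2.D3.Defs
import Pool.Agent.H596R2.D3R.OVDefs

/-!
Set Cover.
-/

namespace Pool.Agent.H596R2.D3R

open Pool.Agent.H596R2.D3

/-- The input bits of Set Cover with `M` sets over a universe with `n` elements: the bit
`(i, u)` says whether the element `u` belongs to the set with index `i`. -/
abbrev SCBit (n M : ℕ) : Type := Fin M × Fin n

/-- The `M` sets are pairwise distinct. -/
def ValidSC {n M : ℕ} (z : SCBit n M → Bool) : Prop :=
  Function.Injective (fun (i : Fin M) (u : Fin n) => z (i, u))

/-- At most `k` of the sets cover the universe. -/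
def HasCover {n M : ℕ} (k : ℕ) (z : SCBit n M → Bool) : Prop :=
  ∃ T : Finset (Fin M), T.card ≤ k ∧ ∀ u : Fin n, ∃ i ∈ T, z (i, u) = true

end Pool.Agent.H596R2.D3R
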