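import Pool.Agent.H596R2.D3R.SCInst
import Pool.Agent.H596R2.D3R.SCAsym
import Pool.Agent.H596R2.D3R.Expect

/-!
The lower bound for Set Cover.
-/

namespace Pool.Agent.H596R2.D3R

open Finset Classical Pool.Agent.H596R2.D3

set_option linter.unusedSectionVars false

theorem sc_core (ε : ℝ) (hε : 0 < ε) (g : ℕ) :
    ∃ T : ℕ, ∀ t ≥ T, ∀ n : ℕ, (g + 5) * t ≤ n →
      ∀ (L : Type) [Fintype L] (w : L → ℝ) (C : L → Circuit (SCBit n (2 ^ t)) 3),
        (∀ l, 0 ≤ w l) → ∑ l, w l = 1 →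
        (∀ z, ValidSC z → 1 / 2 + ε ≤ success w C z (HasCover (g + 2) z)) →
        ∃ l, 0 < w l ∧ (2 : ℝ) ^ ((t + 1) * g) ≤ (C l).size := by
  obtain ⟨m, R0, T, hm, hR, hT⟩ := sc_params ε hε (g + 5) (g + 1) (by ring) (by omega)
  refine ⟨T, ?_⟩
  intro t ht n hn L _ w C hw hw1 hsucc
  by_contra hcon
  push Not at hcon
  obtain ⟨a1, a2, a3, a4, a5, a6⟩ := hT t ht
  set r := rr R0 (g + 5) (g + 1) 0 t with hr
  set b := sb m (g + 1) r t with hb
  set κ := (g + 1 + 1) * t with hκ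
  set τ := Nat.clog 2 (m * r) with hτ
  have ht0 : 0 < t := by
    by_contra h0
    have : t = 0 := by omega
    rw [this, mul_zero] at a1
    omega
  have hκpos : 0 < κ := by rw [hκ]; positivity
  have hdiv : m * ((g + 2) * (b * r)) ≤ 2 ^ t := by
    have h1 : m * ((g + 1 + 1) * r) * b ≤ 2 ^ t := by
      rw [hb]
      unfold sb
      exact Nat.mul_div_le _ _
    calc m * ((g + 2) * (b * r)) = m * ((g + 1 + 1) * r) * b := by ring
      _ ≤ 2 ^ t := h1
  have hbM : b ≤ 2 ^ t := by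
    rw [hb]; unfold sb; exact Nat.div_le_self _ _
  obtain ⟨fv⟩ : Nonempty (SE m r b g ↪ Fin (2 ^ t)) := by
    apply Function.Embedding.nonempty_of_card_le
    simp only [Fintype.card_prod, Fintype.card_fin]
    exact hdiv
  obtain ⟨fc⟩ : Nonempty (El κ g τ t ↪ Fin n) := by
    apply Function.Embedding.nonempty_of_card_le
    simp only [Fintype.card_sum, Fintype.card_prod, Fintype.card_fin, Fintype.card_bool]
    refine le_trans ?_ hn
    have e1 : 2 * (g + 1 + 1) * (1 + τ) = 2 * (g + 2) + 2 * ((g + 2) * τ) := by ring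
    have e2 : (g + 5) * t = (g + 1 + 1) * t + 3 * t := by ring
    have e3 : (g + 2) * (τ * 2) = 2 * ((g + 2) * τ) := by ring
    rw [e1] at a5
    rw [e2, e3, hκ]
    omega
  have hτ2 : m * r ≤ 2 ^ τ := Nat.le_pow_clog (by norm_num) _
  apply scheme' (E := Fin m) (A := Fin (g + 2)) (Rr := Fin r) (K1 := Fin b) (K2 := Fin κ) w C hw
    hw1 ValidSC (HasCover (g + 2)) (XSC (Function.partialInv fv) (Function.partialInv fc))
    (fun w2 => sy_proj_one _ w2) (fun w1 => sy_proj_two _ w1)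
    ((g + 1) * t) (g + 1) (kk (g + 5) (g + 1) 0 t) a1 (by omega) a2 (by simp) (by simpa using a4)
    (by simpa using hm) (by simpa using a3) (by simpa using hκpos) ε (5 * ε / 4) (by linarith)
  · intro w1 w2 o1 _ _
    exact sc_valid fv fv.injective fc fc.injective hτ2 le_rfl w1 w2 hbM o1
  · rintro w1 w2 _ _ ⟨e, ρ, f, h⟩
    exact sc_yes fv fv.injective fc fc.injective w1 w2 e ρ f h
  · intro w1 w2 _ _ h
    exact sc_no fv fv.injective fc fc.injective hτ2 w1 w2 h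
  · intro z hz
    exact hsucc z hz
  · intro l hl
    simp only [Fintype.card_fin]
    apply a6
    have h3 := (hcon l hl).le
    rw [Nat.add_sub_cancel]
    exact_mod_cast h3

theorem sc_main (ε η : ℝ) (hε : 0 < ε) (hη : 0 < η) (c : ℕ) :
    ∃ k N : ℕ, ∀ n ≥ N, ∃ M : ℕ, 1 ≤ M ∧ (M : ℝ) ≤ (2 : ℝ) ^ (ε * n) ∧
      ∀ (L : Type) [Fintype L] (w : L → ℝ) (C : L → Circuit (SCBit n M) 3),
        (∀ l, 0 ≤ w l) → ∑ l, w l = 1 →
        (∀ z, ValidSC z → 1 / 2 + η ≤ success w C z (HasCover k z)) →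
        (2 : ℝ) ^ ((1 - ε) * n) * ((n : ℝ) * M) ^ c < expSize w C := by
  set ε' := min ε 1 with hε'
  have hε'pos : 0 < ε' := lt_min hε one_pos
  have hε'1 : ε' ≤ 1 := min_le_right _ _
  set η' := min η (1 / 2) with hη'
  have hη'pos : 0 < η' := lt_min hη (by norm_num)
  obtain ⟨u0, hu0⟩ := exists_nat_ge (((c : ℝ) + 6) / ε')
  set g := u0 with hg
  obtain ⟨T, hT⟩ := sc_core (η' / 2) (by positivity) g
  set u := g + 5 with hu
  have hev := ev_poly_two (2 / η' * (u : ℝ) ^ c) 1 c one_pos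
  obtain ⟨T2, hT2⟩ := Filter.eventually_atTop.mp hev
  refine ⟨g + 2, u * (max T T2 + 1), ?_⟩
  intro n hn
  set t := n / u with ht
  have hupos : 0 < u := by omega
  have htn : u * t ≤ n := Nat.mul_div_le _ _
  have hnt : n < u * (t + 1) := Nat.lt_mul_div_succ n hupos
  have htT : max T T2 ≤ t := by
    rw [ht]
    rw [Nat.le_div_iff_mul_le hupos]
    calc max T T2 * u ≤ (max T T2 + 1) * u := Nat.mul_le_mul_right _ (by omega)
      _ = u * (max T T2 + 1) := mul_comm _ _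
      _ ≤ n := hn
  refine ⟨2 ^ t, Nat.one_le_two_pow, ?_, ?_⟩
  · have h1 : (u : ℝ) * t ≤ n := by exact_mod_cast htn
    have h2 : (c : ℝ) + 6 ≤ ε' * u := by
      rw [div_le_iff₀ hε'pos] at hu0
      have : (u : ℝ) = g + 5 := by rw [hu]; push_cast; ring
      rw [this]
      nlinarith
    have h3 : (t : ℝ) ≤ ε * n := by
      have hc0 : (0 : ℝ) ≤ c := by positivity
      have ht0 : (0 : ℝ) ≤ t := by positivity
      calc (t : ℝ) = 1 * t := (one_mul _).symm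
        _ ≤ (ε' * u) * t := by
            apply mul_le_mul_of_nonneg_right _ ht0
            linarith
        _ = ε' * (u * t) := by ring
        _ ≤ ε' * n := mul_le_mul_of_nonneg_left h1 hε'pos.le
        _ ≤ ε * n := by
            apply mul_le_mul_of_nonneg_right (min_le_left _ _)
            positivity
    push_cast
    rw [← Real.rpow_natCast]
    exact Real.rpow_le_rpow_of_exponent_le (by norm_num) h3
  intro L _ w C hw hw1 hsucc
  have hB : (0 : ℝ) < (2 : ℝ) ^ ((t + 1) * g) := by positivity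
  have h1 := expected ValidSC (HasCover (g + 2)) η' ((2 : ℝ) ^ ((t + 1) * g)) hη'pos
    (min_le_right _ _) hB
    (fun L _ w C hw hw1 hs => hT t ((le_max_left _ _).trans htT) n htn L w C hw hw1 hs)
    L w C hw hw1 (fun z hz => success_mono_eps _ (hsucc z hz))
  refine lt_of_lt_of_le ?_ h1
  have h2 := hT2 t ((le_max_right _ _).trans htT)
  rw [div_le_one (by positivity)] at h2
  have hn' : (n : ℝ) ≤ u * ((t : ℝ) + 1) := by exact_mod_cast hnt.le
  have hu' : (0 : ℝ) < u := by exact_mod_cast hupos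
  have hn0 : (0 : ℝ) ≤ n := by positivity
  have ht1 : (0 : ℝ) < (t : ℝ) + 1 := by positivity
  have hεu : (c : ℝ) + 6 ≤ ε' * u := by
    rw [div_le_iff₀ hε'pos] at hu0
    have : (u : ℝ) = g + 5 := by rw [hu]; push_cast; ring
    rw [this]
    nlinarith
  have h3 : (2 : ℝ) ^ ((1 - ε) * n) ≤ 2 ^ (((g : ℝ) - c - 1) * ((t : ℝ) + 1)) := by
    apply Real.rpow_le_rpow_of_exponent_le (by norm_num)
    have e1 : (1 - ε) * n ≤ (1 - ε') * n := by
      apply mul_le_mul_of_nonneg_right _ hn0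
      linarith [min_le_left ε 1]
    have e2 : (1 - ε') * n ≤ (1 - ε') * (u * ((t : ℝ) + 1)) :=
      mul_le_mul_of_nonneg_left hn' (by linarith)
    have e3 : (1 - ε') * u ≤ (g : ℝ) - c - 1 := by
      have : (u : ℝ) = g + 5 := by rw [hu]; push_cast; ring
      nlinarith
    calc (1 - ε) * n ≤ (1 - ε') * (u * ((t : ℝ) + 1)) := e1.trans e2
      _ = (1 - ε') * u * ((t : ℝ) + 1) := by ring
      _ ≤ ((g : ℝ) - c - 1) * ((t : ℝ) + 1) := mul_le_mul_of_nonneg_right e3 ht1.le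
  have h4 : ((n : ℝ) * ((2 ^ t : ℕ) : ℝ)) ^ c ≤ (u : ℝ) ^ c * ((t : ℝ) + 1) ^ c *
      (2 : ℝ) ^ ((c : ℝ) * ((t : ℝ) + 1)) := by
    have e1 : ((2 ^ t : ℕ) : ℝ) ≤ 2 ^ (t + 1) := by
      push_cast
      exact pow_le_pow_right₀ (by norm_num) (by omega)
    have e2 : ((2 : ℝ) ^ (t + 1)) ^ c = (2 : ℝ) ^ ((c : ℝ) * ((t : ℝ) + 1)) := by
      rw [← pow_mul, ← Real.rpow_natCast]
      congr 1
      push_cast
      ring
    calc ((n : ℝ) * ((2 ^ t : ℕ) : ℝ)) ^ c ≤ ((u * ((t : ℝ) + 1)) * 2 ^ (t + 1)) ^ c := by gcongr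
      _ = (u : ℝ) ^ c * ((t : ℝ) + 1) ^ c * ((2 : ℝ) ^ (t + 1)) ^ c := by
          rw [mul_pow, mul_pow]
      _ = _ := by rw [e2]
  have h5 : (2 : ℝ) ^ ((t + 1) * g) = 2 ^ (((g : ℝ) - c - 1) * ((t : ℝ) + 1)) *
      (2 : ℝ) ^ ((c : ℝ) * ((t : ℝ) + 1)) * 2 ^ (t + 1) := by
    rw [← Real.rpow_natCast 2 ((t + 1) * g), ← Real.rpow_natCast 2 (t + 1),
      ← Real.rpow_add (by norm_num), ← Real.rpow_add (by norm_num)]
    congr 1
    push_cast
    ring
  have h6 : (u : ℝ) ^ c * ((t : ℝ) + 1) ^ c < η' / 2 * 2 ^ (t + 1) := by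
    have e1 : (u : ℝ) ^ c * ((t : ℝ) + 1) ^ c = η' / 2 * (2 / η' * (u : ℝ) ^ c *
        ((t : ℝ) + 1) ^ c) := by
      field_simp
    rw [e1]
    have e2 : (2 : ℝ) ^ t < 2 ^ (t + 1) := pow_lt_pow_right₀ (by norm_num) (by omega)
    have e3 : 2 / η' * (u : ℝ) ^ c * ((t : ℝ) + 1) ^ c < 2 ^ (t + 1) := lt_of_le_of_lt h2 e2
    exact mul_lt_mul_of_pos_left e3 (by positivity)
  set X := (2 : ℝ) ^ (((g : ℝ) - c - 1) * ((t : ℝ) + 1)) with hX
  set Y := (2 : ℝ) ^ ((c : ℝ) * ((t : ℝ) + 1)) with hY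
  have hXpos : 0 < X := Real.rpow_pos_of_pos (by norm_num) _
  have hYpos : 0 < Y := Real.rpow_pos_of_pos (by norm_num) _
  calc (2 : ℝ) ^ ((1 - ε) * n) * ((n : ℝ) * ((2 ^ t : ℕ) : ℝ)) ^ c
      ≤ X * ((u : ℝ) ^ c * ((t : ℝ) + 1) ^ c * Y) := by
        apply mul_le_mul h3 h4 (by positivity) hXpos.le
    _ = (X * Y) * ((u : ℝ) ^ c * ((t : ℝ) + 1) ^ c) := by ring
    _ < (X * Y) * (η' / 2 * 2 ^ (t + 1)) := mul_lt_mul_of_pos_left h6 (by positivity)
    _ = η' / 2 * 2 ^ ((t + 1) * g) := by rw [h5]; ring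

end Pool.Agent.H596R2.D3R
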