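import Pool.Agent.H596R2.D3R.Gen2
import Pool.Agent.H596R2.D3R.SCDefs

/-!
Hard instances of Set Cover.
-/

namespace Pool.Agent.H596R2.D3R

open Finset Classical Pool.Agent.H596R2.D3

set_option linter.unusedSectionVars false

/-- Names of the sets: mode, class, column, AND-row. -/
abbrev SE (m r b g : ℕ) : Type := Fin m × Fin (g + 2) × Fin b × Fin r

/-- Names of the elements. -/
abbrev El (κ g τ D : ℕ) : Type :=
  Fin κ ⊕ ((Fin (g + 2) × Bool) ⊕ ((Fin (g + 2) × Fin τ × Bool) ⊕ (Bool × Fin D)))

variable {m r b g κ τ D : ℕ}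

/-- The tag of a set. -/
def th (x : SE m r b g) : ℕ := x.1 + m * x.2.2.2

/-- Symbolic bits. -/
abbrev Sc (m r b g κ : ℕ) : Type :=
  Sy (((Fin m × Fin (g + 2)) × Fin b) × Bool) (((Fin m × Fin r) × Fin κ) × Bool)

/-- Membership of an element in a set that is not padding. -/
def enS (x : SE m r b g) : El κ g τ D → Sc m r b g κ
  | Sum.inl l => if x.2.1 = 0 then Sy.snd (((x.1, x.2.2.2), l), false) true
      else if x.2.1 = 1 then Sy.snd (((x.1, x.2.2.2), l), true) true else Sy.cst false
  | Sum.inr (Sum.inl (a, s)) => if x.2.1 = a then Sy.fst (((x.1, x.2.1), x.2.2.1), s) false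
      else Sy.cst false
  | Sum.inr (Sum.inr (Sum.inl (a, t, β))) =>
      if a = 0 then Sy.cst true
      else if x.2.1 = 0 then Sy.cst ((th x).testBit t == β)
      else if x.2.1 = a then Sy.cst (!((th x).testBit t == β)) else Sy.cst false
  | Sum.inr (Sum.inr (Sum.inr (s, t))) =>
      if s = false then (if x.2.1 = 0 then Sy.cst ((x.2.2.1 : ℕ).testBit t)
        else if x.2.1 = 1 then Sy.cst true else Sy.cst false)
      else (if x.2.1 = 0 then Sy.cst true else Sy.cst ((x.2.2.1 : ℕ).testBit t))

/-- Membership of an element in a padding set. -/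
def enP (j : ℕ) : El κ g τ D → Sc m r b g κ
  | Sum.inl _ => Sy.cst false
  | Sum.inr (Sum.inl _) => Sy.cst false
  | Sum.inr (Sum.inr (Sum.inl (a, _, _))) => if a = 0 then Sy.cst true else Sy.cst false
  | Sum.inr (Sum.inr (Sum.inr (s, t))) => if s = false then Sy.cst (j.testBit t) else Sy.cst false

/-- The symbolic instance. -/
noncomputable def symSC {n M : ℕ} (dv : Fin M → Option (SE m r b g))
    (dc : Fin n → Option (El κ g τ D)) : SCBit n M → Sc m r b g κ := fun q =>
  match dc q.2, dv q.1 with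
  | some x, some y => enS y x
  | some x, none => enP q.1 x
  | none, _ => Sy.cst true

/-- The instance. -/
noncomputable def XSC {n M : ℕ} (dv : Fin M → Option (SE m r b g))
    (dc : Fin n → Option (El κ g τ D))
    (w1 : ((Fin m × Fin (g + 2)) × Fin b) × Bool → Bool)
    (w2 : ((Fin m × Fin r) × Fin κ) × Bool → Bool) : SCBit n M → Bool :=
  fun q => (symSC dv dc q).ev w1 w2

section
variable {n M : ℕ} (dv : Fin M → Option (SE m r b g)) (dc : Fin n → Option (El κ g τ D))
    (w1 : ((Fin m × Fin (g + 2)) × Fin b) × Bool → Bool)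
    (w2 : ((Fin m × Fin r) × Fin κ) × Bool → Bool)

theorem xsc_ss (i : Fin M) (u : Fin n) (x : El κ g τ D) (y : SE m r b g) (hu : dc u = some x)
    (hi : dv i = some y) : XSC dv dc w1 w2 (i, u) = (enS y x).ev w1 w2 := by
  unfold XSC symSC
  simp only [hu, hi]

theorem xsc_sn (i : Fin M) (u : Fin n) (x : El κ g τ D) (hu : dc u = some x)
    (hi : dv i = none) : XSC dv dc w1 w2 (i, u) = (enP (i : ℕ) x : Sc m r b g κ).ev w1 w2 := by
  unfold XSC symSC
  simp only [hu, hi]

theorem xsc_n (i : Fin M) (u : Fin n) (hu : dc u = none) : XSC dv dc w1 w2 (i, u) = true := by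
  unfold XSC symSC
  simp only [hu]
  rfl

end

theorem one_ne : (1 : Fin (g + 2)) ≠ 0 := by
  intro h
  have := congrArg Fin.val h
  simp at this

theorem th_inj (x y : SE m r b g) (h : th x = th y) : x.1 = y.1 ∧ x.2.2.2 = y.2.2.2 := by
  unfold th at h
  have hm := x.1.isLt
  have hx := x.1.isLt
  have hy := y.1.isLt
  have h1 : (x.1 : ℕ) = y.1 := by
    have a1 : ((x.1 : ℕ) + m * x.2.2.2) % m = x.1 := by
      rw [Nat.add_mul_mod_self_left, Nat.mod_eq_of_lt hx]
    have a2 : ((y.1 : ℕ) + m * y.2.2.2) % m = y.1 := by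
      rw [Nat.add_mul_mod_self_left, Nat.mod_eq_of_lt hy]
    rw [← a1, ← a2, h]
  have h2 : (x.2.2.2 : ℕ) = y.2.2.2 := by
    rw [h1] at h
    have h3 := Nat.add_left_cancel h
    exact Nat.eq_of_mul_eq_mul_left (by omega) h3
  exact ⟨Fin.ext h1, Fin.ext h2⟩

theorem th_lt (x : SE m r b g) (h : m * r ≤ 2 ^ τ) : th x < 2 ^ τ := by
  unfold th
  have hx := x.1.isLt
  have hr : (x.2.2.2 : ℕ) + 1 ≤ r := x.2.2.2.isLt
  have h1 : m * ((x.2.2.2 : ℕ) + 1) ≤ m * r := Nat.mul_le_mul_left _ hr
  have h2 : m * ((x.2.2.2 : ℕ) + 1) = m * x.2.2.2 + m := by ring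
  omega

theorem bits_eq (x y t : ℕ) (hx : x < 2 ^ t) (hy : y < 2 ^ t)
    (h : ∀ i : Fin t, x.testBit i = y.testBit i) : x = y := by
  apply Nat.eq_of_testBit_eq
  intro i
  by_cases hi : i < t
  · exact h ⟨i, hi⟩
  · rw [Nat.testBit_lt_two_pow (lt_of_lt_of_le hx (Nat.pow_le_pow_right (by norm_num) (by omega))),
      Nat.testBit_lt_two_pow (lt_of_lt_of_le hy (Nat.pow_le_pow_right (by norm_num) (by omega)))]

section
variable {n M : ℕ} (fv : SE m r b g → Fin M) (hfv : Function.Injective fv)
  (fc : El κ g τ D → Fin n) (hfc : Function.Injective fc) (hτ : m * r ≤ 2 ^ τ) (hD : M ≤ 2 ^ D)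
  (w1 : ((Fin m × Fin (g + 2)) × Fin b) × Bool → Bool)
  (w2 : ((Fin m × Fin r) × Fin κ) × Bool → Bool)

include hfv hfc hτ in
theorem sc_no (h : HasCover (g + 2) (XSC (Function.partialInv fv) (Function.partialInv fc) w1 w2)) :
    ∃ e ρ f, Good w1 w2 e ρ f := by
  have hc : ∀ x, Function.partialInv fc (fc x) = some x := fun x =>
    Function.partialInv_left hfc x
  obtain ⟨T, hT, hcov⟩ := h
  have hmem : ∀ a : Fin (g + 2), ∃ i ∈ T, ∃ x : SE m r b g, Function.partialInv fv i = some x ∧
      x.2.1 = a ∧ w1 (((x.1, a), x.2.2.1), false) = true := by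
    intro a
    obtain ⟨i, hi, h1⟩ := hcov (fc (Sum.inr (Sum.inl (a, false))))
    refine ⟨i, hi, ?_⟩
    rcases hv : Function.partialInv fv i with _ | x
    · rw [xsc_sn _ _ w1 w2 i _ _ (hc _) hv] at h1
      simp [enP, Sy.ev] at h1
    · refine ⟨x, rfl, ?_⟩
      rw [xsc_ss _ _ w1 w2 i _ _ x (hc _) hv] at h1
      by_cases hxa : x.2.1 = a
      · refine ⟨hxa, ?_⟩
        simp only [enS, hxa, if_true, Sy.ev, Bool.xor_false] at h1
        exact h1
      · simp only [enS, if_neg hxa, Sy.ev] at h1
        exact absurd h1 (by simp)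
  choose h hhT x hx hxa hxw using hmem
  have hinj : Function.Injective h := by
    intro a a' haa
    have h1 := hx a
    rw [haa, hx a'] at h1
    simp only [Option.some.injEq] at h1
    rw [← hxa a, ← hxa a', h1]
  have hTeq : ∀ i ∈ T, ∃ a, i = h a := by
    have h1 : (univ.image h) = T := by
      apply eq_of_subset_of_card_le
      · intro i hi
        obtain ⟨a, _, rfl⟩ := mem_image.mp hi
        exact hhT a
      · rw [card_image_of_injective _ hinj, card_univ, Fintype.card_fin]
        exact hT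
    intro i hi
    rw [← h1] at hi
    obtain ⟨a, _, rfl⟩ := mem_image.mp hi
    exact ⟨a, rfl⟩
  have hcov' : ∀ y : El κ g τ D, ∃ a, (enS (x a) y : Sc m r b g κ).ev w1 w2 = true := by
    intro y
    obtain ⟨i, hi, h1⟩ := hcov (fc y)
    obtain ⟨a, rfl⟩ := hTeq i hi
    refine ⟨a, ?_⟩
    rw [xsc_ss _ _ w1 w2 _ _ _ (x a) (hc _) (hx a)] at h1
    exact h1
  have hwt : ∀ a, w1 ((((x a).1, a), (x a).2.2.1), true) = true := by
    intro a
    obtain ⟨a', h1⟩ := hcov' (Sum.inr (Sum.inl (a, true)))
    by_cases haa : a' = a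
    · subst haa
      simp only [enS, hxa, if_true, Sy.ev, Bool.xor_false] at h1
      exact h1
    · simp only [enS, hxa, if_neg haa, Sy.ev] at h1
      exact absurd h1 (by simp)
  have hth : ∀ a, th (x a) = th (x 0) := by
    intro a
    by_cases ha : a = 0
    · rw [ha]
    · apply bits_eq _ _ τ (th_lt _ hτ) (th_lt _ hτ)
      intro t
      obtain ⟨a', h1⟩ := hcov' (Sum.inr (Sum.inr (Sum.inl (a, t, !((th (x 0)).testBit t)))))
      simp only [enS, if_neg ha, hxa] at h1
      by_cases h0 : a' = 0
      · subst h0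
        simp only [if_true, Sy.ev] at h1
        simp at h1
      · rw [if_neg h0] at h1
        by_cases haa : a' = a
        · subst haa
          rw [if_pos rfl] at h1
          simp only [Sy.ev] at h1
          revert h1
          cases (th (x a')).testBit t <;> cases (th (x 0)).testBit t <;> simp
        · rw [if_neg haa] at h1
          simp [Sy.ev] at h1
  have hee : ∀ a, (x a).1 = (x 0).1 ∧ (x a).2.2.2 = (x 0).2.2.2 := fun a => th_inj _ _ (hth a)
  refine ⟨(x 0).1, (x 0).2.2.2, fun a => (x a).2.2.1, ?_, ?_⟩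
  · intro a
    have h1 := hxw a
    have h2 := hwt a
    rw [(hee a).1] at h1 h2
    exact ⟨h1, h2⟩
  · intro l
    obtain ⟨a', h1⟩ := hcov' (Sum.inl l)
    simp only [enS, hxa] at h1
    by_cases h0 : a' = 0
    · subst h0
      rw [if_pos rfl] at h1
      simp only [Sy.ev, Bool.xor_true] at h1
      rintro ⟨h2, _⟩
      rw [h2] at h1
      simp at h1
    · rw [if_neg h0] at h1
      by_cases h1' : a' = 1
      · subst h1'
        rw [if_pos rfl] at h1
        simp only [Sy.ev, Bool.xor_true] at h1
        rw [(hee 1).1, (hee 1).2] at h1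
        rintro ⟨_, h2⟩
        rw [h2] at h1
        simp at h1
      · rw [if_neg h1'] at h1
        simp [Sy.ev] at h1

include hfv hfc in
theorem sc_yes (e : Fin m) (ρ : Fin r) (f : Fin (g + 2) → Fin b) (h : Good w1 w2 e ρ f) :
    HasCover (g + 2) (XSC (Function.partialInv fv) (Function.partialInv fc) w1 w2) := by
  have hv : ∀ x, Function.partialInv fv (fv x) = some x := fun x =>
    Function.partialInv_left hfv x
  have h10 : (1 : Fin (g + 2)) ≠ 0 := one_ne
  refine ⟨univ.image (fun a => fv (e, a, f a, ρ)), ?_, ?_⟩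
  · refine card_image_le.trans ?_
    rw [card_univ, Fintype.card_fin]
  · intro u
    rcases hu : Function.partialInv fc u with _ | y
    · exact ⟨fv (e, 0, f 0, ρ), mem_image.mpr ⟨0, mem_univ _, rfl⟩, xsc_n _ _ w1 w2 _ _ hu⟩
    · have hval : ∀ a, (enS (e, a, f a, ρ) y : Sc m r b g κ).ev w1 w2 = true →
          ∃ i ∈ univ.image (fun a => fv (e, a, f a, ρ)),
            XSC (Function.partialInv fv) (Function.partialInv fc) w1 w2 (i, u) = true := by
        intro a ha
        refine ⟨fv (e, a, f a, ρ), mem_image.mpr ⟨a, mem_univ _, rfl⟩, ?_⟩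
        rw [xsc_ss _ _ w1 w2 _ _ _ _ hu (hv _)]
        exact ha
      rcases y with l | ⟨a, s⟩ | ⟨a, t, β⟩ | ⟨s, t⟩
      · by_cases h1 : w2 (((e, ρ), l), false) = true
        · have h2 : w2 (((e, ρ), l), true) = false := by
            rw [← Bool.not_eq_true]
            exact fun h3 => h.2 l ⟨h1, h3⟩
          apply hval 1
          simp [enS, Sy.ev, h10, h2]
        · apply hval 0
          rw [Bool.not_eq_true] at h1
          simp [enS, Sy.ev, h1]
      · apply hval a
        simp only [enS, if_true, Sy.ev, Bool.xor_false]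
        cases s
        · exact (h.1 a).1
        · exact (h.1 a).2
      · by_cases ha : a = 0
        · apply hval 0
          simp [enS, Sy.ev, ha]
        · by_cases hb : ((th ((e, 0, f 0, ρ) : SE m r b g)).testBit t == β) = true
          · apply hval 0
            simp only [enS, if_neg ha, if_true, Sy.ev]
            exact hb
          · apply hval a
            have e1 : th ((e, a, f a, ρ) : SE m r b g) = th ((e, 0, f 0, ρ) : SE m r b g) := rfl
            simp only [enS, if_neg ha, if_true, Sy.ev, e1]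
            rw [Bool.not_eq_true] at hb
            rw [hb]; rfl
      · cases s
        · apply hval 1
          simp [enS, Sy.ev, h10]
        · apply hval 0
          simp [enS, Sy.ev]

include hfv hfc hτ hD in
theorem sc_valid (hbM : b ≤ M) (hw1 : Opened w1) :
    ValidSC (XSC (Function.partialInv fv) (Function.partialInv fc) w1 w2) := by
  have hc : ∀ x, Function.partialInv fc (fc x) = some x := fun x =>
    Function.partialInv_left hfc x
  have h10 : (1 : Fin (g + 2)) ≠ 0 := one_ne
  have husable : ∀ (i j : Fin M) (x : SE m r b g), Function.partialInv fv i = some x →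
      (∀ u, XSC (Function.partialInv fv) (Function.partialInv fc) w1 w2 (i, u) =
        XSC (Function.partialInv fv) (Function.partialInv fc) w1 w2 (j, u)) →
      ∃ y : SE m r b g, Function.partialInv fv j = some y ∧ y.2.1 = x.2.1 := by
    intro i j x hx h
    obtain ⟨s, hs⟩ : ∃ s, w1 (((x.1, x.2.1), x.2.2.1), s) = true := by
      rcases hw1 ((x.1, x.2.1), x.2.2.1) with h | h
      · exact ⟨_, h⟩
      · exact ⟨_, h⟩
    have h1 := h (fc (Sum.inr (Sum.inl (x.2.1, s))))
    rw [xsc_ss _ _ w1 w2 _ _ _ _ (hc _) hx] at h1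
    simp only [enS, if_true, Sy.ev, Bool.xor_false, hs] at h1
    rcases hy : Function.partialInv fv j with _ | y
    · rw [xsc_sn _ _ w1 w2 _ _ _ (hc _) hy] at h1
      simp [enP, Sy.ev] at h1
    · refine ⟨y, rfl, ?_⟩
      rw [xsc_ss _ _ w1 w2 _ _ _ _ (hc _) hy] at h1
      by_contra hne
      simp only [enS, if_neg hne, Sy.ev] at h1
      simp at h1
  intro i j h
  have h : ∀ u, XSC (Function.partialInv fv) (Function.partialInv fc) w1 w2 (i, u) =
      XSC (Function.partialInv fv) (Function.partialInv fc) w1 w2 (j, u) := fun u => congrFun h u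
  rcases hx : Function.partialInv fv i with _ | x
  · rcases hy : Function.partialInv fv j with _ | y
    · apply Fin.ext
      apply bits_eq _ _ D (lt_of_lt_of_le i.isLt hD) (lt_of_lt_of_le j.isLt hD)
      intro t
      have h1 := h (fc (Sum.inr (Sum.inr (Sum.inr (false, t)))))
      rw [xsc_sn _ _ w1 w2 _ _ _ (hc _) hx, xsc_sn _ _ w1 w2 _ _ _ (hc _) hy] at h1
      simpa [enP, Sy.ev] using h1
    · obtain ⟨x, hx', _⟩ := husable j i y hy (fun u => (h u).symm)
      rw [hx] at hx'
      exact absurd hx' (by simp)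
  · obtain ⟨y, hy, hcl⟩ := husable i j x hx h
    have hbits : ∀ z : El κ g τ D, (enS x z : Sc m r b g κ).ev w1 w2 = (enS y z).ev w1 w2 := by
      intro z
      have h1 := h (fc z)
      rw [xsc_ss _ _ w1 w2 _ _ _ _ (hc _) hx, xsc_ss _ _ w1 w2 _ _ _ _ (hc _) hy] at h1
      exact h1
    have hth : th x = th y := by
      apply bits_eq _ _ τ (th_lt _ hτ) (th_lt _ hτ)
      intro t
      by_cases h0 : x.2.1 = 0
      · have h1 := hbits (Sum.inr (Sum.inr (Sum.inl (1, t, (th x).testBit t))))
        simp only [enS, if_neg h10, hcl, h0, if_true, Sy.ev] at h1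
        revert h1
        cases (th x).testBit t <;> cases (th y).testBit t <;> simp
      · have h1 := hbits (Sum.inr (Sum.inr (Sum.inl (x.2.1, t, (th x).testBit t))))
        simp only [enS, if_neg h0, hcl, if_true, Sy.ev] at h1
        revert h1
        cases (th x).testBit t <;> cases (th y).testBit t <;> simp
    obtain ⟨he, hρ⟩ := th_inj x y hth
    have hcol : x.2.2.1 = y.2.2.1 := by
      apply Fin.ext
      apply bits_eq _ _ D (lt_of_lt_of_le x.2.2.1.isLt (hbM.trans hD))
        (lt_of_lt_of_le y.2.2.1.isLt (hbM.trans hD))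
      intro t
      by_cases h0 : x.2.1 = 0
      · have h1 := hbits (Sum.inr (Sum.inr (Sum.inr (false, t))))
        simpa [enS, hcl, h0, Sy.ev] using h1
      · have h1 := hbits (Sum.inr (Sum.inr (Sum.inr (true, t))))
        simpa [enS, hcl, h0, Sy.ev] using h1
    have hxy : x = y := by
      ext
      · rw [he]
      · rw [hcl]
      · rw [hcol]
      · rw [hρ]
    have e1 : fv x = i := (Function.partialInv_of_injective hfv x i).mp hx
    have e2 : fv y = j := (Function.partialInv_of_injective hfv y j).mp hy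
    rw [← e1, ← e2, hxy]

end

end Pool.Agent.H596R2.D3R
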