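import Pool.Agent.H596R2.D3.Defs
import Pool.Agent.H596R2.D3R.OVDefs

/-!
The 3SUM problem.
-/

namespace Pool.Agent.H596R2.D3R

open Pool.Agent.H596R2.D3

/-- The number of binary digits of `n ^ q`. -/
def sdigs (q n : ℕ) : ℕ := Nat.size (n ^ q)

/-- The input bits of 3SUM with `n` numbers between `-n ^ q` and `n ^ q`: number `i` has a sign
(`none`) and the binary digits of its absolute value (`some l`). -/
abbrev SumBit (q n : ℕ) : Type := Fin n × Option (Fin (sdigs q n))

/-- The number with index `i`. -/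
def sval {q n : ℕ} (z : SumBit q n → Bool) (i : Fin n) : ℤ :=
  (if z (i, none) = true then -1 else 1) *
    ∑ l : Fin (sdigs q n), if z (i, some l) = true then 2 ^ (l : ℕ) else 0

/-- The instance is valid: pairwise distinct numbers between `-n ^ q` and `n ^ q`. -/
def ValidSum {q n : ℕ} (z : SumBit q n → Bool) : Prop :=
  Function.Injective (sval z) ∧ ∀ i, |sval z i| ≤ (n : ℤ) ^ q

/-- Three numbers with distinct indices have the sum zero. -/
def ZeroSum {q n : ℕ} (z : SumBit q n → Bool) : Prop :=
  ∃ i j k : Fin n, i ≠ j ∧ j ≠ k ∧ i ≠ k ∧ sval z i + sval z j + sval z k = 0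

/-- One number is the sum of two others. -/
def SumIn {q n : ℕ} (z : SumBit q n → Bool) : Prop :=
  ∃ i j k : Fin n, i ≠ j ∧ j ≠ k ∧ i ≠ k ∧ sval z i + sval z j = sval z k

end Pool.Agent.H596R2.D3R
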