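import Pool.Agent.H596R2.D3R.SumInst3
import Pool.Agent.H596R2.D3R.Asym3
import Pool.Agent.H596R2.D3R.ETFinal

/-!
The lower bound for 3SUM.
-/

namespace Pool.Agent.H596R2.D3R

open Finset Classical Pool.Agent.H596R2.D3

set_option linter.unusedSectionVars false

/-- The numbers that are not padding. -/
abbrev Bs (m r b : ℕ) : Type :=
  (Fin m × Fin b × Fin r) ⊕ ((Fin m × Fin b × Fin r) ⊕ (Fin m × Fin b))

def toSV {m r b : ℕ} : Bs m r b → SV m r b
  | Sum.inl x => SV.X x.1 x.2.1 x.2.2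
  | Sum.inr (Sum.inl x) => SV.Y x.1 x.2.1 x.2.2
  | Sum.inr (Sum.inr x) => SV.Z x.1 x.2

theorem toSV_inj {m r b : ℕ} : Function.Injective (toSV : Bs m r b → SV m r b) := by
  intro x y h
  rcases x with ⟨a1, a2, a3⟩ | ⟨a1, a2, a3⟩ | ⟨a1, a2⟩ <;>
    rcases y with ⟨b1, b2, b3⟩ | ⟨b1, b2, b3⟩ | ⟨b1, b2⟩ <;>
    simp [toSV] at h
  · obtain ⟨rfl, rfl, rfl⟩ := h; rfl
  · obtain ⟨rfl, rfl, rfl⟩ := h; rfl
  · obtain ⟨rfl, rfl⟩ := h; rfl

theorem toSV_ne {m r b : ℕ} (x : Bs m r b) (i : ℕ) : toSV x ≠ SV.P i := by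
  rcases x with x | x | x <;> simp [toSV]

theorem dv_exists (m r b n : ℕ) (h : m * (2 * r + 2) * b ≤ n) :
    ∃ dv : Fin n → SV m r b, Function.Injective dv ∧ (∀ j i, dv j = SV.P i → i < n) ∧
      (∀ e i ρ, ∃ j, dv j = SV.X e i ρ) ∧ (∀ e i ρ, ∃ j, dv j = SV.Y e i ρ) ∧
      (∀ e i, ∃ j, dv j = SV.Z e i) := by
  obtain ⟨fv⟩ : Nonempty (Bs m r b ↪ Fin n) := by
    apply Function.Embedding.nonempty_of_card_le
    simp only [Fintype.card_sum, Fintype.card_prod, Fintype.card_fin]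
    refine le_trans ?_ h
    have : m * (2 * r + 2) * b = m * (b * r) + (m * (b * r) + m * b) + m * b := by ring
    omega
  have hv : ∀ x, Function.partialInv fv (fv x) = some x := fun x =>
    Function.partialInv_left fv.injective x
  let dv : Fin n → SV m r b := fun i => match Function.partialInv fv i with
    | some x => toSV x
    | none => SV.P i
  have hsome : ∀ x, dv (fv x) = toSV x := by
    intro x
    simp only [dv, hv]
  have hcase : ∀ i, (∃ x, i = fv x ∧ dv i = toSV x) ∨ dv i = SV.P i := by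
    intro i
    rcases hi : Function.partialInv fv i with _ | x
    · right
      simp only [dv, hi]
    · left
      refine ⟨x, ?_, by simp only [dv, hi]⟩
      exact ((Function.partialInv_of_injective fv.injective x i).mp hi).symm
  refine ⟨dv, ?_, ?_, ?_, ?_, ?_⟩
  · intro i j hij
    rcases hcase i with ⟨x, hx, hx'⟩ | hi <;> rcases hcase j with ⟨y, hy, hy'⟩ | hj
    · rw [hx', hy'] at hij
      rw [hx, hy, toSV_inj hij]
    · rw [hx', hj] at hij
      exact absurd hij (toSV_ne x _)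
    · rw [hi, hy'] at hij
      exact absurd hij.symm (toSV_ne y _)
    · rw [hi, hj] at hij
      simp only [SV.P.injEq] at hij
      exact Fin.ext hij
  · intro j i h
    rcases hcase j with ⟨x, hx, hx'⟩ | hj
    · rw [hx'] at h
      exact absurd h (toSV_ne x _)
    · rw [hj] at h
      simp only [SV.P.injEq] at h
      rw [← h]
      exact j.isLt
  · intro e i ρ
    exact ⟨fv (Sum.inl (e, i, ρ)), hsome _⟩
  · intro e i ρ
    exact ⟨fv (Sum.inr (Sum.inl (e, i, ρ))), hsome _⟩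
  · intro e i
    exact ⟨fv (Sum.inr (Sum.inr (e, i))), hsome _⟩

/-- Common form of the two problems. -/
theorem sum_main (P : ∀ q n : ℕ, (SumBit q n → Bool) → Prop) (sg : Bool)
    (hP : ∀ (q n m r b κ D τ : ℕ) (dv : Fin n → SV m r b)
      (w1 : ((Fin m × Fin 3) × Fin b) × Bool → Bool)
      (w2 : ((Fin m × Fin r) × Fin κ) × Bool → Bool), (∀ i, tag (dv i) < 2 ^ τ) →
      κ + (D + 1 + (3 + τ)) ≤ sdigs q n → b < 2 ^ D → (∀ e i ρ, ∃ j, dv j = SV.X e i ρ) →
      (∀ e i ρ, ∃ j, dv j = SV.Y e i ρ) → (∀ e i, ∃ j, dv j = SV.Z e i) → Opened w1 →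
      Opened w2 → (P q n (XSum D sg dv w1 w2) ↔ ∃ e ρ f, Good w1 w2 e ρ f))
    (q : ℕ) (hq : 3 ≤ q) (hq4 : q ≤ 4) (ε δ : ℝ) (hε : 0 < ε) (hδ : 0 < δ) :
    ∃ c : ℝ, 0 < c ∧ ∀ n : ℕ, 2 ≤ n →
    ∀ (L : Type) [Fintype L] (w : L → ℝ) (C : L → Circuit (SumBit q n) 3),
      (∀ l, 0 ≤ w l) → ∑ l, w l = 1 →
      (∀ z, ValidSum z → 1 / 2 + ε ≤ success w C z (P q n z)) →
      ∃ l, 0 < w l ∧ c * (n : ℝ) ^ ((q : ℝ) - 1 - δ) ≤ (C l).size := by
  obtain ⟨u0, hu0⟩ := exists_nat_ge (3 / δ)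
  set u := max u0 2 with hu
  have hu2 : 2 ≤ u := le_max_right _ _
  have huδ : 3 / (u : ℝ) ≤ δ := by
    have h1 : 3 / δ ≤ (u : ℝ) := hu0.trans (by exact_mod_cast le_max_left u0 2)
    have hu' : (0 : ℝ) < u := by exact_mod_cast (by omega : 0 < u)
    rw [div_le_iff₀ hδ] at h1
    rw [div_le_iff₀ hu']
    linarith
  have h22 : 2 * 2 ≤ u * (q - 1) := Nat.mul_le_mul hu2 (by omega)
  obtain ⟨v, hv⟩ : ∃ v, v + 2 = u * (q - 1) := ⟨u * (q - 1) - 2, by omega⟩
  have hv1 : 1 ≤ v := by omega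
  obtain ⟨m, R0, T, hm, hR, hT⟩ := sum_params ε hε q u v hq hq4 hu2 hv
  set N0 := 2 ^ (u * (T + 1)) with hN0
  have hN0pos : 0 < N0 := by positivity
  have hN0pos' : (0 : ℝ) < N0 := by exact_mod_cast hN0pos
  refine ⟨min 1 (1 / (N0 : ℝ) ^ (q : ℝ)), lt_min one_pos (by positivity), ?_⟩
  intro n hn L _ w C hw hw1 hsucc
  have hn2 : (2 : ℝ) ≤ n := by exact_mod_cast hn
  have hnpos : (0 : ℝ) < n := by linarith
  have hn1 : (1 : ℝ) ≤ n := by linarith
  by_contra hcon
  push Not at hcon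
  have hexw : ∃ l, 0 < w l := by
    by_contra h
    push Not at h
    have : ∑ l, w l ≤ 0 := sum_nonpos (fun l _ => h l)
    linarith
  by_cases hnN : n < N0
  · obtain ⟨l, hl⟩ := hexw
    have h1 := hcon l hl
    have h2 := size_pos (C l)
    have h3 : min 1 (1 / (N0 : ℝ) ^ (q : ℝ)) * (n : ℝ) ^ ((q : ℝ) - 1 - δ) ≤ 1 := by
      have h4 : (n : ℝ) ^ ((q : ℝ) - 1 - δ) ≤ (N0 : ℝ) ^ (q : ℝ) := by
        calc (n : ℝ) ^ ((q : ℝ) - 1 - δ) ≤ (n : ℝ) ^ (q : ℝ) :=
              Real.rpow_le_rpow_of_exponent_le hn1 (by linarith)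
          _ ≤ (N0 : ℝ) ^ (q : ℝ) := by
              have : (n : ℝ) ≤ N0 := by exact_mod_cast hnN.le
              gcongr
      calc _ ≤ (1 / (N0 : ℝ) ^ (q : ℝ)) * (N0 : ℝ) ^ (q : ℝ) := by
            gcongr
            exact min_le_right _ _
        _ = 1 := by field_simp
    linarith
  · push Not at hnN
    -- the unit
    set t := Nat.log 2 n / u with ht
    have hupos : 0 < u := by omega
    have h1 : 2 ^ (u * t) ≤ n := by
      refine le_trans (Nat.pow_le_pow_right (by norm_num) ?_) (Nat.pow_log_le_self 2 (by omega))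
      rw [ht]
      exact Nat.mul_div_le _ _
    have h2 : n < 2 ^ (u * (t + 1)) := by
      refine lt_of_lt_of_le (Nat.lt_pow_succ_log_self (b := 2) (by norm_num) n) ?_
      apply Nat.pow_le_pow_right (by norm_num)
      have := Nat.lt_mul_div_succ (Nat.log 2 n) hupos
      rw [← ht] at this
      exact this
    have htT : T ≤ t := by
      by_contra hlt
      push Not at hlt
      have : 2 ^ (u * (t + 1)) ≤ 2 ^ (u * (T + 1)) :=
        Nat.pow_le_pow_right (by norm_num) (Nat.mul_le_mul_left _ (by omega))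
      omega
    obtain ⟨a1, a2, a3, a4, a5, a6, a7⟩ := hT t htT n h1 h2
    set r := rr R0 u v q t with hr
    set b := cb m r n with hb
    set κ := (v + 1) * t with hκ
    set D := Nat.clog 2 n with hD
    set τ := Nat.clog 2 (16 * ((2 * m) * ((2 * m) * (r + 1)))) with hτ
    have ht0 : 0 < t := by
      by_contra h0
      have : t = 0 := by omega
      rw [this, mul_zero] at a1
      omega
    have hκpos : 0 < κ := by rw [hκ]; positivity
    have hbn : b < 2 ^ D := by
      have e1 : b ≤ n / 2 := by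
        rw [hb]
        unfold cb
        apply Nat.div_le_div_left _ (by norm_num)
        have : m * 2 ≤ m * (2 * r + 2) := Nat.mul_le_mul_left _ (by omega)
        omega
      have e2 : n ≤ 2 ^ D := Nat.le_pow_clog (by norm_num) n
      omega
    have hDs : κ + (D + 1 + (3 + τ)) ≤ sdigs q n := by
      unfold sdigs
      exact (Nat.lt_size.mpr a6).le
    obtain ⟨dv, hinj, hPn, hX, hY, hZ⟩ := dv_exists m r b n (by
      rw [hb]
      unfold cb
      exact Nat.mul_div_le _ _)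
    have htag : ∀ i, tag (dv i) < 2 ^ τ := by
      intro i
      exact lt_of_lt_of_le (tag_lt hm (dv i)) (Nat.le_pow_clog (by norm_num) _)
    apply scheme' (E := Fin m) (A := Fin 3) (Rr := Fin r) (K1 := Fin b) (K2 := Fin κ) w C hw hw1
      ValidSum (P q n) (XSum D sg dv)
      (fun w2 => sy_proj_one (symS D sg dv) w2)
      (fun w1 => sy_proj_two (symS D sg dv) w1)
      (v * t) 2 (kk u v q t) a1 (by norm_num) a2 (by simp) (by simpa using a4) (by simpa using hm)
      (by simpa using a3) (by simpa using hκpos) ε (5 * ε / 4) (by linarith)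
    · intro w1 w2 ho1 hs1 _
      exact xsum_valid D τ sg dv w1 w2 htag hDs a6 hbn hinj
        (fun j i h => lt_of_lt_of_le (hPn j i h) a5) ho1 hs1
    · exact fun w1 w2 o1 o2 h => (hP q n m r b κ D τ dv w1 w2 htag hDs hbn hX hY hZ o1 o2).mpr h
    · exact fun w1 w2 o1 o2 h => (hP q n m r b κ D τ dv w1 w2 htag hDs hbn hX hY hZ o1 o2).mp h
    · intro z hz
      exact hsucc z hz
    · intro l hl
      simp only [Fintype.card_fin]
      apply a7
      have h3 := (hcon l hl).le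
      have h4 : ((C l).size : ℝ) ≤ 2 ^ ((t + 1) * (v - 1)) := by
        calc ((C l).size : ℝ) ≤ 1 * (n : ℝ) ^ ((q : ℝ) - 1 - δ) := by
              refine h3.trans ?_
              gcongr
              exact min_le_left _ _
          _ = (n : ℝ) ^ ((q : ℝ) - 1 - δ) := one_mul _
          _ ≤ (n : ℝ) ^ (((v - 1 : ℕ) : ℝ) / u) := by
              apply Real.rpow_le_rpow_of_exponent_le hn1
              have hu' : (0 : ℝ) < u := by exact_mod_cast hupos
              rw [le_div_iff₀ hu', Nat.cast_sub hv1]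
              have hv' : (v : ℝ) + 2 = u * ((q : ℝ) - 1) := by
                have : ((v + 2 : ℕ) : ℝ) = ((u * (q - 1) : ℕ) : ℝ) := by rw [hv]
                rw [Nat.cast_add, Nat.cast_mul, Nat.cast_sub (by omega)] at this
                simpa using this
              have h5 : 3 ≤ δ * u := by
                rw [div_le_iff₀ hu'] at huδ
                exact huδ
              push_cast
              nlinarith
          _ ≤ ((2 : ℝ) ^ (u * (t + 1))) ^ (((v - 1 : ℕ) : ℝ) / u) := by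
              have : (n : ℝ) ≤ 2 ^ (u * (t + 1)) := by exact_mod_cast h2.le
              gcongr
          _ = 2 ^ ((t + 1) * (v - 1)) := by
              have hu' : (0 : ℝ) < u := by exact_mod_cast hupos
              rw [← Real.rpow_natCast 2 (u * (t + 1)), ← Real.rpow_mul (by norm_num),
                ← Real.rpow_natCast 2 ((t + 1) * (v - 1))]
              congr 1
              push_cast
              field_simp
      exact_mod_cast h4

theorem three_sum (ε δ : ℝ) (hε : 0 < ε) (hδ : 0 < δ) : ∃ c : ℝ, 0 < c ∧ ∀ n : ℕ, 2 ≤ n →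
    ∀ (L : Type) [Fintype L] (w : L → ℝ) (C : L → Circuit (SumBit 4 n) 3),
      (∀ l, 0 ≤ w l) → ∑ l, w l = 1 →
      (∀ z, ValidSum z → 1 / 2 + ε ≤ success w C z (ZeroSum z)) →
      ∃ l, 0 < w l ∧ c * (n : ℝ) ^ (3 - δ) ≤ (C l).size := by
  have h := sum_main (fun q n => ZeroSum (q := q) (n := n)) true
    (fun q n m r b κ D τ dv w1 w2 hT hD hb hX hY hZ o1 o2 =>
      xsum_zero D τ dv w1 w2 hT hD hb hX hY hZ o1 o2) 4 (by norm_num) (by norm_num) ε δ hε hδ
  have e : ((4 : ℕ) : ℝ) - 1 - δ = 3 - δ := by norm_num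
  rw [e] at h
  exact h

theorem three_sum_in (ε δ : ℝ) (hε : 0 < ε) (hδ : 0 < δ) : ∃ c : ℝ, 0 < c ∧ ∀ n : ℕ, 2 ≤ n →
    ∀ (L : Type) [Fintype L] (w : L → ℝ) (C : L → Circuit (SumBit 3 n) 3),
      (∀ l, 0 ≤ w l) → ∑ l, w l = 1 →
      (∀ z, ValidSum z → 1 / 2 + ε ≤ success w C z (SumIn z)) →
      ∃ l, 0 < w l ∧ c * (n : ℝ) ^ (2 - δ) ≤ (C l).size := by
  have h := sum_main (fun q n => SumIn (q := q) (n := n)) false
    (fun q n m r b κ D τ dv w1 w2 hT hD hb hX hY hZ o1 o2 =>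
      xsum_in D τ dv w1 w2 hT hD hb hX hY hZ o1 o2) 3 (by norm_num) (by norm_num) ε δ hε hδ
  have e : ((3 : ℕ) : ℝ) - 1 - δ = 2 - δ := by norm_num
  rw [e] at h
  exact h

end Pool.Agent.H596R2.D3R
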