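import Pool.Agent.H596R2.D3R.ETInst2
import Pool.Agent.H596R2.D3R.Gen2

/-!
Hard instances of 3SUM.
-/

namespace Pool.Agent.H596R2.D3R

open Finset Classical Pool.Agent.H596R2.D3

set_option linter.unusedSectionVars false

theorem num_zero (g : ℕ → Bool) : num 0 g = 0 := by simp [num]

theorem num_add (a b : ℕ) (g : ℕ → Bool) :
    num (a + b) g = num a g + 2 ^ a * num b (fun d => g (d + a)) := by
  rw [num_split]
  congr 1
  unfold num
  rw [mul_sum]
  apply sum_congr rfl
  intro l _
  split_ifs
  · rw [pow_add]; ring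
  · simp

theorem num_congr (D : ℕ) (g g' : ℕ → Bool) (h : ∀ d < D, g d = g' d) : num D g = num D g' := by
  unfold num
  apply sum_congr rfl
  intro d hd
  rw [h d (mem_range.mp hd)]

theorem num_testBit (τ : ℕ) : ∀ T : ℕ, T < 2 ^ τ → num τ (fun d => T.testBit d) = T := by
  induction τ with
  | zero =>
    intro T hT
    have : T = 0 := by simpa using hT
    rw [this, num_zero]; rfl
  | succ τ ih =>
    intro T hT
    rw [add_comm τ 1, num_add]
    have h1 : num 1 (fun d => T.testBit d) = ((T % 2 : ℕ) : ℤ) := by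
      unfold num
      rw [sum_range_one]
      simp only [Nat.testBit_zero]
      rcases Nat.mod_two_eq_zero_or_one T with h | h
      · rw [h]; simp
      · rw [h]; simp
    have h2 : num τ (fun d => T.testBit (d + 1)) = ((T / 2 : ℕ) : ℤ) := by
      rw [← ih (T / 2) (by rw [pow_succ] at hT; omega)]
      apply num_congr
      intro d _
      exact Nat.testBit_succ T d
    rw [h1, h2]
    have := Nat.mod_add_div T 2
    have h3 : ((T % 2 : ℕ) : ℤ) + 2 * ((T / 2 : ℕ) : ℤ) = T := by exact_mod_cast this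
    rw [pow_one]
    exact h3

theorem num_true (D : ℕ) : num D (fun _ => true) = 2 ^ D - 1 := by
  induction D with
  | zero => simp [num]
  | succ D ih =>
    rw [num_add, ih]
    unfold num
    simp
    ring

theorem num_false (D : ℕ) : num D (fun _ => false) = 0 := by
  unfold num
  simp

theorem num_not (D : ℕ) (g : ℕ → Bool) : num D (fun d => !g d) = 2 ^ D - 1 - num D g := by
  have : num D (fun d => !g d) + num D g = 2 ^ D - 1 := by
    rw [← num_true D]
    unfold num
    rw [← sum_add_distrib]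
    apply sum_congr rfl
    intro d _
    rcases h : g d with _ | _
    · simp [h]
    · simp [h]
  linarith

/-- Code of a column: the digits with value one belong to the first copy. -/
noncomputable def cdv (D c : ℕ) (x y : Bool) : ℤ := num D (fun t => if c.testBit t = true then !x else !y)

theorem cdv_tt (D c : ℕ) : cdv D c true true = 0 := by
  unfold cdv
  rw [← num_false D]
  apply num_congr
  intro d _
  simp

theorem cdv_ft (D c : ℕ) (hc : c < 2 ^ D) : cdv D c false true = c := by
  unfold cdv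
  rw [← num_testBit D c hc]
  apply num_congr
  intro d _
  cases c.testBit d <;> simp

theorem cdv_tf (D c : ℕ) (hc : c < 2 ^ D) : cdv D c true false = 2 ^ D - 1 - c := by
  unfold cdv
  rw [← num_testBit D c hc, ← num_not]
  apply num_congr
  intro d _
  cases c.testBit d <;> simp

theorem cdv_nonneg (D c : ℕ) (x y : Bool) : 0 ≤ cdv D c x y := num_nonneg _ _

theorem cdv_lt (D c : ℕ) (x y : Bool) : cdv D c x y < 2 ^ D := num_lt _ _

/-- The code of column `i`, with `D + 1` digits. -/
def cod (D i : ℕ) : ℕ := i + 2 ^ D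

theorem cod_lt (D i : ℕ) (hi : i + 1 < 2 ^ D) : cod D i + 1 < 2 ^ (D + 1) := by
  unfold cod
  rw [pow_succ]
  omega

theorem cdv_zero (D i : ℕ) (hi : i + 1 < 2 ^ D) (x y : Bool) (hxy : x = true ∨ y = true) :
    cdv (D + 1) (cod D i) x y = 0 ↔ x = true ∧ y = true := by
  have hc := cod_lt D i hi
  have hc' : ((cod D i : ℕ) : ℤ) + 1 < 2 ^ (D + 1) := by exact_mod_cast hc
  have hc0 : (0 : ℤ) < ((cod D i : ℕ) : ℤ) := by
    have : 0 < cod D i := by unfold cod; positivity
    exact_mod_cast this
  rcases x with _ | _ <;> rcases y with _ | _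
  · simp at hxy
  · rw [cdv_ft _ _ (by omega)]
    constructor
    · intro h; rw [h] at hc0; simp at hc0
    · rintro ⟨h, _⟩; simp at h
  · rw [cdv_tf _ _ (by omega)]
    constructor
    · intro h; omega
    · rintro ⟨_, h⟩; simp at h
  · rw [cdv_tt]; simp

theorem cdv_inj (D i j : ℕ) (hi : i + 1 < 2 ^ D) (hj : j + 1 < 2 ^ D) (hij : i ≠ j)
    (x y x' y' : Bool) (hxy : x = true ∨ y = true) (hxy' : x' = true ∨ y' = true)
    (hno : ¬ ((x = true ∧ y = true) ∧ (x' = true ∧ y' = true))) :
    cdv (D + 1) (cod D i) x y ≠ cdv (D + 1) (cod D j) x' y' := by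
  have hci := cod_lt D i hi
  have hcj := cod_lt D j hj
  have e : (2 : ℕ) ^ (D + 1) = 2 ^ D + 2 ^ D := by rw [pow_succ]; ring
  have e' : (2 : ℤ) ^ (D + 1) = 2 ^ D + 2 ^ D := by rw [pow_succ]; ring
  have hc1 : ((cod D i : ℕ) : ℤ) = i + 2 ^ D := by unfold cod; push_cast; rfl
  have hc2 : ((cod D j : ℕ) : ℤ) = j + 2 ^ D := by unfold cod; push_cast; rfl
  have hi' : (i : ℤ) + 1 < 2 ^ D := by exact_mod_cast hi
  have hj' : (j : ℤ) + 1 < 2 ^ D := by exact_mod_cast hj
  have hij' : (i : ℤ) ≠ j := by exact_mod_cast hij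
  rcases x with _ | _ <;> rcases y with _ | _ <;> rcases x' with _ | _ <;> rcases y' with _ | _ <;>
    simp only [Bool.false_eq_true, or_self, or_true, true_or, and_false, and_true,
      and_self, not_true_eq_false, not_false_eq_true] at hxy hxy' hno <;>
    simp only [cdv_tt, cdv_ft _ _ (show cod D i < 2 ^ (D + 1) by omega),
      cdv_tf _ _ (show cod D i < 2 ^ (D + 1) by omega),
      cdv_ft _ _ (show cod D j < 2 ^ (D + 1) by omega),
      cdv_tf _ _ (show cod D j < 2 ^ (D + 1) by omega), hc1, hc2, e'] <;>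
    omega

/-- Splitting a sum into two fields. -/
theorem field_split (M x0 y0 z0 x1 y1 z1 : ℤ) (h0 : 0 ≤ x0 + y0) (h1 : x0 + y0 < M)
    (h2 : 0 ≤ z0) (h3 : z0 < M) (h : x0 + M * x1 + (y0 + M * y1) = z0 + M * z1) :
    x0 + y0 = z0 ∧ x1 + y1 = z1 := by
  have hM : 0 < M := by linarith
  have e : x0 + y0 - z0 = M * (z1 - x1 - y1) := by linarith
  have hz : z1 - x1 - y1 = 0 := by
    by_contra hne
    rcases lt_or_gt_of_ne hne with hlt | hgt
    · have : z1 - x1 - y1 ≤ -1 := by omega
      nlinarith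
    · have : 1 ≤ z1 - x1 - y1 := by omega
      nlinarith
  rw [hz, mul_zero] at e
  constructor <;> linarith

end Pool.Agent.H596R2.D3R
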