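import Pool.Agent.H596R2.D3R.SumInst

/-!
Hard instances of 3SUM: the numbers.
-/

namespace Pool.Agent.H596R2.D3R

open Finset Classical Pool.Agent.H596R2.D3

set_option linter.unusedSectionVars false

/-- Names of the numbers. -/
inductive SV (m r b : ℕ) : Type
  | X (e : Fin m) (i : Fin b) (ρ : Fin r) : SV m r b
  | Y (e : Fin m) (i : Fin b) (ρ : Fin r) : SV m r b
  | Z (e : Fin m) (i : Fin b) : SV m r b
  | P (i : ℕ) : SV m r b

variable {m r b κ : ℕ}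

/-- Symbolic bits. -/
abbrev Sg (m r b κ : ℕ) : Type :=
  Sy (((Fin m × Fin 3) × Fin b) × Bool) (((Fin m × Fin r) × Fin κ) × Bool)

/-- Concatenation of digits. -/
def cat (a : ℕ) (f g : ℕ → Sg m r b κ) : ℕ → Sg m r b κ := fun d => if d < a then f d else g (d - a)

def andS (e : Fin m) (ρ : Fin r) (s : Bool) (d : ℕ) : Sg m r b κ :=
  if h : d < κ then Sy.snd (((e, ρ), ⟨d, h⟩), s) false else Sy.cst false

def codS (D : ℕ) (e : Fin m) (a : Fin 3) (i : Fin b) (d : ℕ) : Sg m r b κ :=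
  if (cod D i).testBit d = true then Sy.fst (((e, a), i), false) true
  else Sy.fst (((e, a), i), true) true

def f1 : SV m r b → ℕ → Sg m r b κ
  | SV.X e _ ρ => andS e ρ false
  | SV.Y e _ ρ => andS e ρ true
  | SV.Z _ _ => fun _ => Sy.cst true
  | SV.P i => fun d => Sy.cst (i.testBit d)

def f2 (D : ℕ) : SV m r b → ℕ → Sg m r b κ
  | SV.X e i _ => codS D e 0 i
  | SV.Y e i _ => codS D e 1 i
  | SV.Z e i => codS D e 2 i
  | SV.P _ => fun _ => Sy.cst false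

def f3 : SV m r b → ℕ → Sg m r b κ
  | SV.X _ _ _ => fun t => if t < 2 then Sy.cst true else Sy.cst false
  | SV.Y _ _ _ => fun _ => Sy.cst false
  | SV.Z e i => fun t => if t = 0 then Sy.fst (((e, 2), i), false) false
      else if t = 1 then Sy.fst (((e, 2), i), true) false else Sy.cst false
  | SV.P _ => fun _ => Sy.cst false

/-- The tag. -/
def tag : SV m r b → ℕ
  | SV.X e _ ρ => 1 + 16 * (e + (2 * m) * (0 + (2 * m) * ρ))
  | SV.Y e _ ρ => 4 + 16 * (0 + (2 * m) * (e + (2 * m) * (r - ρ)))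
  | SV.Z e _ => 5 + 16 * (e + (2 * m) * (e + (2 * m) * r))
  | SV.P _ => 7 + 16 * (0 + (2 * m) * (0 + (2 * m) * 0))

/-- The digits of the numbers. -/
def dgS (D : ℕ) (v : SV m r b) : ℕ → Sg m r b κ :=
  cat κ (f1 v) (cat (D + 1) (f2 D v) (cat 3 (f3 v) (fun t => Sy.cst ((tag v).testBit t))))

section
variable (w1 : ((Fin m × Fin 3) × Fin b) × Bool → Bool) (w2 : ((Fin m × Fin r) × Fin κ) × Bool → Bool)

/-- The number with symbolic digits `f`. -/
noncomputable def nev (D : ℕ) (f : ℕ → Sg m r b κ) : ℤ := num D (fun d => (f d).ev w1 w2)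

theorem nev_cat (a c : ℕ) (f g : ℕ → Sg m r b κ) :
    nev w1 w2 (a + c) (cat a f g) = nev w1 w2 a f + 2 ^ a * nev w1 w2 c g := by
  unfold nev
  rw [num_add]
  congr 1
  · apply num_congr
    intro d hd
    unfold cat
    rw [if_pos hd]
  · congr 1
    apply num_congr
    intro d _
    unfold cat
    rw [if_neg (by omega), Nat.add_sub_cancel]

theorem nev_andS (e : Fin m) (ρ : Fin r) (s : Bool) :
    nev w1 w2 κ (andS e ρ s) = ∑ l : Fin κ, iv (w2 (((e, ρ), l), s)) * 2 ^ (l : ℕ) := by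
  unfold nev num
  rw [← Fin.sum_univ_eq_sum_range (fun d => if (andS e ρ s d : Sg m r b κ).ev w1 w2 = true
    then (2 : ℤ) ^ d else 0) κ]
  apply sum_congr rfl
  intro l _
  have : (andS e ρ s (l : ℕ) : Sg m r b κ).ev w1 w2 = w2 (((e, ρ), l), s) := by
    unfold andS
    rw [dif_pos l.isLt]
    simp [Sy.ev]
  rw [this, if_iv]

theorem nev_codS (D : ℕ) (e : Fin m) (a : Fin 3) (i : Fin b) :
    nev w1 w2 (D + 1) (codS D e a i) =
      cdv (D + 1) (cod D i) (w1 (((e, a), i), false)) (w1 (((e, a), i), true)) := by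
  unfold nev cdv
  apply num_congr
  intro d _
  unfold codS
  split_ifs <;> simp [Sy.ev]

theorem nev_true (D : ℕ) : nev w1 w2 D (fun _ => Sy.cst true) = 2 ^ D - 1 := num_true D

theorem nev_false (D : ℕ) : nev w1 w2 D (fun _ => Sy.cst false) = 0 := num_false D

theorem nev_bits (D T : ℕ) (hT : T < 2 ^ D) :
    nev w1 w2 D (fun t => Sy.cst (T.testBit t)) = T := num_testBit D T hT

theorem nev_three (f : ℕ → Sg m r b κ) : nev w1 w2 3 f =
    iv ((f 0).ev w1 w2) + 2 * iv ((f 1).ev w1 w2) + 4 * iv ((f 2).ev w1 w2) := by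
  unfold nev num
  simp only [sum_range_succ, range_zero, sum_empty, if_iv]
  ring

theorem nev_f3_X (e : Fin m) (i : Fin b) (ρ : Fin r) :
    nev w1 w2 3 (f3 (SV.X e i ρ)) = 3 := by
  rw [nev_three]
  simp [f3, Sy.ev, iv_true, iv_false]

theorem nev_f3_Y (e : Fin m) (i : Fin b) (ρ : Fin r) :
    nev w1 w2 3 (f3 (SV.Y e i ρ)) = 0 := nev_false w1 w2 3

theorem nev_f3_Z (e : Fin m) (i : Fin b) :
    nev w1 w2 3 (f3 (SV.Z e i)) =
      iv (w1 (((e, 2), i), false)) + 2 * iv (w1 (((e, 2), i), true)) := by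
  rw [nev_three]
  simp [f3, Sy.ev, iv_false]

theorem nev_f3_P (i : ℕ) : nev w1 w2 3 (f3 (SV.P i)) = 0 := nev_false w1 w2 3

/-- The low part. -/
noncomputable def low (D : ℕ) (v : SV m r b) : ℤ :=
  nev w1 w2 κ (f1 v) + 2 ^ κ * (nev w1 w2 (D + 1) (f2 D v) + 2 ^ (D + 1) * nev w1 w2 3 (f3 v))

theorem nev_dgS (D τ : ℕ) (v : SV m r b) (hT : tag v < 2 ^ τ) :
    nev w1 w2 (κ + (D + 1 + (3 + τ))) (dgS D v) =
      low w1 w2 D v + 2 ^ (κ + (D + 1) + 3) * (tag v : ℤ) := by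
  unfold dgS low
  rw [nev_cat, nev_cat, nev_cat, nev_bits w1 w2 τ _ hT]
  rw [pow_add, pow_add]
  ring

theorem f1_lt (v : SV m r b) : nev w1 w2 κ (f1 v) < 2 ^ κ := num_lt _ _

theorem f1_nonneg (v : SV m r b) : 0 ≤ nev w1 w2 κ (f1 v) := num_nonneg _ _

theorem f2_lt (D : ℕ) (v : SV m r b) : nev w1 w2 (D + 1) (f2 D v) < 2 ^ (D + 1) := num_lt _ _

theorem f2_nonneg (D : ℕ) (v : SV m r b) : 0 ≤ nev w1 w2 (D + 1) (f2 D v) := num_nonneg _ _

theorem f3_le (v : SV m r b) : nev w1 w2 3 (f3 v) ≤ 3 := by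
  rcases v with ⟨e, i, ρ⟩ | ⟨e, i, ρ⟩ | ⟨e, i⟩ | i
  · rw [nev_f3_X]
  · rw [nev_f3_Y]; norm_num
  · rw [nev_f3_Z]
    have h1 := iv_le (w1 (((e, 2), i), false))
    have h2 := iv_le (w1 (((e, 2), i), true))
    linarith
  · rw [nev_f3_P]; norm_num

theorem f3_nonneg (v : SV m r b) : 0 ≤ nev w1 w2 3 (f3 v) := num_nonneg _ _

theorem low_nonneg (D : ℕ) (v : SV m r b) : 0 ≤ low w1 w2 D v := by
  unfold low
  have h1 := f1_nonneg w1 w2 v
  have h2 := f2_nonneg w1 w2 D v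
  have h3 := f3_nonneg w1 w2 v
  positivity

theorem low_lt (D : ℕ) (v : SV m r b) : 2 * low w1 w2 D v < 2 ^ (κ + (D + 1) + 3) := by
  unfold low
  have h1 := f1_lt w1 w2 v
  have h2 := f2_lt w1 w2 D v
  have h3 := f3_le w1 w2 v
  have h4 : (0 : ℤ) < 2 ^ κ := by positivity
  have h5 : (0 : ℤ) < 2 ^ (D + 1) := by positivity
  have h6 : nev w1 w2 (D + 1) (f2 D v) + 2 ^ (D + 1) * nev w1 w2 3 (f3 v) ≤
      4 * 2 ^ (D + 1) - 1 := by nlinarith
  have h7 : (2 : ℤ) ^ κ * (nev w1 w2 (D + 1) (f2 D v) + 2 ^ (D + 1) * nev w1 w2 3 (f3 v)) ≤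
      2 ^ κ * (4 * 2 ^ (D + 1) - 1) := mul_le_mul_of_nonneg_left h6 h4.le
  have e : (2 : ℤ) ^ (κ + (D + 1) + 3) = 8 * (2 ^ κ * 2 ^ (D + 1)) := by
    rw [pow_add _ (κ + (D + 1)) 3, pow_add _ κ (D + 1)]
    ring
  have e2 : (2 : ℤ) ^ κ * (4 * 2 ^ (D + 1) - 1) = 4 * (2 ^ κ * 2 ^ (D + 1)) - 2 ^ κ := by ring
  rw [e]
  rw [e2] at h7
  linarith

theorem f2_X (D : ℕ) (e : Fin m) (i : Fin b) (ρ : Fin r) :
    nev w1 w2 (D + 1) (f2 D (SV.X e i ρ)) =
      cdv (D + 1) (cod D i) (w1 (((e, 0), i), false)) (w1 (((e, 0), i), true)) :=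
  nev_codS w1 w2 D e 0 i

theorem f2_Y (D : ℕ) (e : Fin m) (i : Fin b) (ρ : Fin r) :
    nev w1 w2 (D + 1) (f2 D (SV.Y e i ρ)) =
      cdv (D + 1) (cod D i) (w1 (((e, 1), i), false)) (w1 (((e, 1), i), true)) :=
  nev_codS w1 w2 D e 1 i

theorem f2_Z (D : ℕ) (e : Fin m) (i : Fin b) :
    nev w1 w2 (D + 1) (f2 D (SV.Z e i : SV m r b)) =
      cdv (D + 1) (cod D i) (w1 (((e, 2), i), false)) (w1 (((e, 2), i), true)) :=
  nev_codS w1 w2 D e 2 i

/-- The deficit of the number `Z`. -/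
theorem gapZ (D i : ℕ) (hi : i + 1 < 2 ^ D) (x y : Bool) (hxy : x = true ∨ y = true) :
    0 ≤ 3 * 2 ^ (D + 1) - cdv (D + 1) (cod D i) x y - 2 ^ (D + 1) * (iv x + 2 * iv y) ∧
    (3 * 2 ^ (D + 1) - cdv (D + 1) (cod D i) x y - 2 ^ (D + 1) * (iv x + 2 * iv y) = 0 ↔
      x = true ∧ y = true) := by
  have hc := cod_lt D i hi
  have hc' : ((cod D i : ℕ) : ℤ) + 1 < 2 ^ (D + 1) := by exact_mod_cast hc
  have hc0 : (0 : ℤ) ≤ ((cod D i : ℕ) : ℤ) := by positivity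
  have h5 : (0 : ℤ) < 2 ^ (D + 1) := by positivity
  rcases x with _ | _ <;> rcases y with _ | _
  · simp at hxy
  · rw [cdv_ft _ _ (by omega), iv_true, iv_false]
    refine ⟨by linarith, ?_, ?_⟩
    · intro h; linarith
    · rintro ⟨h, _⟩; simp at h
  · rw [cdv_tf _ _ (by omega), iv_true, iv_false]
    refine ⟨by linarith, ?_, ?_⟩
    · intro h; linarith
    · rintro ⟨_, h⟩; simp at h
  · rw [cdv_tt, iv_true]
    refine ⟨by linarith, fun _ => ⟨rfl, rfl⟩, fun _ => by ring⟩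

theorem sum_low (D : ℕ) (hb : b < 2 ^ D) (hw1 : Opened w1) (hw2 : Opened w2) (e : Fin m)
    (i j k : Fin b) (ρ : Fin r) :
    low w1 w2 D (SV.X e i ρ) + low w1 w2 D (SV.Y e j ρ) = low w1 w2 D (SV.Z e k) ↔
      Good w1 w2 e ρ (tri3 i j k) := by
  have hi : (i : ℕ) + 1 < 2 ^ D := lt_of_le_of_lt i.isLt hb
  have hj : (j : ℕ) + 1 < 2 ^ D := lt_of_le_of_lt j.isLt hb
  have hk : (k : ℕ) + 1 < 2 ^ D := lt_of_le_of_lt k.isLt hb
  have g1 := cdv_zero D i hi _ _ (hw1 ((e, 0), i))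
  have g2 := cdv_zero D j hj _ _ (hw1 ((e, 1), j))
  have g3 := gapZ D k hk _ _ (hw1 ((e, 2), k))
  have g1' := cdv_nonneg (D + 1) (cod D i) (w1 (((e, 0), i), false)) (w1 (((e, 0), i), true))
  have g2' := cdv_nonneg (D + 1) (cod D j) (w1 (((e, 1), j), false)) (w1 (((e, 1), j), true))
  set cx := cdv (D + 1) (cod D i) (w1 (((e, 0), i), false)) (w1 (((e, 0), i), true)) with hcx
  set cy := cdv (D + 1) (cod D j) (w1 (((e, 1), j), false)) (w1 (((e, 1), j), true)) with hcy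
  set cz := 3 * 2 ^ (D + 1) -
    cdv (D + 1) (cod D k) (w1 (((e, 2), k), false)) (w1 (((e, 2), k), true)) -
    2 ^ (D + 1) * (iv (w1 (((e, 2), k), false)) + 2 * iv (w1 (((e, 2), k), true))) with hcz
  have hpos : ∀ l : Fin κ, 0 ≤ (iv (w2 (((e, ρ), l), false)) + iv (w2 (((e, ρ), l), true)) - 1) *
        2 ^ (l : ℕ) := by
    intro l
    apply mul_nonneg _ (by positivity)
    have h0 := iv_nonneg (w2 (((e, ρ), l), false))
    have h1 := iv_nonneg (w2 (((e, ρ), l), true))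
    rcases hw2 ((e, ρ), l) with h | h
    · rw [h, iv_true]; linarith
    · rw [h, iv_true]; linarith
  have hS0 : 0 ≤ ∑ l : Fin κ, (iv (w2 (((e, ρ), l), false)) + iv (w2 (((e, ρ), l), true)) - 1) *
        (2 : ℤ) ^ (l : ℕ) := sum_nonneg (fun l _ => hpos l)
  have key : low w1 w2 D (SV.X e i ρ) + low w1 w2 D (SV.Y e j ρ) - low w1 w2 D (SV.Z e k) =
      ∑ l : Fin κ, (iv (w2 (((e, ρ), l), false)) + iv (w2 (((e, ρ), l), true)) - 1) *
        (2 : ℤ) ^ (l : ℕ) + 2 ^ κ * (cx + cy + cz) := by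
    unfold low
    rw [f2_X, f2_Y, f2_Z, nev_f3_X, nev_f3_Y, nev_f3_Z, ← hcx, ← hcy]
    have e1 : nev w1 w2 κ (f1 (SV.X e i ρ)) =
        ∑ l : Fin κ, iv (w2 (((e, ρ), l), false)) * 2 ^ (l : ℕ) := nev_andS w1 w2 e ρ false
    have e2 : nev w1 w2 κ (f1 (SV.Y e j ρ)) =
        ∑ l : Fin κ, iv (w2 (((e, ρ), l), true)) * 2 ^ (l : ℕ) := nev_andS w1 w2 e ρ true
    have e3 : nev w1 w2 κ (f1 (SV.Z e k)) = ∑ l : Fin κ, (2 : ℤ) ^ (l : ℕ) := by
      have : nev w1 w2 κ (f1 (SV.Z e k)) = 2 ^ κ - 1 := nev_true w1 w2 κ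
      rw [this, ← num_true κ]
      unfold num
      rw [← Fin.sum_univ_eq_sum_range (fun d => if true = true then (2 : ℤ) ^ d else 0) κ]
      simp
    have e4 : ∑ l : Fin κ, (iv (w2 (((e, ρ), l), false)) + iv (w2 (((e, ρ), l), true)) - 1) *
        (2 : ℤ) ^ (l : ℕ) = ∑ l : Fin κ, iv (w2 (((e, ρ), l), false)) * 2 ^ (l : ℕ) +
        ∑ l : Fin κ, iv (w2 (((e, ρ), l), true)) * 2 ^ (l : ℕ) -
        ∑ l : Fin κ, (2 : ℤ) ^ (l : ℕ) := by
      rw [← sum_add_distrib, ← sum_sub_distrib]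
      apply sum_congr rfl
      intro l _
      ring
    rw [e1, e2, e3, e4, hcz]
    ring
  have h2κ : (0 : ℤ) < 2 ^ κ := by positivity
  constructor
  · intro h
    rw [h, sub_self] at key
    have hge : 0 ≤ cx + cy + cz := by linarith [g3.1]
    have h3 : 0 ≤ (2 : ℤ) ^ κ * (cx + cy + cz) := mul_nonneg h2κ.le hge
    have h4 : (2 : ℤ) ^ κ * (cx + cy + cz) = 0 := by linarith
    have h5 : cx + cy + cz = 0 := by
      rcases mul_eq_zero.mp h4 with h | h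
      · exact absurd h h2κ.ne'
      · exact h
    have h6 : cx = 0 := by linarith [g3.1]
    have h7 : cy = 0 := by linarith [g3.1]
    have h8 : cz = 0 := by linarith [g3.1]
    have hs0 : ∑ l : Fin κ, (iv (w2 (((e, ρ), l), false)) + iv (w2 (((e, ρ), l), true)) - 1) *
        (2 : ℤ) ^ (l : ℕ) = 0 := by linarith
    refine ⟨?_, ?_⟩
    · intro a
      fin_cases a
      · exact g1.mp h6
      · exact g2.mp h7
      · exact g3.2.mp h8
    · intro l hl
      have h1 := (sum_eq_zero_iff_of_nonneg (fun l _ => hpos l)).mp hs0 l (mem_univ l)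
      rw [hl.1, hl.2, iv_true] at h1
      have : (0 : ℤ) < 2 ^ (l : ℕ) := by positivity
      linarith
  · rintro ⟨h1, h2⟩
    have c0 : w1 (((e, 0), i), false) = true ∧ w1 (((e, 0), i), true) = true := h1 0
    have c1 : w1 (((e, 1), j), false) = true ∧ w1 (((e, 1), j), true) = true := h1 1
    have c2 : w1 (((e, 2), k), false) = true ∧ w1 (((e, 2), k), true) = true := h1 2
    have h6 : cx = 0 := g1.mpr c0
    have h7 : cy = 0 := g2.mpr c1
    have h8 : cz = 0 := g3.2.mpr c2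
    have hs0 : ∑ l : Fin κ, (iv (w2 (((e, ρ), l), false)) + iv (w2 (((e, ρ), l), true)) - 1) *
        (2 : ℤ) ^ (l : ℕ) = 0 := by
      apply sum_eq_zero
      intro l _
      have h3 := h2 l
      rcases hw2 ((e, ρ), l) with h | h
      · have h4 : w2 (((e, ρ), l), true) = false := by
          rw [← Bool.not_eq_true]
          intro h5
          exact h3 ⟨h, h5⟩
        rw [h, h4, iv_true, iv_false]; ring
      · have h4 : w2 (((e, ρ), l), false) = false := by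
          rw [← Bool.not_eq_true]
          intro h5
          exact h3 ⟨h5, h⟩
        rw [h, h4, iv_true, iv_false]; ring
    rw [hs0, h6, h7, h8] at key
    linarith

end

end Pool.Agent.H596R2.D3R
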