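import Pool.Agent.H596R2.D3R.SumInst2
import Pool.Agent.H596R2.D3R.SumDefs

/-!
Hard instances of 3SUM: tags and the embedding.
-/

namespace Pool.Agent.H596R2.D3R

open Finset Classical Pool.Agent.H596R2.D3

set_option linter.unusedSectionVars false

variable {m r b κ : ℕ}

theorem tag_lt (hm : 0 < m) (v : SV m r b) : tag v < 16 * ((2 * m) * ((2 * m) * (r + 1))) := by
  have hA : ∀ A B G : ℕ, A < 2 * m → B < 2 * m → G ≤ r →
      A + (2 * m) * (B + (2 * m) * G) + 1 ≤ (2 * m) * ((2 * m) * (r + 1)) := by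
    intro A B G hA hB hG
    have h1 : B + (2 * m) * G + 1 ≤ (2 * m) * (r + 1) := by
      have : (2 * m) * G ≤ (2 * m) * r := Nat.mul_le_mul_left _ hG
      have e : (2 * m) * (r + 1) = (2 * m) * r + 2 * m := by ring
      omega
    have h2 : (2 * m) * (B + (2 * m) * G + 1) ≤ (2 * m) * ((2 * m) * (r + 1)) :=
      Nat.mul_le_mul_left _ h1
    have e : (2 * m) * (B + (2 * m) * G + 1) = (2 * m) * (B + (2 * m) * G) + 2 * m := by ring
    omega
  rcases v with ⟨e, i, ρ⟩ | ⟨e, i, ρ⟩ | ⟨e, i⟩ | i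
  · have := hA e 0 ρ (by omega) (by omega) (by omega)
    simp only [tag]
    omega
  · have := hA 0 e (r - ρ) (by omega) (by omega) (by omega)
    simp only [tag]
    omega
  · have := hA e e r (by omega) (by omega) le_rfl
    simp only [tag]
    omega
  · have := hA 0 0 0 (by omega) (by omega) (by omega)
    simp only [tag]
    omega

/-- Comparison of two-field sums. -/
theorem nat_split (M x0 y0 z0 x1 y1 z1 : ℕ) (h1 : x0 + y0 < M) (h3 : z0 < M)
    (h : x0 + M * x1 + (y0 + M * y1) = z0 + M * z1) : x0 + y0 = z0 ∧ x1 + y1 = z1 := by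
  have h' : (x0 : ℤ) + M * x1 + (y0 + M * y1) = z0 + M * z1 := by exact_mod_cast h
  have := field_split M x0 y0 z0 x1 y1 z1 (by positivity) (by exact_mod_cast h1) (by positivity)
    (by exact_mod_cast h3) h'
  constructor
  · exact_mod_cast this.1
  · exact_mod_cast this.2

theorem nat_split' (M x0 z0 x1 z1 : ℕ) (h1 : x0 < M) (h3 : z0 < M)
    (h : x0 + M * x1 = z0 + M * z1) : x0 = z0 ∧ x1 = z1 := by
  have := nat_split M x0 0 z0 x1 0 z1 (by omega) h3 (by rw [mul_zero]; omega)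
  omega

theorem tag_XYZ (e1 e2 e3 : Fin m) (i j k : Fin b) (ρ1 ρ2 : Fin r)
    (h : tag (SV.X e1 i ρ1 : SV m r b) + tag (SV.Y e2 j ρ2 : SV m r b) =
      tag (SV.Z e3 k : SV m r b)) : e1 = e3 ∧ e2 = e3 ∧ ρ1 = ρ2 := by
  simp only [tag] at h
  have h0 : ((e1 : ℕ) + (2 * m) * (0 + (2 * m) * ρ1)) +
      (0 + (2 * m) * (e2 + (2 * m) * (r - ρ2))) =
      e3 + (2 * m) * (e3 + (2 * m) * r) := by omega
  obtain ⟨a1, a2⟩ := nat_split (2 * m) e1 0 e3 _ _ _ (by omega) (by omega) h0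
  obtain ⟨b1, b2⟩ := nat_split (2 * m) 0 e2 e3 _ _ _ (by omega) (by omega) a2
  refine ⟨Fin.ext (by omega), Fin.ext (by omega), Fin.ext (by omega)⟩

/-- The class of a number. -/
def cls : SV m r b → ℕ
  | SV.X _ _ _ => 1
  | SV.Y _ _ _ => 4
  | SV.Z _ _ => 5
  | SV.P _ => 7

theorem tag_cls (v : SV m r b) : ∃ t, tag v = cls v + 16 * t := by
  rcases v with ⟨e, i, ρ⟩ | ⟨e, i, ρ⟩ | ⟨e, i⟩ | i <;> exact ⟨_, rfl⟩

theorem tag_sum (a c d : SV m r b) (h : tag a + tag c = tag d) :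
    (∃ e i j k ρ, a = SV.X e i ρ ∧ c = SV.Y e j ρ ∧ d = SV.Z e k) ∨
    (∃ e i j k ρ, a = SV.Y e j ρ ∧ c = SV.X e i ρ ∧ d = SV.Z e k) := by
  obtain ⟨ta, ha⟩ := tag_cls a
  obtain ⟨tc, hc⟩ := tag_cls c
  obtain ⟨td, hd⟩ := tag_cls d
  have h' : cls a + 16 * ta + (cls c + 16 * tc) = cls d + 16 * td := by
    rw [← ha, ← hc, ← hd]; exact h
  clear ha hc hd
  rcases a with ⟨e, i, ρ⟩ | ⟨e, i, ρ⟩ | ⟨e, i⟩ | i <;>
    rcases c with ⟨e', i', ρ'⟩ | ⟨e', i', ρ'⟩ | ⟨e', i'⟩ | i' <;>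
    rcases d with ⟨e'', i'', ρ''⟩ | ⟨e'', i'', ρ''⟩ | ⟨e'', i''⟩ | i'' <;>
    first
    | (exfalso; simp only [cls] at h'; omega)
    | skip
  · left
    obtain ⟨h1, h2, h3⟩ := tag_XYZ e e' e'' i i' i'' ρ ρ' h
    subst h1 h2 h3
    exact ⟨_, _, _, _, _, rfl, rfl, rfl⟩
  · right
    rw [add_comm] at h
    obtain ⟨h1, h2, h3⟩ := tag_XYZ e' e e'' i' i i'' ρ' ρ h
    subst h1 h2 h3
    exact ⟨_, _, _, _, _, rfl, rfl, rfl⟩

section
variable (w1 : ((Fin m × Fin 3) × Fin b) × Bool → Bool) (w2 : ((Fin m × Fin r) × Fin κ) × Bool → Bool)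

theorem cd_same (D : ℕ) (hb : b < 2 ^ D) (hw1 : Opened w1) (hs : Single w1) (e : Fin m)
    (a : Fin 3) (i i' : Fin b)
    (h : cdv (D + 1) (cod D i) (w1 (((e, a), i), false)) (w1 (((e, a), i), true)) =
      cdv (D + 1) (cod D i') (w1 (((e, a), i'), false)) (w1 (((e, a), i'), true))) : i = i' := by
  by_contra hne
  have hi : (i : ℕ) + 1 < 2 ^ D := lt_of_le_of_lt i.isLt hb
  have hi' : (i' : ℕ) + 1 < 2 ^ D := lt_of_le_of_lt i'.isLt hb
  refine cdv_inj D i i' hi hi' (fun hh => hne (Fin.ext hh)) _ _ _ _ (hw1 ((e, a), i))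
    (hw1 ((e, a), i')) ?_ h
  rintro ⟨h1, h2⟩
  exact hne (hs (e, a) i i' h1 h2)

theorem sv_inj (D : ℕ) (hb : b < 2 ^ D) (hw1 : Opened w1) (hs : Single w1)
    (v v' : SV m r b) (hP : ∀ i, v = SV.P i → i < 2 ^ κ) (hP' : ∀ i, v' = SV.P i → i < 2 ^ κ)
    (hl : low w1 w2 D v = low w1 w2 D v') (ht : tag v = tag v') : v = v' := by
  have h2κ : (0 : ℤ) < 2 ^ κ := by positivity
  have h2D : (0 : ℤ) < 2 ^ (D + 1) := by positivity
  obtain ⟨ta, ha⟩ := tag_cls v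
  obtain ⟨tc, hc⟩ := tag_cls v'
  have ht' : cls v + 16 * ta = cls v' + 16 * tc := by
    rw [← ha, ← hc]; exact ht
  clear ha hc
  rcases v with ⟨e, i, ρ⟩ | ⟨e, i, ρ⟩ | ⟨e, i⟩ | i <;>
    rcases v' with ⟨e', i', ρ'⟩ | ⟨e', i', ρ'⟩ | ⟨e', i'⟩ | i' <;>
    first
    | (exfalso; simp only [cls] at ht'; omega)
    | skip
  · simp only [tag] at ht
    have h0 : (e : ℕ) + (2 * m) * (0 + (2 * m) * ρ) = e' + (2 * m) * (0 + (2 * m) * ρ') := by
      omega
    obtain ⟨a1, a2⟩ := nat_split' (2 * m) e e' _ _ (by omega) (by omega) h0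
    obtain ⟨_, b2⟩ := nat_split' (2 * m) 0 0 _ _ (by omega) (by omega) a2
    have he : e = e' := Fin.ext a1
    have hρ : ρ = ρ' := Fin.ext b2
    subst he hρ
    have : i = i' := by
      apply cd_same w1 D hb hw1 hs e 0 i i'
      unfold low at hl
      rw [f2_X, f2_X, nev_f3_X, nev_f3_X] at hl
      have h1 : nev w1 w2 κ (f1 (SV.X e i ρ)) = nev w1 w2 κ (f1 (SV.X e i' ρ)) := rfl
      rw [h1] at hl
      have h2 := mul_left_cancel₀ h2κ.ne' (add_left_cancel hl)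
      exact add_right_cancel h2
    rw [this]
  · simp only [tag] at ht
    have h0 : 0 + (2 * m) * (e + (2 * m) * (r - ρ)) = 0 + (2 * m) * (e' + (2 * m) * (r - ρ')) := by
      omega
    have hm := e.isLt
    obtain ⟨_, a2⟩ := nat_split' (2 * m) 0 0 _ _ (by omega) (by omega) h0
    obtain ⟨b1, b2⟩ := nat_split' (2 * m) e e' _ _ (by omega) (by omega) a2
    have he : e = e' := Fin.ext b1
    have hρ : ρ = ρ' := Fin.ext (by omega)
    subst he hρ
    have : i = i' := by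
      apply cd_same w1 D hb hw1 hs e 1 i i'
      unfold low at hl
      rw [f2_Y, f2_Y, nev_f3_Y, nev_f3_Y] at hl
      have h1 : nev w1 w2 κ (f1 (SV.Y e i ρ)) = nev w1 w2 κ (f1 (SV.Y e i' ρ)) := rfl
      rw [h1] at hl
      have h2 := mul_left_cancel₀ h2κ.ne' (add_left_cancel hl)
      exact add_right_cancel h2
    rw [this]
  · simp only [tag] at ht
    have h0 : (e : ℕ) + (2 * m) * (e + (2 * m) * r) = e' + (2 * m) * (e' + (2 * m) * r) := by
      omega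
    obtain ⟨a1, _⟩ := nat_split' (2 * m) e e' _ _ (by omega) (by omega) h0
    have he : e = e' := Fin.ext a1
    subst he
    have : i = i' := by
      apply cd_same w1 D hb hw1 hs e 2 i i'
      unfold low at hl
      rw [f2_Z, f2_Z, nev_f3_Z, nev_f3_Z] at hl
      have h1 : nev w1 w2 κ (f1 (SV.Z e i : SV m r b)) =
        nev w1 w2 κ (f1 (SV.Z e i' : SV m r b)) := rfl
      rw [h1] at hl
      have h2 := mul_left_cancel₀ h2κ.ne' (add_left_cancel hl)
      have h3 := field_split (2 ^ (D + 1))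
        (cdv (D + 1) (cod D i) (w1 (((e, 2), i), false)) (w1 (((e, 2), i), true))) 0
        (cdv (D + 1) (cod D i') (w1 (((e, 2), i'), false)) (w1 (((e, 2), i'), true)))
        (iv (w1 (((e, 2), i), false)) + 2 * iv (w1 (((e, 2), i), true))) 0
        (iv (w1 (((e, 2), i'), false)) + 2 * iv (w1 (((e, 2), i'), true)))
        (by have := cdv_nonneg (D + 1) (cod D i) (w1 (((e, 2), i), false))
              (w1 (((e, 2), i), true)); linarith)
        (by have := cdv_lt (D + 1) (cod D i) (w1 (((e, 2), i), false))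
              (w1 (((e, 2), i), true)); linarith)
        (cdv_nonneg _ _ _ _) (cdv_lt _ _ _ _) (by linarith)
      linarith [h3.1]
    rw [this]
  · have h1 : low w1 w2 D (SV.P i : SV m r b) = i := by
      unfold low
      have e1 : nev w1 w2 κ (f1 (SV.P i : SV m r b)) = i := nev_bits w1 w2 κ i (hP i rfl)
      have e2 : nev w1 w2 (D + 1) (f2 D (SV.P i : SV m r b)) = 0 := nev_false w1 w2 (D + 1)
      rw [e1, e2, nev_f3_P]
      ring
    have h2 : low w1 w2 D (SV.P i' : SV m r b) = i' := by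
      unfold low
      have e1 : nev w1 w2 κ (f1 (SV.P i' : SV m r b)) = i' := nev_bits w1 w2 κ i' (hP' i' rfl)
      have e2 : nev w1 w2 (D + 1) (f2 D (SV.P i' : SV m r b)) = 0 := nev_false w1 w2 (D + 1)
      rw [e1, e2, nev_f3_P]
      ring
    rw [h1, h2] at hl
    have : i = i' := by exact_mod_cast hl
    rw [this]

/-- The value of a number. -/
noncomputable def vl (D : ℕ) (v : SV m r b) : ℤ :=
  low w1 w2 D v + 2 ^ (κ + (D + 1) + 3) * (tag v : ℤ)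

theorem vl_inj (D : ℕ) (hb : b < 2 ^ D) (hw1 : Opened w1) (hs : Single w1)
    (v v' : SV m r b) (hP : ∀ i, v = SV.P i → i < 2 ^ κ) (hP' : ∀ i, v' = SV.P i → i < 2 ^ κ)
    (h : vl w1 w2 D v = vl w1 w2 D v') : v = v' := by
  unfold vl at h
  have n1 := low_nonneg w1 w2 D v
  have n2 := low_nonneg w1 w2 D v'
  have l1 := low_lt w1 w2 D v
  have l2 := low_lt w1 w2 D v'
  have h3 := field_split (2 ^ (κ + (D + 1) + 3)) (low w1 w2 D v) 0 (low w1 w2 D v') (tag v) 0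
    (tag v') (by linarith) (by linarith) n2 (by linarith) (by linarith)
  apply sv_inj w1 w2 D hb hw1 hs v v' hP hP'
  · linarith [h3.1]
  · have : (tag v : ℤ) = tag v' := by linarith [h3.2]
    exact_mod_cast this

theorem vl_sum (D : ℕ) (hb : b < 2 ^ D) (hw1 : Opened w1) (hw2 : Opened w2)
    (a c d : SV m r b) (h : vl w1 w2 D a + vl w1 w2 D c = vl w1 w2 D d) :
    ∃ e ρ f, Good w1 w2 e ρ f := by
  unfold vl at h
  have n1 := low_nonneg w1 w2 D a
  have n2 := low_nonneg w1 w2 D c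
  have n3 := low_nonneg w1 w2 D d
  have l1 := low_lt w1 w2 D a
  have l2 := low_lt w1 w2 D c
  have l3 := low_lt w1 w2 D d
  obtain ⟨h1, h2⟩ := field_split (2 ^ (κ + (D + 1) + 3)) (low w1 w2 D a) (low w1 w2 D c)
    (low w1 w2 D d) (tag a) (tag c) (tag d) (by linarith) (by linarith) n3 (by linarith) h
  have h2' : tag a + tag c = tag d := by exact_mod_cast h2
  rcases tag_sum a c d h2' with ⟨e, i, j, k, ρ, rfl, rfl, rfl⟩ | ⟨e, i, j, k, ρ, rfl, rfl, rfl⟩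
  · exact ⟨_, _, _, (sum_low w1 w2 D hb hw1 hw2 e i j k ρ).mp h1⟩
  · rw [add_comm] at h1
    exact ⟨_, _, _, (sum_low w1 w2 D hb hw1 hw2 e i j k ρ).mp h1⟩

theorem vl_good (D : ℕ) (hb : b < 2 ^ D) (hw1 : Opened w1) (hw2 : Opened w2)
    (e : Fin m) (ρ : Fin r) (f : Fin 3 → Fin b) (h : Good w1 w2 e ρ f) :
    vl w1 w2 D (SV.X e (f 0) ρ) + vl w1 w2 D (SV.Y e (f 1) ρ) = vl w1 w2 D (SV.Z e (f 2)) := by
  have ht : tri3 (f 0) (f 1) (f 2) = f := by
    funext a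
    fin_cases a <;> rfl
  have h1 := (sum_low w1 w2 D hb hw1 hw2 e (f 0) (f 1) (f 2) ρ).mpr (by rw [ht]; exact h)
  have h2 : tag (SV.X e (f 0) ρ : SV m r b) + tag (SV.Y e (f 1) ρ : SV m r b) =
      tag (SV.Z e (f 2) : SV m r b) := by
    simp only [tag]
    have : r = ρ + (r - ρ) := by omega
    have e1 : (2 * m) * r = (2 * m) * ρ + (2 * m) * (r - ρ) := by
      rw [← Nat.mul_add]; congr 1
    rw [e1]
    ring
  unfold vl
  have h2' : (tag (SV.X e (f 0) ρ : SV m r b) : ℤ) + tag (SV.Y e (f 1) ρ : SV m r b) =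
      tag (SV.Z e (f 2) : SV m r b) := by exact_mod_cast h2
  rw [← h1, ← h2']
  ring

theorem vl_pos (D : ℕ) (v : SV m r b) : 0 < vl w1 w2 D v := by
  unfold vl
  have n1 := low_nonneg w1 w2 D v
  have h1 : 0 < tag v := by
    rcases v with ⟨e, i, ρ⟩ | ⟨e, i, ρ⟩ | ⟨e, i⟩ | i <;> simp only [tag] <;> omega
  have h2 : (0 : ℤ) < (tag v : ℤ) := by exact_mod_cast h1
  have h3 : (0 : ℤ) < 2 ^ (κ + (D + 1) + 3) := by positivity
  have := mul_pos h3 h2
  linarith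

end

/-- The sign of a number. -/
def sgn (sg : Bool) : SV m r b → Bool
  | SV.Z _ _ => sg
  | _ => false

/-- The symbolic instance. -/
def symS {q n : ℕ} (D : ℕ) (sg : Bool) (dv : Fin n → SV m r b) : SumBit q n → Sg m r b κ
  | (i, none) => Sy.cst (sgn sg (dv i))
  | (i, some l) => dgS D (dv i) l

/-- The instance. -/
noncomputable def XSum {q n : ℕ} (D : ℕ) (sg : Bool) (dv : Fin n → SV m r b)
    (w1 : ((Fin m × Fin 3) × Fin b) × Bool → Bool)
    (w2 : ((Fin m × Fin r) × Fin κ) × Bool → Bool) : SumBit q n → Bool :=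
  fun p => (symS D sg dv p).ev w1 w2

section
variable {q n : ℕ} (D τ : ℕ) (sg : Bool) (dv : Fin n → SV m r b)
  (w1 : ((Fin m × Fin 3) × Fin b) × Bool → Bool) (w2 : ((Fin m × Fin r) × Fin κ) × Bool → Bool)

theorem dg_high (v : SV m r b) (hT : tag v < 2 ^ τ) (d : ℕ) (hd : κ + (D + 1 + (3 + τ)) ≤ d) :
    (dgS D v d : Sg m r b κ).ev w1 w2 = false := by
  unfold dgS cat
  rw [if_neg (by omega), if_neg (by omega), if_neg (by omega)]
  simp only [Sy.ev]
  apply Nat.testBit_lt_two_pow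
  exact lt_of_lt_of_le hT (Nat.pow_le_pow_right (by norm_num) (by omega))

theorem sval_eq (hT : ∀ i, tag (dv i) < 2 ^ τ) (hD : κ + (D + 1 + (3 + τ)) ≤ sdigs q n)
    (i : Fin n) : sval (XSum D sg dv w1 w2 : SumBit q n → Bool) i =
      (if sgn sg (dv i) = true then -1 else 1) * vl w1 w2 D (dv i) := by
  have h1 : ∑ l : Fin (sdigs q n), (if (XSum D sg dv w1 w2 : SumBit q n → Bool) (i, some l) = true
      then (2 : ℤ) ^ (l : ℕ) else 0) = nev w1 w2 (sdigs q n) (dgS D (dv i)) := by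
    unfold nev num
    exact Fin.sum_univ_eq_sum_range
      (fun d => if (dgS D (dv i) d : Sg m r b κ).ev w1 w2 = true then (2 : ℤ) ^ d else 0)
      (sdigs q n)
  have h2 : nev w1 w2 (sdigs q n) (dgS D (dv i)) = vl w1 w2 D (dv i) := by
    unfold nev
    rw [num_trunc (sdigs q n) (κ + (D + 1 + (3 + τ))) _ hD
      (fun d hd => dg_high D τ w1 w2 (dv i) (hT i) d hd)]
    exact nev_dgS w1 w2 D τ (dv i) (hT i)
  unfold sval
  rw [h1, h2]
  rfl

theorem vl_lt (v : SV m r b) (hT : tag v < 2 ^ τ) :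
    vl w1 w2 D v < 2 ^ (κ + (D + 1 + (3 + τ))) := by
  unfold vl
  rw [← nev_dgS w1 w2 D τ v hT]
  exact num_lt _ _

theorem xsum_valid (hT : ∀ i, tag (dv i) < 2 ^ τ) (hD : κ + (D + 1 + (3 + τ)) ≤ sdigs q n)
    (hn : 2 ^ (κ + (D + 1 + (3 + τ))) ≤ n ^ q) (hb : b < 2 ^ D)
    (hdv : Function.Injective dv) (hP : ∀ j i, dv j = SV.P i → i < 2 ^ κ)
    (hw1 : Opened w1) (hs : Single w1) :
    ValidSum (XSum D sg dv w1 w2 : SumBit q n → Bool) := by
  constructor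
  · intro i j h
    rw [sval_eq D τ sg dv w1 w2 hT hD, sval_eq D τ sg dv w1 w2 hT hD] at h
    apply hdv
    have hpi := vl_pos w1 w2 D (dv i)
    have hpj := vl_pos w1 w2 D (dv j)
    apply vl_inj w1 w2 D hb hw1 hs (dv i) (dv j) (hP i) (hP j)
    split_ifs at h <;> linarith
  · intro i
    rw [sval_eq D τ sg dv w1 w2 hT hD]
    have hpi := vl_pos w1 w2 D (dv i)
    have hlt := vl_lt D τ w1 w2 (dv i) (hT i)
    have hn' : (2 : ℤ) ^ (κ + (D + 1 + (3 + τ))) ≤ (n : ℤ) ^ q := by exact_mod_cast hn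
    rw [abs_mul, abs_of_pos hpi]
    have h4 : |(if sgn sg (dv i) = true then (-1 : ℤ) else 1)| = 1 := by
      split_ifs <;> simp
    rw [h4, one_mul]
    linarith

theorem xsum_zero (hT : ∀ i, tag (dv i) < 2 ^ τ) (hD : κ + (D + 1 + (3 + τ)) ≤ sdigs q n)
    (hb : b < 2 ^ D) (hX : ∀ e i ρ, ∃ j, dv j = SV.X e i ρ) (hY : ∀ e i ρ, ∃ j, dv j = SV.Y e i ρ)
    (hZ : ∀ e i, ∃ j, dv j = SV.Z e i) (hw1 : Opened w1) (hw2 : Opened w2) :
    ZeroSum (XSum D true dv w1 w2 : SumBit q n → Bool) ↔ ∃ e ρ f, Good w1 w2 e ρ f := by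
  constructor
  · rintro ⟨i, j, k, _, _, _, h⟩
    rw [sval_eq D τ true dv w1 w2 hT hD, sval_eq D τ true dv w1 w2 hT hD,
      sval_eq D τ true dv w1 w2 hT hD] at h
    have hpi := vl_pos w1 w2 D (dv i)
    have hpj := vl_pos w1 w2 D (dv j)
    have hpk := vl_pos w1 w2 D (dv k)
    split_ifs at h
    · exfalso; linarith
    · exact vl_sum w1 w2 D hb hw1 hw2 (dv i) (dv j) (dv k) (by linarith)
    · exact vl_sum w1 w2 D hb hw1 hw2 (dv i) (dv k) (dv j) (by linarith)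
    · exact vl_sum w1 w2 D hb hw1 hw2 (dv j) (dv k) (dv i) (by linarith)
    · exact vl_sum w1 w2 D hb hw1 hw2 (dv j) (dv k) (dv i) (by linarith)
    · exact vl_sum w1 w2 D hb hw1 hw2 (dv i) (dv k) (dv j) (by linarith)
    · exact vl_sum w1 w2 D hb hw1 hw2 (dv i) (dv j) (dv k) (by linarith)
    · exfalso; linarith
  · rintro ⟨e, ρ, f, h⟩
    obtain ⟨i, hi⟩ := hX e (f 0) ρ
    obtain ⟨j, hj⟩ := hY e (f 1) ρ
    obtain ⟨k, hk⟩ := hZ e (f 2)
    refine ⟨i, j, k, ?_, ?_, ?_, ?_⟩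
    · rintro rfl; rw [hi] at hj; simp at hj
    · rintro rfl; rw [hj] at hk; simp at hk
    · rintro rfl; rw [hi] at hk; simp at hk
    · rw [sval_eq D τ true dv w1 w2 hT hD, sval_eq D τ true dv w1 w2 hT hD,
        sval_eq D τ true dv w1 w2 hT hD, hi, hj, hk]
      have := vl_good w1 w2 D hb hw1 hw2 e ρ f h
      simp only [sgn, Bool.false_eq_true, if_false, if_true]
      linarith

theorem xsum_in (hT : ∀ i, tag (dv i) < 2 ^ τ) (hD : κ + (D + 1 + (3 + τ)) ≤ sdigs q n)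
    (hb : b < 2 ^ D) (hX : ∀ e i ρ, ∃ j, dv j = SV.X e i ρ) (hY : ∀ e i ρ, ∃ j, dv j = SV.Y e i ρ)
    (hZ : ∀ e i, ∃ j, dv j = SV.Z e i) (hw1 : Opened w1) (hw2 : Opened w2) :
    SumIn (XSum D false dv w1 w2 : SumBit q n → Bool) ↔ ∃ e ρ f, Good w1 w2 e ρ f := by
  have hsg : ∀ v : SV m r b, sgn false v = false := by
    intro v
    rcases v with ⟨e, i, ρ⟩ | ⟨e, i, ρ⟩ | ⟨e, i⟩ | i <;> rfl
  have hv : ∀ i, sval (XSum D false dv w1 w2 : SumBit q n → Bool) i = vl w1 w2 D (dv i) := by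
    intro i
    rw [sval_eq D τ false dv w1 w2 hT hD, hsg]
    simp
  constructor
  · rintro ⟨i, j, k, _, _, _, h⟩
    rw [hv, hv, hv] at h
    exact vl_sum w1 w2 D hb hw1 hw2 (dv i) (dv j) (dv k) h
  · rintro ⟨e, ρ, f, h⟩
    obtain ⟨i, hi⟩ := hX e (f 0) ρ
    obtain ⟨j, hj⟩ := hY e (f 1) ρ
    obtain ⟨k, hk⟩ := hZ e (f 2)
    refine ⟨i, j, k, ?_, ?_, ?_, ?_⟩
    · rintro rfl; rw [hi] at hj; simp at hj
    · rintro rfl; rw [hj] at hk; simp at hk
    · rintro rfl; rw [hi] at hk; simp at hk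
    · rw [hv, hv, hv, hi, hj, hk]
      exact vl_good w1 w2 D hb hw1 hw2 e ρ f h

end

end Pool.Agent.H596R2.D3R
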