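import Pool.Agent.H596R2.D3R.Game5

/-!
Symbolic bits.
-/

namespace Pool.Agent.H596R2.D3R

open Finset Classical Pool.Agent.H596R2.D3

/-- A symbolic bit: a constant or a literal. -/
inductive Sy (Q1 Q2 : Type) : Type
  | cst (b : Bool) : Sy Q1 Q2
  | fst (q : Q1) (s : Bool) : Sy Q1 Q2
  | snd (q : Q2) (s : Bool) : Sy Q1 Q2

/-- The value of a symbolic bit. -/
def Sy.ev {Q1 Q2 : Type} (w1 : Q1 → Bool) (w2 : Q2 → Bool) : Sy Q1 Q2 → Bool
  | Sy.cst b => b
  | Sy.fst q s => xor (w1 q) s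
  | Sy.snd q s => xor (w2 q) s

theorem sy_proj_one {Q1 Q2 I : Type} (S : I → Sy Q1 Q2) (w2 : Q2 → Bool) :
    IsProj (fun (w1 : Q1 → Bool) i => (S i).ev w1 w2) := by
  intro i
  rcases h : S i with b | ⟨q, s⟩ | ⟨q, s⟩
  · exact Or.inl ⟨b, fun w => by simp only [h, Sy.ev]⟩
  · exact Or.inr ⟨q, s, fun w => by simp only [h, Sy.ev]⟩
  · exact Or.inl ⟨xor (w2 q) s, fun w => by simp only [h, Sy.ev]⟩

theorem sy_proj_two {Q1 Q2 I : Type} (S : I → Sy Q1 Q2) (w1 : Q1 → Bool) :
    IsProj (fun (w2 : Q2 → Bool) i => (S i).ev w1 w2) := by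
  intro i
  rcases h : S i with b | ⟨q, s⟩ | ⟨q, s⟩
  · exact Or.inl ⟨b, fun w => by simp only [h, Sy.ev]⟩
  · exact Or.inl ⟨xor (w1 q) s, fun w => by simp only [h, Sy.ev]⟩
  · exact Or.inr ⟨q, s, fun w => by simp only [h, Sy.ev]⟩

theorem opn_iff' {R K : Type} [Fintype R] [Fintype K] (u : R × K → Bool) (D : Finset (R × K))
    (q : (R × K) × Bool) : opn u D q = true ↔ q.1 ∈ D ∨ q.2 = u q.1 := by
  unfold opn
  rw [Bool.or_eq_true, decide_eq_true_iff, beq_iff_eq]

/-- At least one copy is true; both iff the block is opened. -/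
theorem opn_cases {R K : Type} [Fintype R] [Fintype K] (u : R × K → Bool) (D : Finset (R × K))
    (x : R × K) : (x ∈ D ∧ opn u D (x, false) = true ∧ opn u D (x, true) = true) ∨
      (x ∉ D ∧ ((opn u D (x, false) = true ∧ opn u D (x, true) = false) ∨
        (opn u D (x, false) = false ∧ opn u D (x, true) = true))) := by
  by_cases hx : x ∈ D
  · left
    exact ⟨hx, (opn_iff' _ _ _).mpr (Or.inl hx), (opn_iff' _ _ _).mpr (Or.inl hx)⟩
  · right
    refine ⟨hx, ?_⟩
    have e : ∀ b, opn u D (x, b) = true ↔ b = u x := by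
      intro b
      rw [opn_iff']
      simp [hx]
    cases hu : u x
    · left
      constructor
      · rw [e, hu]
      · rw [← Bool.not_eq_true, e, hu]; simp
    · right
      constructor
      · rw [← Bool.not_eq_true, e, hu]; simp
      · rw [e, hu]

end Pool.Agent.H596R2.D3R
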