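import Pool.Agent.H596R2.D3.Emb

/-!
Typical choice functions: if a small OR of CNFs accepts the instance in which the blocks
`(i, J i)`, `i ∈ Q`, are opened, then it accepts many sub-instances.
-/

namespace Pool.Agent.H596R2.D3R

open Finset Classical Pool.Agent.H596R2.D3

set_option linter.unusedSectionVars false

section typ

variable {R K : Type} [Fintype R] [Fintype K]

/-- The blocks `(i, J i)`, `i ∈ Q`. -/
noncomputable def gr (J : R → K) (Q : Finset R) : Finset (R × K) := Q.image (fun i => (i, J i))

theorem mem_gr (J : R → K) (Q : Finset R) (x : R × K) :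
    x ∈ gr J Q ↔ x.1 ∈ Q ∧ J x.1 = x.2 := by
  unfold gr
  simp only [mem_image]
  constructor
  · rintro ⟨i, hi, rfl⟩; exact ⟨hi, rfl⟩
  · rintro ⟨h1, h2⟩; exact ⟨x.1, h1, by rw [h2]⟩

theorem card_gr (J : R → K) (Q : Finset R) : (gr J Q).card = Q.card := by
  unfold gr
  apply card_image_of_injective
  intro i j h
  simpa using (Prod.ext_iff.mp h).1

theorem gr_mono (J : R → K) {Q Q' : Finset R} (h : Q ⊆ Q') : gr J Q ⊆ gr J Q' := by
  intro x hx
  rw [mem_gr] at hx ⊢
  exact ⟨h hx.1, hx.2⟩

/-- Blocks whose unopened state satisfies the gate. -/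
noncomputable def Nb (u : R × K → Bool) (G : OrGate ((R × K) × Bool)) : Finset (R × K) :=
  univ.filter (fun x => (x, !u x) ∈ G.neg)

theorem holds_iff (u : R × K → Bool) (G : OrGate ((R × K) × Bool)) (D : Finset (R × K)) :
    G.Holds (opn u D) ↔ G.cst ∨ (∃ q ∈ G.pos, q.2 = u q.1) ∨ (∃ q ∈ G.pos, q.1 ∈ D) ∨
      (∃ x ∈ Nb u G, x ∉ D) := by
  unfold OrGate.Holds opn Nb
  constructor
  · rintro (h | ⟨q, hq, h⟩ | ⟨q, hq, h⟩)
    · exact Or.inl h
    · rw [Bool.or_eq_true, decide_eq_true_iff, beq_iff_eq] at h
      rcases h with h | h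
      · exact Or.inr (Or.inr (Or.inl ⟨q, hq, h⟩))
      · exact Or.inr (Or.inl ⟨q, hq, h⟩)
    · rw [Bool.or_eq_false_iff, decide_eq_false_iff_not, beq_eq_false_iff_ne] at h
      refine Or.inr (Or.inr (Or.inr ⟨q.1, ?_, h.1⟩))
      simp only [mem_filter, mem_univ, true_and]
      have : (!u q.1) = q.2 := by
        cases hu : u q.1 <;> cases hq2 : q.2 <;> simp_all
      rw [this]
      exact hq
  · rintro (h | ⟨q, hq, h⟩ | ⟨q, hq, h⟩ | ⟨x, hx, h⟩)
    · exact Or.inl h
    · exact Or.inr (Or.inl ⟨q, hq, by simp [h]⟩)
    · exact Or.inr (Or.inl ⟨q, hq, by simp [h]⟩)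
    · simp only [mem_filter, mem_univ, true_and] at hx
      exact Or.inr (Or.inr ⟨_, hx, by simp [h]⟩)

/-- The CNF `S` accepts the instance. -/
def Acc (S : Set (OrGate ((R × K) × Bool))) (u : R × K → Bool) (J : R → K) (Q : Finset R) : Prop :=
  ∀ G ∈ S, G.Holds (opn u (gr J Q))

theorem card_sub (X : Finset (R × K)) :
    (univ.filter (fun J : R → K => ∀ x ∈ X, J x.1 = x.2)).card * Fintype.card K ^ X.card
      ≤ Fintype.card K ^ Fintype.card R := by
  rcases (univ.filter (fun J : R → K => ∀ x ∈ X, J x.1 = x.2)).eq_empty_or_nonempty with h | h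
  · rw [h]; simp
  · obtain ⟨J1, hJ1⟩ := h
    simp only [mem_filter, mem_univ, true_and] at hJ1
    have hinj : Set.InjOn (Prod.fst : R × K → R) (X : Set (R × K)) := by
      intro x hx y hy hxy
      have h1 := hJ1 x hx
      have h2 := hJ1 y hy
      apply Prod.ext hxy
      rw [← h1, ← h2]
      exact congrArg J1 hxy
    have hc : (X.image Prod.fst).card = X.card := card_image_of_injOn hinj
    have hsub : univ.filter (fun J : R → K => ∀ x ∈ X, J x.1 = x.2) ⊆
        Fintype.piFinset (fun i => if i ∈ X.image Prod.fst then {J1 i} else univ) := by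
      intro J hJ
      simp only [mem_filter, mem_univ, true_and] at hJ
      rw [Fintype.mem_piFinset]
      intro i
      by_cases hi : i ∈ X.image Prod.fst
      · simp only [hi, if_true, mem_singleton]
        obtain ⟨x, hx, rfl⟩ := mem_image.mp hi
        rw [hJ x hx, hJ1 x hx]
      · simp [hi]
    have hcard : (Fintype.piFinset (fun i : R => if i ∈ X.image Prod.fst then ({J1 i} : Finset K)
        else univ)).card = Fintype.card K ^ (Fintype.card R - X.card) := by
      rw [Fintype.card_piFinset]
      have : ∀ i : R, (if i ∈ X.image Prod.fst then ({J1 i} : Finset K) else univ).card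
          = if i ∈ X.image Prod.fst then 1 else Fintype.card K := by
        intro i
        split_ifs <;> simp
      rw [prod_congr rfl (fun i _ => this i), prod_ite]
      simp only [prod_const_one, prod_const, one_mul]
      congr 1
      have h3 : univ.filter (fun i => i ∉ X.image Prod.fst) = univ \ X.image Prod.fst := by
        ext i; simp
      rw [h3, card_sdiff_of_subset (subset_univ _), card_univ, hc]
    have hle : X.card ≤ Fintype.card R := by
      rw [← hc, ← card_univ]; exact card_le_card (subset_univ _)
    calc _ ≤ Fintype.card K ^ (Fintype.card R - X.card) * Fintype.card K ^ X.card := by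
          apply Nat.mul_le_mul_right
          rw [← hcard]
          exact card_le_card hsub
      _ = Fintype.card K ^ Fintype.card R := by
          rw [← pow_add]; congr 1; omega

/-- The set of choice functions for which the process started at `Γ` lasts at least `j` steps. -/
noncomputable def Long (S : Set (OrGate ((R × K) × Bool))) (u : R × K → Bool) (Q Γ : Finset R)
    (j : ℕ) : Finset (R → K) :=
  univ.filter (fun J => Acc S u J Q ∧
    ∀ Γ', Γ ⊆ Γ' → Γ' ⊆ Q → Γ'.card < Γ.card + j → ¬ Acc S u J Γ')

theorem proc (S : Set (OrGate ((R × K) × Bool))) (u : R × K → Bool) (p : ℕ)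
    (hgood : ∀ G ∈ S, Good u p G) (Q : Finset R) (j : ℕ) : ∀ (Γ : Finset R) (J0 : R → K), Γ ⊆ Q →
    ((Long S u Q Γ j).filter (fun J => ∀ i ∈ Γ, J i = J0 i)).card
      * Fintype.card K ^ (Γ.card + j) ≤ p ^ j * Fintype.card K ^ Fintype.card R := by
  induction j with
  | zero =>
    intro Γ J0 hΓ
    have h := card_sub (gr J0 Γ)
    rw [card_gr] at h
    rw [pow_zero, one_mul, add_zero]
    refine le_trans (Nat.mul_le_mul_right _ (card_le_card ?_)) h
    intro J hJ
    simp only [mem_filter, mem_univ, true_and] at hJ ⊢
    intro x hx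
    rw [mem_gr] at hx
    rw [hJ.2 x.1 hx.1, hx.2]
  | succ j ih =>
    intro Γ J0 hΓ
    rcases ((Long S u Q Γ (j + 1)).filter (fun J => ∀ i ∈ Γ, J i = J0 i)).eq_empty_or_nonempty
      with h | ⟨J1, hJ1⟩
    · rw [h]; simp
    · have hgr : ∀ J : R → K, (∀ i ∈ Γ, J i = J0 i) → gr J Γ = gr J0 Γ := by
        intro J hJ
        unfold gr
        apply image_congr
        intro i hi
        simp only
        rw [hJ i hi]
      simp only [Long, mem_filter, mem_univ, true_and] at hJ1
      have hrej := hJ1.1.2 Γ (Subset.refl _) hΓ (by omega)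
      unfold Acc at hrej
      push Not at hrej
      obtain ⟨G, hG, hno⟩ := hrej
      rw [hgr J1 hJ1.2] at hno
      have hno' := hno
      rw [holds_iff] at hno'
      push Not at hno'
      obtain ⟨n1, n2, n3, n4⟩ := hno'
      rcases hgood G hG with ⟨q, hq, hqu⟩ | ⟨P, hPc, hP⟩
      · exact absurd hqu (n2 q hq)
      · let P' := P.filter (fun x => x.1 ∈ Q ∧ x.1 ∉ Γ)
        have hsub : (Long S u Q Γ (j + 1)).filter (fun J => ∀ i ∈ Γ, J i = J0 i) ⊆
            P'.biUnion (fun x => (Long S u Q (insert x.1 Γ) j).filter
              (fun J => ∀ i ∈ insert x.1 Γ, J i = Function.update J0 x.1 x.2 i)) := by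
          intro J hJ
          simp only [Long, mem_filter, mem_univ, true_and] at hJ
          obtain ⟨⟨hacc, hrej⟩, hag⟩ := hJ
          have h1 := hacc G hG
          rw [holds_iff] at h1
          rcases h1 with h1 | ⟨q, hq, h1⟩ | ⟨q, hq, h1⟩ | ⟨x, hx, h1⟩
          · exact absurd h1 n1
          · exact absurd h1 (n2 q hq)
          · have h2 := n3 q hq
            rw [mem_gr] at h1
            have h3 : q.1.1 ∉ Γ := by
              intro h3
              apply h2
              rw [← hgr J hag, mem_gr]
              exact ⟨h3, h1.2⟩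
            simp only [mem_biUnion]
            refine ⟨q.1, ?_, ?_⟩
            · simp only [P', mem_filter]
              exact ⟨hP q hq, h1.1, h3⟩
            · simp only [Long, mem_filter, mem_univ, true_and]
              refine ⟨⟨hacc, ?_⟩, ?_⟩
              · intro Γ' hs1 hs2 hc
                rw [card_insert_of_notMem h3] at hc
                exact hrej Γ' ((subset_insert _ _).trans hs1) hs2 (by omega)
              · intro i hi
                rcases mem_insert.mp hi with rfl | hi
                · simp [h1.2]
                · rw [Function.update_of_ne, hag i hi]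
                  rintro rfl
                  exact h3 hi
          · exfalso
            apply h1
            have := n4 x hx
            rw [← hgr J hag] at this
            exact gr_mono J hΓ this
        calc _ ≤ (∑ x ∈ P', ((Long S u Q (insert x.1 Γ) j).filter
              (fun J => ∀ i ∈ insert x.1 Γ, J i = Function.update J0 x.1 x.2 i)).card)
                * Fintype.card K ^ (Γ.card + (j + 1)) := by
              apply Nat.mul_le_mul_right
              exact (card_le_card hsub).trans card_biUnion_le
          _ = ∑ x ∈ P', ((Long S u Q (insert x.1 Γ) j).filter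
              (fun J => ∀ i ∈ insert x.1 Γ, J i = Function.update J0 x.1 x.2 i)).card
                * Fintype.card K ^ (Γ.card + (j + 1)) := by rw [sum_mul]
          _ ≤ ∑ x ∈ P', p ^ j * Fintype.card K ^ Fintype.card R := by
              apply sum_le_sum
              intro x hx
              simp only [P', mem_filter] at hx
              have h := ih (insert x.1 Γ) (Function.update J0 x.1 x.2)
                (insert_subset hx.2.1 hΓ)
              rw [card_insert_of_notMem hx.2.2] at h
              have e : Γ.card + 1 + j = Γ.card + (j + 1) := by ring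
              rw [e] at h
              exact h
          _ = P'.card * (p ^ j * Fintype.card K ^ Fintype.card R) := by
              rw [sum_const, smul_eq_mul]
          _ ≤ p * (p ^ j * Fintype.card K ^ Fintype.card R) := by
              apply Nat.mul_le_mul_right
              exact (card_filter_le _ _).trans hPc
          _ = p ^ (j + 1) * Fintype.card K ^ Fintype.card R := by ring

theorem card_long (S : Set (OrGate ((R × K) × Bool))) (u : R × K → Bool) (p : ℕ)
    (hgood : ∀ G ∈ S, Good u p G) (Q Γ : Finset R) (hΓ : Γ ⊆ Q) (j : ℕ)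
    (hK : 0 < Fintype.card K) :
    (Long S u Q Γ j).card * Fintype.card K ^ j ≤ p ^ j * Fintype.card K ^ Fintype.card R := by
  let f : (R → K) → (Γ → K) := fun J i => J i.1
  have h1 : (Long S u Q Γ j).card = ∑ α : Γ → K, ((Long S u Q Γ j).filter (fun J => f J = α)).card :=
    card_eq_sum_card_fiberwise (fun J _ => by simp)
  have h2 : ∀ α : Γ → K, ((Long S u Q Γ j).filter (fun J => f J = α)).card
      * Fintype.card K ^ (Γ.card + j) ≤ p ^ j * Fintype.card K ^ Fintype.card R := by
    intro α
    rcases ((Long S u Q Γ j).filter (fun J => f J = α)).eq_empty_or_nonempty with h | ⟨J0, hJ0⟩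
    · rw [h]; simp
    · refine le_trans (Nat.mul_le_mul_right _ (card_le_card ?_)) (proc S u p hgood Q j Γ J0 hΓ)
      intro J hJ
      rw [mem_filter] at hJ hJ0 ⊢
      refine ⟨hJ.1, ?_⟩
      intro i hi
      have e1 := congrFun (hJ.2.trans hJ0.2.symm) ⟨i, hi⟩
      exact e1
  have h3 : (Long S u Q Γ j).card * Fintype.card K ^ (Γ.card + j) ≤
      Fintype.card K ^ Γ.card * (p ^ j * Fintype.card K ^ Fintype.card R) := by
    rw [h1, sum_mul]
    calc _ ≤ ∑ α : Γ → K, p ^ j * Fintype.card K ^ Fintype.card R := sum_le_sum (fun α _ => h2 α)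
      _ = _ := by
          rw [sum_const, smul_eq_mul, card_univ, Fintype.card_fun, Fintype.card_coe]
  have h4 : 0 < Fintype.card K ^ Γ.card := pow_pos hK _
  rw [pow_add] at h3
  apply Nat.le_of_mul_le_mul_left _ h4
  calc Fintype.card K ^ Γ.card * ((Long S u Q Γ j).card * Fintype.card K ^ j)
      = (Long S u Q Γ j).card * (Fintype.card K ^ Γ.card * Fintype.card K ^ j) := by ring
    _ ≤ _ := h3

/-- The choice functions for which the gate `G` has a positive hit and `k` negative blocks. -/
noncomputable def Wide (G : OrGate ((R × K) × Bool)) (u : R × K → Bool) (k : ℕ) : Finset (R → K) :=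
  univ.filter (fun J => (∀ x ∈ Nb u G, J x.1 = x.2) ∧ k ≤ (Nb u G).card ∧
    ∃ q ∈ G.pos, J q.1.1 = q.1.2 ∧ q.1 ∉ Nb u G)

theorem card_wide (G : OrGate ((R × K) × Bool)) (u : R × K → Bool) (p k : ℕ)
    (hP : ∃ P : Finset (R × K), P.card ≤ p ∧ ∀ q ∈ G.pos, q.1 ∈ P) :
    (Wide G u k).card * Fintype.card K ^ (k + 1) ≤ p * Fintype.card K ^ Fintype.card R := by
  obtain ⟨P, hPc, hP⟩ := hP
  by_cases hk : k ≤ (Nb u G).card
  · obtain ⟨N', hN', hN'c⟩ := exists_subset_card_eq hk
    let P' := P.filter (fun x => x ∉ Nb u G)
    have hsub : Wide G u k ⊆ P'.biUnion (fun x => univ.filter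
        (fun J : R → K => ∀ y ∈ insert x N', J y.1 = y.2)) := by
      intro J hJ
      simp only [Wide, mem_filter, mem_univ, true_and] at hJ
      obtain ⟨h1, _, q, hq, h2, h3⟩ := hJ
      simp only [mem_biUnion]
      refine ⟨q.1, ?_, ?_⟩
      · simp only [P', mem_filter]
        exact ⟨hP q hq, h3⟩
      · simp only [mem_filter, mem_univ, true_and]
        intro y hy
        rcases mem_insert.mp hy with rfl | hy
        · exact h2
        · exact h1 y (hN' hy)
    calc _ ≤ (∑ x ∈ P', (univ.filter
        (fun J : R → K => ∀ y ∈ insert x N', J y.1 = y.2)).card) * Fintype.card K ^ (k + 1) := by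
          apply Nat.mul_le_mul_right
          exact (card_le_card hsub).trans card_biUnion_le
      _ = ∑ x ∈ P', (univ.filter
        (fun J : R → K => ∀ y ∈ insert x N', J y.1 = y.2)).card * Fintype.card K ^ (k + 1) := by
          rw [sum_mul]
      _ ≤ ∑ x ∈ P', Fintype.card K ^ Fintype.card R := by
          apply sum_le_sum
          intro x hx
          simp only [P', mem_filter] at hx
          have h := card_sub (insert x N')
          rw [card_insert_of_notMem (fun h => hx.2 (hN' h)), hN'c] at h
          exact h
      _ = P'.card * Fintype.card K ^ Fintype.card R := by rw [sum_const, smul_eq_mul]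
      _ ≤ _ := by
          apply Nat.mul_le_mul_right
          exact (card_filter_le _ _).trans hPc
  · have : Wide G u k = ∅ := by
      unfold Wide
      rw [filter_eq_empty_iff]
      rintro J _ ⟨_, h, _⟩
      exact hk h
    rw [this]; simp

end typ

/-- Independent sets in directed graphs of small out-degree. -/
theorem indep {V : Type} (d : ℕ) (N : V → Finset V) : ∀ (n : ℕ) (A : Finset V), A.card ≤ n →
    (∀ v ∈ A, (N v).card ≤ d) →
    ∃ B ⊆ A, A.card ≤ (2 * d + 1) * B.card ∧ ∀ v ∈ B, ∀ w ∈ B, v ≠ w → w ∉ N v := by
  intro n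
  induction n with
  | zero =>
    intro A hA _
    refine ⟨∅, by simp, ?_, by simp⟩
    simpa using hA
  | succ n ih =>
    intro A hA hN
    rcases A.eq_empty_or_nonempty with h | hne
    · exact ⟨∅, by simp, by simp [h], by simp⟩
    · -- a vertex of small in-degree
      have hin : ∃ v ∈ A, (A.filter (fun w => v ∈ N w)).card ≤ d := by
        by_contra hcon
        push Not at hcon
        have h1 : ∑ v ∈ A, (A.filter (fun w => v ∈ N w)).card =
            ∑ w ∈ A, (A.filter (fun v => v ∈ N w)).card := by
          simp only [card_filter]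
          exact sum_comm
        have h2 : ∑ w ∈ A, (A.filter (fun v => v ∈ N w)).card ≤ ∑ w ∈ A, d := by
          apply sum_le_sum
          intro w hw
          refine le_trans (card_le_card ?_) (hN w hw)
          intro v hv
          exact (mem_filter.mp hv).2
        have h3 : ∑ v ∈ A, (d + 1) ≤ ∑ v ∈ A, (A.filter (fun w => v ∈ N w)).card :=
          sum_le_sum (fun v hv => hcon v hv)
        rw [sum_const, smul_eq_mul] at h2 h3
        have h4 : A.card * (d + 1) ≤ A.card * d := by omega
        have h5 : 0 < A.card := card_pos.mpr hne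
        have := Nat.le_of_mul_le_mul_left h4 h5
        omega
      obtain ⟨v, hv, hvd⟩ := hin
      let A' := A.filter (fun w => w ≠ v ∧ w ∉ N v ∧ v ∉ N w)
      have hA'lt : A'.card < A.card := by
        apply card_lt_card
        rw [ssubset_iff_of_subset (filter_subset _ _)]
        exact ⟨v, hv, by simp⟩
      obtain ⟨B, hB1, hB2, hB3⟩ := ih A' (by omega)
        (fun w hw => hN w (mem_filter.mp hw).1)
      have hvB : v ∉ B := fun h => (mem_filter.mp (hB1 h)).2.1 rfl
      refine ⟨insert v B, ?_, ?_, ?_⟩
      · apply insert_subset hv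
        exact hB1.trans (filter_subset _ _)
      · rw [card_insert_of_notMem hvB]
        have hcov : A ⊆ A' ∪ ({v} ∪ (N v ∪ A.filter (fun w => v ∈ N w))) := by
          intro w hw
          simp only [A', mem_union, mem_filter, mem_singleton]
          tauto
        have h1 : A.card ≤ A'.card + (1 + (d + d)) := by
          calc A.card ≤ _ := card_le_card hcov
            _ ≤ A'.card + ({v} ∪ (N v ∪ A.filter (fun w => v ∈ N w))).card := card_union_le _ _
            _ ≤ A'.card + (1 + (d + d)) := by
                have e1 := card_union_le {v} (N v ∪ A.filter (fun w => v ∈ N w))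
                have e2 := card_union_le (N v) (A.filter (fun w => v ∈ N w))
                have e3 := hN v hv
                rw [card_singleton] at e1
                omega
        nlinarith
      · intro x hx y hy hxy
        rcases mem_insert.mp hx with ex | hx'
        · rcases mem_insert.mp hy with ey | hy'
          · exact absurd (ex.trans ey.symm) hxy
          · rw [ex]
            exact (mem_filter.mp (hB1 hy')).2.2.1
        · rcases mem_insert.mp hy with ey | hy'
          · rw [ey]
            exact (mem_filter.mp (hB1 hx')).2.2.2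
          · exact hB3 x hx' y hy' hxy

end Pool.Agent.H596R2.D3R
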