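import Pool.Agent.H596R2.D3R.Typ

/-!
Typical pairs (background, choice function).
-/

namespace Pool.Agent.H596R2.D3R

open Finset Classical Pool.Agent.H596R2.D3

set_option linter.unusedSectionVars false

section typ

variable {R K : Type} [Fintype R] [Fintype K]

theorem c_one (S : Set (OrGate ((R × K) × Bool))) (u : R × K → Bool) (J : R → K) (k : ℕ)
    (hlong : ∀ Q Γ : Finset R, Γ ⊆ Q → J ∉ Long S u Q Γ (k + 1)) (Q : Finset R)
    (hQ : Acc S u J Q) (Γ : Finset R) (hΓ : Γ ⊆ Q) :
    ∃ Γ', Γ ⊆ Γ' ∧ Γ' ⊆ Q ∧ Γ'.card ≤ Γ.card + k ∧ Acc S u J Γ' := by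
  have h := hlong Q Γ hΓ
  simp only [Long, mem_filter, mem_univ, true_and] at h
  push Not at h
  obtain ⟨Γ', h1, h2, h3, h4⟩ := h hQ
  exact ⟨Γ', h1, h2, by omega, h4⟩

theorem c_two (S : Set (OrGate ((R × K) × Bool))) (u : R × K → Bool) (J : R → K) (k : ℕ)
    (hk : 1 ≤ k)
    (hlong : ∀ Q Γ : Finset R, Γ ⊆ Q → J ∉ Long S u Q Γ (k + 1))
    (hwide : ∀ G ∈ S, (¬ ∃ q ∈ G.pos, q.2 = u q.1) → J ∉ Wide G u k)
    (Q : Finset R) (hQ : Acc S u J Q) {E : Type} [Fintype E] (g : R → E) :
    (univ.filter (fun e : E => ¬ Acc S u J (Q.filter (fun i => g i ≠ e)))).card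
      ≤ k * (2 * k - 1) := by
  by_contra hcon
  push Not at hcon
  set A := univ.filter (fun e : E => ¬ Acc S u J (Q.filter (fun i => g i ≠ e))) with hA
  have hex : ∀ e ∈ A, ∃ G ∈ S, ¬ G.Holds (opn u (gr J (Q.filter (fun i => g i ≠ e)))) := by
    intro e he
    simp only [A, mem_filter, mem_univ, true_and, Acc] at he
    push Not at he
    exact he
  have : Nonempty (OrGate ((R × K) × Bool)) := ⟨⟨True, ∅, ∅⟩⟩
  choose! G hGS hG using hex
  -- the properties of the gates
  have hprop : ∀ e ∈ A, ¬ (G e).cst ∧ (∀ q ∈ (G e).pos, q.2 ≠ u q.1) ∧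
      (∀ q ∈ (G e).pos, q.1 ∉ gr J (Q.filter (fun i => g i ≠ e))) ∧
      (∀ x ∈ Nb u (G e), x ∈ gr J (Q.filter (fun i => g i ≠ e))) := by
    intro e he
    have h := hG e he
    rw [holds_iff] at h
    push Not at h
    exact h
  have hcard : ∀ e ∈ A, (Nb u (G e)).card ≤ k - 1 := by
    intro e he
    obtain ⟨n1, n2, n3, n4⟩ := hprop e he
    have h1 := hQ (G e) (hGS e he)
    rw [holds_iff] at h1
    have h2 : ∃ q ∈ (G e).pos, q.1 ∈ gr J Q := by
      rcases h1 with h1 | ⟨q, hq, h1⟩ | h1 | ⟨x, hx, h1⟩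
      · exact absurd h1 n1
      · exact absurd h1 (n2 q hq)
      · exact h1
      · exact absurd (gr_mono J (filter_subset _ _) (n4 x hx)) h1
    obtain ⟨q, hq, hqJ⟩ := h2
    have h3 := hwide (G e) (hGS e he) (by
      rintro ⟨q', hq', h⟩
      exact n2 q' hq' h)
    by_contra hlt
    apply h3
    simp only [Wide, mem_filter, mem_univ, true_and]
    refine ⟨?_, by omega, q, hq, ((mem_gr _ _ _).mp hqJ).2, fun h => n3 q hq (n4 _ h)⟩
    intro x hx
    exact ((mem_gr _ _ _).mp (n4 x hx)).2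
  obtain ⟨B, hBA, hBc, hBi⟩ := indep (k - 1) (fun e => (Nb u (G e)).image (fun x => g x.1))
    A.card A le_rfl (fun e he => card_image_le.trans (hcard e he))
  have hBk : k < B.card := by
    by_contra hle
    push Not at hle
    have e1 : 2 * (k - 1) + 1 = 2 * k - 1 := by omega
    rw [e1] at hBc
    have : (2 * k - 1) * B.card ≤ (2 * k - 1) * k := Nat.mul_le_mul_left _ hle
    rw [mul_comm (2 * k - 1) k] at this
    omega
  let Γ : Finset R := B.biUnion (fun e => (Nb u (G e)).image Prod.fst)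
  have hΓQ : Γ ⊆ Q := by
    intro i hi
    simp only [Γ, mem_biUnion, mem_image] at hi
    obtain ⟨e, he, x, hx, rfl⟩ := hi
    have := (hprop e (hBA he)).2.2.2 x hx
    rw [mem_gr] at this
    exact (mem_filter.mp this.1).1
  have hΓB : ∀ i ∈ Γ, g i ∉ B := by
    intro i hi
    simp only [Γ, mem_biUnion, mem_image] at hi
    obtain ⟨e, he, x, hx, rfl⟩ := hi
    intro hgB
    by_cases heq : e = g x.1
    · have := (hprop e (hBA he)).2.2.2 x hx
      rw [mem_gr] at this
      exact (mem_filter.mp this.1).2 heq.symm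
    · exact hBi e he (g x.1) hgB heq (mem_image.mpr ⟨x, hx, rfl⟩)
  obtain ⟨Γ', h1, h2, h3, h4⟩ := c_one S u J k hlong Q hQ Γ hΓQ
  have hex : ∃ e ∈ B, ∀ i ∈ Γ', g i ≠ e := by
    by_contra hno
    push Not at hno
    have hsub : B ⊆ (Γ' \ Γ).image g := by
      intro e he
      obtain ⟨i, hi, hgi⟩ := hno e he
      refine mem_image.mpr ⟨i, mem_sdiff.mpr ⟨hi, ?_⟩, hgi⟩
      intro hiΓ
      exact hΓB i hiΓ (hgi ▸ he)
    have := (card_le_card hsub).trans card_image_le
    rw [card_sdiff_of_subset h1] at this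
    omega
  obtain ⟨e, he, hno⟩ := hex
  obtain ⟨n1, n2, n3, n4⟩ := hprop e (hBA he)
  have h5 := h4 (G e) (hGS e (hBA he))
  rw [holds_iff] at h5
  rcases h5 with h5 | ⟨q, hq, h5⟩ | ⟨q, hq, h5⟩ | ⟨x, hx, h5⟩
  · exact n1 h5
  · exact n2 q hq h5
  · apply n3 q hq
    rw [mem_gr] at h5 ⊢
    exact ⟨mem_filter.mpr ⟨h2 h5.1, hno _ h5.1⟩, h5.2⟩
  · apply h5
    have h6 := n4 x hx
    rw [mem_gr] at h6 ⊢
    refine ⟨h1 ?_, h6.2⟩
    simp only [Γ, mem_biUnion, mem_image]
    exact ⟨e, he, x, hx, rfl⟩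

/-- Few backgrounds are bad for a gate. -/
theorem bad_bg (p : ℕ) (G : OrGate ((R × K) × Bool)) :
    (univ.filter (fun u : R × K → Bool => ¬ Good u p G)).card * 2 ^ (p + 1)
      ≤ 2 ^ Fintype.card (R × K) := by
  set B := Fintype.card (R × K) with hB
  let T : Finset (R × K) := univ.filter (fun x => ∃ l, (x, l) ∈ G.pos)
  have hT : ∀ x ∈ T, ∃ l, (x, l) ∈ G.pos := by
    intro x hx
    simpa [T] using hx
  choose! l hl using hT
  by_cases hTc : T.card ≤ p
  · have : univ.filter (fun u : R × K → Bool => ¬ Good u p G) = ∅ := by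
      rw [filter_eq_empty_iff]
      intro u _
      push Not
      right
      refine ⟨T, hTc, ?_⟩
      intro q hq
      simp only [T, mem_filter, mem_univ, true_and]
      exact ⟨q.2, hq⟩
    rw [this]
    simp
  · push Not at hTc
    have hsub : univ.filter (fun u : R × K → Bool => ¬ Good u p G) ⊆
        Fintype.piFinset (fun x => if x ∈ T then {!(l x)} else univ) := by
      intro u hu
      simp only [mem_filter, mem_univ, true_and, Good, not_or] at hu
      rw [Fintype.mem_piFinset]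
      intro x
      by_cases hx : x ∈ T
      · simp only [hx, if_true, mem_singleton]
        have h1 := hu.1
        push Not at h1
        have h2 := h1 _ (hl x hx)
        simp only at h2
        cases hh : l x <;> cases hu2 : u x <;> simp_all
      · simp [hx]
    have hcard : (Fintype.piFinset (fun x : R × K => if x ∈ T then {!(l x)} else
        (univ : Finset Bool))).card = 2 ^ (B - T.card) := by
      rw [Fintype.card_piFinset]
      have : ∀ x : R × K, (if x ∈ T then ({!(l x)} : Finset Bool) else univ).card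
          = if x ∈ T then 1 else 2 := by
        intro x
        split_ifs <;> simp
      rw [prod_congr rfl (fun x _ => this x)]
      rw [prod_ite]
      simp only [prod_const_one, prod_const, one_mul]
      congr 1
      have h3 : (univ.filter (fun x => x ∉ T)).card = B - T.card := by
        have : univ.filter (fun x => x ∉ T) = univ \ T := by
          ext x; simp
        rw [this, card_sdiff_of_subset (subset_univ T), card_univ]
      exact h3
    calc _ ≤ 2 ^ (B - T.card) * 2 ^ (p + 1) := by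
          apply Nat.mul_le_mul_right
          rw [← hcard]
          exact card_le_card hsub
      _ = 2 ^ (B - T.card + (p + 1)) := (pow_add 2 (B - T.card) (p + 1)).symm
      _ ≤ 2 ^ B := by
          apply Nat.pow_le_pow_right (by norm_num)
          have : T.card ≤ B := by
            rw [hB, ← card_univ]; exact card_le_card (subset_univ T)
          omega

end typ

theorem card_ex {A ι : Type} [Fintype A] [Fintype ι] (P : ι → A → Prop) (c : ℝ)
    (h : ∀ i (s : Finset A), (∀ x ∈ s, P i x) → (s.card : ℝ) ≤ c * Fintype.card A)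
    (s : Finset A) (hs : ∀ x ∈ s, ∃ i, P i x) :
    (s.card : ℝ) ≤ Fintype.card ι * c * Fintype.card A := by
  have hsub : s ⊆ univ.biUnion (fun i => s.filter (P i)) := by
    intro x hx
    obtain ⟨i, hi⟩ := hs x hx
    exact mem_biUnion.mpr ⟨i, mem_univ _, mem_filter.mpr ⟨hx, hi⟩⟩
  calc (s.card : ℝ) ≤ ((∑ i, (s.filter (P i)).card : ℕ) : ℝ) := by
          exact_mod_cast (card_le_card hsub).trans card_biUnion_le
    _ = ∑ i, ((s.filter (P i)).card : ℝ) := by push_cast; rfl
    _ ≤ ∑ i : ι, c * Fintype.card A :=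
        sum_le_sum (fun i _ => h i _ (fun x hx => (mem_filter.mp hx).2))
    _ = _ := by rw [sum_const, nsmul_eq_mul, card_univ]; ring

theorem card_sec {A B : Type} [Fintype A] [Fintype B] (P : A → B → Prop) (c : ℝ)
    (h : ∀ a (s : Finset B), (∀ x ∈ s, P a x) → (s.card : ℝ) ≤ c * Fintype.card B)
    (s : Finset (A × B)) (hs : ∀ x ∈ s, P x.1 x.2) :
    (s.card : ℝ) ≤ c * Fintype.card (A × B) := by
  have h1 : s.card = ∑ a, (s.filter (fun x => x.1 = a)).card :=
    card_eq_sum_card_fiberwise (fun x _ => by simp)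
  have h2 : ∀ a, ((s.filter (fun x => x.1 = a)).card : ℝ) ≤ c * Fintype.card B := by
    intro a
    have e : (s.filter (fun x => x.1 = a)).card = ((s.filter (fun x => x.1 = a)).image
        Prod.snd).card := by
      rw [card_image_of_injOn]
      intro x hx y hy hxy
      have e1 := (mem_filter.mp hx).2
      have e2 := (mem_filter.mp hy).2
      exact Prod.ext (e1.trans e2.symm) hxy
    rw [e]
    apply h a
    intro b hb
    obtain ⟨x, hx, rfl⟩ := mem_image.mp hb
    have e1 := mem_filter.mp hx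
    rw [← e1.2]
    exact hs x e1.1
  rw [h1]
  push_cast
  calc _ ≤ ∑ a : A, c * Fintype.card B := sum_le_sum (fun a _ => h2 a)
    _ = _ := by rw [sum_const, nsmul_eq_mul, card_univ, Fintype.card_prod]; push_cast; ring

theorem card_fst {A B : Type} [Fintype A] [Fintype B] (P : A → Prop) (c : ℝ)
    (h : ∀ s : Finset A, (∀ x ∈ s, P x) → (s.card : ℝ) ≤ c * Fintype.card A)
    (s : Finset (A × B)) (hs : ∀ x ∈ s, P x.1) :
    (s.card : ℝ) ≤ c * Fintype.card (A × B) := by
  have h1 : s ⊆ (s.image Prod.fst) ×ˢ (univ : Finset B) := by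
    intro x hx
    rw [mem_product]
    exact ⟨mem_image.mpr ⟨x, hx, rfl⟩, mem_univ _⟩
  have h2 := h (s.image Prod.fst) (by
    intro a ha
    obtain ⟨x, hx, rfl⟩ := mem_image.mp ha
    exact hs x hx)
  calc (s.card : ℝ) ≤ (((s.image Prod.fst) ×ˢ (univ : Finset B)).card : ℝ) := by
        exact_mod_cast card_le_card h1
    _ = ((s.image Prod.fst).card : ℝ) * Fintype.card B := by
        rw [card_product, card_univ]; push_cast; rfl
    _ ≤ (c * Fintype.card A) * Fintype.card B := mul_le_mul_of_nonneg_right h2 (by positivity)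
    _ = _ := by rw [Fintype.card_prod]; push_cast; ring

section typ

variable {R K : Type} [Fintype R] [Fintype K]

/-- The background is bad. -/
def X1 {ι : Type} (p : ℕ) (bot : ι → OrGate ((R × K) × Bool)) (u : R × K → Bool) : Prop :=
  ∃ i, ¬ Good u p (bot i)

/-- The process lasts long. -/
def X2 {T : Type} (p k : ℕ) (cnf : T → Set (OrGate ((R × K) × Bool)))
    (x : T × Finset R × Finset R) (y : (R × K → Bool) × (R → K)) : Prop :=
  (∀ G ∈ cnf x.1, Good y.1 p G) ∧ x.2.2 ⊆ x.2.1 ∧ y.2 ∈ Long (cnf x.1) y.1 x.2.1 x.2.2 (k + 1)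

/-- A wide gate is relevant. -/
def X3 {ι : Type} (p k : ℕ) (bot : ι → OrGate ((R × K) × Bool)) (i : ι)
    (y : (R × K → Bool) × (R → K)) : Prop :=
  (∃ P : Finset (R × K), P.card ≤ p ∧ ∀ q ∈ (bot i).pos, q.1 ∈ P) ∧ y.2 ∈ Wide (bot i) y.1 k

theorem card_X1 {ι : Type} [Fintype ι] (p : ℕ) (bot : ι → OrGate ((R × K) × Bool))
    (s : Finset ((R × K → Bool) × (R → K))) (hs : ∀ x ∈ s, X1 p bot x.1) :
    (s.card : ℝ) ≤
      ((Fintype.card ι : ℝ) / 2 ^ (p + 1)) * Fintype.card ((R × K → Bool) × (R → K)) := by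
  refine card_fst (X1 p bot) _ ?_ s hs
  intro s hs
  have := card_ex (fun i (u : R × K → Bool) => ¬ Good u p (bot i)) (1 / 2 ^ (p + 1)) (by
    intro i s hs
    have h := bad_bg p (bot i)
    have h2 : s.card ≤ (univ.filter (fun u : R × K → Bool => ¬ Good u p (bot i))).card :=
      card_le_card (fun u hu => mem_filter.mpr ⟨mem_univ _, hs u hu⟩)
    rw [Fintype.card_fun, Fintype.card_bool]
    rw [div_mul_eq_mul_div, one_mul, le_div_iff₀ (by positivity)]
    exact_mod_cast (Nat.mul_le_mul_right _ h2).trans h) s hs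
  calc (s.card : ℝ) ≤ _ := this
    _ = _ := by ring

theorem card_X2 {T : Type} [Fintype T] (p k : ℕ) (hK : 0 < Fintype.card K)
    (cnf : T → Set (OrGate ((R × K) × Bool)))
    (s : Finset ((R × K → Bool) × (R → K))) (hs : ∀ x ∈ s, ∃ y, X2 p k cnf y x) :
    (s.card : ℝ) ≤
      ((Fintype.card T : ℝ) * 4 ^ Fintype.card R * (p ^ (k + 1) / (Fintype.card K) ^ (k + 1))) *
      Fintype.card ((R × K → Bool) × (R → K)) := by
  have hKr : (0 : ℝ) < (Fintype.card K : ℝ) := by exact_mod_cast hK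
  have := card_ex (fun y (x : (R × K → Bool) × (R → K)) => X2 p k cnf y x)
    ((p : ℝ) ^ (k + 1) / (Fintype.card K) ^ (k + 1)) (by
    intro y s hs
    refine card_sec (fun (a : R × K → Bool) (b : R → K) => X2 p k cnf y (a, b)) _ ?_ s
      (fun x hx => hs x hx)
    intro u s hs
    rcases s.eq_empty_or_nonempty with h0 | ⟨J0, hJ0⟩
    · rw [h0, card_empty, Nat.cast_zero]
      positivity
    · have hy := hs J0 hJ0
      have hsub : s ⊆ Long (cnf y.1) u y.2.1 y.2.2 (k + 1) := by
        intro J hJ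
        exact (hs J hJ).2.2
      have h := card_long (cnf y.1) u p hy.1 y.2.1 y.2.2 hy.2.1 (k + 1) hK
      have h' : ((Long (cnf y.1) u y.2.1 y.2.2 (k + 1)).card : ℝ) *
          (Fintype.card K : ℝ) ^ (k + 1) ≤ (p : ℝ) ^ (k + 1) *
            (Fintype.card K : ℝ) ^ Fintype.card R := by exact_mod_cast h
      rw [Fintype.card_fun, div_mul_eq_mul_div, le_div_iff₀ (by positivity)]
      push_cast
      refine le_trans (mul_le_mul_of_nonneg_right ?_ (by positivity)) h'
      exact_mod_cast card_le_card hsub) s hs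
  refine this.trans (le_of_eq ?_)
  rw [Fintype.card_prod, Fintype.card_prod, Fintype.card_finset]
  have e : (4 : ℝ) ^ Fintype.card R = 2 ^ Fintype.card R * 2 ^ Fintype.card R := by
    rw [← mul_pow]; norm_num
  rw [e]
  push_cast
  ring

theorem card_X3 {ι : Type} [Fintype ι] (p k : ℕ) (hK : 0 < Fintype.card K)
    (bot : ι → OrGate ((R × K) × Bool))
    (s : Finset ((R × K → Bool) × (R → K))) (hs : ∀ x ∈ s, ∃ i, X3 p k bot i x) :
    (s.card : ℝ) ≤
      ((Fintype.card ι : ℝ) * (p / (Fintype.card K) ^ (k + 1))) *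
      Fintype.card ((R × K → Bool) × (R → K)) := by
  have hKr : (0 : ℝ) < (Fintype.card K : ℝ) := by exact_mod_cast hK
  refine card_ex (fun i (x : (R × K → Bool) × (R → K)) => X3 p k bot i x)
    ((p : ℝ) / (Fintype.card K) ^ (k + 1)) ?_ s hs
  intro i s hs
  refine card_sec (fun (a : R × K → Bool) (b : R → K) => X3 p k bot i (a, b)) _ ?_ s
      (fun x hx => hs x hx)
  intro u s hs
  rcases s.eq_empty_or_nonempty with h0 | ⟨J0, hJ0⟩
  · rw [h0, card_empty, Nat.cast_zero]
    positivity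
  · have hy := hs J0 hJ0
    have hsub : s ⊆ Wide (bot i) u k := by
      intro J hJ
      exact (hs J hJ).2
    have h := card_wide (bot i) u p k hy.1
    have h' : ((Wide (bot i) u k).card : ℝ) *
        (Fintype.card K : ℝ) ^ (k + 1) ≤ (p : ℝ) *
          (Fintype.card K : ℝ) ^ Fintype.card R := by exact_mod_cast h
    rw [Fintype.card_fun, div_mul_eq_mul_div, le_div_iff₀ (by positivity)]
    push_cast
    refine le_trans (mul_le_mul_of_nonneg_right ?_ (by positivity)) h'
    exact_mod_cast card_le_card hsub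

/-- Typical pairs. -/
theorem typical {ι T : Type} [Fintype ι] [Fintype T] (p k : ℕ) (hp : 1 ≤ p) (hk : 1 ≤ k)
    (hK : 0 < Fintype.card K)
    (bot : ι → OrGate ((R × K) × Bool)) (cnf : T → Set (OrGate ((R × K) × Bool)))
    (hcnf : ∀ t, ∀ G ∈ cnf t, (∃ i, G = bot i) ∨
      (G.pos.Subsingleton ∧ (G.pos.Nonempty → G.neg = ∅))) :
    ∃ Bad : Finset ((R × K → Bool) × (R → K)),
      (Bad.card : ℝ) ≤ ((Fintype.card ι : ℝ) / 2 ^ (p + 1) +
        (Fintype.card ι * p + Fintype.card T * 4 ^ Fintype.card R * p ^ (k + 1)) /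
          (Fintype.card K) ^ (k + 1)) * Fintype.card ((R × K → Bool) × (R → K)) ∧
      ∀ u J, (u, J) ∉ Bad → ∀ t Q, Acc (cnf t) u J Q →
        (∀ Γ ⊆ Q, ∃ Γ', Γ ⊆ Γ' ∧ Γ' ⊆ Q ∧ Γ'.card ≤ Γ.card + k ∧ Acc (cnf t) u J Γ') ∧
        (∀ (E : Type) [Fintype E] (g : R → E),
          (univ.filter (fun e : E => ¬ Acc (cnf t) u J (Q.filter (fun i => g i ≠ e)))).card
            ≤ k * (2 * k - 1)) := by
  have hgoodS : ∀ u : R × K → Bool, (∀ i, Good u p (bot i)) → ∀ t, ∀ G ∈ cnf t, Good u p G := by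
    intro u hu t G hG
    rcases hcnf t G hG with ⟨i, rfl⟩ | hx
    · exact hu i
    · right
      rcases G.pos.eq_empty_or_nonempty with h | ⟨q0, hq0⟩
      · exact ⟨∅, by simp, fun q hq => by rw [h] at hq; exact absurd hq (by simp)⟩
      · exact ⟨{q0.1}, by simpa using hp, fun q hq => by rw [hx.1 hq hq0]; simp⟩
  refine ⟨univ.filter (fun x : (R × K → Bool) × (R → K) => X1 p bot x.1) ∪
    (univ.filter (fun x : (R × K → Bool) × (R → K) => ∃ y, X2 p k cnf y x) ∪
      univ.filter (fun x : (R × K → Bool) × (R → K) => ∃ i, X3 p k bot i x)), ?_, ?_⟩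
  · have h1 := card_X1 (R := R) (K := K) p bot
      (univ.filter (fun x : (R × K → Bool) × (R → K) => X1 p bot x.1))
      (fun x hx => (mem_filter.mp hx).2)
    have h2 := card_X2 p k hK cnf
      (univ.filter (fun x : (R × K → Bool) × (R → K) => ∃ y, X2 p k cnf y x))
      (fun x hx => (mem_filter.mp hx).2)
    have h3 := card_X3 p k hK bot
      (univ.filter (fun x : (R × K → Bool) × (R → K) => ∃ i, X3 p k bot i x))
      (fun x hx => (mem_filter.mp hx).2)
    have hc1 : ∀ B1 B2 B3 : Finset ((R × K → Bool) × (R → K)),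
        ((B1 ∪ (B2 ∪ B3)).card : ℝ) ≤ (B1.card : ℝ) + ((B2.card : ℝ) + (B3.card : ℝ)) := by
      intro B1 B2 B3
      have e1 := card_union_le B1 (B2 ∪ B3)
      have e2 := card_union_le B2 B3
      have e3 : (B1 ∪ (B2 ∪ B3)).card ≤ B1.card + (B2.card + B3.card) := by omega
      exact_mod_cast e3
    refine (hc1 _ _ _).trans ?_
    refine (add_le_add h1 (add_le_add h2 h3)).trans (le_of_eq ?_)
    ring
  · intro u J hJB t Q hQ
    rw [mem_union, mem_union, mem_filter, mem_filter, mem_filter] at hJB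
    simp only [mem_univ, true_and, not_or, not_exists] at hJB
    obtain ⟨n1, n2, n3⟩ := hJB
    have hu : ∀ i, Good u p (bot i) := by
      intro i
      by_contra h
      exact n1 ⟨i, h⟩
    have hgood := hgoodS u hu t
    have hlong : ∀ Q Γ : Finset R, Γ ⊆ Q → J ∉ Long (cnf t) u Q Γ (k + 1) := by
      intro Q Γ hΓ hmem
      exact n2 (t, Q, Γ) ⟨hgood, hΓ, hmem⟩
    have hwide : ∀ G ∈ cnf t, (¬ ∃ q ∈ G.pos, q.2 = u q.1) → J ∉ Wide G u k := by
      intro G hG hno hmem
      rcases hcnf t G hG with ⟨i, rfl⟩ | hx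
      · rcases hu i with h | h
        · exact hno h
        · exact n3 i ⟨h, hmem⟩
      · simp only [Wide, mem_filter, mem_univ, true_and] at hmem
        obtain ⟨_, h2, q, hq, _⟩ := hmem
        have h3 := hx.2 ⟨q, hq⟩
        have h4 : Nb u G = ∅ := by
          unfold Nb
          rw [h3]
          simp
        rw [h4, card_empty] at h2
        omega
    refine ⟨c_one (cnf t) u J k hlong Q hQ, ?_⟩
    intro E _ g
    exact c_two (cnf t) u J k hk hlong hwide Q hQ g

end typ

end Pool.Agent.H596R2.D3R
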