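import Pool.Agent.H596R2.D3R.TypB

/-!
Depth three circuits on typical pairs.
-/

namespace Pool.Agent.H596R2.D3R

open Finset Classical Pool.Agent.H596R2.D3

set_option linter.unusedSectionVars false

/-- Depth three circuits: the disjunctive side of the output gate is an OR of few CNFs. -/
theorem normal' {I : Type} (C : Circuit I 3) :
    ∃ P : (I × Bool) ⊕ (C.G × Bool) → (I → Bool) → Prop,
      (∀ t, IsCnf C.B (P t)) ∧
      (∀ l : I × Bool, (∀ z, ¬ P (Sum.inl l) z) ∨ (∀ z, P (Sum.inl l) z ↔ z l.1 = l.2)) ∧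
      ∀ z, C.Ov C.out z ↔ ∃ t, P t z := by
  let P : (I × Bool) ⊕ (C.G × Bool) → (I → Bool) → Prop := fun t z =>
    match t with
    | Sum.inl l => (∀ z', z' l.1 = l.2 → C.Ov C.out z') ∧ z l.1 = l.2
    | Sum.inr (g, true) => (C.lev g ≤ 1 ∧ ∀ z', ¬ C.Ov g z' → C.Ov C.out z') ∧ ¬ C.Ov g z
    | Sum.inr (g, false) => (C.lev g = 0 ∧ ∀ z', C.Ov g z' → C.Ov C.out z') ∧ C.Ov g z
  have key : ∀ (A : Prop) (Q : (I → Bool) → Prop), (A → IsCnf C.B Q) →
      IsCnf C.B (fun z => A ∧ Q z) := by
    intro A Q hQ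
    by_cases hA : A
    · exact (hQ hA).congr (fun z => by simp [hA])
    · exact IsCnf.no.congr (fun z => by simp [hA])
  refine ⟨P, ?_, ?_, ?_⟩
  · rintro (l | ⟨g, _ | _⟩)
    · exact key _ _ (fun _ => IsCnf.lit _ _)
    · refine key _ _ (fun h => ?_)
      exact (IsCnf.clause (B := C.B) (c := C.cl g) ⟨g, rfl⟩).congr (fun z => C.Ov_zero g h.1 z)
    · exact key _ _ (fun h => C.notOv_one g h.1)
  · intro l
    by_cases h : ∀ z', z' l.1 = l.2 → C.Ov C.out z'
    · right
      intro z
      exact ⟨fun hz => hz.2, fun hz => ⟨h, hz⟩⟩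
    · left
      intro z hz
      exact h hz.1
  · intro z
    constructor
    · intro hz
      -- one step: a signed gate of level zero
      have zero : ∀ (g : C.G) (b : Bool), C.lev g = 0 →
          (∀ z', (C.val z' g ↔ b = true) → C.Ov C.out z') → (C.val z g ↔ b = true) →
          ∃ t, P t z := by
        intro g b h0 himp hv
        by_cases hb : b = C.conj g
        · refine ⟨Sum.inr (g, true), ⟨⟨by rw [h0]; decide, ?_⟩, ?_⟩⟩
          · intro z' hz'
            apply himp
            unfold Circuit.Ov at hz'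
            rw [hb]
            cases hc : C.conj g <;> by_cases hv' : C.val z' g <;> simp_all
          · unfold Circuit.Ov
            rw [hb] at hv
            cases hc : C.conj g <;> by_cases hv' : C.val z g <;> simp_all
        · refine ⟨Sum.inr (g, false), ⟨⟨h0, ?_⟩, ?_⟩⟩
          · intro z' hz'
            apply himp
            unfold Circuit.Ov at hz'
            cases b <;> cases hc : C.conj g <;> by_cases hv' : C.val z' g <;> simp_all
          · unfold Circuit.Ov
            cases b <;> cases hc : C.conj g <;> by_cases hv' : C.val z g <;> simp_all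
      have hz' := hz
      rw [Circuit.Ov_iff] at hz'
      rcases hz' with ⟨i, s, hm, hi⟩ | ⟨g, s, hm, hg⟩
      · refine ⟨Sum.inl (i, xor s (C.conj C.out)), ⟨?_, hi⟩⟩
        intro z' hz'
        rw [Circuit.Ov_iff]
        exact Or.inl ⟨i, s, hm, hz'⟩
      · have himp : ∀ z', (C.val z' g ↔ xor s (C.conj C.out) = true) → C.Ov C.out z' := by
          intro z' hz'
          rw [Circuit.Ov_iff]
          exact Or.inr ⟨g, s, hm, hz'⟩
        have hlev : (C.lev g).val ≤ 1 := by
          have h1 : (C.lev g).val < (C.lev C.out).val := C.mono _ _ _ hm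
          have h2 := (C.lev C.out).isLt
          omega
        by_cases h0 : C.lev g = 0
        · exact zero g _ h0 himp hg
        · by_cases hb : xor s (C.conj C.out) = C.conj g
          · refine ⟨Sum.inr (g, true), ⟨⟨hlev, ?_⟩, ?_⟩⟩
            · intro z' hz'
              apply himp
              unfold Circuit.Ov at hz'
              rw [hb]
              cases hc : C.conj g <;> by_cases hv' : C.val z' g <;> simp_all
            · unfold Circuit.Ov
              rw [hb] at hg
              cases hc : C.conj g <;> by_cases hv' : C.val z g <;> simp_all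
          · have hOg : ∀ z', C.Ov g z' → C.Ov C.out z' := by
              intro z' hz'
              apply himp
              unfold Circuit.Ov at hz'
              cases hx : xor s (C.conj C.out) <;> cases hc : C.conj g <;>
                by_cases hv' : C.val z' g <;> simp_all
            have hOz : C.Ov g z := by
              unfold Circuit.Ov
              cases hx : xor s (C.conj C.out) <;> cases hc : C.conj g <;>
                by_cases hv' : C.val z g <;> simp_all
            rw [Circuit.Ov_iff] at hOz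
            rcases hOz with ⟨i, s', hm', hi⟩ | ⟨g', s', hm', hg'⟩
            · refine ⟨Sum.inl (i, xor s' (C.conj g)), ⟨?_, hi⟩⟩
              intro z' hz'
              apply hOg
              rw [Circuit.Ov_iff]
              exact Or.inl ⟨i, s', hm', hz'⟩
            · apply zero g' (xor s' (C.conj g)) _ _ hg'
              · have h1 : (C.lev g').val < (C.lev g).val := C.mono _ _ _ hm'
                apply Fin.ext
                simp
                omega
              · intro z' hz'
                apply hOg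
                rw [Circuit.Ov_iff]
                exact Or.inr ⟨g', s', hm', hz'⟩
    · rintro ⟨(l | ⟨g, _ | _⟩), ht⟩
      · exact ht.1 z ht.2
      · exact ht.1.2 z ht.2
      · exact ht.1.2 z ht.2

theorem pull' {I Q : Type} (X : (Q → Bool) → I → Bool) (hX : IsProj X) (c : Set (I × Bool)) :
    ∃ G : OrGate Q, (∀ w, G.Holds w ↔ cH c (X w)) ∧ (c.Subsingleton →
      G.pos.Subsingleton ∧ (G.pos.Nonempty → G.neg = ∅)) := by
  have hcode : ∀ i, ∃ e : Bool ⊕ (Q × Bool), ∀ w, X w i = match e with
      | Sum.inl b => b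
      | Sum.inr (q, s) => xor (w q) s := by
    intro i
    rcases hX i with ⟨b, hb⟩ | ⟨q, s, h⟩
    · exact ⟨Sum.inl b, hb⟩
    · exact ⟨Sum.inr (q, s), h⟩
  choose code hc using hcode
  refine ⟨⟨∃ l ∈ c, code l.1 = Sum.inl l.2, {q | ∃ l ∈ c, ∃ s, code l.1 = Sum.inr (q, s) ∧
    xor l.2 s = true}, {q | ∃ l ∈ c, ∃ s, code l.1 = Sum.inr (q, s) ∧ xor l.2 s = false}⟩, ?_, ?_⟩
  · intro w
    unfold OrGate.Holds cH
    constructor
    · rintro (⟨l, hl, h⟩ | ⟨q, ⟨l, hl, s, h, hs⟩, hq⟩ | ⟨q, ⟨l, hl, s, h, hs⟩, hq⟩)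
      · refine ⟨l, hl, ?_⟩
        rw [hc, h]
      · refine ⟨l, hl, ?_⟩
        rw [hc, h]
        simp only [hq]
        cases h2 : l.2 <;> cases s <;> simp_all
      · refine ⟨l, hl, ?_⟩
        rw [hc, h]
        simp only [hq]
        cases h2 : l.2 <;> cases s <;> simp_all
    · rintro ⟨l, hl, h⟩
      rw [hc] at h
      rcases he : code l.1 with b | ⟨q, s⟩
      · rw [he] at h
        simp only at h
        left
        exact ⟨l, hl, by rw [he, h]⟩
      · rw [he] at h
        simp only at h
        right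
        cases hq : w q
        · right
          refine ⟨q, ⟨l, hl, s, he, ?_⟩, hq⟩
          rw [← h, hq]
          cases s <;> rfl
        · left
          refine ⟨q, ⟨l, hl, s, he, ?_⟩, hq⟩
          rw [← h, hq]
          cases s <;> rfl
  · intro hsub
    constructor
    · rintro q ⟨l, hl, s, h, _⟩ q' ⟨l', hl', s', h', _⟩
      have : l = l' := hsub hl hl'
      rw [this, h'] at h
      simp only [Sum.inr.injEq, Prod.mk.injEq] at h
      exact h.1.symm
    · rintro ⟨q, l, hl, s, h, hs⟩
      rw [Set.eq_empty_iff_forall_notMem]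
      rintro q' ⟨l', hl', s', h', hs'⟩
      have : l = l' := hsub hl hl'
      rw [← this, h] at h'
      simp only [Sum.inr.injEq, Prod.mk.injEq] at h'
      rw [← this, ← h'.2, hs] at hs'
      exact absurd hs' (by simp)

/-- The circuit (its disjunctive side) accepts the instance. -/
def AccC {I R K : Type} (C : Circuit I 3) (X : ((R × K) × Bool → Bool) → I → Bool)
    (u : R × K → Bool) (J : R → K) (Q : Finset R) : Prop :=
  C.Ov C.out (X (opn u (gr J Q)))

/-- The gate of a literal. -/
def litG {Q : Type} (q : Q) (s : Bool) : OrGate Q :=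
  ⟨False, {q' | q' = q ∧ s = true}, {q' | q' = q ∧ s = false}⟩

/-- The false gate. -/
def noG {Q : Type} : OrGate Q := ⟨False, ∅, ∅⟩

theorem litG_holds {Q : Type} (q : Q) (s : Bool) (w : Q → Bool) :
    (litG q s).Holds w ↔ w q = s := by
  unfold litG OrGate.Holds
  cases s <;> simp

theorem noG_holds {Q : Type} (w : Q → Bool) : ¬ (noG : OrGate Q).Holds w := by
  unfold noG OrGate.Holds
  simp

/-- The circuit composed with a projection is an OR of few CNFs. -/
theorem normC {I Q : Type} (C : Circuit I 3) (X : (Q → Bool) → I → Bool) (hX : IsProj X) :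
    ∃ (bot : C.G → OrGate Q) (cnf : (Q × Bool) ⊕ (Unit ⊕ (C.G × Bool)) → Set (OrGate Q)),
      (∀ t, ∀ G ∈ cnf t, (∃ i, G = bot i) ∨
        (G.pos.Subsingleton ∧ (G.pos.Nonempty → G.neg = ∅))) ∧
      ∀ w, C.Ov C.out (X w) ↔ ∃ t, ∀ G ∈ cnf t, G.Holds w := by
  obtain ⟨P, hP1, hPl, hP2⟩ := normal' C
  choose S hS1 hS2 using hP1
  choose G hG1 hG2 using pull' X hX
  have hval : ∀ w t, (∀ g ∈ G '' (S t), g.Holds w) ↔ P t (X w) := by
    intro w t
    rw [hS2 t]
    constructor
    · intro h c hc
      exact (hG1 c w).mp (h _ ⟨c, hc, rfl⟩)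
    · rintro h g ⟨c, hc, rfl⟩
      exact (hG1 c w).mpr (h c hc)
  let cnf : (Q × Bool) ⊕ (Unit ⊕ (C.G × Bool)) → Set (OrGate Q) := fun t =>
    match t with
    | Sum.inl (q, s) => if ∃ l : I × Bool, ∀ w, P (Sum.inl l) (X w) ↔ w q = s then {litG q s}
        else {noG}
    | Sum.inr (Sum.inl _) => if ∃ l : I × Bool, ∀ w, P (Sum.inl l) (X w) then ∅ else {noG}
    | Sum.inr (Sum.inr x) => G '' (S (Sum.inr x))
  refine ⟨fun g => G (C.cl g), cnf, ?_, ?_⟩
  · rintro (⟨q, s⟩ | (⟨⟩ | x)) g hg
    · right
      simp only [cnf] at hg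
      split_ifs at hg
      · rw [Set.mem_singleton_iff.mp hg]
        unfold litG
        refine ⟨?_, ?_⟩
        · rintro a ⟨ha, _⟩ b ⟨hb, _⟩
          rw [ha, hb]
        · rintro ⟨a, ha, hs⟩
          rw [Set.eq_empty_iff_forall_notMem]
          rintro b ⟨hb, hs'⟩
          rw [hs] at hs'
          exact absurd hs' (by simp)
      · rw [Set.mem_singleton_iff.mp hg]
        unfold noG
        exact ⟨Set.subsingleton_empty, fun _ => rfl⟩
    · right
      simp only [cnf] at hg
      split_ifs at hg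
      · exact absurd hg (by simp)
      · rw [Set.mem_singleton_iff.mp hg]
        unfold noG
        exact ⟨Set.subsingleton_empty, fun _ => rfl⟩
    · obtain ⟨c, hc, rfl⟩ := hg
      rcases hS1 _ c hc with ⟨h, rfl⟩ | h
      · exact Or.inl ⟨h, rfl⟩
      · exact Or.inr (hG2 c h)
  · intro w
    rw [hP2]
    constructor
    · rintro ⟨(l | x), ht⟩
      · rcases hPl l with h | h
        · exact absurd ht (h _)
        · rcases hX l.1 with ⟨b, hb⟩ | ⟨q, σ, hq⟩
          · refine ⟨Sum.inr (Sum.inl ()), ?_⟩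
            have hall : ∃ l : I × Bool, ∀ w, P (Sum.inl l) (X w) := by
              refine ⟨l, fun w' => (h _).mpr ?_⟩
              have := (h _).mp ht
              rw [hb] at this ⊢
              exact this
            simp only [cnf, hall, if_true]
            intro g hg
            exact absurd hg (by simp)
          · have hall : ∃ l' : I × Bool, ∀ w', P (Sum.inl l') (X w') ↔ w' q = xor l.2 σ := by
              refine ⟨l, fun w' => ?_⟩
              rw [h, hq]
              cases w' q <;> cases l.2 <;> cases σ <;> simp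
            refine ⟨Sum.inl (q, xor l.2 σ), ?_⟩
            simp only [cnf, hall, if_true]
            intro g hg
            rw [Set.mem_singleton_iff.mp hg, litG_holds]
            have := (h _).mp ht
            rw [hq] at this
            rw [← this]
            cases w q <;> cases σ <;> rfl
      · exact ⟨Sum.inr (Sum.inr x), (hval w _).mpr ht⟩
    · rintro ⟨(⟨q, s⟩ | (⟨⟩ | x)), ht⟩
      · simp only [cnf] at ht
        split_ifs at ht with h
        · obtain ⟨l, hl⟩ := h
          refine ⟨Sum.inl l, (hl w).mpr ?_⟩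
          exact (litG_holds q s w).mp (ht _ rfl)
        · exact absurd (ht noG rfl) (noG_holds w)
      · simp only [cnf] at ht
        split_ifs at ht with h
        · obtain ⟨l, hl⟩ := h
          exact ⟨Sum.inl l, hl w⟩
        · exact absurd (ht noG rfl) (noG_holds w)
      · exact ⟨Sum.inr x, (hval w _).mp ht⟩

/-- Typical pairs for circuits. -/
theorem typC {I R K : Type} [Fintype R] [Fintype K] (C : Circuit I 3)
    (X : ((R × K) × Bool → Bool) → I → Bool) (hX : IsProj X) (p k : ℕ) (hp : 1 ≤ p) (hk : 1 ≤ k)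
    (hK : 0 < Fintype.card K) :
    ∃ Bad : Finset ((R × K → Bool) × (R → K)),
      (Bad.card : ℝ) ≤ ((C.size : ℝ) / 2 ^ (p + 1) +
        (C.size * p + (4 * (Fintype.card R * Fintype.card K) + 1 + 2 * C.size) *
          4 ^ Fintype.card R * p ^ (k + 1)) /
          (Fintype.card K) ^ (k + 1)) * Fintype.card ((R × K → Bool) × (R → K)) ∧
      ∀ u J, (u, J) ∉ Bad → ∀ Q, AccC C X u J Q →
        (∀ Γ ⊆ Q, ∃ Γ', Γ ⊆ Γ' ∧ Γ' ⊆ Q ∧ Γ'.card ≤ Γ.card + k ∧ AccC C X u J Γ') ∧
        (∀ (E : Type) [Fintype E] (g : R → E),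
          (univ.filter (fun e : E => ¬ AccC C X u J (Q.filter (fun i => g i ≠ e)))).card
            ≤ k * (2 * k - 1)) := by
  let _ := C.fin
  obtain ⟨bot, cnf, hcnf, hval⟩ := normC C X hX
  obtain ⟨Bad, hBad, h⟩ := typical p k hp hk hK bot cnf hcnf
  refine ⟨Bad, ?_, ?_⟩
  · refine hBad.trans (le_of_eq ?_)
    have hT : (Fintype.card ((((R × K) × Bool) × Bool) ⊕ (Unit ⊕ (C.G × Bool))) : ℝ) =
        4 * (Fintype.card R * Fintype.card K) + 1 + 2 * C.size := by
      simp only [Fintype.card_sum, Fintype.card_prod, Fintype.card_bool, Fintype.card_unit]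
      unfold Circuit.size
      push_cast
      ring
    rw [hT]
    rfl
  · intro u J hJ Q hQ
    obtain ⟨t, ht⟩ := (hval _).mp hQ
    obtain ⟨h1, h2⟩ := h u J hJ t Q ht
    refine ⟨?_, ?_⟩
    · intro Γ hΓ
      obtain ⟨Γ', a1, a2, a3, a4⟩ := h1 Γ hΓ
      exact ⟨Γ', a1, a2, a3, (hval _).mpr ⟨t, a4⟩⟩
    · intro E _ g
      refine le_trans (card_le_card ?_) (h2 E g)
      intro e he
      rw [mem_filter] at he ⊢
      refine ⟨he.1, fun hacc => he.2 ?_⟩
      exact (hval _).mpr ⟨t, hacc⟩

/-- The number of pairs. -/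
noncomputable def dat (r k : ℕ) : ℝ := 2 ^ (r * k) * (k : ℝ) ^ r

/-- The measure of the atypical pairs. -/
noncomputable def bad (s p k R K : ℕ) : ℝ :=
  (s : ℝ) / 2 ^ (p + 1) + (s * p + (4 * (R * K) + 1 + 2 * s) * 4 ^ R * p ^ (k + 1)) / K ^ (k + 1)

theorem bad_nonneg (s p k R K : ℕ) : 0 ≤ bad s p k R K := by
  unfold bad
  positivity

/-- Typical pairs for circuits, without decidability instances. -/
theorem typD {I R K : Type} [Fintype R] [Fintype K] (C : Circuit I 3)
    (X : ((R × K) × Bool → Bool) → I → Bool) (hX : IsProj X) (p k : ℕ) (hp : 1 ≤ p) (hk : 1 ≤ k)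
    (hK : 0 < Fintype.card K) :
    ∃ Bad : Finset ((R × K → Bool) × (R → K)),
      (Bad.card : ℝ) ≤ bad C.size p k (Fintype.card R) (Fintype.card K) *
        dat (Fintype.card R) (Fintype.card K) ∧
      ∀ u J, (u, J) ∉ Bad → ∀ Q, AccC C X u J Q →
        (∀ Γ ⊆ Q, ∃ Γ', Γ ⊆ Γ' ∧ Γ' ⊆ Q ∧ Γ'.card ≤ Γ.card + k ∧ AccC C X u J Γ') ∧
        (∀ (E : Type) [Fintype E] (g : R → E) (s : Finset E),
          (∀ e ∈ s, ∃ Q0 : Finset R, (∀ i, i ∈ Q0 ↔ i ∈ Q ∧ g i ≠ e) ∧ ¬ AccC C X u J Q0) →
          s.card ≤ k * (2 * k - 1)) := by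
  obtain ⟨Bad, h1, h2⟩ := typC C X hX p k hp hk hK
  refine ⟨Bad, ?_, ?_⟩
  · refine h1.trans (le_of_eq ?_)
    unfold bad dat
    congr 1
    rw [Fintype.card_prod, Fintype.card_fun, Fintype.card_fun, Fintype.card_prod,
      Fintype.card_bool]
    push_cast
    ring
  · intro u J hJ Q hQ
    refine ⟨(h2 u J hJ Q hQ).1, ?_⟩
    intro E _ g s hs
    refine le_trans (card_le_card ?_) ((h2 u J hJ Q hQ).2 E g)
    intro e he
    obtain ⟨Q0, h3, h4⟩ := hs e he
    rw [mem_filter]
    refine ⟨mem_univ _, ?_⟩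
    have : Q0 = Q.filter (fun i => g i ≠ e) := by
      ext i
      rw [h3, mem_filter]
    rw [← this]
    exact h4

end Pool.Agent.H596R2.D3R
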