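import Pool.Agent.H596R2.D3R.TypC
import Pool.Agent.H596R2.D3R.Avg

/-!
Few rows are essential: the version with random sub-instances.
-/

namespace Pool.Agent.H596R2.D3R

open Finset Classical Pool.Agent.H596R2.D3

set_option linter.unusedSectionVars false

section cnt

variable {R : Type} [Fintype R]

theorem cnt_one (c : ℕ) (_hc : 0 < c) (z : Fin c) (i : R) :
    c * (univ.filter (fun χ : R → Fin c => χ i = z)).card = c ^ Fintype.card R := by
  have h := forced (S := Fin c) i z (fun _ : R → Fin c => (1 : ℝ))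
  rw [sum_const, nsmul_eq_mul, card_univ, Fintype.card_fun, Fintype.card_fin, mul_one] at h
  have h' : ((c ^ Fintype.card R : ℕ) : ℝ) =
      c * ((univ.filter (fun χ : R → Fin c => χ i = z)).card : ℝ) := by
    rw [h]
    congr 1
    rw [card_filter]
    push_cast
    apply sum_congr rfl
    intro σ _
    split_ifs <;> rfl
  exact_mod_cast h'.symm

theorem cnt_two (c : ℕ) (z : Fin c) (i i' : R) (hne : i ≠ i') :
    c ^ 2 * (univ.filter (fun χ : R → Fin c => χ i = z ∧ χ i' = z)).card ≤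
      c ^ Fintype.card R := by
  have h := card_sub (R := R) (K := Fin c) {(i, z), (i', z)}
  rw [card_pair (fun h => hne (congrArg Prod.fst h)), Fintype.card_fin] at h
  rw [mul_comm]
  refine le_trans (Nat.mul_le_mul_right _ (card_le_card ?_)) h
  intro χ hχ
  simp only [mem_filter, mem_univ, true_and] at hχ ⊢
  intro x hx
  rcases mem_insert.mp hx with rfl | hx
  · exact hχ.1
  · rw [mem_singleton.mp hx]
    exact hχ.2

theorem cnt_avoid (k c : ℕ) (hc : c = 2 * k) (hk : 0 < k) (z : Fin c) (i : R) (N : Finset R)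
    (hi : i ∉ N) (hN : N.card ≤ k) :
    c ^ Fintype.card R ≤ 2 * c *
      (univ.filter (fun χ : R → Fin c => χ i = z ∧ ∀ i' ∈ N, χ i' ≠ z)).card := by
  have hcpos : 0 < c := by omega
  set a := (univ.filter (fun χ : R → Fin c => χ i = z ∧ ∀ i' ∈ N, χ i' ≠ z)).card with ha
  have h1 := cnt_one c hcpos z i
  have hsub : univ.filter (fun χ : R → Fin c => χ i = z) ⊆
      univ.filter (fun χ : R → Fin c => χ i = z ∧ ∀ i' ∈ N, χ i' ≠ z) ∪
      N.biUnion (fun i' => univ.filter (fun χ : R → Fin c => χ i = z ∧ χ i' = z)) := by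
    intro χ hχ
    simp only [mem_filter, mem_univ, true_and, mem_union, mem_biUnion] at hχ ⊢
    by_cases h : ∀ i' ∈ N, χ i' ≠ z
    · exact Or.inl ⟨hχ, h⟩
    · push Not at h
      obtain ⟨i', hi', h⟩ := h
      exact Or.inr ⟨i', hi', hχ, h⟩
  have h2 := (card_le_card hsub).trans (card_union_le _ _)
  have h3 : c ^ 2 * (N.biUnion (fun i' => univ.filter
      (fun χ : R → Fin c => χ i = z ∧ χ i' = z))).card ≤ k * c ^ Fintype.card R := by
    calc _ ≤ c ^ 2 * ∑ i' ∈ N, (univ.filter (fun χ : R → Fin c => χ i = z ∧ χ i' = z)).card :=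
          Nat.mul_le_mul_left _ card_biUnion_le
      _ = ∑ i' ∈ N, c ^ 2 * (univ.filter (fun χ : R → Fin c => χ i = z ∧ χ i' = z)).card := by
          rw [mul_sum]
      _ ≤ ∑ i' ∈ N, c ^ Fintype.card R := by
          apply sum_le_sum
          intro i' hi'
          apply cnt_two
          rintro rfl
          exact hi hi'
      _ = N.card * c ^ Fintype.card R := by rw [sum_const, smul_eq_mul]
      _ ≤ k * c ^ Fintype.card R := Nat.mul_le_mul_right _ hN
  set W := c ^ Fintype.card R with hW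
  have h4 : c ^ 2 * (univ.filter (fun χ : R → Fin c => χ i = z)).card = c * W := by
    rw [← h1]; ring
  have h5 : c * W ≤ c ^ 2 * a + k * W := by
    rw [← h4]
    calc _ ≤ c ^ 2 * (a + (N.biUnion (fun i' => univ.filter
      (fun χ : R → Fin c => χ i = z ∧ χ i' = z))).card) := Nat.mul_le_mul_left _ h2
      _ = c ^ 2 * a + c ^ 2 * (N.biUnion (fun i' => univ.filter
      (fun χ : R → Fin c => χ i = z ∧ χ i' = z))).card := by ring
      _ ≤ _ := by omega
  -- k * W ≤ c ^ 2 * a
  have h6 : k * W ≤ c ^ 2 * a := by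
    have : c * W = k * W + k * W := by rw [hc]; ring
    omega
  have h7 : k * W ≤ k * (2 * c * a) := by
    calc k * W ≤ c ^ 2 * a := h6
      _ = k * (2 * c * a) := by rw [hc]; ring
  exact Nat.le_of_mul_le_mul_left h7 hk

/-- Many colourings have more than `k` good elements. -/
theorem cnt_good (k : ℕ) (hk : 0 < k) (z : Fin (2 * k)) (B : Finset R) (hB : B.card = 8 * k ^ 2)
    (N : R → Finset R) (hN : ∀ i ∈ B, i ∉ N i ∧ (N i).card ≤ k) :
    (2 * k) ^ Fintype.card R ≤ 8 * k * (univ.filter (fun χ : R → Fin (2 * k) =>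
      k < (B.filter (fun i => χ i = z ∧ ∀ i' ∈ N i, χ i' ≠ z)).card)).card := by
  set W := (2 * k) ^ Fintype.card R with hW
  set g := (univ.filter (fun χ : R → Fin (2 * k) =>
      k < (B.filter (fun i => χ i = z ∧ ∀ i' ∈ N i, χ i' ≠ z)).card)).card with hg
  let X : (R → Fin (2 * k)) → ℕ := fun χ =>
    (B.filter (fun i => χ i = z ∧ ∀ i' ∈ N i, χ i' ≠ z)).card
  have h1 : ∑ χ, X χ = ∑ i ∈ B, (univ.filter (fun χ : R → Fin (2 * k) =>
      χ i = z ∧ ∀ i' ∈ N i, χ i' ≠ z)).card := by
    simp only [X, card_filter]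
    exact sum_comm
  have h2 : B.card * W ≤ 2 * (2 * k) * ∑ χ, X χ := by
    rw [h1, mul_sum]
    calc B.card * W = ∑ i ∈ B, W := by rw [sum_const, smul_eq_mul]
      _ ≤ _ := sum_le_sum (fun i hi => cnt_avoid k (2 * k) rfl hk z i (N i) (hN i hi).1 (hN i hi).2)
  have h3 : ∑ χ, X χ ≤ k * W + B.card * g := by
    have hpt : ∀ χ, X χ ≤ k + B.card * (if k < X χ then 1 else 0) := by
      intro χ
      split_ifs with h
      · have : X χ ≤ B.card := card_filter_le _ _
        omega
      · omega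
    calc ∑ χ, X χ ≤ ∑ χ, (k + B.card * (if k < X χ then 1 else 0)) :=
          sum_le_sum (fun χ _ => hpt χ)
      _ = _ := by
          rw [sum_add_distrib, sum_const, smul_eq_mul, card_univ, Fintype.card_fun,
            Fintype.card_fin, ← mul_sum, hg, card_filter, ← hW]
          ring
  rw [hB] at h2 h3
  -- 8 k^2 W ≤ 4 k (k W + 8 k^2 g)
  have h4 : 8 * k ^ 2 * W ≤ 4 * k * (k * W + 8 * k ^ 2 * g) := by
    calc 8 * k ^ 2 * W ≤ 2 * (2 * k) * ∑ χ, X χ := h2
      _ ≤ 2 * (2 * k) * (k * W + 8 * k ^ 2 * g) := Nat.mul_le_mul_left _ h3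
      _ = _ := by ring
  have h5 : (4 * k ^ 2) * W ≤ (4 * k ^ 2) * (8 * k * g) := by nlinarith
  exact Nat.le_of_mul_le_mul_left h5 (by positivity)

end cnt

section typ

variable {R K : Type} [Fintype R] [Fintype K]

/-- The essential rows. -/
noncomputable def Ess (S : Set (OrGate ((R × K) × Bool))) (u : R × K → Bool) (Q : Finset R)
    (J : R → K) : Finset R :=
  univ.filter (fun x => ¬ Acc S u J (Q.filter (fun i => i ≠ x)))

/-- The choice functions with many essential rows. -/
noncomputable def Many (S : Set (OrGate ((R × K) × Bool))) (u : R × K → Bool) (Q : Finset R)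
    (k : ℕ) : Finset (R → K) :=
  univ.filter (fun J => Acc S u J Q ∧
    (∀ G ∈ S, (¬ ∃ q ∈ G.pos, q.2 = u q.1) → J ∉ Wide G u k) ∧ 8 * k ^ 2 ≤ (Ess S u Q J).card)

theorem many_long (S : Set (OrGate ((R × K) × Bool))) (u : R × K → Bool) (Q : Finset R)
    (k : ℕ) (hk : 0 < k) (z : Fin (2 * k)) (J : R → K) (hJ : J ∈ Many S u Q k) :
    (2 * k) ^ Fintype.card R ≤ 8 * k * (univ.filter (fun χ : R → Fin (2 * k) =>
      J ∈ Long S u Q (Q.filter (fun i => χ i ≠ z)) (k + 1))).card := by
  simp only [Many, mem_filter, mem_univ, true_and] at hJ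
  obtain ⟨hQ, hwide, hess⟩ := hJ
  obtain ⟨B, hBE, hBc⟩ := exists_subset_card_eq hess
  have hex : ∀ e ∈ B, ∃ G ∈ S, ¬ G.Holds (opn u (gr J (Q.filter (fun i => i ≠ e)))) := by
    intro e he
    have := hBE he
    simp only [Ess, mem_filter, mem_univ, true_and, Acc] at this
    push Not at this
    exact this
  have : Nonempty (OrGate ((R × K) × Bool)) := ⟨⟨True, ∅, ∅⟩⟩
  choose! G hGS hG using hex
  have hprop : ∀ e ∈ B, ¬ (G e).cst ∧ (∀ q ∈ (G e).pos, q.2 ≠ u q.1) ∧
      (∀ q ∈ (G e).pos, q.1 ∉ gr J (Q.filter (fun i => i ≠ e))) ∧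
      (∀ x ∈ Nb u (G e), x ∈ gr J (Q.filter (fun i => i ≠ e))) := by
    intro e he
    have h := hG e he
    rw [holds_iff] at h
    push Not at h
    exact h
  have hcard : ∀ e ∈ B, (Nb u (G e)).card ≤ k ∧ e ∈ Q := by
    intro e he
    obtain ⟨n1, n2, n3, n4⟩ := hprop e he
    have h1 := hQ (G e) (hGS e he)
    rw [holds_iff] at h1
    have h2 : ∃ q ∈ (G e).pos, q.1 ∈ gr J Q := by
      rcases h1 with h1 | ⟨q, hq, h1⟩ | h1 | ⟨x, hx, h1⟩
      · exact absurd h1 n1
      · exact absurd h1 (n2 q hq)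
      · exact h1
      · exact absurd (gr_mono J (filter_subset _ _) (n4 x hx)) h1
    obtain ⟨q, hq, hqJ⟩ := h2
    constructor
    · have h3 := hwide (G e) (hGS e he) (by
        rintro ⟨q', hq', h⟩
        exact n2 q' hq' h)
      by_contra hlt
      apply h3
      simp only [Wide, mem_filter, mem_univ, true_and]
      refine ⟨?_, by omega, q, hq, ((mem_gr _ _ _).mp hqJ).2, fun h => n3 q hq (n4 _ h)⟩
      intro x hx
      exact ((mem_gr _ _ _).mp (n4 x hx)).2
    · have h3 := n3 q hq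
      rw [mem_gr] at hqJ h3
      by_contra heQ
      apply h3
      refine ⟨mem_filter.mpr ⟨hqJ.1, ?_⟩, hqJ.2⟩
      rintro rfl
      exact heQ hqJ.1
  let N : R → Finset R := fun e => (Nb u (G e)).image Prod.fst
  have hN : ∀ e ∈ B, e ∉ N e ∧ (N e).card ≤ k := by
    intro e he
    refine ⟨?_, card_image_le.trans (hcard e he).1⟩
    intro h
    obtain ⟨x, hx, hxe⟩ := mem_image.mp h
    have := (hprop e he).2.2.2 x hx
    rw [mem_gr, mem_filter] at this
    exact this.1.2 hxe
  refine (cnt_good k hk z B hBc N hN).trans ?_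
  apply Nat.mul_le_mul_left
  apply card_le_card
  intro χ hχ
  simp only [mem_filter, mem_univ, true_and] at hχ
  simp only [Long, mem_filter, mem_univ, true_and]
  refine ⟨hQ, ?_⟩
  intro Γ' h1 h2 h3 h4
  set X := B.filter (fun i => χ i = z ∧ ∀ i' ∈ N i, χ i' ≠ z) with hX
  have hex : ∃ e ∈ X, e ∉ Γ' := by
    by_contra hno
    push Not at hno
    have hsub : X ⊆ Γ' \ (Q.filter (fun i => χ i ≠ z)) := by
      intro e he
      rw [mem_sdiff]
      refine ⟨hno e he, ?_⟩
      intro h
      exact (mem_filter.mp h).2 (mem_filter.mp he).2.1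
    have := card_le_card hsub
    rw [card_sdiff_of_subset h1] at this
    omega
  obtain ⟨e, he, heΓ⟩ := hex
  obtain ⟨heB, hez, heN⟩ := mem_filter.mp he
  obtain ⟨n1, n2, n3, n4⟩ := hprop e heB
  have h5 := h4 (G e) (hGS e heB)
  rw [holds_iff] at h5
  rcases h5 with h5 | ⟨q, hq, h5⟩ | ⟨q, hq, h5⟩ | ⟨x, hx, h5⟩
  · exact n1 h5
  · exact n2 q hq h5
  · apply n3 q hq
    rw [mem_gr] at h5 ⊢
    refine ⟨mem_filter.mpr ⟨h2 h5.1, ?_⟩, h5.2⟩
    intro hh
    exact heΓ (hh ▸ h5.1)
  · apply h5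
    have h6 := n4 x hx
    rw [mem_gr, mem_filter] at h6
    rw [mem_gr]
    refine ⟨h1 ?_, h6.2⟩
    rw [mem_filter]
    exact ⟨h6.1.1, heN x.1 (mem_image.mpr ⟨x, hx, rfl⟩)⟩

theorem card_many (S : Set (OrGate ((R × K) × Bool))) (u : R × K → Bool) (p : ℕ)
    (hgood : ∀ G ∈ S, Good u p G) (Q : Finset R) (k : ℕ) (hk : 0 < k)
    (hK : 0 < Fintype.card K) :
    (Many S u Q k).card * Fintype.card K ^ (k + 1) ≤
      8 * k * p ^ (k + 1) * Fintype.card K ^ Fintype.card R := by
  set W := (2 * k) ^ Fintype.card R with hW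
  have hWpos : 0 < W := by rw [hW]; positivity
  let z : Fin (2 * k) := ⟨0, by omega⟩
  have h1 : (Many S u Q k).card * W ≤ 8 * k * ∑ χ : R → Fin (2 * k),
      (Long S u Q (Q.filter (fun i => χ i ≠ z)) (k + 1)).card := by
    calc (Many S u Q k).card * W = ∑ J ∈ Many S u Q k, W := by rw [sum_const, smul_eq_mul]
      _ ≤ ∑ J ∈ Many S u Q k, 8 * k * (univ.filter (fun χ : R → Fin (2 * k) =>
          J ∈ Long S u Q (Q.filter (fun i => χ i ≠ z)) (k + 1))).card :=
          sum_le_sum (fun J hJ => many_long S u Q k hk z J hJ)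
      _ ≤ ∑ J : R → K, 8 * k * (univ.filter (fun χ : R → Fin (2 * k) =>
          J ∈ Long S u Q (Q.filter (fun i => χ i ≠ z)) (k + 1))).card :=
          sum_le_sum_of_subset (subset_univ _)
      _ = 8 * k * ∑ χ : R → Fin (2 * k),
          (Long S u Q (Q.filter (fun i => χ i ≠ z)) (k + 1)).card := by
          rw [← mul_sum]
          congr 1
          simp only [card_filter]
          rw [sum_comm]
          apply sum_congr rfl
          intro χ _
          rw [← card_filter]
          congr 1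
          ext J
          simp
  have h2 : (∑ χ : R → Fin (2 * k),
      (Long S u Q (Q.filter (fun i => χ i ≠ z)) (k + 1)).card) * Fintype.card K ^ (k + 1) ≤
      W * (p ^ (k + 1) * Fintype.card K ^ Fintype.card R) := by
    rw [sum_mul]
    calc _ ≤ ∑ χ : R → Fin (2 * k), p ^ (k + 1) * Fintype.card K ^ Fintype.card R :=
          sum_le_sum (fun χ _ => card_long S u p hgood Q _ (filter_subset _ _) (k + 1) hK)
      _ = _ := by rw [sum_const, smul_eq_mul, card_univ, Fintype.card_fun, Fintype.card_fin]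
  have h3 : W * ((Many S u Q k).card * Fintype.card K ^ (k + 1)) ≤
      W * (8 * k * p ^ (k + 1) * Fintype.card K ^ Fintype.card R) := by
    calc W * ((Many S u Q k).card * Fintype.card K ^ (k + 1)) =
          ((Many S u Q k).card * W) * Fintype.card K ^ (k + 1) := by ring
      _ ≤ (8 * k * ∑ χ : R → Fin (2 * k),
      (Long S u Q (Q.filter (fun i => χ i ≠ z)) (k + 1)).card) * Fintype.card K ^ (k + 1) :=
          Nat.mul_le_mul_right _ h1
      _ = 8 * k * ((∑ χ : R → Fin (2 * k),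
      (Long S u Q (Q.filter (fun i => χ i ≠ z)) (k + 1)).card) * Fintype.card K ^ (k + 1)) := by
          ring
      _ ≤ 8 * k * (W * (p ^ (k + 1) * Fintype.card K ^ Fintype.card R)) :=
          Nat.mul_le_mul_left _ h2
      _ = _ := by ring
  exact Nat.le_of_mul_le_mul_left h3 hWpos

end typ

end Pool.Agent.H596R2.D3R
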