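import Pool.Agent.H596R2.D3R.TypE

/-!
Typical pairs for a fixed set of opened rows.
-/

namespace Pool.Agent.H596R2.D3R

open Finset Classical Pool.Agent.H596R2.D3

set_option linter.unusedSectionVars false

section typ

variable {R K : Type} [Fintype R] [Fintype K]

/-- Many essential rows. -/
def X4 {T : Type} (p k : ℕ) (cnf : T → Set (OrGate ((R × K) × Bool))) (Q : Finset R)
    (t : T) (y : (R × K → Bool) × (R → K)) : Prop :=
  (∀ G ∈ cnf t, Good y.1 p G) ∧ y.2 ∈ Many (cnf t) y.1 Q k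

theorem card_X4 {T : Type} [Fintype T] (p k : ℕ) (hk : 1 ≤ k) (hK : 0 < Fintype.card K)
    (cnf : T → Set (OrGate ((R × K) × Bool))) (Q : Finset R)
    (s : Finset ((R × K → Bool) × (R → K))) (hs : ∀ x ∈ s, ∃ t, X4 p k cnf Q t x) :
    (s.card : ℝ) ≤
      ((Fintype.card T : ℝ) * (8 * k * p ^ (k + 1) / (Fintype.card K) ^ (k + 1))) *
      Fintype.card ((R × K → Bool) × (R → K)) := by
  have hKr : (0 : ℝ) < (Fintype.card K : ℝ) := by exact_mod_cast hK
  refine card_ex (fun t (x : (R × K → Bool) × (R → K)) => X4 p k cnf Q t x)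
    (8 * k * (p : ℝ) ^ (k + 1) / (Fintype.card K) ^ (k + 1)) ?_ s hs
  intro t s hs
  refine card_sec (fun (a : R × K → Bool) (b : R → K) => X4 p k cnf Q t (a, b)) _ ?_ s
      (fun x hx => hs x hx)
  intro u s hs
  rcases s.eq_empty_or_nonempty with h0 | ⟨J0, hJ0⟩
  · rw [h0, card_empty, Nat.cast_zero]
    positivity
  · have hy := hs J0 hJ0
    have hsub : s ⊆ Many (cnf t) u Q k := by
      intro J hJ
      exact (hs J hJ).2
    have h := card_many (cnf t) u p hy.1 Q k hk hK
    have h' : ((Many (cnf t) u Q k).card : ℝ) *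
        (Fintype.card K : ℝ) ^ (k + 1) ≤ 8 * k * (p : ℝ) ^ (k + 1) *
          (Fintype.card K : ℝ) ^ Fintype.card R := by exact_mod_cast h
    rw [Fintype.card_fun, div_mul_eq_mul_div, le_div_iff₀ (by positivity)]
    push_cast
    refine le_trans (mul_le_mul_of_nonneg_right ?_ (by positivity)) h'
    exact_mod_cast card_le_card hsub

/-- Typical pairs. -/
theorem typical2 {ι T : Type} [Fintype ι] [Fintype T] (p k : ℕ) (hp : 1 ≤ p) (hk : 1 ≤ k)
    (hK : 0 < Fintype.card K)
    (bot : ι → OrGate ((R × K) × Bool)) (cnf : T → Set (OrGate ((R × K) × Bool)))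
    (hcnf : ∀ t, ∀ G ∈ cnf t, (∃ i, G = bot i) ∨
      (G.pos.Subsingleton ∧ (G.pos.Nonempty → G.neg = ∅))) (Q : Finset R) :
    ∃ Bad : Finset ((R × K → Bool) × (R → K)),
      (Bad.card : ℝ) ≤ ((Fintype.card ι : ℝ) / 2 ^ (p + 1) +
        (Fintype.card ι * p + Fintype.card T * (8 * k * p ^ (k + 1))) /
          (Fintype.card K) ^ (k + 1)) * Fintype.card ((R × K → Bool) × (R → K)) ∧
      ∀ u J, (u, J) ∉ Bad → ∀ t, Acc (cnf t) u J Q → (Ess (cnf t) u Q J).card ≤ 8 * k ^ 2 := by
  have hgoodS : ∀ u : R × K → Bool, (∀ i, Good u p (bot i)) → ∀ t, ∀ G ∈ cnf t, Good u p G := by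
    intro u hu t G hG
    rcases hcnf t G hG with ⟨i, rfl⟩ | hx
    · exact hu i
    · right
      rcases G.pos.eq_empty_or_nonempty with h | ⟨q0, hq0⟩
      · exact ⟨∅, by simp, fun q hq => by rw [h] at hq; exact absurd hq (by simp)⟩
      · exact ⟨{q0.1}, by simpa using hp, fun q hq => by rw [hx.1 hq hq0]; simp⟩
  refine ⟨univ.filter (fun x : (R × K → Bool) × (R → K) => X1 p bot x.1) ∪
    (univ.filter (fun x : (R × K → Bool) × (R → K) => ∃ t, X4 p k cnf Q t x) ∪
      univ.filter (fun x : (R × K → Bool) × (R → K) => ∃ i, X3 p k bot i x)), ?_, ?_⟩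
  · have h1 := card_X1 (R := R) (K := K) p bot
      (univ.filter (fun x : (R × K → Bool) × (R → K) => X1 p bot x.1))
      (fun x hx => (mem_filter.mp hx).2)
    have h2 := card_X4 p k hk hK cnf Q
      (univ.filter (fun x : (R × K → Bool) × (R → K) => ∃ t, X4 p k cnf Q t x))
      (fun x hx => (mem_filter.mp hx).2)
    have h3 := card_X3 p k hK bot
      (univ.filter (fun x : (R × K → Bool) × (R → K) => ∃ i, X3 p k bot i x))
      (fun x hx => (mem_filter.mp hx).2)
    have hc1 : ∀ B1 B2 B3 : Finset ((R × K → Bool) × (R → K)),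
        ((B1 ∪ (B2 ∪ B3)).card : ℝ) ≤ (B1.card : ℝ) + ((B2.card : ℝ) + (B3.card : ℝ)) := by
      intro B1 B2 B3
      have e1 := card_union_le B1 (B2 ∪ B3)
      have e2 := card_union_le B2 B3
      have e3 : (B1 ∪ (B2 ∪ B3)).card ≤ B1.card + (B2.card + B3.card) := by omega
      exact_mod_cast e3
    refine (hc1 _ _ _).trans ?_
    refine (add_le_add h1 (add_le_add h2 h3)).trans (le_of_eq ?_)
    ring
  · intro u J hJB t hQ
    rw [mem_union, mem_union, mem_filter, mem_filter, mem_filter] at hJB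
    simp only [mem_univ, true_and, not_or, not_exists] at hJB
    obtain ⟨n1, n2, n3⟩ := hJB
    have hu : ∀ i, Good u p (bot i) := by
      intro i
      by_contra h
      exact n1 ⟨i, h⟩
    have hgood := hgoodS u hu t
    have hwide : ∀ G ∈ cnf t, (¬ ∃ q ∈ G.pos, q.2 = u q.1) → J ∉ Wide G u k := by
      intro G hG hno hmem
      rcases hcnf t G hG with ⟨i, rfl⟩ | hx
      · rcases hu i with h | h
        · exact hno h
        · exact n3 i ⟨h, hmem⟩
      · simp only [Wide, mem_filter, mem_univ, true_and] at hmem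
        obtain ⟨_, h2, q, hq, _⟩ := hmem
        have h3 := hx.2 ⟨q, hq⟩
        have h4 : Nb u G = ∅ := by
          unfold Nb
          rw [h3]
          simp
        rw [h4, card_empty] at h2
        omega
    by_contra hlt
    push Not at hlt
    apply n2 t
    refine ⟨hgood, ?_⟩
    simp only [Many, mem_filter, mem_univ, true_and]
    exact ⟨hQ, hwide, hlt.le⟩

/-- The measure of the atypical pairs, second version. -/
noncomputable def bad2 (s p k R K : ℕ) : ℝ :=
  (s : ℝ) / 2 ^ (p + 1) + (s * p + (4 * (R * K) + 1 + 2 * s) * (8 * k * p ^ (k + 1))) /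
    K ^ (k + 1)

theorem bad2_nonneg (s p k R K : ℕ) : 0 ≤ bad2 s p k R K := by
  unfold bad2
  positivity

/-- Typical pairs for circuits, fixed set of opened rows. -/
theorem typF {I R K : Type} [Fintype R] [Fintype K] (C : Circuit I 3)
    (X : ((R × K) × Bool → Bool) → I → Bool) (hX : IsProj X) (p k : ℕ) (hp : 1 ≤ p) (hk : 1 ≤ k)
    (hK : 0 < Fintype.card K) (Q : Finset R) :
    ∃ Bad : Finset ((R × K → Bool) × (R → K)),
      (Bad.card : ℝ) ≤ bad2 C.size p k (Fintype.card R) (Fintype.card K) *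
        dat (Fintype.card R) (Fintype.card K) ∧
      ∀ u J, (u, J) ∉ Bad → AccC C X u J Q → ∀ s : Finset R,
          (∀ e ∈ s, ∃ Q0 : Finset R, (∀ i, i ∈ Q0 ↔ i ∈ Q ∧ i ≠ e) ∧ ¬ AccC C X u J Q0) →
          s.card ≤ 8 * k ^ 2 := by
  let _ := C.fin
  obtain ⟨bot, cnf, hcnf, hval⟩ := normC C X hX
  obtain ⟨Bad, hBad, h⟩ := typical2 p k hp hk hK bot cnf hcnf Q
  refine ⟨Bad, ?_, ?_⟩
  · refine hBad.trans (le_of_eq ?_)
    have hT : (Fintype.card ((((R × K) × Bool) × Bool) ⊕ (Unit ⊕ (C.G × Bool))) : ℝ) =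
        4 * (Fintype.card R * Fintype.card K) + 1 + 2 * C.size := by
      simp only [Fintype.card_sum, Fintype.card_prod, Fintype.card_bool, Fintype.card_unit]
      unfold Circuit.size
      push_cast
      ring
    rw [hT]
    unfold bad2 dat
    congr 1
    rw [Fintype.card_prod, Fintype.card_fun, Fintype.card_fun, Fintype.card_prod,
      Fintype.card_bool]
    push_cast
    ring
  · intro u J hJ hQ s hs
    obtain ⟨t, ht⟩ := (hval _).mp hQ
    refine le_trans (card_le_card ?_) (h u J hJ t ht)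
    intro e he
    obtain ⟨Q0, h3, h4⟩ := hs e he
    simp only [Ess, mem_filter, mem_univ, true_and]
    intro hacc
    apply h4
    have : Q0 = Q.filter (fun i => i ≠ e) := by
      ext i
      rw [h3, mem_filter]
    rw [this]
    exact (hval _).mpr ⟨t, hacc⟩

end typ

end Pool.Agent.H596R2.D3R
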